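import Pool.Agent.H35.RL.RDefs
import Pool.Agent.H79.Par.GDefs

/-!
# Critical orbits ending in an expanding compact set: definitions

`ExpK v0 K`: `K` is a compact subset of the plane, invariant under the map `it v0 1 = g`, without
poles of `g`, on which the derivatives `trD v0 n = (g^n)'` grow exponentially.
`kapE`: first order distance between the moving critical orbit and the moving orbit of the
expanding set, `x 0` critical, `x m ∈ K`. `Blow`: a limit of the rescalings of `g^N` at `x ∈ K`.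
-/

set_option autoImplicit false

open Filter Topology Polynomial Metric Set

namespace Pool.Agent.H35.EX

open Pool.Agent.H44.Fatou Pool.Agent.H32.BT Pool.Agent.H79.Eul Pool.Agent.H79.Par
open Pool.Agent.H35.RL

/-- an expanding compact invariant set in the plane -/
structure ExpK {d : ℕ} (v0 : E d) (K : Set ℂ) : Prop where
  compact : IsCompact K
  den : ∀ z ∈ K, ev v0.2 z ≠ 0
  maps : ∀ z ∈ K, it v0 1 z ∈ K
  exp : ∃ c q : ℝ, 0 < c ∧ 1 < q ∧ ∀ z ∈ K, ∀ n : ℕ, c * q ^ n ≤ ‖trD v0 n z‖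

/-- the transversality functional of a critical orbit `x` with `x m` in an expanding set -/
noncomputable def kapE {d : ℕ} (v0 v : E d) (x : ℕ → ℂ) (m : ℕ) : ℂ :=
  XX v0 v m (x 0) + ∑' i : ℕ, xi v0 v (x (m + i)) / trD v0 (i + 1) (x m)

/-- along the filter `R` of sizes `t → 0` the rescaled maps `X ↦ g^N(t) (x + X / (g^N(t))'(x))` converge
to `Ψ` on `ball 0 R0`, and `t (g^N(t))'(x) → μ` -/
structure Blow {d : ℕ} (v0 : E d) (x : ℂ) (R : Filter ℝ) (N : ℝ → ℕ) (μ : ℂ) (Ψ : ℂ → ℂ)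
    (R0 ρ : ℝ) : Prop where
  hR : R ≤ 𝓝[>] 0
  hR0 : 0 < R0
  hN : Tendsto N R atTop
  hρ : ∀ᶠ t in R, t * ‖trD v0 (N t) x‖ ≤ ρ
  hμ : Tendsto (fun t : ℝ => (t : ℂ) * trD v0 (N t) x) R (𝓝 μ)
  hμ0 : μ ≠ 0
  lip : ∀ᶠ t in R, ∀ X ∈ ball (0 : ℂ) R0, ∀ Y ∈ ball (0 : ℂ) R0,
    ‖X - Y‖ / 2 ≤ ‖it v0 (N t) (x + X / trD v0 (N t) x) - it v0 (N t) (x + Y / trD v0 (N t) x)‖ ∧
    ‖it v0 (N t) (x + X / trD v0 (N t) x) - it v0 (N t) (x + Y / trD v0 (N t) x)‖ ≤ 2 * ‖X - Y‖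
  lim : ∀ X ∈ ball (0 : ℂ) R0,
    Tendsto (fun t : ℝ => it v0 (N t) (x + X / trD v0 (N t) x)) R (𝓝 (Ψ X))

open MeasureTheory in
/-- along the sequence `r` the critical points near `c` are attracted, for almost every direction in
the unit ball -/
def SeqGood1 {d : ℕ} (v0 : E d) (c : ℂ) (r : ℕ → ℝ) : Prop :=
  volume (ball (0 : E d) 1 ∩ {v : E d | ¬ ∀ᶠ w : (ℕ × E d) × ℂ in (atTop ×ˢ 𝓝 v) ×ˢ 𝓝 c,
    wv (pv v0 (w.1.2, r w.1.1)) w.2 = 0 →
      Att (Rf (pv v0 (w.1.2, r w.1.1))) (w.2 : OnePoint ℂ)}) = 0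

end Pool.Agent.H35.EX
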