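import Pool.Agent.H35.EX.Chord
import Pool.Agent.H35.EX.Defs
import Pool.Agent.H61.TT.Disj
import Pool.Agent.H79.Par.PerDec

/-!
# Module ExpConj: an expanding set in a finite chart

PROOF. `g = Rf (Lin s v0)`, `f = Rf v0`, `w0 = Lin s v0`; `K1 = {w : ℂ | ∃ x ∈ K, φ x = w}`. For `x ∈ K`: `x ≠ s`, so `φ x` is finite, and `f x ∈ K`, so
`g (φ x) = φ (f x)` is finite too; so for `w ∈ K1` all iterates `g^[n] w` are finite and in `K1`: by `orb_all` (H79/Par/PerDec)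
`g^[n] w = it w0 n w`, `ev w0.2 (it w0 n w) ≠ 0`. `compact`: `coe '' K1 = φ '' K` is compact, so closed, not containing `∞`; `K1` is the preimage under the open
embedding `coe` (`OnePoint.isOpenEmbedding_coe.isInducing.isCompact_iff` or closed and bounded). `den`, `maps`: as above.
`exp`: `N, q` from `hE`. On the bounded set `closedBall 0 R ⊇ K1` with `R` larger than the norms in `K1` plus one: `h0 ≤ hs s t ≤ h1` with
`0 < h0` (`hs_pos`, `hs_cont`, compactness). Claim: for `w ∈ K1`, `k : ℕ`, for `u` near `w` in `ℂ`: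
`q ^ k * χ w u ≤ χ (it w0 (N * k) w) (it w0 (N * k) u)` with `χ a b = ‖a - b‖ / (hs s a * hs s b)`; induction on `k`: for `u` near `w` the point
`u_k = it w0 (N k) u` is near `w_k = it w0 (N k) w ∈ K1` (continuity, `orb_deriv` or `tr_hasDerivAt`), and `hE` at the point `φ.symm w_k` of `K` for
`y = φ.symm u_k` with `chord_phi` and `iter_conj` (H32/BT/Top): `g^[N] u_k = φ (f^[N] (φ.symm u_k))`, finite and equal to `it w0 N u_k`
for `u_k` near `w_k` (`rat_it`, see PerDec). So `q ^ k * ‖w - u‖ / h1 ^ 2 ≤ ‖it w0 (N k) w - it w0 (N k) u‖ / h0 ^ 2` for `u` near `w`; divide by `‖w - u‖` and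
let `u → w` (`HasDerivAt` of `it w0 (N k)` with derivative `trD w0 (N k) w`; `hasDerivAt_iff_tendsto_slope`):
`‖trD w0 (N k) w‖ ≥ a q ^ k`, `a = (h0 / h1) ^ 2`. In particular `N = 0` is impossible unless `K1 = ∅` (choose `k` with `a q ^ k > 1`; then all is trivial),
and `trD w0 1 w ≠ 0` on `K1`, so `m0 ≤ ‖trD w0 1 w‖` on the compact set `K1` (`0 < m0 ≤ 1`). For `n = N k + r`, `r < N`:
`trD w0 n w = trD w0 r (it w0 (N k) w) * trD w0 (N k) w` (`disj_trD_add`), of norm at least `m0 ^ N * a * q ^ k ≥ c q' ^ n`, `q' = q ^ (1 / N)` (real power),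
`c = m0 ^ N * a / q`.
-/

set_option autoImplicit false

open Filter Topology Polynomial Metric Set

namespace Pool.Agent.H35.EX

open Pool.Agent.H44.Fatou Pool.Agent.H32.BT Pool.Agent.H79.Eul Pool.Agent.H79.Par

/-- growth along multiples of `N` implies growth -/
private theorem expConj_growth {d : ℕ} {w0 : E d} {K1 : Set ℂ} (hne : K1.Nonempty)
    (hK : IsCompact K1) (hden : ∀ w ∈ K1, ev w0.2 w ≠ 0)
    (hit : ∀ w ∈ K1, ∀ n, it w0 n w ∈ K1) {N : ℕ} {a q : ℝ} (ha : 0 < a) (hq : 1 < q)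
    (h : ∀ w ∈ K1, ∀ k : ℕ, a * q ^ k ≤ ‖trD w0 (N * k) w‖) :
    ∃ c q' : ℝ, 0 < c ∧ 1 < q' ∧ ∀ z ∈ K1, ∀ n : ℕ, c * q' ^ n ≤ ‖trD w0 n z‖ := by
  obtain ⟨z0, hz0⟩ := hne
  have hN : N ≠ 0 := by
    rintro rfl
    have h1 : ∀ k : ℕ, a * q ^ k ≤ 1 := by
      intro k
      have h2 := h z0 hz0 k
      rw [Nat.zero_mul] at h2
      simpa [trD] using h2
    obtain ⟨k, hk⟩ := pow_unbounded_of_one_lt (1 / a) hq
    have h3 := h1 k
    rw [div_lt_iff₀ ha] at hk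
    linarith
  -- upper bound
  have hcont : ContinuousOn (fun z => trD w0 1 z) K1 := by
    intro z hz
    have h1 := trD_cont w0 (fun j => it w0 j z) 1 (fun j hj => hden _ (hit z hz j))
      (fun j hj => rfl) 1 le_rfl
    have h2 : ContinuousAt (fun u : ℂ => (w0, u)) z :=
      continuousAt_const.prodMk continuousAt_id
    have h3 : ContinuousAt (fun u : ℂ => trD w0 1 u) z :=
      ContinuousAt.comp (f := fun u : ℂ => (w0, u))
        (g := fun y : ((Fin (d + 1) → ℂ) × (Fin (d + 1) → ℂ)) × ℂ => trD y.1 1 y.2) h1 h2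
    exact h3.continuousWithinAt
  obtain ⟨M0, hM0⟩ := hK.exists_bound_of_continuousOn hcont
  set M : ℝ := max M0 1 with hM
  have hM1 : 1 ≤ M := le_max_right _ _
  have hMb : ∀ z ∈ K1, ‖trD w0 1 z‖ ≤ M := fun z hz => (hM0 z hz).trans (le_max_left _ _)
  have hMj : ∀ (j : ℕ), ∀ z ∈ K1, ‖trD w0 j z‖ ≤ M ^ j := by
    intro j
    induction j with
    | zero =>
      intro z _
      simp [trD]
    | succ j ih =>
      intro z hz
      rw [Pool.Agent.H61.TT.disj_trD_add, norm_mul, pow_succ, mul_comm]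
      exact mul_le_mul (ih z hz) (hMb _ (hit z hz j)) (norm_nonneg _) (by positivity)
  have hN0 : 0 < N := Nat.pos_of_ne_zero hN
  refine ⟨a / M ^ N, q ^ ((N : ℝ)⁻¹), by positivity, Real.one_lt_rpow hq (by positivity), ?_⟩
  intro z hz n
  set q' : ℝ := q ^ ((N : ℝ)⁻¹) with hq'
  have hq'1 : 1 < q' := Real.one_lt_rpow hq (by positivity)
  have hq'N : q' ^ N = q := Real.rpow_inv_natCast_pow (by linarith) hN
  have h1 : n < N * (n / N + 1) := by
    have h2 := Nat.div_add_mod n N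
    have h3 := Nat.mod_lt n hN0
    rw [Nat.mul_add, Nat.mul_one]
    omega
  obtain ⟨r, hr⟩ := Nat.exists_eq_add_of_lt h1
  have hrN : r + 1 ≤ N := by
    have h2 := Nat.div_add_mod n N
    rw [Nat.mul_add, Nat.mul_one] at hr
    omega
  have h4 := h z hz (n / N + 1)
  rw [hr, show n + r + 1 = n + (r + 1) by ring, Pool.Agent.H61.TT.disj_trD_add, norm_mul] at h4
  have h5 : ‖trD w0 (r + 1) (it w0 n z)‖ ≤ M ^ N :=
    (hMj (r + 1) _ (hit z hz n)).trans (pow_le_pow_right₀ hM1 hrN)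
  have h6 : q' ^ n ≤ q ^ (n / N + 1) := by
    rw [← hq'N, ← pow_mul]
    exact pow_le_pow_right₀ hq'1.le h1.le
  have h7 : a * q' ^ n ≤ M ^ N * ‖trD w0 n z‖ := by
    calc a * q' ^ n ≤ a * q ^ (n / N + 1) := mul_le_mul_of_nonneg_left h6 ha.le
      _ ≤ ‖trD w0 (r + 1) (it w0 n z)‖ * ‖trD w0 n z‖ := h4
      _ ≤ M ^ N * ‖trD w0 n z‖ := mul_le_mul_of_nonneg_right h5 (norm_nonneg _)
  rw [div_mul_eq_mul_div, div_le_iff₀ (by positivity)]
  linarith

/-- from the local expansion of `‖a - b‖ / (hs s a * hs s b)` to the derivative -/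
private theorem expConj_lim {s : ℂ} {F : ℂ → ℂ} {D w : ℂ} {q : ℝ} (hF : HasDerivAt F D w)
    (h : ∀ᶠ u in 𝓝 w, q * (‖w - u‖ / (hs s w * hs s u)) ≤
      ‖F w - F u‖ / (hs s (F w) * hs s (F u))) :
    q * ((hs s (F w) * hs s (F w)) / (hs s w * hs s w)) ≤ ‖D‖ := by
  have h1 : Tendsto (fun u => ‖slope F w u‖) (𝓝[≠] w) (𝓝 ‖D‖) :=
    (hasDerivAt_iff_tendsto_slope.1 hF).norm
  have h2 : Tendsto (fun u => hs s u) (𝓝[≠] w) (𝓝 (hs s w)) :=
    ((hs_cont s).tendsto w).mono_left nhdsWithin_le_nhds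
  have h3 : Tendsto (fun u => hs s (F u)) (𝓝[≠] w) (𝓝 (hs s (F w))) :=
    (((hs_cont s).tendsto (F w)).comp hF.continuousAt).mono_left nhdsWithin_le_nhds
  have h4 : Tendsto (fun u => q * ((hs s (F w) * hs s (F u)) / (hs s w * hs s u))) (𝓝[≠] w)
      (𝓝 (q * ((hs s (F w) * hs s (F w)) / (hs s w * hs s w)))) := by
    refine Tendsto.const_mul q (Tendsto.div (h3.const_mul _) (h2.const_mul _) ?_)
    have := hs_pos s w
    positivity
  refine le_of_tendsto_of_tendsto h4 h1 ?_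
  have h5 : ∀ᶠ u in 𝓝[≠] w, u ≠ w := eventually_mem_nhdsWithin
  filter_upwards [h5, h.filter_mono nhdsWithin_le_nhds] with u hu hu2
  have p1 := hs_pos s w
  have p2 := hs_pos s u
  have p3 := hs_pos s (F w)
  have p4 := hs_pos s (F u)
  have p5 : 0 < ‖w - u‖ := norm_pos_iff.2 (sub_ne_zero.2 hu.symm)
  have h6 : ‖slope F w u‖ = ‖F w - F u‖ / ‖w - u‖ := by
    rw [slope_def_field, norm_div, ← norm_neg (F u - F w), ← norm_neg (u - w), neg_sub, neg_sub]
  rw [h6, le_div_iff₀ p5]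
  rw [le_div_iff₀ (by positivity)] at hu2
  calc q * (hs s (F w) * hs s (F u) / (hs s w * hs s u)) * ‖w - u‖
      = q * (‖w - u‖ / (hs s w * hs s u)) * (hs s (F w) * hs s (F u)) := by ring
    _ ≤ ‖F w - F u‖ := hu2

theorem exp_conj {d : ℕ} (hd : 2 ≤ d) {v0 : E d} {s : ℂ} {φ : OnePoint ℂ ≃ₜ OnePoint ℂ}
    (hφs : φ s = OnePoint.infty)
    (hφ : ∀ z : ℂ, z ≠ s → φ (z : OnePoint ℂ) = (((z - s)⁻¹ : ℂ) : OnePoint ℂ))
    (hφi : φ OnePoint.infty = ((0 : ℂ) : OnePoint ℂ))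
    (hconj : ∀ x, Rf (Lin s v0) (φ x) = φ (Rf v0 x))
    (hcop : IsCoprime (pol (Lin s v0).1) (pol (Lin s v0).2))
    (hdeg : max (pol (Lin s v0).1).natDegree (pol (Lin s v0).2).natDegree = d)
    {K : Set (OnePoint ℂ)} (hE : Expd (Rf v0) K) (hsK : (s : OnePoint ℂ) ∉ K) :
    ExpK (Lin s v0) {w : ℂ | ∃ x ∈ K, φ x = (w : OnePoint ℂ)} := by
  obtain ⟨hKc, hKm, N, q, hq, hex⟩ := hE
  set w0 : E d := Lin s v0 with hw0
  have hfin : ∀ x ∈ K, φ x ≠ OnePoint.infty := by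
    intro x hx h
    rw [← hφs] at h
    rw [φ.injective h] at hx
    exact hsK hx
  have hKit : ∀ (n : ℕ), ∀ x ∈ K, (Rf v0)^[n] x ∈ K := fun n x hx => hKm.iterate n hx
  have hcit : ∀ (n : ℕ) (x : OnePoint ℂ), (Rf w0)^[n] (φ x) = φ ((Rf v0)^[n] x) :=
    fun n x => iter_conj φ hconj n x
  have horb : ∀ w : ℂ, (∃ x ∈ K, φ x = (w : OnePoint ℂ)) →
      (∀ n, Orb w0 (fun j => it w0 j w) n) ∧
      ∀ j, (Rf w0)^[j] (w : OnePoint ℂ) = ((it w0 j w : ℂ) : OnePoint ℂ) := by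
    rintro w ⟨x, hx, hxw⟩
    apply orb_all
    intro j
    rw [← hxw, hcit]
    exact hfin _ (hKit j x hx)
  have hit : ∀ w : ℂ, (∃ x ∈ K, φ x = (w : OnePoint ℂ)) → ∀ n : ℕ,
      ∃ x ∈ K, φ x = ((it w0 n w : ℂ) : OnePoint ℂ) := by
    rintro w ⟨x, hx, hxw⟩ n
    refine ⟨(Rf v0)^[n] x, hKit n x hx, ?_⟩
    rw [← (horb w ⟨x, hx, hxw⟩).2 n, ← hxw, hcit]
  have hden : ∀ w : ℂ, (∃ x ∈ K, φ x = (w : OnePoint ℂ)) → ev w0.2 w ≠ 0 := by
    intro w hw
    exact ((horb w hw).1 1 0 Nat.one_pos).1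
  have hcomp : IsCompact {w : ℂ | ∃ x ∈ K, φ x = (w : OnePoint ℂ)} := by
    rw [OnePoint.isOpenEmbedding_coe.isInducing.isCompact_iff]
    have h1 : ((fun w : ℂ => (w : OnePoint ℂ)) '' {w : ℂ | ∃ x ∈ K, φ x = (w : OnePoint ℂ)})
        = φ '' K := by
      ext y
      constructor
      · rintro ⟨w, ⟨x, hx, hxw⟩, rfl⟩
        exact ⟨x, hx, hxw⟩
      · rintro ⟨x, hx, rfl⟩
        obtain ⟨w, hw⟩ := OnePoint.ne_infty_iff_exists.1 (hfin x hx)
        exact ⟨w, ⟨x, hx, hw.symm⟩, hw⟩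
    have h2 : IsCompact (φ '' K) := hKc.image φ.continuous
    rw [← h1] at h2
    exact h2
  -- one step
  have hstep : ∀ w : ℂ, (∃ x ∈ K, φ x = (w : OnePoint ℂ)) →
      ∀ᶠ u in 𝓝 w, q * (‖w - u‖ / (hs s w * hs s u)) ≤
        ‖it w0 N w - it w0 N u‖ / (hs s (it w0 N w) * hs s (it w0 N u)) := by
    intro w hw
    obtain ⟨x, hx, hxw⟩ := id hw
    have h1 : Tendsto (fun u : ℂ => φ.symm (u : OnePoint ℂ)) (𝓝 w) (𝓝 x) := by
      have h2 : φ.symm ((w : ℂ) : OnePoint ℂ) = x := by rw [← hxw, φ.symm_apply_apply]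
      rw [← h2]
      exact (φ.symm.continuous.comp OnePoint.continuous_coe).tendsto w
    have h3 : ∀ᶠ u : ℂ in 𝓝 w, ∀ j < N, ev w0.2 (it w0 j u) ≠ 0 := by
      have hc : Tendsto (fun u : ℂ => (w0, u)) (𝓝 w) (𝓝 (w0, w)) :=
        (continuous_const.prodMk continuous_id).tendsto _
      exact hc.eventually (orb_near ((horb w hw).1 N))
    filter_upwards [h1.eventually (hex x hx), h3] with u hu1 hu3
    have e1 : φ (φ.symm (u : OnePoint ℂ)) = (u : OnePoint ℂ) := φ.apply_symm_apply _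
    have e2 : φ ((Rf v0)^[N] x) = ((it w0 N w : ℂ) : OnePoint ℂ) := by
      rw [← hcit, hxw, (horb w hw).2 N]
    have e3 : φ ((Rf v0)^[N] (φ.symm (u : OnePoint ℂ))) = ((it w0 N u : ℂ) : OnePoint ℂ) := by
      rw [← hcit, e1, rat_it hu3]
    rw [chord_phi hφs hφ hφi hxw e1, chord_phi hφs hφ hφi e2 e3] at hu1
    exact hu1
  have hder : ∀ w : ℂ, (∃ x ∈ K, φ x = (w : OnePoint ℂ)) → ∀ n : ℕ,
      HasDerivAt (fun u => it w0 n u) (trD w0 n w) w := by
    intro w hw n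
    exact (orb_deriv ((horb w hw).1 n)).self_of_nhds
  have hsteps : ∀ w : ℂ, (∃ x ∈ K, φ x = (w : OnePoint ℂ)) → ∀ k : ℕ,
      ∀ᶠ u in 𝓝 w, q ^ k * (‖w - u‖ / (hs s w * hs s u)) ≤
        ‖it w0 (N * k) w - it w0 (N * k) u‖ /
          (hs s (it w0 (N * k) w) * hs s (it w0 (N * k) u)) := by
    intro w hw k
    induction k with
    | zero =>
      refine Eventually.of_forall fun u => ?_
      rw [pow_zero, one_mul]
      exact le_rfl
    | succ k ih =>
      have h1 := (hder w hw (N * k)).continuousAt.eventually (hstep _ (hit w hw (N * k)))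
      filter_upwards [ih, h1] with u hu1 hu2
      rw [Nat.mul_succ, Pool.Agent.H61.TT.disj_it_add, Pool.Agent.H61.TT.disj_it_add]
      calc q ^ (k + 1) * (‖w - u‖ / (hs s w * hs s u))
          = q * (q ^ k * (‖w - u‖ / (hs s w * hs s u))) := by ring
        _ ≤ q * (‖it w0 (N * k) w - it w0 (N * k) u‖ /
          (hs s (it w0 (N * k) w) * hs s (it w0 (N * k) u))) :=
            mul_le_mul_of_nonneg_left hu1 (by linarith)
        _ ≤ _ := hu2
  refine ⟨hcomp, fun z hz => hden z hz, fun z hz => hit z hz 1, ?_⟩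
  rcases Set.eq_empty_or_nonempty {w : ℂ | ∃ x ∈ K, φ x = (w : OnePoint ℂ)} with hem | hne
  · refine ⟨1, 2, one_pos, by norm_num, fun z hz => ?_⟩
    rw [hem] at hz
    exact absurd hz (Set.notMem_empty z)
  · obtain ⟨z1, hz1, hmin⟩ := hcomp.exists_isMinOn hne (hs_cont s).continuousOn
    obtain ⟨z2, hz2, hmax⟩ := hcomp.exists_isMaxOn hne (hs_cont s).continuousOn
    have hp1 := hs_pos s z1
    have hp2 := hs_pos s z2
    refine expConj_growth (a := (hs s z1 * hs s z1) / (hs s z2 * hs s z2)) (q := q) (N := N)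
      hne hcomp hden hit (by positivity) hq ?_
    intro w hw k
    have h1 := expConj_lim (hder w hw (N * k)) (hsteps w hw k)
    have h2 : hs s z1 ≤ hs s (it w0 (N * k) w) := hmin (hit w hw (N * k))
    have h3 : hs s w ≤ hs s z2 := hmax hw
    have hp3 := hs_pos s w
    have h4 : (hs s z1 * hs s z1) / (hs s z2 * hs s z2) ≤
        (hs s (it w0 (N * k) w) * hs s (it w0 (N * k) w)) / (hs s w * hs s w) := by
      have hp4 := hs_pos s (it w0 (N * k) w)
      apply div_le_div₀ (by positivity) (mul_le_mul h2 h2 hp1.le hp4.le) (by positivity)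
      exact mul_le_mul h3 h3 hp3.le hp2.le
    calc (hs s z1 * hs s z1) / (hs s z2 * hs s z2) * q ^ k
        = q ^ k * ((hs s z1 * hs s z1) / (hs s z2 * hs s z2)) := mul_comm _ _
      _ ≤ q ^ k * ((hs s (it w0 (N * k) w) * hs s (it w0 (N * k) w)) / (hs s w * hs s w)) :=
          mul_le_mul_of_nonneg_left h4 (by positivity)
      _ ≤ _ := h1

end Pool.Agent.H35.EX
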