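import Pool.Agent.H79.Par.GMain2
import Pool.Agent.H80.AJ.Types

/-!
# Module GoodU: charts with infinity in a given open set; a point attracted by the non repelling cycle

PROOFS. `good_U`: `coe ⁻¹' U` is open and nonempty in `ℂ` (`OnePoint.denseRange_coe`), `coe ⁻¹' S` is countable (`countable_coe`), so there is
`s ∈ coe ⁻¹' U` not in it (`Countable.dense_compl ℂ`). `chart_at` (H32/RB/Chart) for this `s`; `pol (Lin s v0).1 = cj1 s d ..` (`pol_cf`) exactly as in the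
proof of `good_chart` (H79/Par/GoodChart).
`cyc_pt`: if the cycle is a sink: `c = z` (see `cycle_point` in H79/Par/GMain2). If `FixMult f^[n] z 1`: chart `good_U` with `U = univ` and `S` the set of
periodic points (`per_all_countable`): `z ≠ s`, so `φ z` is finite, `FixMult g^[n] (φ z) 1` (`fixMult_conj`, `iter_conj`), and all iterates of `φ z` are finite
(`f^[j] z ≠ s`, since it is periodic). As in `cycle_point`: `petal_exists` gives `c1` with `Ty2 g c1 (φ z) n`. Then `c = φ.symm c1`: `Tendsto (f^[n k] c) (𝓝 z)` and `f^[n k] c ≠ z` by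
applying `φ.symm` (`iter_conj`), so `Ty2 f c z n`.
`cyc_open`: `ty1_open`, `ty2_open` (H80/AJ/Types) and `mem_nhds_iff`.
-/

set_option autoImplicit false

open Filter Topology Polynomial Metric Set

namespace Pool.Agent.H35.EX

open Pool.Agent.H44.Fatou Pool.Agent.H32.BT Pool.Agent.H79.Eul Pool.Agent.H79.Par
open Pool.Agent.H80.AJ

theorem good_U {d : ℕ} (hd : 2 ≤ d) {v0 : E d} (hcop : IsCoprime (pol v0.1) (pol v0.2))
    (hdeg : max (pol v0.1).natDegree (pol v0.2).natDegree = d) {S : Set (OnePoint ℂ)}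
    (hS : S.Countable) {U : Set (OnePoint ℂ)} (hU : IsOpen U) (hUn : U.Nonempty) :
    ∃ (s : ℂ) (φ : OnePoint ℂ ≃ₜ OnePoint ℂ), (s : OnePoint ℂ) ∉ S ∧ (s : OnePoint ℂ) ∈ U ∧
      φ s = OnePoint.infty ∧
      (∀ z : ℂ, z ≠ s → φ (z : OnePoint ℂ) = (((z - s)⁻¹ : ℂ) : OnePoint ℂ)) ∧
      φ OnePoint.infty = ((0 : ℂ) : OnePoint ℂ) ∧
      (∀ x, Rf (Lin s v0) (φ x) = φ (Rf v0 x)) ∧
      IsCoprime (pol (Lin s v0).1) (pol (Lin s v0).2) ∧
      max (pol (Lin s v0).1).natDegree (pol (Lin s v0).2).natDegree = d := by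
  have hden : DenseRange ((↑) : ℂ → OnePoint ℂ) := OnePoint.denseRange_coe
  have hne : (((↑) : ℂ → OnePoint ℂ) ⁻¹' U).Nonempty := by
    obtain ⟨y, hy⟩ := hden.exists_mem_open hU hUn
    exact ⟨y, hy⟩
  have hop : IsOpen (((↑) : ℂ → OnePoint ℂ) ⁻¹' U) := hU.preimage OnePoint.continuous_coe
  have hbad : {b : ℂ | (b : OnePoint ℂ) ∈ S}.Countable := countable_coe hS
  obtain ⟨s, hsU, hsS⟩ := (hbad.dense_compl ℂ).inter_open_nonempty _ hop hne
  obtain ⟨φ, hφs, hφ1, hφi, hcop1, hdeg1, hconj, -⟩ :=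
    Pool.Agent.H32.RB.chart_at hcop hdeg (by omega) s
  have hd1 := Pool.Agent.H32.RB.natDegree_le_of_max hdeg1
  have e1 : pol (Lin s v0).1 = cj1 s d (pol v0.1) (pol v0.2) := pol_cf hd1.1
  have e2 : pol (Lin s v0).2 = cj2 s d (pol v0.1) (pol v0.2) := pol_cf hd1.2
  refine ⟨s, φ, hsS, hsU, hφs, hφ1, hφi, ?_, ?_, ?_⟩
  · intro x
    unfold Rf
    rw [e1, e2]
    exact hconj x
  · rw [e1, e2]
    exact hcop1
  · rw [e1, e2]
    exact hdeg1

theorem cyc_pt {d : ℕ} (hd : 2 ≤ d) {v0 : E d} (hcop : IsCoprime (pol v0.1) (pol v0.2))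
    (hdeg : max (pol v0.1).natDegree (pol v0.2).natDegree = d)
    (hex : ∃ z n, NRCycle (Rf v0) z n) :
    ∃ (c z : OnePoint ℂ) (n : ℕ), Ty12 (Rf v0) c z n := by
  obtain ⟨z, n, hcyc⟩ := hex
  have hfix := hcyc.fixed
  obtain ⟨hn, h5 | h5⟩ := hcyc
  · refine ⟨z, z, n, Or.inl ⟨h5, ?_⟩⟩
    obtain ⟨-, -, U, hU, hUt⟩ := h5
    exact hUt z (mem_of_mem_nhds hU)
  · have hd2 : 2 ≤ max (pol v0.1).natDegree (pol v0.2).natDegree := by rw [hdeg]; exact hd
    obtain ⟨s, φ, hsS, -, hφs, hφ1, hφi, hconj, hcop1, hdeg1⟩ := good_U hd hcop hdeg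
      (S := {x : OnePoint ℂ | ∃ n : ℕ, 0 < n ∧ (Rf v0)^[n] x = x})
      (per_all_countable hcop hd2) isOpen_univ univ_nonempty
    have hpj : ∀ j, (Rf v0)^[j] z ≠ (s : OnePoint ℂ) := by
      intro j hj
      apply hsS
      refine ⟨n, hn, ?_⟩
      rw [← hj, ← Function.iterate_add_apply, Nat.add_comm, Function.iterate_add_apply, hfix]
    have hzs : z ≠ (s : OnePoint ℂ) := hpj 0
    have hM : FixMult (Rf (Lin s v0))^[n] (φ z) 1 :=
      fixMult_conj hφs hφ1 hφi (fun x => iter_conj φ hconj n x) hzs h5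
    have hfin : ∀ j, (Rf (Lin s v0))^[j] (φ z) ≠ OnePoint.infty := by
      intro j hj
      rw [iter_conj φ hconj, ← hφs] at hj
      exact hpj j (φ.injective hj)
    obtain ⟨w, hw⟩ := OnePoint.ne_infty_iff_exists.1 (hfin 0)
    have hw' : (w : OnePoint ℂ) = φ z := hw
    rw [← hw'] at hM hfin
    obtain ⟨ho, -⟩ := orb_all hfin
    obtain ⟨hx, hmul⟩ := fix_trD (x := fun j => it (Lin s v0) j w) (ho n) hM
    obtain ⟨c1, -, -, hc3, hc4⟩ := petal_exists hd hcop1 hdeg1 hn (ho n) hx hM hmul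
    have hc3' : Tendsto (fun k : ℕ => (Rf (Lin s v0))^[n * k] (c1 : OnePoint ℂ)) atTop
        (𝓝 (φ z)) := by
      rw [← hw']
      exact hc3
    have hc4' : ∀ k : ℕ, (Rf (Lin s v0))^[n * k] (c1 : OnePoint ℂ) ≠ φ z := by
      rw [← hw']
      exact hc4
    obtain ⟨c, hc⟩ := φ.surjective (c1 : OnePoint ℂ)
    rw [← hc] at hc3' hc4'
    refine ⟨c, z, n, Or.inr ⟨hn, h5, ?_, ?_⟩⟩
    · have h4 := (φ.symm.continuous.tendsto (φ z)).comp hc3'
      rw [φ.symm_apply_apply] at h4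
      refine h4.congr (fun k => ?_)
      simp only [Function.comp_apply]
      rw [iter_conj φ hconj, φ.symm_apply_apply]
    · intro k hk
      apply hc4' k
      rw [iter_conj φ hconj, hk]

theorem cyc_open {d : ℕ} (hd : 2 ≤ d) {v0 : E d} (hcop : IsCoprime (pol v0.1) (pol v0.2))
    (hdeg : max (pol v0.1).natDegree (pol v0.2).natDegree = d)
    (hex : ∃ z n, NRCycle (Rf v0) z n) :
    ∃ (c z : OnePoint ℂ) (n : ℕ) (U : Set (OnePoint ℂ)), Ty12 (Rf v0) c z n ∧ IsOpen U ∧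
      U.Nonempty ∧ ∀ x ∈ U, CL (Rf v0) x z n := by
  obtain ⟨c, z, n, h⟩ := cyc_pt hd hcop hdeg hex
  have hev : ∀ᶠ x in 𝓝 c, CL (Rf v0) x z n := by
    rcases h with h1 | h1
    · exact ty1_open (rat_continuous hcop) h1
    · exact ty2_open hcop (by rw [hdeg]; omega) h1
  obtain ⟨U, hUs, hUo, hcU⟩ := mem_nhds_iff.1 hev
  exact ⟨c, z, n, U, h, hUo, ⟨c, hcU⟩, fun x hx => hUs hx⟩

end Pool.Agent.H35.EX
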