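import Pool.Agent.H35.EX.SerA

/-!
# Module SerC: decay and integrability

PROOFS. `qs_decay`: for `2 R + 1 ≤ ‖x‖`, `‖p‖ ≤ R`: `x ≠ 0`, `x ≠ p`, `‖x - p‖ ≥ ‖x‖ / 2`, and
`1 / (x - p) = 1 / x + p / x ^ 2 + p ^ 2 / (x ^ 2 * (x - p))` (`field_simp; ring`), the last term has norm at most
`2 R ^ 2 / ‖x‖ ^ 3`. Multiply by `β k` and sum (all series converge absolutely: `Summable.of_norm_bounded`): the
first two sums vanish by `h0`, `h1`, so `C = 2 R ^ 2 * ∑' ‖β k‖` (`tsum_of_norm_bounded` or `norm_tsum_le_tsum_norm`).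
`qs_fin`: split at `ball 0 (2 R + 1)`: `qs_ball`, and outside `qs_decay` with `out_bound` (`lintegral_add_compl`,
`setLIntegral_mono`, `lintegral_const_mul`).
-/

set_option autoImplicit false

open MeasureTheory Metric Set

namespace Pool.Agent.H35.EX

variable {β p : ℕ → ℂ} {R : ℝ}

theorem qs_decay (hR : 0 ≤ R) (hp : ∀ k, ‖p k‖ ≤ R) (hβ : Summable fun k => ‖β k‖)
    (h0 : ∑' k, β k = 0) (h1 : ∑' k, β k * p k = 0) :
    ∃ C : ℝ, 0 ≤ C ∧ ∀ x : ℂ, 2 * R + 1 ≤ ‖x‖ → ‖qs β p x‖ ≤ C / ‖x‖ ^ 3 := by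
  have hS0 : 0 ≤ ∑' k, ‖β k‖ := tsum_nonneg (fun k => norm_nonneg _)
  refine ⟨2 * R ^ 2 * ∑' k, ‖β k‖, by positivity, ?_⟩
  intro x hx
  have hxpos : 0 < ‖x‖ := by linarith
  have hx0 : x ≠ 0 := norm_pos_iff.1 hxpos
  have hxp : ∀ k, ‖x‖ / 2 ≤ ‖x - p k‖ := by
    intro k
    have h2 := norm_sub_norm_le x (p k)
    have h3 := hp k
    linarith
  have hxp0 : ∀ k, x - p k ≠ 0 := by
    intro k hk
    have := hxp k
    rw [hk, norm_zero] at this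
    linarith
  have hβs : Summable β := hβ.of_norm
  have hβp : Summable (fun k => β k * p k) := by
    apply Summable.of_norm_bounded (g := fun k => ‖β k‖ * R) (hβ.mul_right R)
    intro k
    rw [norm_mul]
    exact mul_le_mul_of_nonneg_left (hp k) (norm_nonneg _)
  have hdec : ∀ k, β k / (x - p k) = β k * x⁻¹ + β k * p k * (x ^ 2)⁻¹
      + β k * (p k ^ 2 / (x ^ 2 * (x - p k))) := by
    intro k
    have := hxp0 k
    field_simp
    ring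
  have hterm : ∀ k, ‖β k * (p k ^ 2 / (x ^ 2 * (x - p k)))‖ ≤ ‖β k‖ * (2 * R ^ 2 / ‖x‖ ^ 3) := by
    intro k
    rw [norm_mul]
    apply mul_le_mul_of_nonneg_left _ (norm_nonneg _)
    rw [norm_div, norm_mul, norm_pow, norm_pow]
    have e1 : ‖p k‖ ^ 2 ≤ R ^ 2 := pow_le_pow_left₀ (norm_nonneg _) (hp k) 2
    have e2 : ‖x‖ ^ 2 * (‖x‖ / 2) ≤ ‖x‖ ^ 2 * ‖x - p k‖ :=
      mul_le_mul_of_nonneg_left (hxp k) (by positivity)
    calc ‖p k‖ ^ 2 / (‖x‖ ^ 2 * ‖x - p k‖) ≤ R ^ 2 / (‖x‖ ^ 2 * (‖x‖ / 2)) := by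
          apply div_le_div₀ (by positivity) e1 (by positivity) e2
      _ = 2 * R ^ 2 / ‖x‖ ^ 3 := by
          field_simp
  have hsumb : Summable (fun k => ‖β k‖ * (2 * R ^ 2 / ‖x‖ ^ 3)) := hβ.mul_right _
  have hs3 : Summable (fun k => β k * (p k ^ 2 / (x ^ 2 * (x - p k)))) :=
    Summable.of_norm_bounded hsumb hterm
  have heq : qs β p x = ∑' k, β k * (p k ^ 2 / (x ^ 2 * (x - p k))) := by
    unfold qs
    rw [tsum_congr hdec]
    rw [Summable.tsum_add ((hβs.mul_right _).add (hβp.mul_right _)) hs3,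
      Summable.tsum_add (hβs.mul_right _) (hβp.mul_right _), tsum_mul_right, tsum_mul_right, h0, h1]
    ring
  rw [heq]
  have h5 : ‖∑' k, β k * (p k ^ 2 / (x ^ 2 * (x - p k)))‖ ≤ ∑' k, ‖β k‖ * (2 * R ^ 2 / ‖x‖ ^ 3) :=
    tsum_of_norm_bounded hsumb.hasSum hterm
  refine h5.trans (le_of_eq ?_)
  rw [tsum_mul_right]
  ring

theorem qs_fin (hR : 0 ≤ R) (hp : ∀ k, ‖p k‖ ≤ R) (hβ : Summable fun k => ‖β k‖)
    (h0 : ∑' k, β k = 0) (h1 : ∑' k, β k * p k = 0) : ∫⁻ x, ‖qs β p x‖ₑ ≠ ⊤ := by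
  obtain ⟨C, hC, hdecay⟩ := qs_decay hR hp hβ h0 h1
  have hball := qs_ball (p := p) hβ 0 (2 * R + 1)
  have hR1 : (1:ℝ) ≤ 2 * R + 1 := by linarith
  have hout := out_bound hR1
  rw [← lintegral_add_compl (fun x => ‖qs β p x‖ₑ) (measurableSet_ball (x := (0:ℂ)) (ε := 2 * R + 1))]
  apply ENNReal.add_ne_top.2
  refine ⟨hball, ?_⟩
  have hcompl : (ball (0:ℂ) (2 * R + 1))ᶜ = {x : ℂ | 2 * R + 1 ≤ ‖x‖} := by
    ext x
    simp [not_lt]
  rw [hcompl]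
  have hmeas : MeasurableSet {x : ℂ | 2 * R + 1 ≤ ‖x‖} :=
    (isClosed_le continuous_const continuous_norm).measurableSet
  have hle : ∫⁻ x in {x : ℂ | 2 * R + 1 ≤ ‖x‖}, ‖qs β p x‖ₑ
      ≤ ∫⁻ x in {x : ℂ | 2 * R + 1 ≤ ‖x‖}, ENNReal.ofReal C * ENNReal.ofReal (1 / ‖x‖ ^ 3) := by
    apply setLIntegral_mono' hmeas
    intro x hx
    rw [← ofReal_norm_eq_enorm, ← ENNReal.ofReal_mul hC]
    apply ENNReal.ofReal_le_ofReal
    rw [mul_one_div]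
    exact hdecay x hx
  apply ne_top_of_le_ne_top _ hle
  rw [lintegral_const_mul' _ _ ENNReal.ofReal_ne_top]
  exact ENNReal.mul_ne_top ENNReal.ofReal_ne_top hout

end Pool.Agent.H35.EX
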