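import Pool.Agent.H61.TT.Area

/-!
# Module SerI: the area of an invariant integrable quadratic differential is an invariant measure

PROOF. For measurable `T`: `∫⁻ x in T, ‖q x‖ₑ ≤ ∫⁻ x in T, ∑ y ∈ fs a b x, ‖q y‖ₑ / ofReal (‖dg a b y‖ ^ 2)` (`hpush`,
triangle inequality `enorm_sum_le`; `‖q y / dg y ^ 2‖ₑ = ‖q y‖ₑ / ofReal (‖dg y‖ ^ 2)` if `dg y ≠ 0`; for `x` outside the
finite set of non regular values all `dg a b y ≠ 0`, `RegV.hw`, `dg_ne`). By `area` with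
`F y = ‖q y‖ₑ / ofReal (‖dg a b y‖ ^ 2)` (measurable) the right side is `∫⁻ y in pre a b T, F y * ofReal (‖dg a b y‖ ^ 2)
≤ ∫⁻ y in pre a b T, ‖q y‖ₑ` (`ENNReal.div_mul_cancel`, or `≤` always: `ENNReal.div_mul_le`...). So
`m T ≤ m (pre T)` with `m T = ∫⁻ x in T, ‖q x‖ₑ`. The same for `Tᶜ`. `pre a b T` and `pre a b Tᶜ` are disjoint and measurable
(`measurableSet_pre`), so `m (pre T) + m (pre Tᶜ) ≤ m univ = m T + m Tᶜ < ∞` (`lintegral_add_compl`,
`lintegral_union`, `lintegral_mono_set`). Hence `m (pre T) ≤ m T` (cancel finite terms: `m (pre T) + m Tᶜ ≤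
m (pre T) + m (pre Tᶜ) ≤ m T + m Tᶜ`, `ENNReal.add_le_add_iff_right`).
-/

set_option autoImplicit false

open MeasureTheory Metric Set Polynomial

namespace Pool.Agent.H35.EX

open Pool.Agent.H61.TT

variable {d : ℕ} {a b : Polynomial ℂ}

theorem inv_mass (h : RatD d a b) {q : ℂ → ℂ} (hq : Measurable q) (hfin : ∫⁻ x, ‖q x‖ₑ ≠ ⊤)
    (hpush : ∀ᵐ x : ℂ, q x = ∑ y ∈ fs a b x, q y / dg a b y ^ 2) {T : Set ℂ}
    (hT : MeasurableSet T) : ∫⁻ x in pre a b T, ‖q x‖ₑ = ∫⁻ x in T, ‖q x‖ₑ := by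
  have key : ∀ S : Set ℂ, MeasurableSet S → ∫⁻ x in S, ‖q x‖ₑ ≤ ∫⁻ x in pre a b S, ‖q x‖ₑ := by
    intro S hS
    obtain ⟨F, hF⟩ : ∃ F : ℂ → ENNReal, ∀ y, F y = ‖q y‖ₑ / ENNReal.ofReal (‖dg a b y‖ ^ 2) :=
      ⟨_, fun _ => rfl⟩
    have hFm : Measurable F := by
      have : F = fun y => ‖q y‖ₑ / ENNReal.ofReal (‖dg a b y‖ ^ 2) := funext hF
      rw [this]
      exact hq.enorm.div (ENNReal.measurable_ofReal.comp ((measurable_dg.norm).pow_const 2))
    have hle : ∀ y, ‖q y / dg a b y ^ 2‖ₑ ≤ F y := by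
      intro y
      by_cases h0 : dg a b y = 0
      · rw [h0]
        simp
      · rw [hF]
        have hpos : 0 < ‖dg a b y‖ ^ 2 := by positivity
        rw [← ofReal_norm_eq_enorm, norm_div, norm_pow, ENNReal.ofReal_div_of_pos hpos,
          ofReal_norm_eq_enorm]
    calc ∫⁻ x in S, ‖q x‖ₑ ≤ ∫⁻ x in S, ∑ y ∈ fs a b x, F y := by
          apply lintegral_mono_ae
          apply ae_restrict_of_ae
          filter_upwards [hpush] with x hx
          rw [hx]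
          refine (enorm_sum_le _ _).trans ?_
          exact Finset.sum_le_sum (fun y _ => hle y)
      _ = ∫⁻ y in pre a b S, F y * ENNReal.ofReal (‖dg a b y‖ ^ 2) := area h hS hFm
      _ ≤ ∫⁻ x in pre a b S, ‖q x‖ₑ := by
          apply lintegral_mono
          intro y
          dsimp only
          rw [hF, mul_comm]
          exact ENNReal.mul_div_le
  apply le_antisymm _ (key T hT)
  have h1 := key Tᶜ hT.compl
  have hdis : Disjoint (pre a b T) (pre a b Tᶜ) := by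
    rw [Set.disjoint_left]
    rintro x ⟨_, hx⟩ ⟨_, hx'⟩
    exact hx' hx
  have h2 : (∫⁻ x in pre a b T, ‖q x‖ₑ) + (∫⁻ x in pre a b Tᶜ, ‖q x‖ₑ) ≤ ∫⁻ x, ‖q x‖ₑ := by
    rw [← lintegral_union (measurableSet_pre hT.compl) hdis]
    exact setLIntegral_le_lintegral _ _
  have h3 := lintegral_add_compl (μ := volume) (fun x => ‖q x‖ₑ) hT
  have hfT : ∫⁻ x in Tᶜ, ‖q x‖ₑ ≠ ⊤ := ne_top_of_le_ne_top hfin (setLIntegral_le_lintegral _ _)
  apply (ENNReal.add_le_add_iff_right hfT).1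
  rw [h3]
  exact (add_le_add_right h1 _).trans h2

end Pool.Agent.H35.EX
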