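import Mathlib

/-!
# Module KerB: integrals of `1 / |x - p|` and of `1 / |x| ^ 3` in the plane

PROOFS. `ker_one`: `∫⁻ x in ball 0 1, ‖x‖⁻¹ < ∞` in the plane, for example by polar coordinates
(`Complex.lintegral_comp_polarCoord_symm`: the integrand is `ρ * ρ⁻¹ = 1`), or from the layer decomposition: on
`2^(-n-1) ≤ ‖x‖ < 2^(-n)` the integrand is at most `2^(n+1)` and the area at most `π 4^(-n)`
(`Complex.volume_ball`), a convergent geometric series. `ker_bound`: with the translation `x ↦ x - p`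
(`lintegral_sub_right_eq_self` or `measurePreserving`): on `ball s r ∩ ball p 1` use `ker_one`, outside `ball p 1` the integrand
is at most `1`; so `C = ∫⁻ x in ball 0 1, ‖x‖⁻¹ + volume (ball s r)`. `out_bound`: on `{1 ≤ R ≤ ‖x‖}`
`1 / ‖x‖ ^ 3 ≤ 8 * (1 + ‖x‖) ^ (-3)`, and `integrable_one_add_norm` (finrank ℝ ℂ = 2 < 3); compare
`cut_fin` in Pool/Agent/H61/TT/CutFin.lean.
-/

set_option autoImplicit false

open MeasureTheory Metric Set

namespace Pool.Agent.H35.EX

theorem ker_one : ∫⁻ x in ball (0 : ℂ) 1, ENNReal.ofReal (‖x‖⁻¹) ≠ ⊤ := by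
  rw [← lintegral_indicator measurableSet_ball, ← Complex.lintegral_comp_polarCoord_symm]
  have h1 : (∫⁻ q in polarCoord.target, ENNReal.ofReal q.1 •
      (ball (0 : ℂ) 1).indicator (fun x => ENNReal.ofReal (‖x‖⁻¹)) (Complex.polarCoord.symm q)) ≤
      ∫⁻ q in polarCoord.target, (Iio (1 : ℝ) ×ˢ (univ : Set ℝ)).indicator 1 q := by
    refine setLIntegral_mono' polarCoord.open_target.measurableSet fun q hq => ?_
    have hq1 : 0 < q.1 := hq.1
    by_cases h : q.1 < 1
    · have hm : q ∈ Iio (1 : ℝ) ×ˢ (univ : Set ℝ) := ⟨h, mem_univ _⟩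
      have hb : Complex.polarCoord.symm q ∈ ball (0 : ℂ) 1 := by
        rw [mem_ball_zero_iff, Complex.norm_polarCoord_symm, abs_of_pos hq1]
        exact h
      rw [indicator_of_mem hm, indicator_of_mem hb, Complex.norm_polarCoord_symm, abs_of_pos hq1,
        smul_eq_mul, ← ENNReal.ofReal_mul hq1.le, mul_inv_cancel₀ hq1.ne', ENNReal.ofReal_one]
      exact le_refl _
    · have hb : Complex.polarCoord.symm q ∉ ball (0 : ℂ) 1 := by
        rw [mem_ball_zero_iff, Complex.norm_polarCoord_symm, abs_of_pos hq1]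
        exact h
      rw [indicator_of_notMem hb, smul_zero]
      exact bot_le
  have hms : MeasurableSet (Iio (1 : ℝ) ×ˢ (univ : Set ℝ)) := measurableSet_Iio.prod MeasurableSet.univ
  rw [lintegral_indicator_one hms, Measure.restrict_apply hms] at h1
  refine ne_top_of_le_ne_top ?_ (h1.trans (measure_mono (t := Ioo (0 : ℝ) 1 ×ˢ Ioo (-Real.pi) Real.pi) ?_))
  · rw [Measure.volume_eq_prod, Measure.prod_prod]
    exact ENNReal.mul_ne_top (by simp) (by simp)
  · rintro q ⟨h2, h3⟩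
    exact ⟨⟨h3.1, h2.1⟩, h3.2⟩

theorem ker_bound (s : ℂ) (r : ℝ) : ∃ C : ENNReal, C ≠ ⊤ ∧
    ∀ p : ℂ, ∫⁻ x in ball s r, ENNReal.ofReal (‖x - p‖⁻¹) ≤ C := by
  refine ⟨(∫⁻ x in ball (0 : ℂ) 1, ENNReal.ofReal (‖x‖⁻¹)) + volume (ball s r),
    ENNReal.add_ne_top.2 ⟨ker_one, measure_ball_lt_top.ne⟩, fun p => ?_⟩
  have hmeas : Measurable (fun x : ℂ => (ball (0 : ℂ) 1).indicator
      (fun x => ENNReal.ofReal (‖x‖⁻¹)) x) := by
    refine Measurable.indicator ?_ measurableSet_ball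
    exact ENNReal.measurable_ofReal.comp (measurable_norm.inv)
  have h1 : ∀ x : ℂ, ENNReal.ofReal (‖x - p‖⁻¹) ≤
      (ball (0 : ℂ) 1).indicator (fun x => ENNReal.ofReal (‖x‖⁻¹)) (x - p) + 1 := by
    intro x
    by_cases h : x - p ∈ ball (0 : ℂ) 1
    · rw [indicator_of_mem h]
      exact le_self_add
    · rw [indicator_of_notMem h, zero_add]
      rw [mem_ball_zero_iff, not_lt] at h
      rw [ENNReal.ofReal_le_one]
      exact inv_le_one_of_one_le₀ h
  calc ∫⁻ x in ball s r, ENNReal.ofReal (‖x - p‖⁻¹)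
      ≤ ∫⁻ x in ball s r, ((ball (0 : ℂ) 1).indicator
          (fun x => ENNReal.ofReal (‖x‖⁻¹)) (x - p) + 1) := lintegral_mono fun x => h1 x
    _ = (∫⁻ x in ball s r, (ball (0 : ℂ) 1).indicator
          (fun x => ENNReal.ofReal (‖x‖⁻¹)) (x - p)) + ∫⁻ x in ball s r, 1 :=
        lintegral_add_right _ measurable_const
    _ ≤ (∫⁻ x, (ball (0 : ℂ) 1).indicator
          (fun x => ENNReal.ofReal (‖x‖⁻¹)) (x - p)) + volume (ball s r) := by
        refine add_le_add (setLIntegral_le_lintegral _ _) ?_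
        rw [setLIntegral_one]
    _ = _ := by
        congr 1
        rw [lintegral_sub_right_eq_self
          (fun x => (ball (0 : ℂ) 1).indicator (fun x => ENNReal.ofReal (‖x‖⁻¹)) x) p,
          lintegral_indicator measurableSet_ball]

theorem out_bound {R : ℝ} (hR : 1 ≤ R) :
    ∫⁻ x in {x : ℂ | R ≤ ‖x‖}, ENNReal.ofReal (1 / ‖x‖ ^ 3) ≠ ⊤ := by
  have hint : Integrable (fun x : ℂ => (1 + ‖x‖) ^ (-(3 : ℝ))) :=
    integrable_one_add_norm (by rw [Complex.finrank_real_complex]; norm_num)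
  have hfin := (hint.const_mul 8).lintegral_lt_top
  refine ne_top_of_le_ne_top hfin.ne ?_
  have hms : MeasurableSet {x : ℂ | R ≤ ‖x‖} := measurableSet_le measurable_const measurable_norm
  refine (setLIntegral_mono' hms fun x hx => ?_).trans (setLIntegral_le_lintegral _ _)
  refine ENNReal.ofReal_le_ofReal ?_
  have hx1 : 1 ≤ ‖x‖ := hR.trans hx
  have hx0 : 0 < ‖x‖ := by linarith
  rw [Real.rpow_neg (by positivity)]
  have h3 : (1 + ‖x‖) ^ (3 : ℝ) = (1 + ‖x‖) ^ 3 := by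
    rw [← Real.rpow_natCast]
    norm_num
  rw [h3, ← div_eq_mul_inv, div_le_div_iff₀ (by positivity) (by positivity), one_mul]
  calc (1 + ‖x‖) ^ 3 ≤ (2 * ‖x‖) ^ 3 := pow_le_pow_left₀ (by positivity) (by linarith) 3
    _ = 8 * ‖x‖ ^ 3 := by ring

end Pool.Agent.H35.EX
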