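import Pool.Agent.H35.EX.SerD
import Pool.Agent.H35.EX.KerB

/-!
# Module SerA: the series of simple poles converges almost everywhere, locally integrable

PROOFS. `qs_fub`: `lintegral_tsum` (each term measurable): the left side is `∑' ∫⁻ ≤ ∑' ENNReal.ofReal ‖β k‖ * C`,
finite. `ae_sum`: on each `ball 0 n` the sum `∑' ENNReal.ofReal ‖β k / (x - p k)‖` is finite almost everywhere
(`ae_lt_top'` or `ae_lt_top`), countable union; summability of the norms from finiteness of the `ENNReal` sum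
(`ENNReal.tsum_coe_ne_top_iff_summable`, `summable_norm_iff`).
`qs_ball`: `‖∑' f‖ₑ ≤ ∑' ‖f‖ₑ` (if not summable the left side is `0`; otherwise
`norm_tsum_le_tsum_norm`, or `enorm_tsum_le_tsum_enorm`), and `qs_fub`.
-/

set_option autoImplicit false

open MeasureTheory Metric Set

namespace Pool.Agent.H35.EX

variable {β p : ℕ → ℂ}

private theorem qs_meas1 (β p : ℕ → ℂ) (k : ℕ) : Measurable fun x : ℂ => ‖β k / (x - p k)‖ₑ :=
  (measurable_const.div (measurable_id.sub_const (p k))).enorm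

theorem qs_fub (hβ : Summable fun k => ‖β k‖) (s : ℂ) (r : ℝ) :
    ∫⁻ x in ball s r, ∑' k, ‖β k / (x - p k)‖ₑ ≠ ⊤ := by
  obtain ⟨C, hC, hker⟩ := ker_bound s r
  rw [lintegral_tsum fun k => (qs_meas1 β p k).aemeasurable]
  have h1 : ∀ k, ∫⁻ x in ball s r, ‖β k / (x - p k)‖ₑ ≤ ENNReal.ofReal ‖β k‖ * C := by
    intro k
    have h2 : ∀ x : ℂ, ‖β k / (x - p k)‖ₑ = ENNReal.ofReal ‖β k‖ * ENNReal.ofReal (‖x - p k‖⁻¹) := by
      intro x
      rw [← ofReal_norm, norm_div, div_eq_mul_inv, ENNReal.ofReal_mul (norm_nonneg _)]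
    simp_rw [h2]
    rw [lintegral_const_mul' _ _ ENNReal.ofReal_ne_top]
    exact mul_le_mul_right (hker (p k)) _
  refine ne_top_of_le_ne_top ?_ (ENNReal.tsum_le_tsum h1)
  rw [ENNReal.tsum_mul_right]
  refine ENNReal.mul_ne_top ?_ hC
  rw [← ENNReal.ofReal_tsum_of_nonneg (fun k => norm_nonneg _) hβ]
  exact ENNReal.ofReal_ne_top

theorem ae_sum (hβ : Summable fun k => ‖β k‖) :
    ∀ᵐ x : ℂ, Summable (fun k => β k / (x - p k)) := by
  have h1 : ∀ n : ℕ, ∀ᵐ x : ℂ, x ∈ ball (0 : ℂ) n → Summable (fun k => β k / (x - p k)) := by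
    intro n
    have h2 : ∀ᵐ x ∂(volume.restrict (ball (0 : ℂ) n)), ∑' k, ‖β k / (x - p k)‖ₑ < ⊤ :=
      ae_lt_top (Measurable.tsum fun k => qs_meas1 β p k) (qs_fub hβ 0 n)
    rw [ae_restrict_iff' measurableSet_ball] at h2
    filter_upwards [h2] with x hx hxn
    have h3 := hx hxn
    have h4 : Summable fun k => ‖β k / (x - p k)‖₊ := by
      rw [← ENNReal.tsum_coe_ne_top_iff_summable]
      exact h3.ne
    have h5 : Summable fun k => ‖β k / (x - p k)‖ := by
      rw [← NNReal.summable_coe] at h4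
      exact h4
    exact h5.of_norm
  have h6 := ae_all_iff.2 h1
  filter_upwards [h6] with x hx
  obtain ⟨n, hn⟩ := exists_nat_gt ‖x‖
  exact hx n (by rw [mem_ball_zero_iff]; exact hn)

theorem qs_meas (β p : ℕ → ℂ) : Measurable (qs β p) :=
  Measurable.tsum fun k => measurable_const.div (measurable_id.sub_const (p k))

theorem qs_ball (hβ : Summable fun k => ‖β k‖) (s : ℂ) (r : ℝ) :
    ∫⁻ x in ball s r, ‖qs β p x‖ₑ ≠ ⊤ := by
  refine ne_top_of_le_ne_top (qs_fub (p := p) hβ s r) (lintegral_mono fun x => ?_)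
  exact enorm_tsum_le_tsum_enorm

end Pool.Agent.H35.EX
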