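import Pool.Agent.H35.EX.SerB
import Pool.Agent.H35.EX.SerA
import Pool.Agent.H61.TT.Lagr
import Pool.Agent.H61.TT.Area

/-!
# Module SerP: the quadratic differential is invariant under push forward

PROOFS. `ae_fib`: let `N' ⊇ N` be measurable and null (`toMeasurable`), `F = N'.indicator (fun _ => ⊤)`. By `area`
(H61/TT/Area) with `T = univ` `∫⁻ x, ∑ y ∈ fs a b x, F y = ∫⁻ y in pre a b univ, F y * ofReal _ = 0` (the
integrand vanishes outside the null set `N'`). The function `x ↦ ∑ y ∈ fs a b x, F y` is almost everywhere measurable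
(`fs_sum_aem` in H61/TT/Equal.lean is private: copy its proof), `lintegral_eq_zero_iff'`, and the sum vanishes only if no
`y ∈ fs a b x` is in `N'`.
`qs_push`: let `N = {x | ¬ Summable (fun k => sbe k / (x - p k))}` (null by `ae_sum`). For almost every `x`: `RegV d a b x`
(`reg_finite`), `x ∉ N`, `x ≠ p k` for all `k` (countable set), `y ∉ N` for `y ∈ fs a b x` (`ae_fib`). `lagr` gives `η`. For each
`k` take `z = p k` (`b.eval (p k) ≠ 0`, `gg a b (p k) = p (k+1) ≠ x`) and multiply by `B k`:
`∑ y ∈ fs, (sbe k / (y - p k)) / dg y ^ 2 = B k / (x - p (k+1)) + B k * (η.eval (p k) / b.eval (p k) ^ 2)`.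
Sum over `k`: left side: `Summable.tsum_finsetSum` (each `y` summable since `y ∉ N`), `tsum_div_const`: it is
`∑ y ∈ fs, qs y / dg y ^ 2`. Right side: `B k / (x - p (k+1)) = sbe (k+1) / (x - p (k+1))` (`ser_succ`) is summable (shift of a summable
series), its sum is `qs x - sbe 0 / (x - p 0) = qs x` (`ser_zero`), and the second sum is `0` (`van`; summable by
`eta_sum`).
-/

set_option autoImplicit false

open MeasureTheory Metric Set Polynomial

namespace Pool.Agent.H35.EX

open Pool.Agent.H61.TT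

variable {d : ℕ} {a b : Polynomial ℂ} {p B : ℕ → ℂ}

theorem fs_aem (h : RatD d a b) {F : ℂ → ENNReal} (hF : Measurable F) :
    AEMeasurable (fun x : ℂ => ∑ y ∈ fs a b x, F y) volume := by
  classical
  obtain ⟨A, hAm, hAd, hAi, hAc⟩ := inj_cover h
  have hm : ∀ k, Measurable (fun x => ∑ y ∈ fs a b x, (A k).indicator F y) := by
    intro k
    refine (area_piece h (hAm k) MeasurableSet.univ (hAi k) ?_ hF).1
    rw [← hAc]
    exact subset_iUnion A k
  refine ⟨fun x => ∑' k, ∑ y ∈ fs a b x, (A k).indicator F y,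
    Measurable.ennreal_tsum hm, ?_⟩
  have hfin : ∀ᵐ x : ℂ, RegV d a b x := by
    rw [ae_iff]
    exact (reg_finite h).measure_zero _
  filter_upwards [hfin] with x hx
  rw [Summable.tsum_finsetSum (fun _ _ => ENNReal.summable)]
  apply Finset.sum_congr rfl
  intro y hy
  have hy1 : y ∈ ⋃ k, A k := by
    rw [hAc]
    exact ⟨hx.hb y hy, hx.hw y hy⟩
  obtain ⟨k, hk⟩ := mem_iUnion.1 hy1
  rw [tsum_eq_single k]
  · rw [indicator_of_mem hk]
  · intro j hj
    rw [indicator_of_notMem]
    intro hyj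
    exact (Set.disjoint_left.1 (hAd hj)) hyj hk

theorem ae_fib (h : RatD d a b) {N : Set ℂ} (hN : volume N = 0) :
    ∀ᵐ x : ℂ, ∀ y ∈ fs a b x, y ∉ N := by
  have hN' : volume (toMeasurable volume N) = 0 := by rw [measure_toMeasurable, hN]
  have hF : Measurable ((toMeasurable volume N).indicator (fun _ : ℂ => (1 : ENNReal))) :=
    measurable_const.indicator (measurableSet_toMeasurable _ _)
  have h1 := area h MeasurableSet.univ hF
  have h2 : ∫⁻ y in pre a b univ, (toMeasurable volume N).indicator (fun _ : ℂ => (1 : ENNReal)) y *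
      ENNReal.ofReal (‖dg a b y‖ ^ 2) = 0 := by
    rw [← lintegral_zero (μ := volume.restrict (pre a b univ))]
    apply lintegral_congr_ae
    apply ae_restrict_of_ae
    have h3 : ∀ᵐ y : ℂ, y ∉ toMeasurable volume N := measure_eq_zero_iff_ae_notMem.1 hN'
    filter_upwards [h3] with y hy
    rw [indicator_of_notMem hy, zero_mul]
  rw [h2, Measure.restrict_univ, lintegral_eq_zero_iff' (fs_aem h hF)] at h1
  filter_upwards [h1] with x hx y hy hyN
  have h4 := (Finset.sum_eq_zero_iff.1 hx) y hy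
  rw [indicator_of_mem (subset_toMeasurable volume N hyN)] at h4
  exact one_ne_zero h4

theorem qs_push (h : RatD d a b) (hs : Ser d a b p B) :
    ∀ᵐ x : ℂ, qs (sbe a b p B) p x = ∑ y ∈ fs a b x, qs (sbe a b p B) p y / dg a b y ^ 2 := by
  have hsum := ae_sum (p := p) (ser_sum hs)
  have hN : volume {x : ℂ | ¬ Summable (fun k => sbe a b p B k / (x - p k))} = 0 := hsum
  have hreg : ∀ᵐ x : ℂ, RegV d a b x := by
    rw [ae_iff]
    exact (reg_finite h).measure_zero _
  have hpk : ∀ᵐ x : ℂ, ∀ k, x ≠ p k := by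
    rw [ae_all_iff]
    intro k
    exact Measure.ae_ne volume (p k)
  filter_upwards [hsum, hreg, hpk, ae_fib h hN] with x hx hxr hxp hxf
  obtain ⟨η, hηd, hη⟩ := lagr h hxr
  obtain ⟨δ, hδ, hbb⟩ := hs.bb
  have hb0 : ∀ k, b.eval (p k) ≠ 0 := by
    intro k hk
    have := hbb k
    rw [hk, norm_zero] at this
    linarith
  have hk : ∀ k, ∑ y ∈ fs a b x, (sbe a b p B k / (y - p k)) / dg a b y ^ 2 =
      sbe a b p B (k + 1) / (x - p (k + 1)) + B k * (η.eval (p k) / b.eval (p k) ^ 2) := by
    intro k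
    have h1 := hη (p k) (hb0 k) (by rw [hs.orb k]; exact (hxp (k + 1)).symm)
    rw [hs.orb k] at h1
    have h2 : ∑ y ∈ fs a b x, (sbe a b p B k / (y - p k)) / dg a b y ^ 2 =
        B k * ∑ y ∈ fs a b x, dg a b (p k) / ((y - p k) * dg a b y ^ 2) := by
      rw [Finset.mul_sum]
      apply Finset.sum_congr rfl
      intro y _
      unfold sbe
      rw [div_div, mul_div_assoc]
    rw [h2, h1, ser_succ hs k]
    ring
  have hyS : ∀ y ∈ fs a b x, Summable (fun k => sbe a b p B k / (y - p k) / dg a b y ^ 2) := by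
    intro y hy
    have := hxf y hy
    simp only [mem_setOf_eq, not_not] at this
    exact this.div_const _
  have hshift : Summable (fun k => sbe a b p B (k + 1) / (x - p (k + 1))) :=
    (summable_nat_add_iff 1).2 hx
  have hL : ∑' k, ∑ y ∈ fs a b x, (sbe a b p B k / (y - p k)) / dg a b y ^ 2 =
      ∑ y ∈ fs a b x, qs (sbe a b p B) p y / dg a b y ^ 2 := by
    rw [Summable.tsum_finsetSum hyS]
    apply Finset.sum_congr rfl
    intro y _
    unfold qs
    rw [tsum_div_const]
  have hR : ∑' k, (sbe a b p B (k + 1) / (x - p (k + 1)) +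
      B k * (η.eval (p k) / b.eval (p k) ^ 2)) = qs (sbe a b p B) p x := by
    rw [hshift.tsum_add (eta_sum hs η), hs.van η hηd, add_zero]
    unfold qs
    rw [hx.tsum_eq_zero_add, ser_zero hs, zero_div, zero_add]
  rw [← hL, ← hR]
  exact (tsum_congr hk).symm

end Pool.Agent.H35.EX
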