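import Mathlib

/-!
# Abstract expanding orbits

`Orb1`: `x` is an orbit of `f`, `m i` the derivative at `x i`, `P i` the derivative of `f^[i]` at `x 0`;
`f` is uniformly differentiable along the orbit and the products grow geometrically.
-/

set_option autoImplicit false

open Filter Topology Metric

namespace Pool.Agent.H35.EX

/-- the constants are in the right range -/
structure Cst (ε A c0 B θ : ℝ) : Prop where
  hε : 0 < ε
  hA : 0 ≤ A
  hc0 : 0 < c0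
  hB : 0 < B
  hθ0 : 0 < θ
  hθ : θ < 1

/-- an expanding orbit -/
structure Orb1 (f : ℂ → ℂ) (x m P : ℕ → ℂ) (ε A c0 B θ : ℝ) : Prop where
  hx : ∀ i, f (x i) = x (i + 1)
  hm : ∀ i, c0 ≤ ‖m i‖
  hP0 : P 0 = 1
  hP : ∀ i, P (i + 1) = m i * P i
  hB : ∀ n, ∀ i ≤ n, ‖P i‖ ≤ B * θ ^ (n - i) * ‖P n‖
  hf : ∀ i, ∀ a ∈ ball (x i) ε, ∀ b ∈ ball (x i) ε,
    ‖f a - f b - m i * (a - b)‖ ≤ A * (‖a - x i‖ + ‖b - x i‖) * ‖a - b‖

end Pool.Agent.H35.EX
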