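import Pool.Agent.H35.EX.Unif
import Pool.Agent.H35.EX.ADefs
import Pool.Agent.H61.TT.Disj

/-!
# Module Ratio: growth of the derivatives on an expanding set; the abstract data

PROOFS. `itK`: induction on `n` (`it v0 (n+1) z = it v0 1 (it v0 n z)` is `rfl`; `hK.maps`). `ratio`: with `c, q`
from `hK.exp`, `B = c⁻¹`, `θ = q⁻¹`: `trD v0 n x = trD v0 (n - i) (it v0 i x) * trD v0 i x` (`disj_trD_add`), so
`‖trD v0 n x‖ ≥ c q ^ (n - i) ‖trD v0 i x‖`. `c0 = c q` (`trD v0 1 x = wv v0 x / ev v0.2 x ^ 2`). `orb1`: the data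
`x i = it v0 i z`, `m i = wv / ev ^ 2` at `x i`, `P i = trD v0 i z`, `f = it v0 1`; `trD_succ`-type identity:
`trD v0 (i+1) z = (wv v0 (it v0 i z) / ev v0.2 (it v0 i z) ^ 2) * trD v0 i z` (`Finset.prod_range_succ`).
The same `ε, A, c0, B, θ` for all `z ∈ K`; `ε` may be made smaller. `iter_it`: `(it v0 1)^[n] z = it v0 n z`,
for all maps. `trD_ne`: nonzero because the norm is at least `c q ^ n > 0`.
-/

set_option autoImplicit false

open Filter Topology Polynomial Metric Set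

namespace Pool.Agent.H35.EX

open Pool.Agent.H44.Fatou Pool.Agent.H32.BT Pool.Agent.H79.Eul Pool.Agent.H79.Par
open Pool.Agent.H35.RL

theorem itK {d : ℕ} {v0 : E d} {K : Set ℂ} (hK : ExpK v0 K) {z : ℂ} (hz : z ∈ K) (n : ℕ) :
    it v0 n z ∈ K := by
  induction n with
  | zero => exact hz
  | succ n ih => exact hK.maps _ ih

theorem trD_ne {d : ℕ} {v0 : E d} {K : Set ℂ} (hK : ExpK v0 K) {z : ℂ} (hz : z ∈ K) (n : ℕ) :
    trD v0 n z ≠ 0 := by
  obtain ⟨c, q, hc, hq, h⟩ := hK.exp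
  intro h0
  have h1 := h z hz n
  rw [h0, norm_zero] at h1
  have hq0 : 0 < q := by linarith
  have h2 : 0 < c * q ^ n := by positivity
  linarith

theorem iter_it {d : ℕ} (w : E d) (n : ℕ) (z : ℂ) : (it w 1)^[n] z = it w n z := by
  induction n with
  | zero => rfl
  | succ n ih =>
    rw [Function.iterate_succ_apply', ih]
    rfl

theorem ratio {d : ℕ} {v0 : E d} {K : Set ℂ} (hK : ExpK v0 K) :
    ∃ B θ c0 : ℝ, 0 < B ∧ 0 < θ ∧ θ < 1 ∧ 0 < c0 ∧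
      (∀ x ∈ K, ∀ n : ℕ, ∀ i ≤ n, ‖trD v0 i x‖ ≤ B * θ ^ (n - i) * ‖trD v0 n x‖) ∧
      ∀ x ∈ K, c0 ≤ ‖wv v0 x / ev v0.2 x ^ 2‖ := by
  obtain ⟨c, q, hc, hq, h⟩ := hK.exp
  have hq0 : 0 < q := by linarith
  refine ⟨c⁻¹, q⁻¹, c * q, inv_pos.2 hc, inv_pos.2 hq0, inv_lt_one_of_one_lt₀ hq, by positivity,
    ?_, ?_⟩
  · intro x hx n i hi
    have h1 : trD v0 n x = trD v0 (n - i) (it v0 i x) * trD v0 i x := by
      rw [← Pool.Agent.H61.TT.disj_trD_add, Nat.add_sub_cancel' hi]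
    have h2 := h (it v0 i x) (itK hK hx i) (n - i)
    have h3 : 0 < c * q ^ (n - i) := by positivity
    have h4 : ‖trD v0 i x‖ = (c * q ^ (n - i))⁻¹ * (c * q ^ (n - i) * ‖trD v0 i x‖) := by
      rw [← mul_assoc, inv_mul_cancel₀ h3.ne', one_mul]
    rw [h1, norm_mul, inv_pow, ← mul_inv]
    calc ‖trD v0 i x‖ = (c * q ^ (n - i))⁻¹ * (c * q ^ (n - i) * ‖trD v0 i x‖) := h4
      _ ≤ (c * q ^ (n - i))⁻¹ * (‖trD v0 (n - i) (it v0 i x)‖ * ‖trD v0 i x‖) := by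
        apply mul_le_mul_of_nonneg_left _ (inv_nonneg.2 h3.le)
        exact mul_le_mul_of_nonneg_right h2 (norm_nonneg _)
  · intro x hx
    have h2 := h x hx 1
    simpa [trD, it] using h2

/-- the abstract data of the orbits in `K`; `ε` can be chosen below any given `ε1` -/
theorem orb1 {d : ℕ} {v0 : E d} {K : Set ℂ} (hK : ExpK v0 K) {ε1 : ℝ} (h1 : 0 < ε1) :
    ∃ ε A c0 B θ : ℝ, ε ≤ ε1 ∧ Cst ε A c0 B θ ∧ (∀ x ∈ K, ∀ z ∈ ball x ε, ev v0.2 z ≠ 0) ∧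
      ∀ z ∈ K, Orb1 (it v0 1) (fun i => it v0 i z)
        (fun i => wv v0 (it v0 i z) / ev v0.2 (it v0 i z) ^ 2) (fun i => trD v0 i z) ε A c0 B θ := by
  obtain ⟨ε, A, hε, hA, hev, hu⟩ := unif hK
  obtain ⟨B, θ, c0, hB, hθ0, hθ, hc0, hr, hm⟩ := ratio hK
  refine ⟨min ε ε1, A, c0, B, θ, min_le_right _ _, ⟨lt_min hε h1, hA, hc0, hB, hθ0, hθ⟩,
    fun x hx z hz => hev x hx z (ball_subset_ball (min_le_left _ _) hz),
    fun z hz => ⟨?_, ?_, ?_, ?_, ?_, ?_⟩⟩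
  · intro i
    rfl
  · intro i
    exact hm _ (itK hK hz i)
  · simp [trD]
  · intro i
    simp only [trD, Finset.prod_range_succ]
    ring
  · intro n i hi
    exact hr z hz n i hi
  · intro i a ha b hb
    exact hu _ (itK hK hz i) a (ball_subset_ball (min_le_left _ _) ha) b
      (ball_subset_ball (min_le_left _ _) hb)

theorem growth {d : ℕ} {v0 : E d} {K : Set ℂ} (hK : ExpK v0 K) {z : ℂ} (hz : z ∈ K) :
    Tendsto (fun n => ‖trD v0 n z‖) atTop atTop := by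
  obtain ⟨c, q, hc, hq, h⟩ := hK.exp
  exact tendsto_atTop_mono (h z hz) ((tendsto_pow_atTop_atTop_of_one_lt hq).const_mul_atTop hc)

end Pool.Agent.H35.EX
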