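import Pool.Agent.H35.EX.Defs
import Pool.Agent.H35.EX.Ratio

/-!
# Module BlowLip: properties of the limit map

PROOFS. `blow_lip`: pass to the limit in `lip` (`R` is not trivial, `hne`). `blow_lim`: joint convergence: if
`X τ → X0 ∈ ball 0 R0` along a filter `l` on `T` and `t τ → R` then `it v0 (N t) (x + X τ / trD ..) → Ψ X0`:
difference to `it v0 (N t) (x + X0 / trD ..)` is at most `2 ‖X τ - X0‖` (field `lip`), and `lim`.
`null_blow`: `{X ∈ ball 0 R0 | Ψ X ∈ S}` is null for a null set `S`: `Ψ` is injective on the ball and its inverse is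
2-Lipschitz on the image (`blow_lip`): the set is the image of `S ∩ Ψ '' ball 0 R0` under a map `χ` with
`‖χ a - χ b‖ ≤ 2 ‖a - b‖` there; Lipschitz images of null sets are null (e.g. extend `χ` to a Lipschitz map of
`ℂ`, `LipschitzOnWith.extend_real` componentwise or for `ℂ ≃ ℝ^2`, and use
`MeasureTheory.Measure.hausdorffMeasure` with `LipschitzOnWith.hausdorffMeasure_image_le` and
`Complex.. volume = μH[2]` up to constants; or cover `S` by countably many balls of total area `< η`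
(`MeasureTheory.Measure` outer regularity and Vitali or dyadic squares); or directly:
`Mathlib` has `MeasureTheory.addHaar_image_eq_zero_of_differentiableOn_of_addHaar_eq_zero`, usable because `Ψ` is
holomorphic as a locally uniform limit: then `χ` is the inverse of an injective holomorphic map).
-/

set_option autoImplicit false

open Filter Topology Polynomial Metric Set

namespace Pool.Agent.H35.EX

open Pool.Agent.H44.Fatou Pool.Agent.H32.BT Pool.Agent.H79.Eul Pool.Agent.H79.Par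
open Pool.Agent.H35.RL

theorem blow_lip {d : ℕ} {v0 : E d} {x : ℂ} {R : Filter ℝ} {N : ℝ → ℕ} {μ : ℂ} {Ψ : ℂ → ℂ}
    {R0 ρ : ℝ} (b : Blow v0 x R N μ Ψ R0 ρ) (hne : R.NeBot) :
    ∀ X ∈ ball (0 : ℂ) R0, ∀ Y ∈ ball (0 : ℂ) R0,
      ‖X - Y‖ / 2 ≤ ‖Ψ X - Ψ Y‖ ∧ ‖Ψ X - Ψ Y‖ ≤ 2 * ‖X - Y‖ := by
  intro X hX Y hY
  have h1 := ((b.lim X hX).sub (b.lim Y hY)).norm
  constructor
  · refine ge_of_tendsto h1 ?_
    filter_upwards [b.lip] with t ht
    exact (ht X hX Y hY).1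
  · refine le_of_tendsto h1 ?_
    filter_upwards [b.lip] with t ht
    exact (ht X hX Y hY).2

theorem blow_lim {d : ℕ} {v0 : E d} {x : ℂ} {R : Filter ℝ} {N : ℝ → ℕ} {μ : ℂ} {Ψ : ℂ → ℂ}
    {R0 ρ : ℝ} (b : Blow v0 x R N μ Ψ R0 ρ) {T : Type} {l : Filter T} {t : T → ℝ} {X : T → ℂ}
    {X0 : ℂ} (ht : Tendsto t l R) (hX : Tendsto X l (𝓝 X0)) (hX0 : X0 ∈ ball (0 : ℂ) R0) :
    Tendsto (fun τ => it v0 (N (t τ)) (x + X τ / trD v0 (N (t τ)) x)) l (𝓝 (Ψ X0)) := by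
  have h1 : Tendsto (fun τ => it v0 (N (t τ)) (x + X0 / trD v0 (N (t τ)) x)) l (𝓝 (Ψ X0)) :=
    (b.lim X0 hX0).comp ht
  have h2 : Tendsto (fun τ => it v0 (N (t τ)) (x + X τ / trD v0 (N (t τ)) x) -
      it v0 (N (t τ)) (x + X0 / trD v0 (N (t τ)) x)) l (𝓝 0) := by
    have h3 : Tendsto (fun τ => 2 * ‖X τ - X0‖) l (𝓝 0) := by
      have h4 : Tendsto (fun τ => X τ - X0) l (𝓝 0) := by
        have := hX.sub (tendsto_const_nhds (x := X0))
        rwa [sub_self] at this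
      have := (h4.norm).const_mul 2
      simpa using this
    refine squeeze_zero_norm' ?_ h3
    filter_upwards [ht.eventually b.lip, hX.eventually (isOpen_ball.mem_nhds hX0)] with τ k1 k2
    exact (k1 (X τ) k2 X0 hX0).2
  have h5 := h2.add h1
  simpa using h5

open MeasureTheory in
/-- a Lipschitz image of a null set of the plane is a null set -/
theorem null_lip {χ : ℂ → ℂ} {S : Set ℂ} {k : NNReal} (h : LipschitzOnWith k χ S)
    (hS : volume S = 0) : volume (χ '' S) = 0 := by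
  have hfr : ((Module.finrank ℝ ℂ : ℕ) : ℝ) = 2 := by
    rw [Complex.finrank_real_complex]; norm_num
  have hH : (Measure.hausdorffMeasure ((Module.finrank ℝ ℂ : ℕ) : ℝ) :
      Measure ℂ).IsAddHaarMeasure := isAddHaarMeasure_hausdorffMeasure
  have h1 : (Measure.hausdorffMeasure ((Module.finrank ℝ ℂ : ℕ) : ℝ) : Measure ℂ) ≪ volume :=
    Measure.absolutelyContinuous_isAddHaarMeasure _ _
  have h2 : (volume : Measure ℂ) ≪
      (Measure.hausdorffMeasure ((Module.finrank ℝ ℂ : ℕ) : ℝ) : Measure ℂ) :=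
    Measure.absolutelyContinuous_isAddHaarMeasure _ _
  apply h2
  have h3 := h.hausdorffMeasure_image_le (d := ((Module.finrank ℝ ℂ : ℕ) : ℝ)) (Nat.cast_nonneg _)
  rw [h1 hS, mul_zero] at h3
  exact le_antisymm h3 zero_le

open MeasureTheory in
/-- preimages of null sets under maps which expand distances at least by the factor `1 / 2` -/
theorem null_expand {Ψ : ℂ → ℂ} {R0 : ℝ}
    (h : ∀ X ∈ ball (0 : ℂ) R0, ∀ Y ∈ ball (0 : ℂ) R0, ‖X - Y‖ / 2 ≤ ‖Ψ X - Ψ Y‖) {S : Set ℂ}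
    (hS : volume S = 0) : volume {X : ℂ | X ∈ ball (0 : ℂ) R0 ∧ Ψ X ∈ S} = 0 := by
  classical
  obtain ⟨P, hP⟩ : ∃ P : Set ℂ, P = {X : ℂ | X ∈ ball (0 : ℂ) R0 ∧ Ψ X ∈ S} := ⟨_, rfl⟩
  rw [← hP]
  have hPb : ∀ X ∈ P, X ∈ ball (0 : ℂ) R0 := fun X hX => by rw [hP] at hX; exact hX.1
  have hPS : ∀ X ∈ P, Ψ X ∈ S := fun X hX => by rw [hP] at hX; exact hX.2
  obtain ⟨χ, hχ⟩ : ∃ χ : ℂ → ℂ, ∀ a ∈ Ψ '' P, χ a ∈ P ∧ Ψ (χ a) = a := by
    have hex : ∀ a : ℂ, ∃ X : ℂ, a ∈ Ψ '' P → X ∈ P ∧ Ψ X = a := by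
      intro a
      by_cases ha : a ∈ Ψ '' P
      · obtain ⟨X, hX, hXa⟩ := ha
        exact ⟨X, fun _ => ⟨hX, hXa⟩⟩
      · exact ⟨0, fun h => absurd h ha⟩
    choose χ hχ using hex
    exact ⟨χ, fun a ha => hχ a ha⟩
  have hlip : LipschitzOnWith 2 χ (Ψ '' P) := by
    apply LipschitzOnWith.of_dist_le_mul
    intro a ha b hb
    obtain ⟨h1, h2⟩ := hχ a ha
    obtain ⟨h3, h4⟩ := hχ b hb
    have h5 := h (χ a) (hPb _ h1) (χ b) (hPb _ h3)
    rw [h2, h4] at h5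
    rw [dist_eq_norm, dist_eq_norm]
    push_cast
    linarith
  have hnull : volume (Ψ '' P) = 0 := by
    refine measure_mono_null ?_ hS
    rintro _ ⟨X, hX, rfl⟩
    exact hPS X hX
  refine measure_mono_null ?_ (null_lip hlip hnull)
  intro X hX
  refine ⟨Ψ X, ⟨X, hX, rfl⟩, ?_⟩
  obtain ⟨h1, h2⟩ := hχ (Ψ X) ⟨X, hX, rfl⟩
  have h3 := h (χ (Ψ X)) (hPb _ h1) X (hPb _ hX)
  rw [h2, sub_self, norm_zero] at h3
  have h4 : ‖χ (Ψ X) - X‖ ≤ 0 := by linarith
  exact sub_eq_zero.1 (norm_le_zero_iff.1 h4)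

end Pool.Agent.H35.EX
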