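import Pool.Agent.H32.BT.Top

/-!
# Module Chord: the chordal distance and the change of charts

`chord`: the chordal distance of the sphere. `Expd f K`: `K` is a compact invariant set on which an iterate of `f` expands
the chordal distance locally.
PROOFS. `hs s t = √(‖t‖ ^ 2 + ‖1 + s t‖ ^ 2)` is positive (`t = 0` gives `1`) and continuous. `chord_phi`: `x ≠ s`, `φ x = x'`: if `x` is finite
then `x' = (x - s)⁻¹ ≠ 0`, `x = s + 1 / x'`, `1 + ‖x‖ ^ 2 = hs s x' ^ 2 / ‖x'‖ ^ 2`, so `√(1 + ‖x‖ ^ 2) = hs s x' / ‖x'‖`; if `x = ∞` then `x' = 0`,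
`hs s 0 = 1`. The four cases: `x - y = 1 / x' - 1 / y' = (y' - x') / (x' y')`; `chord x ∞ = ‖x'‖ / hs s x' = ‖x' - 0‖ / (hs s x' * hs s 0)`.
`φ` is injective, `φ s = ∞`, so `x ≠ s` follows from `φ x = x'` finite.
-/

set_option autoImplicit false

open Filter Topology Metric Set

namespace Pool.Agent.H35.EX

/-- the chordal distance -/
noncomputable def chord : OnePoint ℂ → OnePoint ℂ → ℝ
  | OnePoint.some z, OnePoint.some w => ‖z - w‖ / (√(1 + ‖z‖ ^ 2) * √(1 + ‖w‖ ^ 2))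
  | OnePoint.some z, OnePoint.infty => 1 / √(1 + ‖z‖ ^ 2)
  | OnePoint.infty, OnePoint.some w => 1 / √(1 + ‖w‖ ^ 2)
  | OnePoint.infty, OnePoint.infty => 0

/-- `K` is an expanding compact invariant set of `f` -/
def Expd (f : OnePoint ℂ → OnePoint ℂ) (K : Set (OnePoint ℂ)) : Prop :=
  IsCompact K ∧ MapsTo f K K ∧ ∃ (N : ℕ) (q : ℝ), 1 < q ∧
    ∀ x ∈ K, ∀ᶠ y in 𝓝 x, q * chord x y ≤ chord (f^[N] x) (f^[N] y)

/-- the factor of the chordal distance in the chart `1 / (z - s)` -/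
noncomputable def hs (s t : ℂ) : ℝ := √(‖t‖ ^ 2 + ‖1 + s * t‖ ^ 2)

theorem hs_pos (s t : ℂ) : 0 < hs s t := by
  unfold hs
  apply Real.sqrt_pos.2
  by_cases h : t = 0
  · subst h
    simp
  · have h1 : 0 < ‖t‖ := norm_pos_iff.2 h
    positivity

theorem hs_cont (s : ℂ) : Continuous (hs s) := by
  unfold hs
  fun_prop

theorem chord_phi {s : ℂ} {φ : OnePoint ℂ ≃ₜ OnePoint ℂ} (hφs : φ s = OnePoint.infty)
    (hφ : ∀ z : ℂ, z ≠ s → φ (z : OnePoint ℂ) = (((z - s)⁻¹ : ℂ) : OnePoint ℂ))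
    (hφi : φ OnePoint.infty = ((0 : ℂ) : OnePoint ℂ)) {x y : OnePoint ℂ} {x' y' : ℂ}
    (hx : φ x = (x' : OnePoint ℂ)) (hy : φ y = (y' : OnePoint ℂ)) :
    chord x y = ‖x' - y'‖ / (hs s x' * hs s y') := by
  have key : ∀ (x : OnePoint ℂ) (x' : ℂ), φ x = (x' : OnePoint ℂ) →
      (x = OnePoint.infty ∧ x' = 0) ∨ ∃ z : ℂ, x = (z : OnePoint ℂ) ∧ x' ≠ 0 ∧ z = s + x'⁻¹ := by
    intro x x' hx
    induction x using OnePoint.rec with
    | infty =>
      left
      rw [hφi] at hx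
      exact ⟨rfl, (OnePoint.coe_eq_coe.1 hx).symm⟩
    | coe z =>
      right
      have hzs : z ≠ s := by
        intro h
        rw [h, hφs] at hx
        exact OnePoint.infty_ne_coe _ hx
      rw [hφ z hzs] at hx
      have h1 := OnePoint.coe_eq_coe.1 hx
      have h2 : z - s ≠ 0 := sub_ne_zero.2 hzs
      refine ⟨z, rfl, ?_, ?_⟩
      · rw [← h1]
        exact inv_ne_zero h2
      · rw [← h1, inv_inv]
        ring
  have hsq : ∀ x' : ℂ, x' ≠ 0 → √(1 + ‖s + x'⁻¹‖ ^ 2) = hs s x' / ‖x'‖ := by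
    intro x' hx'
    have h0 : 0 < ‖x'‖ := norm_pos_iff.2 hx'
    unfold hs
    rw [eq_div_iff h0.ne']
    have h1 : √(1 + ‖s + x'⁻¹‖ ^ 2) * ‖x'‖ = √(1 + ‖s + x'⁻¹‖ ^ 2) * √(‖x'‖ ^ 2) := by
      rw [Real.sqrt_sq h0.le]
    rw [h1, ← Real.sqrt_mul (by positivity)]
    congr 1
    have h2 : 1 + s * x' = (s + x'⁻¹) * x' := by
      field_simp
      ring
    rw [h2, norm_mul]
    ring
  have h00 : hs s 0 = 1 := by
    unfold hs
    simp
  rcases key x x' hx with ⟨rfl, rfl⟩ | ⟨z, rfl, hx0, hz⟩ <;>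
    rcases key y y' hy with ⟨rfl, rfl⟩ | ⟨w, rfl, hy0, hw⟩
  · change (0 : ℝ) = _
    simp
  · change 1 / √(1 + ‖w‖ ^ 2) = _
    have h1 := hs_pos s y'
    have h2 : 0 < ‖y'‖ := norm_pos_iff.2 hy0
    rw [hw, hsq y' hy0, h00, zero_sub, norm_neg]
    field_simp
  · change 1 / √(1 + ‖z‖ ^ 2) = _
    have h1 := hs_pos s x'
    have h2 : 0 < ‖x'‖ := norm_pos_iff.2 hx0
    rw [hz, hsq x' hx0, h00, sub_zero]
    field_simp
  · change ‖z - w‖ / (√(1 + ‖z‖ ^ 2) * √(1 + ‖w‖ ^ 2)) = _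
    have h1 := hs_pos s x'
    have h2 : 0 < ‖x'‖ := norm_pos_iff.2 hx0
    have h3 := hs_pos s y'
    have h4 : 0 < ‖y'‖ := norm_pos_iff.2 hy0
    have h5 : ‖z - w‖ = ‖x' - y'‖ / (‖x'‖ * ‖y'‖) := by
      have e : z - w = -((x' - y') / (x' * y')) := by
        rw [hz, hw]
        field_simp
        ring
      rw [e, norm_neg, norm_div, norm_mul]
    rw [h5, hz, hw, hsq x' hx0, hsq y' hy0]
    field_simp

theorem chord_comm (x y : OnePoint ℂ) : chord x y = chord y x := by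
  induction x using OnePoint.rec with
  | infty =>
    induction y using OnePoint.rec with
    | infty => rfl
    | coe w => rfl
  | coe z =>
    induction y using OnePoint.rec with
    | infty => rfl
    | coe w =>
      change ‖z - w‖ / (√(1 + ‖z‖ ^ 2) * √(1 + ‖w‖ ^ 2)) =
        ‖w - z‖ / (√(1 + ‖w‖ ^ 2) * √(1 + ‖z‖ ^ 2))
      rw [norm_sub_rev, mul_comm (√(1 + ‖z‖ ^ 2))]

theorem chord_pos {x y : OnePoint ℂ} (h : x ≠ y) : 0 < chord x y := by
  induction x using OnePoint.rec with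
  | infty =>
    induction y using OnePoint.rec with
    | infty => exact absurd rfl h
    | coe w =>
      change 0 < 1 / √(1 + ‖w‖ ^ 2)
      positivity
  | coe z =>
    induction y using OnePoint.rec with
    | infty =>
      change 0 < 1 / √(1 + ‖z‖ ^ 2)
      positivity
    | coe w =>
      change 0 < ‖z - w‖ / (√(1 + ‖z‖ ^ 2) * √(1 + ‖w‖ ^ 2))
      have h1 : z ≠ w := fun h2 => h (by rw [h2])
      have h2 : 0 < ‖z - w‖ := norm_pos_iff.2 (sub_ne_zero.2 h1)
      positivity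

/-- convergence in the sphere in terms of the chordal distance -/
theorem chord_tendsto {x : OnePoint ℂ} {u : ℕ → OnePoint ℂ} (h : Tendsto u atTop (𝓝 x)) :
    Tendsto (fun k => chord x (u k)) atTop (𝓝 0) := by
  have hc : Tendsto (fun y => chord x y) (𝓝 x) (𝓝 0) := by
    induction x using OnePoint.rec with
    | infty =>
      rw [OnePoint.nhds_infty_eq]
      refine Tendsto.sup ?_ ?_
      · rw [tendsto_map'_iff]
        change Tendsto (fun w : ℂ => 1 / √(1 + ‖w‖ ^ 2)) (coclosedCompact ℂ) (𝓝 0)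
        rw [coclosedCompact_eq_cocompact]
        have h1 : Tendsto (fun w : ℂ => 1 / ‖w‖) (cocompact ℂ) (𝓝 0) := by
          have := (tendsto_inv_atTop_zero (𝕜 := ℝ)).comp (tendsto_norm_cocompact_atTop (E := ℂ))
          simpa [one_div, Function.comp_def] using this
        refine tendsto_of_tendsto_of_tendsto_of_le_of_le' tendsto_const_nhds h1 ?_ ?_
        · filter_upwards with w
          positivity
        · have h2 : ∀ᶠ w : ℂ in cocompact ℂ, 0 < ‖w‖ :=
            (tendsto_norm_cocompact_atTop (E := ℂ)).eventually_gt_atTop 0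
          filter_upwards [h2] with w hw
          refine one_div_le_one_div_of_le hw ?_
          refine Real.le_sqrt_of_sq_le ?_
          linarith
      · rw [tendsto_pure_left]
        intro s hs'
        exact mem_of_mem_nhds hs'
    | coe z =>
      rw [OnePoint.nhds_coe_eq, tendsto_map'_iff]
      change Tendsto (fun w : ℂ => ‖z - w‖ / (√(1 + ‖z‖ ^ 2) * √(1 + ‖w‖ ^ 2))) (𝓝 z) (𝓝 0)
      have h1 : ContinuousAt
          (fun w : ℂ => ‖z - w‖ / (√(1 + ‖z‖ ^ 2) * √(1 + ‖w‖ ^ 2))) z := by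
        refine ContinuousAt.div (by fun_prop) (by fun_prop) ?_
        positivity
      have h2 := h1.tendsto
      simpa using h2
  exact hc.comp h

end Pool.Agent.H35.EX
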