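import Mathlib

/-!
# Module Conv: convolution of a geometric sequence with a null sequence

PROOFS. `geo_sum_le`: `∑ i < n, θ ^ (n - i) = ∑ k < n, θ ^ (k + 1) ≤ 1 / (1 - θ)` (`Finset.sum_range_reflect`,
geometric series, `θ ≤ 1`). `conv0`: given `η > 0` choose `i0` with `|b i| ≤ η` for `i ≥ i0` and `B` with
`|b i| ≤ B` for all `i` (a convergent sequence is bounded). For `n ≥ i0` split the sum at `i0`: the terms
`i < i0` are at most `B θ ^ (n - i) ≤ B θ ^ (n - i0)`, altogether `i0 B θ ^ (n - i0) → 0`; the others at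
most `η ∑ θ ^ (n - i) ≤ η / (1 - θ)`.
-/

set_option autoImplicit false

open Finset Filter Topology

namespace Pool.Agent.H35.EX

theorem geo_sum_le {θ : ℝ} (h0 : 0 ≤ θ) (h1 : θ < 1) (n : ℕ) :
    ∑ i ∈ range n, θ ^ (n - i) ≤ 1 / (1 - θ) := by
  have e : ∑ i ∈ range n, θ ^ (n - i) = ∑ k ∈ range n, θ ^ (k + 1) := by
    rw [← Finset.sum_range_reflect]
    refine Finset.sum_congr rfl fun i hi => ?_
    have := Finset.mem_range.1 hi
    congr 1; omega
  rw [e]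
  have h2 : ∑ k ∈ range n, θ ^ (k + 1) ≤ ∑ k ∈ range n, θ ^ k :=
    Finset.sum_le_sum fun k _ => pow_le_pow_of_le_one h0 h1.le (Nat.le_succ k)
  refine h2.trans ?_
  rw [geom_sum_eq h1.ne]
  have h3 : (θ ^ n - 1) / (θ - 1) = (1 - θ ^ n) / (1 - θ) := by
    rw [← neg_div_neg_eq]; ring_nf
  rw [h3]
  have h4 : 0 ≤ θ ^ n := pow_nonneg h0 n
  exact div_le_div_of_nonneg_right (by linarith) (by linarith)

theorem conv0 {θ : ℝ} (h0 : 0 ≤ θ) (h1 : θ < 1) {b : ℕ → ℝ} (hb : Tendsto b atTop (𝓝 0)) :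
    Tendsto (fun n => ∑ i ∈ range n, θ ^ (n - i) * b i) atTop (𝓝 0) := by
  obtain ⟨B, hB⟩ : ∃ B : ℝ, ∀ i, |b i| ≤ B := by
    obtain ⟨B, hB⟩ := (Metric.isBounded_range_of_tendsto b hb).exists_norm_le
    exact ⟨B, fun i => by simpa using hB (b i) ⟨i, rfl⟩⟩
  have hB0 : 0 ≤ B := (abs_nonneg _).trans (hB 0)
  rw [Metric.tendsto_atTop]
  intro ε hε
  have hpos : 0 < 1 - θ := by linarith
  obtain ⟨i0, hi0⟩ := (Metric.tendsto_atTop.1 hb) (ε * (1 - θ) / 2) (by positivity)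
  have hlim : Tendsto (fun n : ℕ => (i0 : ℝ) * B * θ ^ n) atTop (𝓝 ((i0 : ℝ) * B * 0)) :=
    (tendsto_pow_atTop_nhds_zero_of_lt_one h0 h1).const_mul _
  rw [mul_zero] at hlim
  obtain ⟨n1, hn1⟩ := (Metric.tendsto_atTop.1 hlim) (ε / 2) (by positivity)
  refine ⟨i0 + n1, fun n hn => ?_⟩
  rw [Real.dist_eq, sub_zero]
  have hle : i0 ≤ n := by omega
  have hsplit : ∑ i ∈ range n, θ ^ (n - i) * |b i| =
      ∑ i ∈ range i0, θ ^ (n - i) * |b i| + ∑ i ∈ Finset.Ico i0 n, θ ^ (n - i) * |b i| :=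
    (Finset.sum_range_add_sum_Ico _ hle).symm
  have hA : ∑ i ∈ range i0, θ ^ (n - i) * |b i| ≤ (i0 : ℝ) * B * θ ^ (n - i0) := by
    have : ∀ i ∈ range i0, θ ^ (n - i) * |b i| ≤ θ ^ (n - i0) * B := by
      intro i hi
      have hi' := Finset.mem_range.1 hi
      exact mul_le_mul (pow_le_pow_of_le_one h0 h1.le (by omega)) (hB i) (abs_nonneg _)
        (pow_nonneg h0 _)
    have h2 := Finset.sum_le_sum this
    rw [Finset.sum_const, Finset.card_range, nsmul_eq_mul] at h2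
    linarith
  have hA2 : (i0 : ℝ) * B * θ ^ (n - i0) < ε / 2 := by
    have := hn1 (n - i0) (by omega)
    rw [Real.dist_eq, sub_zero] at this
    exact (le_abs_self _).trans_lt this
  have hC : ∑ i ∈ Finset.Ico i0 n, θ ^ (n - i) * |b i| ≤ ε / 2 := by
    have h2 : ∀ i ∈ Finset.Ico i0 n, θ ^ (n - i) * |b i| ≤ θ ^ (n - i) * (ε * (1 - θ) / 2) := by
      intro i hi
      have hi' := Finset.mem_Ico.1 hi
      have h3 := hi0 i hi'.1
      rw [Real.dist_eq, sub_zero] at h3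
      exact mul_le_mul_of_nonneg_left h3.le (pow_nonneg h0 _)
    refine (Finset.sum_le_sum h2).trans ?_
    rw [← Finset.sum_mul]
    have h4 : ∑ i ∈ Finset.Ico i0 n, θ ^ (n - i) ≤ ∑ i ∈ range n, θ ^ (n - i) := by
      refine Finset.sum_le_sum_of_subset_of_nonneg (fun i hi => ?_) fun i _ _ => pow_nonneg h0 _
      exact Finset.mem_range.2 (Finset.mem_Ico.1 hi).2
    have h5 := h4.trans (geo_sum_le h0 h1 n)
    calc (∑ i ∈ Finset.Ico i0 n, θ ^ (n - i)) * (ε * (1 - θ) / 2)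
        ≤ (1 / (1 - θ)) * (ε * (1 - θ) / 2) := mul_le_mul_of_nonneg_right h5 (by positivity)
      _ = ε / 2 := by field_simp
  have habs : |∑ i ∈ range n, θ ^ (n - i) * b i| ≤ ∑ i ∈ range n, θ ^ (n - i) * |b i| := by
    refine (Finset.abs_sum_le_sum_abs _ _).trans (le_of_eq ?_)
    refine Finset.sum_congr rfl fun i _ => ?_
    rw [abs_mul, abs_of_nonneg (pow_nonneg h0 _)]
  linarith

end Pool.Agent.H35.EX
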