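import Pool.Agent.H35.EX.Gron
import Pool.Agent.H35.EX.Conv
import Pool.Agent.H35.EX.ADefs

/-!
# Module Dist: bounded distortion along an expanding orbit (abstract form)

PROOF. Put `S = 1 / (1 - θ)` and choose `R > 0` with `2 R B < ε` and `4 A R B S / c0 ≤ 1 / 4`
(e.g. `R = min (ε / (4 (B + 1))) (c0 / (16 (A + 1) (B + 1) S))`). All `P i ≠ 0` (`P 0 = 1`, `‖m i‖ ≥ c0 > 0`).
Let `X ∈ ball 0 R`, `a i = f^[i] (x 0 + X / P n)`, `E i = (a i - x i) * P n / P i`; `E 0 = X`.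
By induction on `i ≤ n`: `‖a i - x i‖ ≤ 2 ‖X‖ ‖P i‖ / ‖P n‖`, which is at most `2 R B θ ^ (n - i) < ε`: for all
`k < i` the property `hf` with `b = x k` gives
`‖E (k+1) - E k‖ = ‖f (a k) - f (x k) - m k (a k - x k)‖ ‖P n‖ / ‖P (k+1)‖ ≤ (A / c0) ‖a k - x k‖ ‖E k‖
≤ (2 A R B / c0) θ ^ (n - k) ‖E k‖`, and `gron_diff` (with `geo_sum_le`: the sum over `k < i` of
`θ ^ (n - k)` is at most the sum over `k < n`) gives `‖E i‖ ≤ 2 ‖E 0‖ = 2 ‖X‖`.
For two points put `G i = (a i - b i) * P n / P i`; `G 0 = X - Y`, `G n = a n - b n`, and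
`‖G (i+1) - G i‖ ≤ (A / c0) (‖a i - x i‖ + ‖b i - x i‖) ‖G i‖ ≤ (4 A R B / c0) θ ^ (n - i) ‖G i‖`; `gron_diff`.
-/

set_option autoImplicit false

open Finset Filter Topology Metric

namespace Pool.Agent.H35.EX

theorem dist_P_ne {f : ℂ → ℂ} {x m P : ℕ → ℂ} {ε A c0 B θ : ℝ} (hC : Cst ε A c0 B θ)
    (o : Orb1 f x m P ε A c0 B θ) : ∀ i, P i ≠ 0 := by
  intro i
  induction i with
  | zero => rw [o.hP0]; exact one_ne_zero
  | succ k ih =>
    rw [o.hP k]
    refine mul_ne_zero ?_ ih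
    intro h
    have h1 := o.hm k
    rw [h, norm_zero] at h1
    linarith [hC.hc0]

theorem dist_step {ε A c0 B θ : ℝ} (hC : Cst ε A c0 B θ) {f : ℂ → ℂ} {x m P : ℕ → ℂ}
    (o : Orb1 f x m P ε A c0 B θ) {D : ℝ} (hD0 : 0 ≤ D)
    (hD : A * D / c0 * (1 / (1 - θ)) ≤ 1 / 4) {n i : ℕ} (hi : i ≤ n) {a b : ℕ → ℂ}
    (ha : ∀ k, a (k + 1) = f (a k)) (hb : ∀ k, b (k + 1) = f (b k))
    (hae : ∀ k < i, a k ∈ ball (x k) ε) (hbe : ∀ k < i, b k ∈ ball (x k) ε)
    (hs : ∀ k < i, ‖a k - x k‖ + ‖b k - x k‖ ≤ D * θ ^ (n - k)) :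
    ‖(a i - b i) * P n / P i - (a 0 - b 0) * P n‖ ≤ (1 / 2) * ‖(a 0 - b 0) * P n‖ ∧
      ‖(a i - b i) * P n / P i‖ ≤ 2 * ‖(a 0 - b 0) * P n‖ := by
  have hPne := dist_P_ne hC o
  have hc0 := hC.hc0
  have hA := hC.hA
  have hθ0 := hC.hθ0
  have hθ1 := hC.hθ
  have hADc : 0 ≤ A * D / c0 := by positivity
  have hsum : ∑ k ∈ range i, A * D / c0 * θ ^ (n - k) ≤ 1 / 4 := by
    rw [← Finset.mul_sum]
    calc A * D / c0 * ∑ k ∈ range i, θ ^ (n - k)
        ≤ A * D / c0 * ∑ k ∈ range n, θ ^ (n - k) := by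
          apply mul_le_mul_of_nonneg_left _ hADc
          apply Finset.sum_le_sum_of_subset_of_nonneg
          · exact Finset.range_subset_range.2 hi
          · intro k _ _
            positivity
      _ ≤ A * D / c0 * (1 / (1 - θ)) :=
          mul_le_mul_of_nonneg_left (geo_sum_le hθ0.le hθ1 n) hADc
      _ ≤ 1 / 4 := hD
  have h0 : (a 0 - b 0) * P n / P 0 = (a 0 - b 0) * P n := by rw [o.hP0, div_one]
  have key := gron_diff (G := fun k => (a k - b k) * P n / P k)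
    (t := fun k => A * D / c0 * θ ^ (n - k)) (n := i) (fun k _ => by positivity) hsum ?_ i le_rfl
  · simp only [h0] at key
    exact key
  · intro k hk
    have hid : (a (k + 1) - b (k + 1)) * P n / P (k + 1) - (a k - b k) * P n / P k =
        (f (a k) - f (b k) - m k * (a k - b k)) * P n / (m k * P k) := by
      have hmk : m k ≠ 0 := by
        intro h
        have h1 := o.hm k
        rw [h, norm_zero] at h1
        linarith
      have hPk := hPne k
      rw [ha, hb, o.hP k]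
      field_simp
    simp only [hid]
    have hPk : 0 < ‖P k‖ := norm_pos_iff.2 (hPne k)
    have hmk : c0 ≤ ‖m k‖ := o.hm k
    have hf := o.hf k (a k) (hae k hk) (b k) (hbe k hk)
    rw [norm_div, norm_mul, norm_mul, norm_div, norm_mul]
    have h1 : ‖f (a k) - f (b k) - m k * (a k - b k)‖ ≤ A * (D * θ ^ (n - k)) * ‖a k - b k‖ :=
      hf.trans (mul_le_mul_of_nonneg_right (mul_le_mul_of_nonneg_left (hs k hk) hA)
        (norm_nonneg _))
    calc ‖f (a k) - f (b k) - m k * (a k - b k)‖ * ‖P n‖ / (‖m k‖ * ‖P k‖)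
        ≤ (A * (D * θ ^ (n - k)) * ‖a k - b k‖) * ‖P n‖ / (c0 * ‖P k‖) := by
          apply div_le_div₀ (by positivity) (mul_le_mul_of_nonneg_right h1 (norm_nonneg _))
            (by positivity) (mul_le_mul_of_nonneg_right hmk hPk.le)
      _ = A * D / c0 * θ ^ (n - k) * (‖a k - b k‖ * ‖P n‖ / ‖P k‖) := by
          field_simp

theorem dist_abs {ε A c0 B θ : ℝ} (hC : Cst ε A c0 B θ) :
    ∃ R : ℝ, 0 < R ∧ ∀ (f : ℂ → ℂ) (x m P : ℕ → ℂ), Orb1 f x m P ε A c0 B θ → ∀ n : ℕ,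
      (∀ X ∈ ball (0 : ℂ) R, ∀ i ≤ n,
        ‖f^[i] (x 0 + X / P n) - x i‖ ≤ 2 * ‖X‖ * ‖P i‖ / ‖P n‖ ∧
          f^[i] (x 0 + X / P n) ∈ ball (x i) ε) ∧
      ∀ X ∈ ball (0 : ℂ) R, ∀ Y ∈ ball (0 : ℂ) R,
        ‖X - Y‖ / 2 ≤ ‖f^[n] (x 0 + X / P n) - f^[n] (x 0 + Y / P n)‖ ∧
        ‖f^[n] (x 0 + X / P n) - f^[n] (x 0 + Y / P n)‖ ≤ 2 * ‖X - Y‖ := by
  have hc0 := hC.hc0
  have hA := hC.hA
  have hB := hC.hB
  have hε := hC.hε
  have hθ0 := hC.hθ0
  have hθ1 := hC.hθ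
  have hS : 0 < 1 / (1 - θ) := by
    apply one_div_pos.2
    linarith
  set S : ℝ := 1 / (1 - θ) with hSdef
  have hR1 : 0 < ε / (4 * (B + 1)) := by positivity
  have hR2 : 0 < c0 / (16 * (A + 1) * (B + 1) * S) := by positivity
  refine ⟨min (ε / (4 * (B + 1))) (c0 / (16 * (A + 1) * (B + 1) * S)), lt_min hR1 hR2, ?_⟩
  set R : ℝ := min (ε / (4 * (B + 1))) (c0 / (16 * (A + 1) * (B + 1) * S)) with hRdef
  have hR : 0 < R := lt_min hR1 hR2
  have hRε : 2 * R * B < ε := by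
    have h1 : R ≤ ε / (4 * (B + 1)) := min_le_left _ _
    rw [le_div_iff₀ (by positivity)] at h1
    nlinarith
  have hD : A * (4 * R * B) / c0 * S ≤ 1 / 4 := by
    have h1 : R ≤ c0 / (16 * (A + 1) * (B + 1) * S) := min_le_right _ _
    rw [le_div_iff₀ (by positivity)] at h1
    rw [div_mul_eq_mul_div, div_le_iff₀ hc0]
    have h2 : A * B ≤ (A + 1) * (B + 1) := by nlinarith
    have h3 : A * (4 * R * B) * S = 4 * (A * B) * (R * S) := by ring
    have h4 : 4 * (A * B) * (R * S) ≤ 4 * ((A + 1) * (B + 1)) * (R * S) := by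
      have : 0 ≤ R * S := by positivity
      nlinarith
    have h5 : 4 * ((A + 1) * (B + 1)) * (R * S) = (R * (16 * (A + 1) * (B + 1) * S)) / 4 := by ring
    rw [h3]
    linarith
  have hD0 : 0 ≤ 4 * R * B := by positivity
  intro f x m P o n
  have hPne := dist_P_ne hC o
  have hPn : 0 < ‖P n‖ := norm_pos_iff.2 (hPne n)
  -- iterates
  have hit : ∀ (z : ℂ) (k : ℕ), f^[k + 1] z = f (f^[k] z) := fun z k =>
    Function.iterate_succ_apply' f k z
  have hbase : ∀ X ∈ ball (0 : ℂ) R, ∀ i ≤ n,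
      ‖f^[i] (x 0 + X / P n) - x i‖ ≤ 2 * ‖X‖ * ‖P i‖ / ‖P n‖ ∧
        ‖f^[i] (x 0 + X / P n) - x i‖ ≤ 2 * R * B * θ ^ (n - i) ∧
        f^[i] (x 0 + X / P n) ∈ ball (x i) ε := by
    intro X hX
    rw [mem_ball_zero_iff] at hX
    intro i
    induction i using Nat.strong_induction_on with
    | _ i ih =>
      intro hi
      have h1 := dist_step hC o hD0 hD hi (a := fun k => f^[k] (x 0 + X / P n)) (b := x)
        (fun k => hit _ k) (fun k => (o.hx k).symm) (fun k hk => (ih k hk (by omega)).2.2)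
        (fun k _ => mem_ball_self hε) ?_
      · have h2 := h1.2
        have h0 : (f^[0] (x 0 + X / P n) - x 0) * P n = X := by
          rw [Function.iterate_zero, id]
          field_simp [hPne n]
          ring
        simp only [h0] at h2
        rw [norm_div, norm_mul] at h2
        have hPi : 0 < ‖P i‖ := norm_pos_iff.2 (hPne i)
        have h3 : ‖f^[i] (x 0 + X / P n) - x i‖ ≤ 2 * ‖X‖ * ‖P i‖ / ‖P n‖ := by
          rw [div_le_iff₀ hPi] at h2
          rw [le_div_iff₀ hPn]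
          exact h2
        have h4 : 2 * ‖X‖ * ‖P i‖ / ‖P n‖ ≤ 2 * R * B * θ ^ (n - i) := by
          rw [div_le_iff₀ hPn]
          have h5 := o.hB n i hi
          calc 2 * ‖X‖ * ‖P i‖ ≤ 2 * R * (B * θ ^ (n - i) * ‖P n‖) := by
                apply mul_le_mul _ h5 (norm_nonneg _) (by positivity)
                linarith
            _ = 2 * R * B * θ ^ (n - i) * ‖P n‖ := by ring
        refine ⟨h3, h3.trans h4, ?_⟩
        rw [mem_ball_iff_norm]
        have h6 : θ ^ (n - i) ≤ 1 := pow_le_one₀ hθ0.le hθ1.le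
        have h7 : 2 * R * B * θ ^ (n - i) ≤ 2 * R * B := by
          have : 0 ≤ 2 * R * B := by positivity
          nlinarith
        linarith [h3.trans h4]
      · intro k hk
        have h2 := (ih k hk (by omega)).2.1
        have h3 : ‖x k - x k‖ = 0 := by simp
        rw [h3]
        have h4 : 0 ≤ R * B * θ ^ (n - k) := by positivity
        calc ‖f^[k] (x 0 + X / P n) - x k‖ + 0 ≤ 2 * R * B * θ ^ (n - k) := by linarith
          _ ≤ 4 * R * B * θ ^ (n - k) := by nlinarith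
  refine ⟨fun X hX i hi => ⟨(hbase X hX i hi).1, (hbase X hX i hi).2.2⟩, ?_⟩
  intro X hX Y hY
  have h1 := dist_step hC o hD0 hD (le_refl n) (a := fun k => f^[k] (x 0 + X / P n))
    (b := fun k => f^[k] (x 0 + Y / P n))
    (fun k => hit _ k) (fun k => hit _ k) (fun k hk => (hbase X hX k hk.le).2.2)
    (fun k hk => (hbase Y hY k hk.le).2.2) ?_
  · have h0 : (f^[0] (x 0 + X / P n) - f^[0] (x 0 + Y / P n)) * P n = X - Y := by
      rw [Function.iterate_zero, id, id]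
      field_simp [hPne n]
      ring
    have hn1 : ∀ z : ℂ, z * P n / P n = z := fun z => mul_div_cancel_right₀ z (hPne n)
    simp only [h0, hn1] at h1
    refine ⟨?_, h1.2⟩
    have h2 := norm_sub_norm_le (X - Y) (f^[n] (x 0 + X / P n) - f^[n] (x 0 + Y / P n))
    rw [norm_sub_rev (X - Y)] at h2
    linarith [h1.1]
  · intro k hk
    have h2 := (hbase X hX k hk.le).2.1
    have h3 := (hbase Y hY k hk.le).2.1
    calc _ ≤ 2 * R * B * θ ^ (n - k) + 2 * R * B * θ ^ (n - k) := add_le_add h2 h3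
      _ = 4 * R * B * θ ^ (n - k) := by ring

end Pool.Agent.H35.EX
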