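import Pool.Agent.H35.EX.NoInt
import Pool.Agent.H35.EX.Dist
import Pool.Agent.H80.AJ.Porous

/-!
# Module NullK: an expanding compact invariant set has area zero

PROOF (porosity). Constants `ε, A, c0, B, θ` from `orb1 hK one_pos`, `R` from `dist_abs` (`hC`), `s` from `holes` with
`no_int hK` and radius `R / 4`: for every `y ∈ K` a ball `ball w s ⊆ ball y (R / 4)` disjoint from `K`. Let `x ∈ K`, `P n = trD v0 n x`,
`‖P n‖ → ∞` (`hK.exp`). `Φ n X = it v0 n (x + X / P n)` is holomorphic on `ball 0 R` (`dist_abs` first part: the points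
`(it v0 1)^[i] (x + X / P n)` are in `ball (it v0 i x) ε`, where `ev v0.2 ≠ 0`; `iter_it`; `tr_hasDerivAt`), injective and satisfies
`‖X - Y‖ / 2 ≤ ‖Φ n X - Φ n Y‖ ≤ 2 ‖X - Y‖` (second part). The image of `ball 0 R` contains `ball (it v0 n x) (R / 2)`:
either by connectedness (`Φ n '' ball 0 R` is open by the open mapping theorem; its intersection with `ball (Φ n 0) (R/2)` is
relatively closed there: if `Φ n X_j → y` with `‖y - Φ n 0‖ < R / 2` then `‖X_j‖ ≤ 2 ‖Φ n X_j - Φ n 0‖ < R` eventually bounded away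
from `R`, so a subsequence converges in `ball 0 R`). So the centre `w` of the hole of `y = it v0 n x ∈ K` (`itK`) is
`Φ n X0` with `‖X0‖ ≤ 2 * (R / 4) = R / 2`, and `Φ n` maps `ball X0 (s / 2)` (w.l.o.g. `s ≤ R / 2`, so this ball is in
`ball 0 R`) into `ball w s`, disjoint from `K`. Since `it v0 n K ⊆ K`, the ball `ball v (s / (2 ‖P n‖))`,
`v = x + X0 / P n`, is disjoint from `K`; it is contained in `ball x (R / ‖P n‖)`. So `porous_null` holds with
`c = s / (2 R)`, `ρ = R / ‖P n‖` (small for large `n`).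
-/

set_option autoImplicit false

open Filter Topology Polynomial Metric Set MeasureTheory

namespace Pool.Agent.H35.EX

open Pool.Agent.H44.Fatou Pool.Agent.H32.BT Pool.Agent.H79.Eul Pool.Agent.H79.Par
open Pool.Agent.H35.RL Pool.Agent.H80.AJ

theorem null_K {d : ℕ} {v0 : E d} {K : Set ℂ} (hK : ExpK v0 K) : volume K = 0 := by
  obtain ⟨ε, A, c0, B, θ, -, hC, hev, horb⟩ := orb1 hK one_pos
  obtain ⟨R, hR, hdist⟩ := dist_abs hC
  obtain ⟨s, hs, hhole⟩ := holes hK.compact (no_int hK) (show 0 < R / 8 by positivity)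
  obtain ⟨s', hs'0, hs's, hs'R⟩ : ∃ s' : ℝ, 0 < s' ∧ s' ≤ s ∧ s' ≤ R :=
    ⟨min s R, lt_min hs hR, min_le_left _ _, min_le_right _ _⟩
  apply porous_null
  intro x hx
  refine ⟨s' / (2 * R), by positivity, ?_⟩
  intro ρ0 hρ0
  obtain ⟨n, hn⟩ : ∃ n, R / ρ0 < ‖trD v0 n x‖ :=
    ((growth hK hx).eventually_gt_atTop (R / ρ0)).exists
  have hPn : trD v0 n x ≠ 0 := trD_ne hK hx n
  have hP : 0 < ‖trD v0 n x‖ := norm_pos_iff.2 hPn
  obtain ⟨hd1, hd2⟩ := hdist (it v0 1) _ _ _ (horb x hx) n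
  obtain ⟨Φ, hΦ⟩ : ∃ Φ : ℂ → ℂ, ∀ X, Φ X = it v0 n (x + X / trD v0 n x) := ⟨_, fun _ => rfl⟩
  have hlip : ∀ X ∈ ball (0 : ℂ) R, ∀ Y ∈ ball (0 : ℂ) R,
      ‖X - Y‖ / 2 ≤ ‖Φ X - Φ Y‖ ∧ ‖Φ X - Φ Y‖ ≤ 2 * ‖X - Y‖ := by
    intro X hX Y hY
    have h := hd2 X hX Y hY
    rw [iter_it, iter_it] at h
    rw [hΦ, hΦ]
    exact h
  have hdiff : ∀ X ∈ ball (0 : ℂ) R, DifferentiableAt ℂ Φ X := by
    intro X hX
    have h1 : ∀ i < n, ev v0.2 (it v0 i (x + X / trD v0 n x)) ≠ 0 := by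
      intro i hi
      have h2 := (hd1 X hX i hi.le).2
      rw [iter_it] at h2
      exact hev (it v0 i x) (itK hK hx i) _ h2
    have h3 := (tr_hasDerivAt v0 (x + X / trD v0 n x) n h1).differentiableAt
    have h4 : DifferentiableAt ℂ (fun X : ℂ => x + X / trD v0 n x) X := by fun_prop
    have h5 : Φ = (fun z => it v0 n z) ∘ (fun X : ℂ => x + X / trD v0 n x) := by
      funext X
      exact hΦ X
    rw [h5]
    exact DifferentiableAt.comp X h3 h4
  have hΦ0 : Φ 0 = it v0 n x := by rw [hΦ, zero_div, add_zero]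
  have h0R : (0 : ℂ) ∈ ball (0 : ℂ) R := mem_ball_self hR
  have hsub : closedBall (0 : ℂ) (R / 2) ⊆ ball 0 R := closedBall_subset_ball (by linarith)
  have himg : ball (Φ 0) (R / 4 / 2) ⊆ Φ '' closedBall 0 (R / 2) := by
    apply DiffContOnCl.ball_subset_image_closedBall (ε := R / 4)
    · apply DifferentiableOn.diffContOnCl
      intro X hX
      rw [closure_ball _ (by positivity)] at hX
      exact (hdiff X (hsub hX)).differentiableWithinAt
    · positivity
    · intro z hz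
      have h1 := (hlip z (hsub (sphere_subset_closedBall hz)) 0 h0R).1
      rw [mem_sphere_iff_norm] at hz
      rw [hz] at h1
      linarith
    · intro h
      simp only [ne_eq, not_not] at h
      obtain ⟨δ, hδ, hball⟩ := Metric.eventually_nhds_iff_ball.1 h
      obtain ⟨η, hη, hηδ, hηR⟩ : ∃ η : ℝ, 0 < η ∧ η < δ ∧ η < R :=
        ⟨min δ R / 2, by positivity, by
          have := min_le_left δ R
          have h3 : 0 < min δ R := lt_min hδ hR
          linarith, by
          have := min_le_right δ R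
          have h3 : 0 < min δ R := lt_min hδ hR
          linarith⟩
      have hn : ‖(η : ℂ)‖ = η := by rw [Complex.norm_real, Real.norm_eq_abs, abs_of_pos hη]
      have h1 := hball (η : ℂ) (by rw [mem_ball_zero_iff, hn]; exact hηδ)
      have h2 := (hlip (η : ℂ) (by rw [mem_ball_zero_iff, hn]; exact hηR) 0 h0R).1
      rw [h1, sub_self, norm_zero, sub_zero, hn] at h2
      linarith
  obtain ⟨w, hw1, hw2⟩ := hhole (it v0 n x) (itK hK hx n)
  have hw3 : w ∈ ball (Φ 0) (R / 4 / 2) := by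
    rw [hΦ0]
    have h1 := hw1 (mem_ball_self hs)
    have h2 : R / 4 / 2 = R / 8 := by ring
    rw [h2]
    exact h1
  obtain ⟨X0, hX0, hX0w⟩ := himg hw3
  have hX0n : ‖X0‖ ≤ R / 2 := by rwa [mem_closedBall_zero_iff] at hX0
  have hcρ : s' / (2 * R) * (R / ‖trD v0 n x‖) = s' / 2 / ‖trD v0 n x‖ := by
    field_simp
  have key : ∀ u ∈ ball (x + X0 / trD v0 n x) (s' / (2 * R) * (R / ‖trD v0 n x‖)),
      ∃ X : ℂ, u = x + X / trD v0 n x ∧ ‖X - X0‖ < s' / 2 ∧ ‖X‖ < R := by
    intro u hu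
    rw [mem_ball_iff_norm, hcρ, lt_div_iff₀ hP, ← norm_mul] at hu
    have h1 : (u - (x + X0 / trD v0 n x)) * trD v0 n x = (u - x) * trD v0 n x - X0 := by
      field_simp
      ring
    rw [h1] at hu
    refine ⟨(u - x) * trD v0 n x, ?_, hu, ?_⟩
    · field_simp
      ring
    · have h2 := norm_le_norm_sub_add ((u - x) * trD v0 n x) X0
      linarith
  refine ⟨R / ‖trD v0 n x‖, by positivity, ?_, x + X0 / trD v0 n x, ?_, ?_⟩
  · rw [div_lt_iff₀ hρ0] at hn
    rw [div_lt_iff₀ hP]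
    linarith
  · intro u hu
    obtain ⟨X, rfl, -, hX⟩ := key u hu
    rw [mem_ball_iff_norm, add_sub_cancel_left, norm_div]
    exact div_lt_div_of_pos_right hX hP
  · intro u hu huK
    obtain ⟨X, rfl, hXX, hX⟩ := key u hu
    have h1 : Φ X ∈ K := by
      rw [hΦ]
      exact itK hK huK n
    have h2 := (hlip X (by rw [mem_ball_zero_iff]; exact hX) X0 (hsub hX0)).2
    have h3 : Φ X ∈ ball w s := by
      rw [mem_ball_iff_norm, ← hX0w]
      linarith
    exact Set.disjoint_left.1 hw2 h3 h1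

end Pool.Agent.H35.EX
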