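import Pool.Agent.H35.EX.Lam
import Pool.Agent.H35.EX.NullK
import Pool.Agent.H61.TT.Area
import Pool.Agent.H79.Par.PerDec

/-!
# Module LamNull: almost no orbit converges to an expanding set

PROOFS. `land_null_set`: by induction on `j` the set `{x : ℂ | ∃ y ∈ L, (Rf v0)^[j] x = y}` is null: `j = 0`: it is `L`. `j + 1`: if
`(pol v0.2).eval x ≠ 0` then `Rf v0 x = gg (pol v0.1) (pol v0.2) x` (`rat_coe_of_ne`), so the set is contained in the finite set of roots of
`pol v0.2` (not zero: `b_ne`) and `pre a b N_j` (`null_pre`, H61/TT/Area). Countable union over `j`.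
`conv_null`: `δ` from `lam_exp`, `L = Lam v0 K δ` is null (`null_K`). `U = coe '' thickening δ K` is open (`isOpenEmbedding_coe`) and
contains `coe '' K`. If eventually `(Rf v0)^[k] x ∈ U`, say for `k ≥ j`, then `(Rf v0)^[j] x = y` with `y : ℂ`, all
`(Rf v0)^[n] y ∈ U` are finite, so `(Rf v0)^[n] y = it v0 n y` (`orb_all`) is in `thickening δ K ⊆ cthickening δ K`: `y ∈ L`.
-/

set_option autoImplicit false

open Filter Topology Polynomial OnePoint Metric Set MeasureTheory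

namespace Pool.Agent.H35.EX

open Pool.Agent.H44.Fatou Pool.Agent.H32.BT Pool.Agent.H79.Eul Pool.Agent.H79.Par
open Pool.Agent.H35.RL Pool.Agent.H61.TT

theorem land_null_set {d : ℕ} {v0 : E d} (hd : 2 ≤ d) (hcop : IsCoprime (pol v0.1) (pol v0.2))
    (hdeg : max (pol v0.1).natDegree (pol v0.2).natDegree = d) {L : Set ℂ} (hL : volume L = 0) :
    volume {x : ℂ | ∃ j : ℕ, ∃ y ∈ L, (Rf v0)^[j] (x : OnePoint ℂ) = (y : OnePoint ℂ)} = 0 := by
  have hR : RatD d (pol v0.1) (pol v0.2) := ⟨hd, hcop, hdeg⟩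
  have hb0 : pol v0.2 ≠ 0 := Pool.Agent.H61.TT.b_ne hR
  have key : ∀ j : ℕ,
      volume {x : ℂ | ∃ y ∈ L, (Rf v0)^[j] (x : OnePoint ℂ) = (y : OnePoint ℂ)} = 0 := by
    intro j
    induction j with
    | zero =>
      refine measure_mono_null ?_ hL
      rintro x ⟨y, hy, hxy⟩
      have h1 : x = y := OnePoint.coe_injective hxy
      rw [h1]
      exact hy
    | succ j ih =>
      refine measure_mono_null (t := {z : ℂ | (pol v0.2).eval z = 0} ∪
        pre (pol v0.1) (pol v0.2)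
          {x : ℂ | ∃ y ∈ L, (Rf v0)^[j] (x : OnePoint ℂ) = (y : OnePoint ℂ)}) ?_ ?_
      · rintro x ⟨y, hy, hxy⟩
        by_cases hb : (pol v0.2).eval x = 0
        · left
          exact hb
        · right
          refine ⟨hb, y, hy, ?_⟩
          rw [Function.iterate_succ_apply] at hxy
          have h1 : Rf v0 (x : OnePoint ℂ) = ((gg (pol v0.1) (pol v0.2) x : ℂ) : OnePoint ℂ) :=
            rat_coe_of_ne hb
          rw [h1] at hxy
          exact hxy
      · refine measure_union_null ?_ (null_pre hR ih)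
        apply Set.Finite.measure_zero
        have h1 : {z : ℂ | (pol v0.2).eval z = 0} ⊆ ((pol v0.2).roots.toFinset : Set ℂ) := by
          intro z hz
          rw [Finset.mem_coe, Multiset.mem_toFinset, mem_roots hb0]
          exact hz
        exact (Finset.finite_toSet _).subset h1
  have h2 : {x : ℂ | ∃ j : ℕ, ∃ y ∈ L, (Rf v0)^[j] (x : OnePoint ℂ) = (y : OnePoint ℂ)} =
      ⋃ j : ℕ, {x : ℂ | ∃ y ∈ L, (Rf v0)^[j] (x : OnePoint ℂ) = (y : OnePoint ℂ)} := by
    ext x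
    simp
  rw [h2]
  exact measure_iUnion_null key

theorem conv_null {d : ℕ} {v0 : E d} (hd : 2 ≤ d) (hcop : IsCoprime (pol v0.1) (pol v0.2))
    (hdeg : max (pol v0.1).natDegree (pol v0.2).natDegree = d) {K : Set ℂ} (hK : ExpK v0 K) :
    ∀ᵐ x : ℂ, ¬ ∀ U : Set (OnePoint ℂ), IsOpen U → ((↑) : ℂ → OnePoint ℂ) '' K ⊆ U →
      ∀ᶠ k : ℕ in atTop, (Rf v0)^[k] (x : OnePoint ℂ) ∈ U := by
  obtain ⟨δ, hδ, hΛ⟩ := lam_exp hK
  have hL := null_K hΛ
  rw [ae_iff]
  refine measure_mono_null ?_ (land_null_set hd hcop hdeg hL)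
  intro x hx
  have hx' : ∀ U : Set (OnePoint ℂ), IsOpen U → ((↑) : ℂ → OnePoint ℂ) '' K ⊆ U →
      ∀ᶠ k : ℕ in atTop, (Rf v0)^[k] (x : OnePoint ℂ) ∈ U := not_not.mp hx
  have h1 := hx' (((↑) : ℂ → OnePoint ℂ) '' thickening δ K)
    (OnePoint.isOpenEmbedding_coe.isOpenMap _ isOpen_thickening)
    (Set.image_mono (self_subset_thickening hδ K))
  obtain ⟨j, hj⟩ := eventually_atTop.mp h1
  obtain ⟨y, _, hy⟩ := hj j le_rfl
  refine ⟨j, y, ?_, hy.symm⟩
  have h2 : ∀ n : ℕ, ∃ z ∈ thickening δ K, (z : OnePoint ℂ) = (Rf v0)^[n] (y : OnePoint ℂ) := by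
    intro n
    obtain ⟨z, hz, hz2⟩ := hj (n + j) (Nat.le_add_left j n)
    refine ⟨z, hz, hz2.trans ?_⟩
    rw [Function.iterate_add_apply]
    exact congrArg _ hy.symm
  have h3 := (orb_all (v0 := v0) (z := y) (fun n => by
    obtain ⟨z, _, hz2⟩ := h2 n
    rw [← hz2]
    exact OnePoint.coe_ne_infty z)).2
  intro n
  obtain ⟨z, hz, hz2⟩ := h2 n
  rw [h3 n] at hz2
  have h4 : z = it v0 n y := OnePoint.coe_injective hz2
  rw [← h4]
  exact thickening_subset_cthickening δ K hz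

end Pool.Agent.H35.EX
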