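import Pool.Agent.H35.EX.NrF

/-!
# Module NrG: no recurrence off the post-critical set

PROOFS. `nr_grow`: fix `i`. `h = fun z => 1 / trD v0 i z` is `DiffContOnCl ℂ h V`: `trD v0 i` is a product of the functions
`wv v0 (it v0 k z) / ev v0.2 (it v0 k z) ^ 2`, holomorphic near every point of `closure V` (`nr_it`: denominators do not
vanish; `tr_hasDerivAt` for `it v0 k`), nonzero on `V` (`nr_ne`) and on `frontier V ⊆ K` (`nr_front`, `trD_ne`); so `h` is
differentiable at all points of `closure V`. On `frontier V ⊆ K` `‖h‖ ≤ 1 / (c q ^ i)`. `V` is bounded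
(`nr_it` with `k = 0`). `Complex.norm_le_of_forall_mem_frontier_norm_le`. `norec_K`: by contradiction; as in
the proof of `noret` (H80/AJ/NoRet) choose `m n ≥ n` with `η = 1 / (n + 1)`, so `NearId (Rf v0) m y ρ`, `m → ∞`. Let `V` be as in
`NR.hV`; `y ∈ V`. By `nr_der` `trD v0 (m j) y → 1`, by `nr_grow` `‖trD v0 (m j) y‖ ≥ c q ^ (m j) → ∞`, contradiction.
-/

set_option autoImplicit false

open Filter Topology Polynomial OnePoint Metric Set

namespace Pool.Agent.H35.EX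

open Pool.Agent.H44.Fatou Pool.Agent.H32.BT Pool.Agent.H79.Eul Pool.Agent.H79.Par
open Pool.Agent.H35.RL Pool.Agent.H80.AJ

theorem nrg_ev_diff {d : ℕ} (p : Fin (d + 1) → ℂ) (z : ℂ) :
    DifferentiableAt ℂ (fun z => ev p z) z := by
  unfold ev
  fun_prop

theorem nrg_dev_diff {d : ℕ} (p : Fin (d + 1) → ℂ) (z : ℂ) :
    DifferentiableAt ℂ (fun z => dev p z) z := by
  unfold dev
  fun_prop

theorem nrg_trD_diff {d : ℕ} {v0 : E d} {z : ℂ} (h : ∀ i, ev v0.2 (it v0 i z) ≠ 0) (n : ℕ) :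
    DifferentiableAt ℂ (trD v0 n) z := by
  have h0 : trD v0 n = fun z => ∏ i ∈ Finset.range n,
      wv v0 (it v0 i z) / ev v0.2 (it v0 i z) ^ 2 := rfl
  rw [h0]
  apply DifferentiableAt.fun_finset_prod
  intro i _
  have h1 : DifferentiableAt ℂ (fun z => it v0 i z) z :=
    (tr_hasDerivAt v0 z i (fun k _ => h k)).differentiableAt
  have h2 : DifferentiableAt ℂ (fun z => ev v0.2 (it v0 i z)) z :=
    (nrg_ev_diff v0.2 (it v0 i z)).comp z h1
  have h3 : DifferentiableAt ℂ (fun z => ev v0.1 (it v0 i z)) z :=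
    (nrg_ev_diff v0.1 (it v0 i z)).comp z h1
  have h4 : DifferentiableAt ℂ (fun z => dev v0.2 (it v0 i z)) z :=
    (nrg_dev_diff v0.2 (it v0 i z)).comp z h1
  have h5 : DifferentiableAt ℂ (fun z => dev v0.1 (it v0 i z)) z :=
    (nrg_dev_diff v0.1 (it v0 i z)).comp z h1
  have h6 : DifferentiableAt ℂ (fun z => wv v0 (it v0 i z)) z := by
    unfold wv
    exact (h5.mul h2).sub (h3.mul h4)
  exact h6.div (h2.pow 2) (pow_ne_zero 2 (h i))

theorem nr_grow {d : ℕ} {v0 : E d} {K : Set ℂ} {A : Set (OnePoint ℂ)} {R0 : ℝ} {m : ℕ → ℕ}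
    {V : Set ℂ} (D : NR v0 K A R0 m V) : ∃ c q : ℝ, 0 < c ∧ 1 < q ∧
      ∀ z ∈ V, ∀ i : ℕ, c * q ^ i ≤ ‖trD v0 i z‖ := by
  obtain ⟨c, q, hc, hq, hexp⟩ := D.hK.exp
  refine ⟨c, q, hc, hq, ?_⟩
  intro z hz i
  have hq0 : 0 < q := by linarith
  have hcq : 0 < c * q ^ i := by positivity
  have hfr : ∀ w ∈ frontier V, c * q ^ i ≤ ‖trD v0 i w‖ := fun w hw => hexp w (nr_front D hw) i
  have hne : ∀ w ∈ closure V, trD v0 i w ≠ 0 := by
    intro w hw
    rw [closure_eq_self_union_frontier] at hw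
    rcases hw with hw | hw
    · exact nr_ne D hw i
    · intro h0
      have := hfr w hw
      rw [h0, norm_zero] at this
      linarith
  have hbdd : Bornology.IsBounded V := by
    refine (isBounded_closedBall (x := (0 : ℂ)) (r := R0)).subset ?_
    intro w hw
    rw [mem_closedBall, dist_zero_right]
    exact (nr_it D (subset_closure hw) 0).2.1
  have hd : DifferentiableOn ℂ (fun w => (trD v0 i w)⁻¹) (closure V) := by
    intro w hw
    exact ((nrg_trD_diff (fun k => (nr_it D hw k).1) i).inv (hne w hw)).differentiableWithinAt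
  have h1 : ‖(trD v0 i z)⁻¹‖ ≤ (c * q ^ i)⁻¹ := by
    refine Complex.norm_le_of_forall_mem_frontier_norm_le (f := fun w => (trD v0 i w)⁻¹)
      hbdd hd.diffContOnCl ?_ (subset_closure hz)
    intro w hw
    change ‖(trD v0 i w)⁻¹‖ ≤ (c * q ^ i)⁻¹
    rw [norm_inv]
    exact inv_anti₀ hcq (hfr w hw)
  rw [norm_inv] at h1
  have h2 : 0 < ‖trD v0 i z‖ := norm_pos_iff.mpr (nr_ne D hz i)
  exact (inv_le_inv₀ h2 hcq).mp h1

theorem norec_K {d : ℕ} {v0 : E d} {K : Set ℂ} {A : Set (OnePoint ℂ)} {R0 : ℝ}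
    (hs : Sys0 (pol v0.1) (pol v0.2) A) (hK : ExpK v0 K)
    (hcnt : {x : ℂ | (x : OnePoint ℂ) ∈ A ∧ x ∉ K}.Countable)
    (hinf : ∀ z : ℂ, R0 < ‖z‖ → ¬ Bad (Rf v0) A (z : OnePoint ℂ)) :
    NoRec (pol v0.1) (pol v0.2) A := by
  intro y ρ hρ hyA hret
  have hret' : ∀ n : ℕ, ∃ m : ℕ, n ≤ m ∧ ∀ v ∈ ball y ρ, ∃ v' : ℂ,
      (rat (pol v0.1) (pol v0.2))^[m] (v : OnePoint ℂ) = (v' : OnePoint ℂ) ∧
        ‖v' - v‖ < 1 / ((n : ℝ) + 1) :=
    fun n => hret _ Nat.one_div_pos_of_nat n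
  choose m hm1 hm2 using hret'
  have hm : Tendsto m atTop atTop := tendsto_atTop_mono hm1 tendsto_id
  have hy : NearId (Rf v0) m y ρ := by
    intro η hη
    have h1 : ∀ᶠ n : ℕ in atTop, 1 / ((n : ℝ) + 1) < η :=
      tendsto_one_div_add_atTop_nhds_zero_nat.eventually_lt_const hη
    filter_upwards [h1] with n hn w hw
    obtain ⟨w', e1, e2⟩ := hm2 n w hw
    exact ⟨w', e1, e2.trans hn⟩
  have D : NR v0 K A R0 m {x : ℂ | ∃ r : ℝ, 0 < r ∧ NearId (Rf v0) m x r} :=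
    ⟨hs, hK, hcnt, hinf, hm, rfl⟩
  have hyV : y ∈ {x : ℂ | ∃ r : ℝ, 0 < r ∧ NearId (Rf v0) m x r} := ⟨ρ, hρ, hy⟩
  obtain ⟨c, q, hc, hq, hg⟩ := nr_grow D
  have h1 : Tendsto (fun j => ‖trD v0 (m j) y‖) atTop (𝓝 1) := by
    have h := (nr_der D hyV).norm
    rwa [norm_one] at h
  have h2 : ∀ᶠ j in atTop, ‖trD v0 (m j) y‖ < 2 := h1.eventually_lt_const (by norm_num)
  have h3 : Tendsto (fun j => c * q ^ (m j)) atTop atTop :=
    ((tendsto_pow_atTop_atTop_of_one_lt hq).comp hm).const_mul_atTop hc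
  have h4 := h3.eventually_ge_atTop 2
  obtain ⟨j, hj1, hj2⟩ := (h2.and h4).exists
  have := hg y hyV (m j)
  linarith

end Pool.Agent.H35.EX
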