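import Pool.Agent.H35.EX.ClusK
import Pool.Agent.H35.EX.AJ.Defs
import Pool.Agent.H35.EX.Defs

/-!
# Module SysAK: the post-critical set is a system

PROOFS. `closed_orb`: for `s` with `f^[m] s ∈ K'` the set `{f^[k] s | k} ∪ K'` is `{f^[k] s | k < m} ∪ K'`, closed. `sys_AK`: `closed`:
`closed_AA`, and the finite union over `S2` (with `K'`: if `S2` is empty just `K'`); `inv`: `inv_AA`, obvious, `hKi`; `crit`: `c ∈ S1` gives
`f c = f^[1] c ∈ AA`, `c ∈ S2` similarly; `inf`, `fin`: `k = 0`. `K'` is closed: the image of a compact set.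
`cnt_AK`: `count_AA` and countably many orbit points, preimage under the injective coercion; points of `K'` are excluded.
`hinf_AK`: `cl_not_bad` (H80/AJ/SetAA) for `x` near `∞`: `CL f x (p ∞) (n ∞)`, and `f^[i] (p ∞) ∈ AK`; then `nhds_infty_norm` (H80/AJ/Main).
-/

set_option autoImplicit false

open Filter Topology Polynomial OnePoint Metric Set

namespace Pool.Agent.H35.EX

open Pool.Agent.H44.Fatou Pool.Agent.H32.BT Pool.Agent.H79.Eul Pool.Agent.H79.Par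
open Pool.Agent.H80.AJ

theorem iter_mem_of {X : Type*} {f : X → X} {K : Set X} (hKi : ∀ x ∈ K, f x ∈ K) {x : X}
    (hx : x ∈ K) (k : ℕ) : f^[k] x ∈ K := by
  induction k with
  | zero => exact hx
  | succ k ih =>
    rw [Function.iterate_succ_apply']
    exact hKi _ ih

theorem closed_orb {X : Type*} [TopologicalSpace X] [T1Space X] {f : X → X} {S K : Set X}
    (hS : S.Finite) (hK : IsClosed K) (hKi : ∀ x ∈ K, f x ∈ K)
    (hSK : ∀ s ∈ S, ∃ m : ℕ, f^[m] s ∈ K) :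
    IsClosed ({x | ∃ s ∈ S, ∃ k : ℕ, x = f^[k] s} ∪ K) := by
  classical
  choose! m hm using hSK
  have h : {x | ∃ s ∈ S, ∃ k : ℕ, x = f^[k] s} ∪ K =
      (⋃ s ∈ S, ((fun k : ℕ => f^[k] s) '' Iio (m s))) ∪ K := by
    apply subset_antisymm
    · rintro x (⟨s, hs, k, rfl⟩ | hx)
      · by_cases hk : k < m s
        · exact Or.inl (mem_biUnion hs ⟨k, hk, rfl⟩)
        · refine Or.inr ?_
          have h1 : k = (k - m s) + m s := by omega
          rw [h1, Function.iterate_add_apply]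
          exact iter_mem_of hKi (hm s hs) _
      · exact Or.inr hx
    · rintro x (hx | hx)
      · obtain ⟨s, hs, hx⟩ := mem_iUnion₂.1 hx
        obtain ⟨k, -, rfl⟩ := hx
        exact Or.inl ⟨s, hs, k, rfl⟩
      · exact Or.inr hx
  rw [h]
  refine IsClosed.union (hS.isClosed_biUnion fun s _ => ?_) hK
  exact ((finite_Iio (m s)).image _).isClosed

theorem nhds_infty_norm0 {S : Set (OnePoint ℂ)} (hS : S ∈ 𝓝 (∞ : OnePoint ℂ)) :
    ∃ M : ℝ, ∀ z : ℂ, M < ‖z‖ → (z : OnePoint ℂ) ∈ S := by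
  rw [nhds_infty_eq, mem_sup, mem_map, mem_pure] at hS
  obtain ⟨hs1, hs2⟩ := hS
  rw [coclosedCompact_eq_cocompact, ← Metric.cobounded_eq_cocompact, ← comap_norm_atTop,
    mem_comap] at hs1
  obtain ⟨t, ht, hts⟩ := hs1
  rw [mem_atTop_sets] at ht
  obtain ⟨M, hM⟩ := ht
  exact ⟨M, fun z hz => hts (hM _ hz.le)⟩

theorem sys_AK {P Q : Polynomial ℂ} (h : IsCoprime P Q) (hd : 1 ≤ max P.natDegree Q.natDegree)
    {S1 S2 : Set (OnePoint ℂ)} (h1 : S1.Finite) (h2 : S2.Finite)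
    (hcr : ∀ c, IsCrit (rat P Q) c → c ∈ S1 ∨ c ∈ S2) {K : Set ℂ} (hK : IsCompact K)
    (hKi : ∀ x ∈ ((↑) : ℂ → OnePoint ℂ) '' K, rat P Q x ∈ ((↑) : ℂ → OnePoint ℂ) '' K)
    {p : OnePoint ℂ → OnePoint ℂ} {n : OnePoint ℂ → ℕ}
    (hn : ∀ s ∈ S1, CL (rat P Q) s (p s) (n s))
    (hS2 : ∀ s ∈ S2, ∃ m : ℕ, (rat P Q)^[m] s ∈ ((↑) : ℂ → OnePoint ℂ) '' K)
    (hinf : (∞ : OnePoint ℂ) ∈ S1) {b : ℂ} (hb : (b : OnePoint ℂ) ∈ S1) :
    Sys0 P Q (AK (rat P Q) S1 S2 p (((↑) : ℂ → OnePoint ℂ) '' K)) := by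
  have hfc : Continuous (rat P Q) := rat_continuous h
  have hKc : IsClosed (((↑) : ℂ → OnePoint ℂ) '' K) := (hK.image continuous_coe).isClosed
  refine ⟨h, hd, ?_, ?_, ?_, ?_, ?_⟩
  · exact (closed_AA hfc h1 hn).union (closed_orb h2 hKc hKi hS2)
  · rintro x (hx | hx | hx)
    · exact Or.inl (inv_AA _ _ _ hx)
    · obtain ⟨s, hs, k, rfl⟩ := hx
      exact Or.inr (Or.inl ⟨s, hs, k + 1, (Function.iterate_succ_apply' _ _ _).symm⟩)
    · exact Or.inr (Or.inr (hKi x hx))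
  · intro c hc
    rcases hcr c hc with h3 | h3
    · exact Or.inl ⟨c, h3, 1, Or.inl rfl⟩
    · exact Or.inr (Or.inl ⟨c, h3, 1, rfl⟩)
  · exact Or.inl ⟨_, hinf, 0, Or.inl rfl⟩
  · exact ⟨b, Or.inl ⟨_, hb, 0, Or.inl rfl⟩⟩

theorem cnt_AK (f : OnePoint ℂ → OnePoint ℂ) {S1 S2 : Set (OnePoint ℂ)} (h1 : S1.Finite)
    (h2 : S2.Finite) (p : OnePoint ℂ → OnePoint ℂ) (K : Set ℂ) :
    {x : ℂ | (x : OnePoint ℂ) ∈ AK f S1 S2 p (((↑) : ℂ → OnePoint ℂ) '' K) ∧ x ∉ K}.Countable := by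
  have h3 : (AA f S1 p ∪ {x | ∃ s ∈ S2, ∃ k : ℕ, x = f^[k] s}).Countable := by
    refine (count_AA f h1 p).union ?_
    have h : {x | ∃ s ∈ S2, ∃ k : ℕ, x = f^[k] s} ⊆ ⋃ s ∈ S2, (range fun k : ℕ => f^[k] s) := by
      rintro x ⟨s, hs, k, rfl⟩
      exact mem_biUnion hs ⟨k, rfl⟩
    exact Countable.mono h (h2.countable.biUnion fun s _ => countable_range _)
  refine (h3.preimage_of_injOn (f := ((↑) : ℂ → OnePoint ℂ)) (coe_injective.injOn)).mono ?_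
  rintro x ⟨hx | hx | hx, hxK⟩
  · exact Or.inl hx
  · exact Or.inr hx
  · obtain ⟨y, hy, hyx⟩ := hx
    rw [coe_injective hyx] at hy
    exact absurd hy hxK

theorem hinf_AK {P Q : Polynomial ℂ} (h : IsCoprime P Q) {S1 S2 : Set (OnePoint ℂ)}
    {p : OnePoint ℂ → OnePoint ℂ} {K' : Set (OnePoint ℂ)} {s : OnePoint ℂ} (hs : s ∈ S1) {N : ℕ}
    (hnear : ∀ᶠ x in 𝓝 (∞ : OnePoint ℂ), CL (rat P Q) x (p s) N) :
    ∃ R0 : ℝ, ∀ z : ℂ, R0 < ‖z‖ → ¬ Bad (rat P Q) (AK (rat P Q) S1 S2 p K') (z : OnePoint ℂ) := by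
  have hfc : Continuous (rat P Q) := rat_continuous h
  have hgood : ∀ᶠ x in 𝓝 (∞ : OnePoint ℂ), ¬ Bad (rat P Q) (AK (rat P Q) S1 S2 p K') x := by
    filter_upwards [hnear] with x hx
    exact cl_not_bad hfc hx (fun i => Or.inl ⟨s, hs, i, Or.inr rfl⟩)
  exact nhds_infty_norm0 hgood

end Pool.Agent.H35.EX
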