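import Pool.Agent.H35.EX.Tail12
import Pool.Agent.H35.EX.SysAK
import Pool.Agent.H35.EX.LamNull
import Pool.Agent.H35.EX.NrG
import Pool.Agent.H35.EX.AJ.PorBad
import Pool.Agent.H79.Par.GDefs

/-!
# Module Area0K: almost every point is attracted by an attracting or parabolic cycle

PROOF (compare `ae_conv` in H80/AJ/Main and `area0` in H80/AJ/Area0). `f = Rf v0 = rat (pol v0.1) (pol v0.2)` (`rfl`). Choose a finite point `b`
near `∞` with `CL f b z0 n0` (`hinf`; `nhds_infty_norm`). `Cr = {c | IsCrit f c}` is finite (`crit_finite`). `S2 = {c ∈ Cr | ∃ m, ∃ y ∈ K, f^[m] c = y}`,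
`S1 = {c ∈ Cr | ∃ z n, Ty12 f c z n ∨ Ty4 f c z n} ∪ {∞, b}`. For `s ∈ S1` choose a seed `(t s, z s, m s)` with `Ty12 ∨ Ty4` for `t s`
(`t s = s`, or `t s = c0, z0, n0` for `s = ∞, b`), and `p s, n s` with `CL f s (p s) (n s)` and `CL f (t s) (p s) (n' s)`: by `tyA_cl` (H80/AJ/Types) for `s ∈ Cr`
(`p s = f^[i] z`), and `p s = z0`, `n s = n0` for `s = ∞, b` (`hinf`; `c0` is of type 1 or 2: `CL f c0 z0 n0` by definition of the types, with
`fixMult_fix`). `K' = coe '' K`; `K'` is invariant: `hK.den`, `hK.maps`, `rat_coe_of_ne`. `A = AK f S1 S2 p K'`: `sys_AK`, `cnt_AK`, `hinf_AK`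
(with `s = ∞`, `p ∞ = z0`), `norec_K`, `area_chart` (H35/EX/AJ/PorBad): almost every `x` is not bad. `conv_clK` with `conv_null`: almost every `x` has
`CL f x (f^[i] (p s)) N` with `s ∈ S1`. `land_null` (H80/AJ/LandNull) for the countable set `C = ⋃ q, f^[q] '' {z s | s ∈ S1}`: almost every `x` never lands
in `C`. `tail12` for the seed `t s` (`hper` from `h0 : Chart0 v0`).
-/

set_option autoImplicit false

open Filter Topology Polynomial OnePoint Metric Set MeasureTheory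

namespace Pool.Agent.H35.EX

open Pool.Agent.H44.Fatou Pool.Agent.H32.BT Pool.Agent.H79.Eul Pool.Agent.H79.Par
open Pool.Agent.H80.AJ

theorem ar_cl {f : OnePoint ℂ → OnePoint ℂ} {c z : OnePoint ℂ} {n : ℕ} (h : Ty12 f c z n) :
    CL f c z n := by
  rcases h with h | h
  · exact ⟨h.1.1, h.1.2.1, h.2⟩
  · exact ⟨h.1, fixMult_fix h.2.1, h.2.2.1⟩

theorem area0K {d : ℕ} (hd : 2 ≤ d) {v0 : E d} (h0 : Chart0 v0) {K : Set ℂ} (hK : ExpK v0 K)
    (hcrit : ∀ c, IsCrit (Rf v0) c →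
      (∃ (z : OnePoint ℂ) (n : ℕ), Ty12 (Rf v0) c z n ∨ Ty4 (Rf v0) c z n) ∨
        ∃ m : ℕ, ∃ y ∈ K, (Rf v0)^[m] c = (y : OnePoint ℂ))
    {c0 z0 : OnePoint ℂ} {n0 : ℕ} (hT0 : Ty12 (Rf v0) c0 z0 n0)
    (hinf : ∀ᶠ x in 𝓝 (∞ : OnePoint ℂ), CL (Rf v0) x z0 n0) :
    volume {x : ℂ | ¬ ∃ (z : OnePoint ℂ) (n : ℕ), Ty12 (Rf v0) (x : OnePoint ℂ) z n} = 0 := by
  classical
  obtain ⟨h, hdeg, hper, -⟩ := h0
  obtain ⟨f, hf⟩ : ∃ f : OnePoint ℂ → OnePoint ℂ, f = rat (pol v0.1) (pol v0.2) := ⟨_, rfl⟩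
  have hRf : Rf v0 = f := by
    rw [hf]
    rfl
  have hnull := conv_null hd h hdeg hK
  have hnorec := fun A R0 => norec_K (v0 := v0) (K := K) (A := A) (R0 := R0)
  have hKi : ∀ x ∈ ((↑) : ℂ → OnePoint ℂ) '' K, f x ∈ ((↑) : ℂ → OnePoint ℂ) '' K := by
    rintro _ ⟨x, hx, rfl⟩
    have h1 := rat_it (v := v0) (z := x) (j := 1) (by
      intro i hi
      have hi0 : i = 0 := by omega
      subst hi0
      exact hK.den x hx)
    rw [Function.iterate_one, hRf] at h1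
    exact ⟨it v0 1 x, hK.maps x hx, h1.symm⟩
  rw [hRf] at hper hcrit hT0 hinf hnull ⊢
  simp only [hRf] at hnorec
  rw [hf] at hper
  have hfc : Continuous f := by
    rw [hf]
    exact rat_continuous h
  have hd2 : 2 ≤ max (pol v0.1).natDegree (pol v0.2).natDegree := by rw [hdeg]; exact hd
  have hd1 : 1 ≤ max (pol v0.1).natDegree (pol v0.2).natDegree := by omega
  -- a finite point near infinity
  obtain ⟨M, hM⟩ := nhds_infty_norm hinf
  obtain ⟨b, hb⟩ : ∃ b : ℂ, M < ‖b‖ := by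
    refine ⟨((|M| + 1 : ℝ) : ℂ), ?_⟩
    rw [Complex.norm_real, Real.norm_eq_abs]
    have h1 := le_abs_self M
    have h2 := abs_nonneg M
    rw [abs_of_pos (by linarith)]
    linarith
  have hbCL : CL f (b : OnePoint ℂ) z0 n0 := hM b hb
  have hiCL : CL f ∞ z0 n0 := hinf.self_of_nhds
  have hCr : {c | IsCrit f c}.Finite := by
    rw [hf]
    exact crit_finite h hd1
  obtain ⟨K', hK'⟩ : ∃ K' : Set (OnePoint ℂ), K' = ((↑) : ℂ → OnePoint ℂ) '' K := ⟨_, rfl⟩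
  obtain ⟨S2, hS2⟩ : ∃ S2 : Set (OnePoint ℂ), S2 = {c | IsCrit f c ∧ ∃ m : ℕ, f^[m] c ∈ K'} :=
    ⟨_, rfl⟩
  obtain ⟨S1, hS1⟩ : ∃ S1 : Set (OnePoint ℂ), S1 = {c | IsCrit f c ∧
      ∃ (z : OnePoint ℂ) (n : ℕ), Ty12 f c z n ∨ Ty4 f c z n} ∪ {∞, (b : OnePoint ℂ)} := ⟨_, rfl⟩
  have hS2f : S2.Finite := by
    rw [hS2]
    exact hCr.subset fun c hc => hc.1
  have hS1f : S1.Finite := by
    rw [hS1]
    refine Set.Finite.union (hCr.subset fun c hc => hc.1) ?_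
    exact (Set.finite_singleton _).insert _
  have hex : ∀ s : OnePoint ℂ, ∃ (t z : OnePoint ℂ) (m : ℕ) (p : OnePoint ℂ) (n n' : ℕ),
      s ∈ S1 → (Ty12 f t z m ∨ Ty4 f t z m) ∧ CL f s p n ∧ CL f t p n' ∧ (s = ∞ → p = z0) := by
    intro s
    by_cases hs : s ∈ S1
    · by_cases hsi : s = ∞
      · exact ⟨c0, z0, n0, z0, n0, n0, fun _ => ⟨Or.inl hT0, by rw [hsi]; exact hiCL, ar_cl hT0,
          fun _ => rfl⟩⟩
      · by_cases hsb : s = (b : OnePoint ℂ)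
        · exact ⟨c0, z0, n0, z0, n0, n0, fun _ => ⟨Or.inl hT0, by rw [hsb]; exact hbCL, ar_cl hT0,
            fun _ => rfl⟩⟩
        · rw [hS1] at hs
          rcases hs with hs | hs
          · obtain ⟨hsc, z, n, hzn⟩ := hs
            have hA : TyA f s z n := by
              rcases hzn with (h1 | h1) | h1
              · exact Or.inl h1
              · exact Or.inr (Or.inl h1)
              · exact Or.inr (Or.inr (Or.inr h1))
            obtain ⟨i, hi⟩ := tyA_cl hA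
            exact ⟨s, z, n, f^[i] z, n, n, fun _ => ⟨hzn, hi, hi, fun h1 => absurd h1 hsi⟩⟩
          · rcases hs with hs | hs
            · exact absurd hs hsi
            · exact absurd hs hsb
    · exact ⟨s, s, 0, s, 0, 0, fun h1 => absurd h1 hs⟩
  choose t z m p n n' hdat using hex
  have hiS : (∞ : OnePoint ℂ) ∈ S1 := by
    rw [hS1]
    exact Or.inr (Or.inl rfl)
  have hbS : (b : OnePoint ℂ) ∈ S1 := by
    rw [hS1]
    exact Or.inr (Or.inr rfl)
  have hn : ∀ s ∈ S1, CL f s (p s) (n s) := fun s hs => (hdat s hs).2.1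
  have hS2K : ∀ s ∈ S2, ∃ m : ℕ, f^[m] s ∈ K' := by
    intro s hs
    rw [hS2] at hs
    exact hs.2
  have hcr : ∀ c, IsCrit f c → c ∈ S1 ∨ c ∈ S2 := by
    intro c hc
    rcases hcrit c hc with h1 | ⟨k, y, hy, hky⟩
    · left
      rw [hS1]
      exact Or.inl ⟨hc, h1⟩
    · right
      rw [hS2]
      refine ⟨hc, k, ?_⟩
      rw [hky, hK']
      exact ⟨y, hy, rfl⟩
  have hK'c : IsClosed K' := by
    rw [hK']
    exact (hK.compact.image continuous_coe).isClosed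
  have hKi' : ∀ x ∈ K', f x ∈ K' := by
    rw [hK']
    exact hKi
  have hsys : Sys0 (pol v0.1) (pol v0.2) (AK f S1 S2 p K') := by
    rw [hK', hf]
    rw [hf, hK'] at hS2K
    rw [hf] at hcr hKi hn
    exact sys_AK h hd1 hS1f hS2f hcr hK.compact hKi hn hS2K hiS hbS
  have hcnt : {x : ℂ | (x : OnePoint ℂ) ∈ AK f S1 S2 p K' ∧ x ∉ K}.Countable := by
    rw [hK']
    exact cnt_AK f hS1f hS2f p K
  obtain ⟨R0, hR0⟩ : ∃ R0 : ℝ, ∀ x : ℂ, R0 < ‖x‖ → ¬ Bad f (AK f S1 S2 p K') (x : OnePoint ℂ) := by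
    have h1 : ∀ᶠ x in 𝓝 (∞ : OnePoint ℂ), CL f x (p ∞) n0 := by
      rw [(hdat ∞ hiS).2.2.2 rfl]
      exact hinf
    rw [hf] at h1 ⊢
    exact hinf_AK h hiS h1
  have hNR := hnorec _ R0 hsys hK hcnt hR0
  have harea : volume {x : ℂ | Bad f (AK f S1 S2 p K') (x : OnePoint ℂ)} = 0 := by
    have h1 := area_chart hsys hNR (R0 := R0) (by
      rw [← hf]
      exact hR0)
    rw [← hf] at h1
    exact h1
  have hC : (⋃ q : ℕ, (fun s => f^[q] (z s)) '' S1).Countable :=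
    Set.countable_iUnion fun q => (hS1f.image _).countable
  have hlandn := land_null h hd1 hC
  rw [← hf] at hlandn
  have hmain : ∀ᵐ x : ℂ, ∃ (z : OnePoint ℂ) (n : ℕ), Ty12 f (x : OnePoint ℂ) z n := by
    have hae : ∀ᵐ x : ℂ, ¬ Bad f (AK f S1 S2 p K') (x : OnePoint ℂ) := by
      rw [ae_iff]
      simpa only [not_not] using harea
    filter_upwards [hae, hnull, hlandn] with x hx1 hx2 hx3
    rcases conv_clK hfc hS1f hS2f hK'c hKi' hn hS2K hx1 with ⟨s, hs, i, N, hCL⟩ | h2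
    · obtain ⟨h3, h4, h5, -⟩ := hdat s hs
      rw [hf] at h3 h5 hCL ⊢
      refine tail12 h hper h3 h5 hCL ?_
      intro j q hjq
      rw [← hf] at hjq
      exact hx3 j (Set.mem_iUnion.2 ⟨q, s, hs, hjq.symm⟩)
    · exfalso
      apply hx2
      rw [← hK']
      exact h2
  rwa [ae_iff] at hmain

end Pool.Agent.H35.EX
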