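import Mathlib

/-!
# Module Ascoli: a pointwise convergent subsequence of uniformly Lipschitz maps

PROOF. Let `D : ℕ → ℂ` be a sequence with dense range in the open ball `U = ball 0 R` (values in `U`;
`TopologicalSpace.exists_dense_seq` or `denseSeq` for the nonempty separable subspace `U`; `R > 0`). The sequence
`j ↦ (n ↦ Φ j (D n))` lies in the compact metrizable space `ℕ → closedBall 0 C` (for the finitely many `j` which
violate the bound pass to a tail first, or replace `Φ j` by a bounded map), so a subsequence `σ` converges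
(`IsCompact.tendsto_subseq`, `isCompact_univ_pi`, first countable). For `X ∈ U` the sequence `Φ (σ j) X` is Cauchy:
`‖Φ (σ j) X - Φ (σ k) X‖ ≤ 2 * L * ‖X - D n‖ + ‖Φ (σ j) (D n) - Φ (σ k) (D n)‖`; `cauchySeq_tendsto_of_complete`,
`choose`.
-/

set_option autoImplicit false

open Filter Topology Metric Set

namespace Pool.Agent.H35.EX

theorem ascoli {Φ : ℕ → ℂ → ℂ} {R C L : ℝ} (hR : 0 < R)
    (hb : ∀ᶠ j in atTop, ∀ X ∈ ball (0 : ℂ) R, ‖Φ j X‖ ≤ C)
    (hL : ∀ᶠ j in atTop, ∀ X ∈ ball (0 : ℂ) R, ∀ Y ∈ ball (0 : ℂ) R,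
      ‖Φ j X - Φ j Y‖ ≤ L * ‖X - Y‖) :
    ∃ (σ : ℕ → ℕ) (Ψ : ℂ → ℂ), StrictMono σ ∧
      ∀ X ∈ ball (0 : ℂ) R, Tendsto (fun j => Φ (σ j) X) atTop (𝓝 (Ψ X)) := by
  classical
  obtain ⟨N, hN⟩ := eventually_atTop.1 (hb.and hL)
  have hne : Nonempty (ball (0 : ℂ) R) := ⟨⟨0, mem_ball_self hR⟩⟩
  set D : ℕ → ball (0 : ℂ) R := TopologicalSpace.denseSeq (ball (0 : ℂ) R) with hD
  have hdense : DenseRange D := TopologicalSpace.denseRange_denseSeq _
  set K : Set (ℕ → ℂ) := Set.pi Set.univ (fun _ => closedBall (0 : ℂ) C) with hK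
  have hKc : IsCompact K := isCompact_univ_pi fun _ => isCompact_closedBall _ _
  have hin : ∀ j, (fun n => Φ (j + N) (D n : ℂ)) ∈ K := by
    intro j n _
    rw [mem_closedBall_zero_iff]
    exact (hN (j + N) (by omega)).1 _ (D n).2
  obtain ⟨g, -, τ, hτ, hconv⟩ := hKc.tendsto_subseq hin
  have hcs : ∀ X ∈ ball (0 : ℂ) R, ∃ y, Tendsto (fun j => Φ (τ j + N) X) atTop (𝓝 y) := by
    intro X hX
    apply cauchySeq_tendsto_of_complete
    rw [Metric.cauchySeq_iff]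
    intro ε hε
    have hL0 : 0 < 4 * (|L| + 1) := by positivity
    obtain ⟨n, hn⟩ : ∃ n, dist (⟨X, hX⟩ : ball (0 : ℂ) R) (D n) < ε / (4 * (|L| + 1)) :=
      hdense.exists_dist_lt _ (by positivity)
    have hn' : ‖X - (D n : ℂ)‖ < ε / (4 * (|L| + 1)) := by
      rw [← dist_eq_norm]; exact hn
    have hlim : Tendsto (fun j => Φ (τ j + N) (D n : ℂ)) atTop (𝓝 (g n)) := by
      have := (tendsto_pi_nhds.1 hconv) n
      exact this
    have hcau := hlim.cauchySeq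
    rw [Metric.cauchySeq_iff] at hcau
    obtain ⟨M, hM⟩ := hcau (ε / 2) (by positivity)
    refine ⟨M, fun a ha b hb' => ?_⟩
    have h1 : ‖Φ (τ a + N) X - Φ (τ a + N) (D n)‖ ≤ (|L| + 1) * ‖X - (D n : ℂ)‖ := by
      refine ((hN (τ a + N) (by omega)).2 X hX _ (D n).2).trans ?_
      have := le_abs_self L
      gcongr
      linarith
    have h2 : ‖Φ (τ b + N) X - Φ (τ b + N) (D n)‖ ≤ (|L| + 1) * ‖X - (D n : ℂ)‖ := by
      refine ((hN (τ b + N) (by omega)).2 X hX _ (D n).2).trans ?_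
      have := le_abs_self L
      gcongr
      linarith
    have h3 : (|L| + 1) * ‖X - (D n : ℂ)‖ < ε / 4 := by
      have h := mul_lt_mul_of_pos_left hn' (show 0 < |L| + 1 by positivity)
      refine h.trans_eq ?_
      field_simp
    have h4 := hM a ha b hb'
    rw [dist_eq_norm] at h4 ⊢
    have h5 : Φ (τ a + N) X - Φ (τ b + N) X =
        (Φ (τ a + N) X - Φ (τ a + N) (D n)) + (Φ (τ a + N) (D n) - Φ (τ b + N) (D n))
          - (Φ (τ b + N) X - Φ (τ b + N) (D n)) := by ring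
    rw [h5]
    calc _ ≤ ‖(Φ (τ a + N) X - Φ (τ a + N) (D n)) + (Φ (τ a + N) (D n) - Φ (τ b + N) (D n))‖
          + ‖Φ (τ b + N) X - Φ (τ b + N) (D n)‖ := norm_sub_le _ _
      _ ≤ ‖Φ (τ a + N) X - Φ (τ a + N) (D n)‖ + ‖Φ (τ a + N) (D n) - Φ (τ b + N) (D n)‖
          + ‖Φ (τ b + N) X - Φ (τ b + N) (D n)‖ := by gcongr; exact norm_add_le _ _
      _ < ε := by linarith
  choose! Ψ hΨ using hcs
  refine ⟨fun j => τ j + N, Ψ, fun a b hab => ?_, fun X hX => hΨ X hX⟩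
  have := hτ hab
  show τ a + N < τ b + N
  omega

end Pool.Agent.H35.EX
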