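import Pool.Agent.H35.EX.NRun
import Pool.Agent.H35.EX.Dist
import Pool.Agent.H35.EX.Ascoli

/-!
# Module BlowE: existence of limits of the rescalings

PROOF. Constants from `orb1 hK`, `R0` = the `R` of `dist_abs`. For the given `ρ`: `N, b` from `nrun`. Put
`Φ j X = it v0 (N (r j)) (x + X / trD v0 (N (r j)) x)`, `ν j = r j * trD v0 (N (r j)) x` with `b ≤ ‖ν j‖ ≤ ρ`
eventually. `dist_abs` for `f = it v0 1` (`iter_it`) gives the Lipschitz bounds `‖X - Y‖ / 2 ≤ ‖Φ j X - Φ j Y‖ ≤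
2 ‖X - Y‖`, and `Φ j 0 = it v0 (N ..) x ∈ K` (bounded), so `‖Φ j X‖ ≤ C_K + 2 R0`. `ascoli` gives `σ1` and `Ψ`; by
compactness of `{b ≤ ‖z‖ ≤ ρ}` a further subsequence `σ2` makes `ν` convergent, `μ` with `‖μ‖ ≥ b > 0`.
`σ = σ1 ∘ σ2`, `R = map (r ∘ σ) atTop ≤ 𝓝[>] 0` (`r j > 0`, `r → 0`). All fields of `Blow` are statements along
`R`, i.e. along `atTop` after composition with `r ∘ σ` (`Filter.eventually_map`, `Filter.tendsto_map'_iff`); the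
field `lip` holds for all `t` (it is `dist_abs` for the number `N t`).
-/

set_option autoImplicit false

open Filter Topology Polynomial Metric Set

namespace Pool.Agent.H35.EX

open Pool.Agent.H44.Fatou Pool.Agent.H32.BT Pool.Agent.H79.Eul Pool.Agent.H79.Par
open Pool.Agent.H35.RL

theorem blow_exists {d : ℕ} {v0 : E d} {K : Set ℂ} (hK : ExpK v0 K) :
    ∃ R0 : ℝ, 0 < R0 ∧ ∀ (x : ℂ), x ∈ K → ∀ ρ : ℝ, 0 < ρ → ∀ r : ℕ → ℝ, (∀ j, 0 < r j) →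
      Tendsto r atTop (𝓝 0) → ∃ (σ : ℕ → ℕ) (N : ℝ → ℕ) (μ : ℂ) (Ψ : ℂ → ℂ), StrictMono σ ∧
        Blow v0 x (map (r ∘ σ) atTop) N μ Ψ R0 ρ := by
  obtain ⟨ε, A, c0, B, θ, -, hC, -, horb⟩ := orb1 hK one_pos
  obtain ⟨R0, hR0, hdist⟩ := dist_abs hC
  refine ⟨R0, hR0, fun x hx ρ hρ r hr hr0 => ?_⟩
  have hO := hdist _ _ _ _ (horb x hx)
  obtain ⟨N, b, hb, hN, hNb⟩ := nrun hK hx hρ
  have hrt : Tendsto r atTop (𝓝[>] 0) :=
    tendsto_nhdsWithin_iff.2 ⟨hr0, Eventually.of_forall fun j => hr j⟩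
  have hlip : ∀ n : ℕ, ∀ X ∈ ball (0 : ℂ) R0, ∀ Y ∈ ball (0 : ℂ) R0,
      ‖X - Y‖ / 2 ≤ ‖it v0 n (x + X / trD v0 n x) - it v0 n (x + Y / trD v0 n x)‖ ∧
      ‖it v0 n (x + X / trD v0 n x) - it v0 n (x + Y / trD v0 n x)‖ ≤ 2 * ‖X - Y‖ := by
    intro n X hX Y hY
    have h := (hO n).2 X hX Y hY
    simp only [iter_it] at h
    exact h
  obtain ⟨CK, hCK⟩ : ∃ CK : ℝ, ∀ z ∈ K, ‖z‖ ≤ CK := hK.compact.isBounded.exists_norm_le
  have hbd : ∀ n : ℕ, ∀ X ∈ ball (0 : ℂ) R0, ‖it v0 n (x + X / trD v0 n x)‖ ≤ CK + 2 * R0 := by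
    intro n X hX
    have h1 := (hlip n X hX 0 (mem_ball_self hR0)).2
    rw [zero_div, add_zero, sub_zero] at h1
    have h2 := hCK _ (itK hK hx n)
    have h3 : ‖X‖ < R0 := by
      rw [mem_ball, dist_zero_right] at hX
      exact hX
    have h4 := norm_le_norm_add_norm_sub' (it v0 n (x + X / trD v0 n x)) (it v0 n x)
    linarith
  obtain ⟨σ1, Ψ, hσ1, hlim1⟩ := ascoli
    (Φ := fun j X => it v0 (N (r j)) (x + X / trD v0 (N (r j)) x)) (C := CK + 2 * R0) (L := 2) hR0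
    (Eventually.of_forall fun j => hbd (N (r j)))
    (Eventually.of_forall fun j X hX Y hY => (hlip (N (r j)) X hX Y hY).2)
  have hS : IsCompact (closedBall (0 : ℂ) ρ ∩ {z : ℂ | b ≤ ‖z‖}) :=
    (isCompact_closedBall (0 : ℂ) ρ).inter_right (isClosed_le continuous_const continuous_norm)
  have hν : ∀ᶠ j in atTop, ((r j : ℂ) * trD v0 (N (r j)) x) ∈
      (closedBall (0 : ℂ) ρ ∩ {z : ℂ | b ≤ ‖z‖}) := by
    filter_upwards [hrt.eventually hNb] with j hj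
    have h1 : ‖(r j : ℂ) * trD v0 (N (r j)) x‖ = r j * ‖trD v0 (N (r j)) x‖ := by
      rw [norm_mul, Complex.norm_real, Real.norm_of_nonneg (hr j).le]
    refine ⟨?_, ?_⟩
    · rw [mem_closedBall, dist_zero_right, h1]
      exact hj.2
    · rw [Set.mem_ofPred_eq, h1]
      exact hj.1
  have hν1 : ∀ᶠ j in atTop, ((r (σ1 j) : ℂ) * trD v0 (N (r (σ1 j))) x) ∈
      (closedBall (0 : ℂ) ρ ∩ {z : ℂ | b ≤ ‖z‖}) := hσ1.tendsto_atTop.eventually hν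
  obtain ⟨μ, hμS, σ2, hσ2, hμ⟩ := hS.tendsto_subseq' hν1.frequently
  have hσ : StrictMono (σ1 ∘ σ2) := hσ1.comp hσ2
  have hR : map (r ∘ (σ1 ∘ σ2)) atTop ≤ 𝓝[>] 0 := hrt.comp hσ.tendsto_atTop
  refine ⟨σ1 ∘ σ2, N, μ, Ψ, hσ, ?_⟩
  refine ⟨hR, hR0, hN.mono_left hR, ?_, ?_, ?_, Eventually.of_forall fun t => hlip (N t), ?_⟩
  · exact (hNb.filter_mono hR).mono fun t ht => ht.2
  · exact tendsto_map'_iff.2 hμ
  · intro h0
    have h1 : b ≤ ‖μ‖ := hμS.2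
    rw [h0, norm_zero] at h1
    linarith
  · intro X hX
    exact tendsto_map'_iff.2 ((hlim1 X hX).comp hσ2.tendsto_atTop)

end Pool.Agent.H35.EX
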