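import Pool.Agent.H35.EX.Defs
import Pool.Agent.H61.TT.Disj
import Pool.Agent.H79.Par.PerDec

/-!
# Module ExpU: unions of expanding sets; repelling cycles

PROOFS. `exp_empty`: everything is vacuous (`c = 1`, `q = 2`). `exp_union`: the minimum of the constants: `c = min c1 c2`, `q = min q1 q2`
(`pow_le_pow_left₀`). `exp_biUnion`: induction on the finite set. `rep_cycle`: `z` finite with all iterates finite (`hzf`), `FixMult (Rf v0)^[n] z a` with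
`1 < ‖a‖`: by `orb_all` and `fix_trD` (H79/Par/PerDec) `it v0 n z = z`, `trD v0 n z = a`. `K = {it v0 i z | i < n}` (or the range of `i ↦ it v0 i z`, equal to the
image of `range n`), finite, so compact, invariant (`it v0 n z = z`), `ev v0.2 ≠ 0`. For `w = it v0 i z` (`i < n`): `trD v0 n w = a` (`trD_rot` in H61/TT/Orbit, or
`disj_trD_add`: `trD v0 (i + n) z = trD v0 n w * trD v0 i z = trD v0 i (it v0 n z) * trD v0 n z`, and `trD v0 i z ≠ 0` because it is a factor of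
`trD v0 n z = a ≠ 0`). `trD v0 (n k + r) w = trD v0 r w * a ^ k` (`it v0 (n k) w = w`), `‖trD v0 r w‖ ≥ m0 > 0` for `r < n`, `w` in the finite set; `q = ‖a‖ ^ (1 / n)` (real power) or any
`q > 1` with `q ^ n ≤ ‖a‖`, `c = m0 / ‖a‖`: `c q ^ (n k + r) ≤ c ‖a‖ ^ (k + 1) = m0 ‖a‖ ^ k`.
-/

set_option autoImplicit false

open Filter Topology Polynomial Metric Set

namespace Pool.Agent.H35.EX

open Pool.Agent.H44.Fatou Pool.Agent.H32.BT Pool.Agent.H79.Eul Pool.Agent.H79.Par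

theorem exp_empty {d : ℕ} (v0 : E d) : ExpK v0 ∅ where
  compact := isCompact_empty
  den := fun z hz => absurd hz (Set.notMem_empty z)
  maps := fun z hz => absurd hz (Set.notMem_empty z)
  exp := ⟨1, 2, one_pos, one_lt_two, fun z hz => absurd hz (Set.notMem_empty z)⟩

theorem exp_union {d : ℕ} {v0 : E d} {K1 K2 : Set ℂ} (h1 : ExpK v0 K1) (h2 : ExpK v0 K2) :
    ExpK v0 (K1 ∪ K2) := by
  obtain ⟨c1, q1, hc1, hq1, he1⟩ := h1.exp
  obtain ⟨c2, q2, hc2, hq2, he2⟩ := h2.exp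
  refine ⟨h1.compact.union h2.compact, ?_, ?_, min c1 c2, min q1 q2, lt_min hc1 hc2,
    lt_min hq1 hq2, ?_⟩
  · rintro z (hz | hz)
    · exact h1.den z hz
    · exact h2.den z hz
  · rintro z (hz | hz)
    · exact Or.inl (h1.maps z hz)
    · exact Or.inr (h2.maps z hz)
  · have hq0 : 0 ≤ min q1 q2 := (lt_min (one_pos.trans hq1) (one_pos.trans hq2)).le
    rintro z (hz | hz) n
    · refine le_trans ?_ (he1 z hz n)
      exact mul_le_mul (min_le_left _ _) (pow_le_pow_left₀ hq0 (min_le_left _ _) n)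
        (pow_nonneg hq0 n) hc1.le
    · refine le_trans ?_ (he2 z hz n)
      exact mul_le_mul (min_le_right _ _) (pow_le_pow_left₀ hq0 (min_le_right _ _) n)
        (pow_nonneg hq0 n) hc2.le

theorem exp_biUnion {d : ℕ} {v0 : E d} {ι : Type*} {I : Set ι} (hI : I.Finite) {K : ι → Set ℂ}
    (h : ∀ i ∈ I, ExpK v0 (K i)) : ExpK v0 (⋃ i ∈ I, K i) := by
  induction I, hI using Set.Finite.induction_on with
  | empty =>
    rw [Set.biUnion_empty]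
    exact exp_empty v0
  | insert _ _ ih =>
    rw [Set.biUnion_insert]
    exact exp_union (h _ (Set.mem_insert _ _)) (ih fun i hi => h i (Set.mem_insert_of_mem _ hi))

/-- growth along one orbit -/
theorem rep_growth {d : ℕ} {v0 : E d} {z : ℂ} {n : ℕ} (hn : 0 < n) {a : ℂ} (ha : 1 < ‖a‖)
    (h1 : it v0 n z = z) (h2 : trD v0 n z = a) :
    ∃ c q : ℝ, 0 < c ∧ 1 < q ∧ ∀ N : ℕ, c * q ^ N ≤ ‖trD v0 N z‖ := by
  have ha0 : a ≠ 0 := by
    intro h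
    rw [h, norm_zero] at ha
    linarith
  have hne : ∀ r ≤ n, trD v0 r z ≠ 0 := by
    intro r hr h0
    apply ha0
    rw [← h2]
    obtain ⟨s, rfl⟩ := Nat.exists_eq_add_of_le hr
    rw [Pool.Agent.H61.TT.disj_trD_add, h0, mul_zero]
  obtain ⟨r0, hr0, hmin⟩ := Finset.exists_min_image (Finset.range n) (fun r => ‖trD v0 r z‖)
    ⟨0, Finset.mem_range.2 hn⟩
  have hm0 : 0 < ‖trD v0 r0 z‖ :=
    norm_pos_iff.2 (hne r0 (Finset.mem_range.1 hr0).le)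
  have ha1 : 0 < ‖a‖ := by linarith
  have hq1 : 1 < ‖a‖ ^ ((n : ℝ)⁻¹) :=
    Real.one_lt_rpow ha (inv_pos.2 (Nat.cast_pos.2 hn))
  have hqn : (‖a‖ ^ ((n : ℝ)⁻¹)) ^ n = ‖a‖ := Real.rpow_inv_natCast_pow ha1.le hn.ne'
  refine ⟨‖trD v0 r0 z‖ / ‖a‖, ‖a‖ ^ ((n : ℝ)⁻¹), div_pos hm0 ha1, hq1, fun N => ?_⟩
  have hN : N = n * (N / n) + N % n := (Nat.div_add_mod N n).symm
  have hr : N % n < n := Nat.mod_lt N hn
  have h3 : trD v0 N z = trD v0 (N % n) z * a ^ (N / n) := by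
    conv_lhs => rw [hN]
    rw [Pool.Agent.H61.TT.disj_trD_add, Pool.Agent.H61.TT.disj_it_mul v0 h1,
      Pool.Agent.H61.TT.disj_trD_pow v0 h1, h2]
  have h4 : (‖a‖ ^ ((n : ℝ)⁻¹)) ^ N ≤ ‖a‖ ^ (N / n + 1) := by
    rw [← hqn, ← pow_mul, hqn]
    refine pow_le_pow_right₀ hq1.le ?_
    rw [Nat.mul_add, Nat.mul_one]
    omega
  have h5 : ‖trD v0 r0 z‖ ≤ ‖trD v0 (N % n) z‖ := hmin _ (Finset.mem_range.2 hr)
  rw [h3, norm_mul, norm_pow]
  calc ‖trD v0 r0 z‖ / ‖a‖ * (‖a‖ ^ ((n : ℝ)⁻¹)) ^ N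
      ≤ ‖trD v0 r0 z‖ / ‖a‖ * ‖a‖ ^ (N / n + 1) :=
        mul_le_mul_of_nonneg_left h4 (div_pos hm0 ha1).le
    _ = ‖trD v0 r0 z‖ * ‖a‖ ^ (N / n) := by
        rw [pow_succ]
        field_simp
    _ ≤ ‖trD v0 (N % n) z‖ * ‖a‖ ^ (N / n) :=
        mul_le_mul_of_nonneg_right h5 (pow_nonneg ha1.le _)

theorem rep_cycle {d : ℕ} {v0 : E d} {z : ℂ} {n : ℕ} (hn : 0 < n) {a : ℂ} (ha : 1 < ‖a‖)
    (hM : FixMult (Rf v0)^[n] (z : OnePoint ℂ) a)
    (hzf : ∀ j, (Rf v0)^[j] (z : OnePoint ℂ) ≠ OnePoint.infty) :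
    ∃ K : Set ℂ, ExpK v0 K ∧ z ∈ K := by
  obtain ⟨ho, -⟩ := orb_all hzf
  have hM' : FixMult (Rf v0)^[n] (((fun j => it v0 j z) 0 : ℂ) : OnePoint ℂ) a := hM
  obtain ⟨h1, h2⟩ := fix_trD (ho n) hM'
  replace h1 : it v0 n z = z := h1
  replace h2 : trD v0 n z = a := h2
  obtain ⟨c, q, hc, hq, hg⟩ := rep_growth hn ha h1 h2
  have hpos : ∀ N, 0 < ‖trD v0 N z‖ := fun N =>
    (mul_pos hc (pow_pos (one_pos.trans hq) N)).trans_le (hg N)
  obtain ⟨r0, hr0, hmax⟩ := Finset.exists_max_image (Finset.range n) (fun r => ‖trD v0 r z‖)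
    ⟨0, Finset.mem_range.2 hn⟩
  refine ⟨(fun i => it v0 i z) '' (Finset.range n : Set ℕ), ⟨?_, ?_, ?_, ?_⟩, ?_⟩
  · exact ((Finset.finite_toSet _).image _).isCompact
  · rintro w ⟨i, -, rfl⟩
    exact (ho (i + 1) i (Nat.lt_succ_self i)).1
  · rintro w ⟨i, hi, rfl⟩
    have hi' : i < n := Finset.mem_range.1 (Finset.mem_coe.1 hi)
    show it v0 1 (it v0 i z) ∈ _
    rw [← Pool.Agent.H61.TT.disj_it_add]
    rcases Nat.lt_or_ge (i + 1) n with h | h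
    · exact ⟨i + 1, Finset.mem_coe.2 (Finset.mem_range.2 h), rfl⟩
    · have h3 : i + 1 = n := by omega
      refine ⟨0, Finset.mem_coe.2 (Finset.mem_range.2 hn), ?_⟩
      rw [h3, h1]
      rfl
  · refine ⟨c / ‖trD v0 r0 z‖, q, div_pos hc (hpos r0), hq, ?_⟩
    rintro w ⟨i, hi, rfl⟩ N
    show _ ≤ ‖trD v0 N (it v0 i z)‖
    have h3 := congrArg norm (Pool.Agent.H61.TT.disj_trD_add v0 i N z)
    rw [norm_mul] at h3
    have h4 := hg (i + N)
    rw [h3] at h4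
    have h5 : ‖trD v0 i z‖ ≤ ‖trD v0 r0 z‖ := hmax i (Finset.mem_coe.1 hi)
    have h6 : c * q ^ N ≤ c * q ^ (i + N) :=
      mul_le_mul_of_nonneg_left (pow_le_pow_right₀ hq.le (Nat.le_add_left N i)) hc.le
    have h7 : ‖trD v0 N (it v0 i z)‖ * ‖trD v0 i z‖ ≤
        ‖trD v0 N (it v0 i z)‖ * ‖trD v0 r0 z‖ :=
      mul_le_mul_of_nonneg_left h5 (norm_nonneg _)
    rw [div_mul_eq_mul_div, div_le_iff₀ (hpos r0)]
    exact h6.trans (h4.trans h7)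
  · exact ⟨0, Finset.mem_coe.2 (Finset.mem_range.2 hn), rfl⟩

end Pool.Agent.H35.EX
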