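import Pool.Agent.H35.EX.Chord
import Pool.Agent.H80.AJ.Defs
import Pool.Agent.H79.Par.PerFin
import Pool.Agent.H79.Par.XX

/-!
# Module KB: an expanding set does not meet an open set of points converging to one cycle

PROOFS. `exp_land`: let `y_k = f^[n * k] x → z`, `z ∈ K`, `f^[n] z = z`. `N, q` from `hE`. `chord z (f^[N * n] y) ≥ q ^ n * chord z y` for `y` near `z`: iterate `hE` along the
points `f^[N * i] z ∈ K`, `i < n` (continuity of `f^[N * i]`), `f^[N * n] z = z`. So for large `k`: `chord z (y_(k+N)) ≥ q * chord z y_k`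
(`0 < n`, `q ^ n ≥ q`). If `y_k ≠ z` for all `k` (in particular for large `k`) then `chord z (y_(k + N j)) ≥ q ^ j * chord z y_k`, with `chord z y_k > 0` (`chord_pos`), does not tend
to zero, against `chord_tendsto`. (If `N = 0`: `chord z y ≥ q * chord z y` for `y = y_k` gives `y_k = z` at once.)
`exp_disj`: suppose `x0 ∈ K ∩ U`. `f^[n k] x0 ∈ K → z`, `K` closed (compact, Hausdorff), so `z ∈ K`. By `exp_land` every `x ∈ U` lands on `z`, so `U` is contained in
`{x | ∃ j, f^[j] x = z}`, countable (`pre_countable`, H79/Par/PerFin). But `U` is open and nonempty: its preimage in `ℂ` is open,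
nonempty (dense range of the coercion) and not countable (positive volume, or `Countable.dense_compl`).
-/

set_option autoImplicit false

open Filter Topology Polynomial Metric Set

namespace Pool.Agent.H35.EX

open Pool.Agent.H44.Fatou Pool.Agent.H32.BT Pool.Agent.H79.Eul Pool.Agent.H79.Par
open Pool.Agent.H80.AJ

theorem exp_land {f : OnePoint ℂ → OnePoint ℂ} (hf : Continuous f) {K : Set (OnePoint ℂ)}
    (hE : Expd f K) {x z : OnePoint ℂ} {n : ℕ} (hz : z ∈ K) (h : CL f x z n) :
    ∃ j : ℕ, f^[j] x = z := by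
  obtain ⟨hn, hzn, hlim⟩ := h
  obtain ⟨-, hmaps, N, q, hq, hexp⟩ := hE
  by_contra hne
  push Not at hne
  have key : ∀ i : ℕ, ∀ᶠ y in 𝓝 z, q ^ i * chord z y ≤ chord (f^[N * i] z) (f^[N * i] y) := by
    intro i
    induction i with
    | zero => exact Eventually.of_forall fun y => by simp
    | succ i ih =>
      have hK : f^[N * i] z ∈ K := hmaps.iterate _ hz
      have hc : Tendsto (f^[N * i]) (𝓝 z) (𝓝 (f^[N * i] z)) := (hf.iterate _).continuousAt
      filter_upwards [ih, hc.eventually (hexp _ hK)] with y h1 h2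
      have e : ∀ w, f^[N * (i + 1)] w = f^[N] (f^[N * i] w) := by
        intro w
        rw [← Function.iterate_add_apply]
        congr 1
        ring_nf
      rw [e, e]
      calc q ^ (i + 1) * chord z y = q * (q ^ i * chord z y) := by ring
        _ ≤ q * chord (f^[N * i] z) (f^[N * i] y) :=
            mul_le_mul_of_nonneg_left h1 (by linarith)
        _ ≤ _ := h2
  have hfix : f^[N * n] z = z := by
    rw [mul_comm, Function.iterate_mul]
    exact Function.iterate_fixed hzn N
  have hev : ∀ᶠ k : ℕ in atTop,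
      q ^ n * chord z (f^[n * k] x) ≤ chord z (f^[n * (k + N)] x) := by
    filter_upwards [hlim.eventually (key n)] with k hk
    rw [hfix, ← Function.iterate_add_apply] at hk
    have e : N * n + n * k = n * (k + N) := by ring
    rwa [e] at hk
  obtain ⟨k0, hk0⟩ := eventually_atTop.1 hev
  have hpos : ∀ k : ℕ, 0 < chord z (f^[n * k] x) := fun k => chord_pos (hne _).symm
  have hqn : 1 < q ^ n := one_lt_pow₀ hq hn.ne'
  have hstep : ∀ k, k0 ≤ k → chord z (f^[n * k] x) < chord z (f^[n * (k + N)] x) := by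
    intro k hk
    have h1 := hk0 k hk
    have h2 := hpos k
    nlinarith
  rcases Nat.eq_zero_or_pos N with hN | hN
  · have := hstep k0 le_rfl
    rw [hN] at this
    exact lt_irrefl _ this
  · have hmono : ∀ j : ℕ, chord z (f^[n * k0] x) ≤ chord z (f^[n * (k0 + N * j)] x) := by
      intro j
      induction j with
      | zero => simp
      | succ j ih =>
        have h1 := hstep (k0 + N * j) (by omega)
        have e : k0 + N * (j + 1) = k0 + N * j + N := by ring
        rw [e]
        exact ih.trans h1.le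
    have ht : Tendsto (fun j : ℕ => k0 + N * j) atTop atTop := by
      refine tendsto_atTop_mono (f := fun j => j) (fun j => ?_) tendsto_id
      have : j ≤ N * j := Nat.le_mul_of_pos_left j hN
      omega
    have h0 : Tendsto (fun j : ℕ => chord z (f^[n * (k0 + N * j)] x)) atTop (𝓝 0) :=
      (chord_tendsto hlim).comp ht
    have := ge_of_tendsto' h0 hmono
    exact absurd (hpos k0) (not_lt.2 this)

theorem exp_disj {P Q : Polynomial ℂ} (h : IsCoprime P Q) (hd : 1 ≤ max P.natDegree Q.natDegree)
    {K : Set (OnePoint ℂ)} (hE : Expd (rat P Q) K) {U : Set (OnePoint ℂ)} (hU : IsOpen U)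
    {z : OnePoint ℂ} {n : ℕ} (hUz : ∀ x ∈ U, CL (rat P Q) x z n) : Disjoint K U := by
  rw [Set.disjoint_left]
  intro x0 hx0 hxU
  have hcont : Continuous (rat P Q) := rat_continuous h
  have hzK : z ∈ K := by
    obtain ⟨-, -, hlim⟩ := hUz x0 hxU
    exact hE.1.isClosed.mem_of_tendsto hlim
      (Eventually.of_forall fun k => hE.2.1.iterate _ hx0)
  have hsub : U ⊆ {x : OnePoint ℂ | ∃ j : ℕ, (rat P Q)^[j] x = z} := fun x hx =>
    exp_land hcont hE hzK (hUz x hx)
  have hcU : U.Countable := (pre_countable h hd z).mono hsub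
  have hV : IsOpen ((fun w : ℂ => (w : OnePoint ℂ)) ⁻¹' U) :=
    hU.preimage OnePoint.continuous_coe
  have hcV : ((fun w : ℂ => (w : OnePoint ℂ)) ⁻¹' U).Countable :=
    hcU.preimage OnePoint.coe_injective
  have hne : ((fun w : ℂ => (w : OnePoint ℂ)) ⁻¹' U).Nonempty := by
    obtain ⟨y, hy, w, rfl⟩ := (OnePoint.denseRange_coe (X := ℂ)).inter_open_nonempty U hU ⟨x0, hxU⟩
    exact ⟨w, hy⟩
  obtain ⟨w, hw, hw'⟩ := (hcV.dense_compl ℝ).inter_open_nonempty _ hV hne
  exact hw' hw

end Pool.Agent.H35.EX
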