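import Pool.Agent.H35.EX.GoodU
import Pool.Agent.H35.EX.KB
import Pool.Agent.H35.EX.ExpConj
import Pool.Agent.H35.EX.ExpU

/-!
# Module ChartK: a good chart for a map with expanding sets

PROOF. `f = Rf v0`. `c0, z0, n0, U` from `cyc_open`. `Cr = {c | IsCrit f c}` finite (`crit_finite`). For `c ∈ Cr` choose `zz c` (the limit of type `TyA`) or `KK c`
(`Expd f (KK c)`). `S = {periodic points} ∪ Cr ∪ ⋃ c ∈ Cr, range (f^[j] c) ∪ ⋃ c ∈ Cr, range (f^[j] (zz c)) ∪ range (f^[j] z0)`, countable. `good_U` gives `s, φ`; `g = Rf (Lin s v0)`.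
`g^[j] (φ x) = φ (f^[j] x)` (`iter_conj`) is infinite only if `f^[j] x = s`. `Chart0`: as in `exists_chart0` (H79/Par/GMain). `¬ IsCrit g ∞`: `isCrit_conj`. `s ∉ KK c` by `exp_disj`
(`s ∈ U`), so `exp_conj` gives `ExpK (Lin s v0) {w | ∃ x ∈ KK c, φ x = w}`. For `c` of type 3 (`Ty3 g (φ c) (φ zz) n`, `ty_conj`): `rep_cycle` for the finite point `φ (zz c)`. `K` = the finite
union (`exp_biUnion` over `Cr` of a family which is one of the two sets, or `∅` for the other types). Type 1, 2, 4: `ty_conj` (H79/Par/TanConj; `zz c ≠ s`).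
`Ty12 g (φ c0) (φ z0) n0`: `ty12_conj` (`z0 ≠ s`). Near infinity: `s ∈ U` open, so `CL f x z0 n0` for `x` near `s`; `CL g (φ x) (φ z0) n0` (as `CL.conj`, H80/AJ/Types, for the
homeomorphism `φ.symm`, or directly), and `φ` is a homeomorphism with `φ s = ∞`: `φ.symm` is continuous at `∞`.
A critical point `(c : ℂ)` of `g` is `φ c'` with `c' ∈ Cr` (`isCrit_conj`, `φ.surjective`). If `f^[m] c' = x ∈ KK c'` then `g^[m] c = φ x` is a point of `K`. In the case of type 3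
`f^[m] c' = zz c'`.
-/

set_option autoImplicit false

open Filter Topology Polynomial Metric Set

namespace Pool.Agent.H35.EX

open Pool.Agent.H44.Fatou Pool.Agent.H32.BT Pool.Agent.H79.Eul Pool.Agent.H79.Par
open Pool.Agent.H80.AJ

theorem chart_K {d : ℕ} (hd : 2 ≤ d) {v0 : E d} (hcop : IsCoprime (pol v0.1) (pol v0.2))
    (hdeg : max (pol v0.1).natDegree (pol v0.2).natDegree = d)
    (h : ∀ c, IsCrit (Rf v0) c → (∃ z n, TyA (Rf v0) c z n) ∨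
      ∃ K : Set (OnePoint ℂ), Expd (Rf v0) K ∧ ∃ m : ℕ, (Rf v0)^[m] c ∈ K)
    (hex : ∃ z n, NRCycle (Rf v0) z n) :
    ∃ (s : ℂ) (K : Set ℂ), Chart0 (Lin s v0) ∧ ¬ IsCrit (Rf (Lin s v0)) OnePoint.infty ∧
      ExpK (Lin s v0) K ∧
      (∃ (c0 z0 : OnePoint ℂ) (n0 : ℕ), Ty12 (Rf (Lin s v0)) c0 z0 n0 ∧
        ∀ᶠ x in 𝓝 (OnePoint.infty : OnePoint ℂ), CL (Rf (Lin s v0)) x z0 n0) ∧
      ∀ c : ℂ, IsCrit (Rf (Lin s v0)) (c : OnePoint ℂ) →
        (∃ (z : ℂ) (n : ℕ), (Ty12 (Rf (Lin s v0)) (c : OnePoint ℂ) (z : OnePoint ℂ) n ∨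
            Ty4 (Rf (Lin s v0)) (c : OnePoint ℂ) (z : OnePoint ℂ) n) ∧
          ∀ j, (Rf (Lin s v0))^[j] (z : OnePoint ℂ) ≠ OnePoint.infty) ∨
        ∃ m : ℕ, ∃ y ∈ K, (Rf (Lin s v0))^[m] (c : OnePoint ℂ) = (y : OnePoint ℂ) := by
  classical
  have hd1 : 1 ≤ max (pol v0.1).natDegree (pol v0.2).natDegree := by rw [hdeg]; omega
  have hd2 : 2 ≤ max (pol v0.1).natDegree (pol v0.2).natDegree := by rw [hdeg]; exact hd
  obtain ⟨c0, z0, n0, U, hT0, hU, hUn, hUC⟩ := cyc_open hd hcop hdeg hex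
  have hch : ∀ c : OnePoint ℂ, ∃ (z : OnePoint ℂ) (K : Set (OnePoint ℂ)), IsCrit (Rf v0) c →
      (∃ n, TyA (Rf v0) c z n) ∨ (Expd (Rf v0) K ∧ ∃ m : ℕ, (Rf v0)^[m] c ∈ K) := by
    intro c
    by_cases hc : IsCrit (Rf v0) c
    · rcases h c hc with ⟨z, n, hz⟩ | ⟨K, hK, m, hm⟩
      · exact ⟨z, ∅, fun _ => Or.inl ⟨n, hz⟩⟩
      · exact ⟨c, K, fun _ => Or.inr ⟨hK, m, hm⟩⟩
    · exact ⟨c, ∅, fun hc' => absurd hc' hc⟩
  choose zz KK hzK using hch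
  have hfin : {c | IsCrit (Rf v0) c}.Finite := crit_finite hcop hd1
  obtain ⟨S, hS⟩ : ∃ S : Set (OnePoint ℂ), S =
      (({x : OnePoint ℂ | ∃ n : ℕ, 0 < n ∧ (Rf v0)^[n] x = x} ∪ {c | IsCrit (Rf v0) c}) ∪
      ((⋃ c ∈ {c | IsCrit (Rf v0) c}, Set.range (fun j : ℕ => (Rf v0)^[j] c)) ∪
      (⋃ c ∈ {c | IsCrit (Rf v0) c}, Set.range (fun j : ℕ => (Rf v0)^[j] (zz c))))) ∪
      Set.range (fun j : ℕ => (Rf v0)^[j] z0) := ⟨_, rfl⟩
  have hScount : S.Countable := by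
    rw [hS]
    refine Set.Countable.union (((per_all_countable hcop hd2).union hfin.countable).union
      (Set.Countable.union ?_ ?_)) (Set.countable_range _)
    · exact hfin.countable.biUnion fun c _ => Set.countable_range _
    · exact hfin.countable.biUnion fun c _ => Set.countable_range _
  obtain ⟨s, φ, hsS, hsU, hφs, hφ, hφi, hconj, hcop1, hdeg1⟩ := good_U hd hcop hdeg hScount hU hUn
  rw [hS] at hsS
  have hs0 : ∀ n : ℕ, 0 < n → (Rf v0)^[n] (s : OnePoint ℂ) ≠ s :=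
    fun n hn hh => hsS (Or.inl (Or.inl (Or.inl ⟨n, hn, hh⟩)))
  have hs1 : ¬ IsCrit (Rf v0) (s : OnePoint ℂ) :=
    fun hh => hsS (Or.inl (Or.inl (Or.inr hh)))
  have hs2 : ∀ c, IsCrit (Rf v0) c → ∀ j, (Rf v0)^[j] c ≠ (s : OnePoint ℂ) := by
    intro c hc j hj
    apply hsS
    refine Or.inl (Or.inr (Or.inl ?_))
    rw [Set.mem_iUnion₂]
    exact ⟨c, hc, j, hj⟩
  have hs3 : ∀ c, IsCrit (Rf v0) c → ∀ j, (Rf v0)^[j] (zz c) ≠ (s : OnePoint ℂ) := by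
    intro c hc j hj
    apply hsS
    refine Or.inl (Or.inr (Or.inr ?_))
    rw [Set.mem_iUnion₂]
    exact ⟨c, hc, j, hj⟩
  have hs4 : z0 ≠ (s : OnePoint ℂ) := fun hh => hsS (Or.inr ⟨0, hh⟩)
  have hne : ∀ x : OnePoint ℂ, x ≠ (s : OnePoint ℂ) → φ x ≠ OnePoint.infty := by
    intro x hx hh
    rw [← hφs] at hh
    exact hx (φ.injective hh)
  have hic : ∀ (j : ℕ) (x : OnePoint ℂ), (Rf (Lin s v0))^[j] (φ x) = φ ((Rf v0)^[j] x) :=
    fun j x => iter_conj φ hconj j x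
  -- the sets
  have hKs : ∀ c : OnePoint ℂ, ∃ K1 : Set ℂ, ExpK (Lin s v0) K1 ∧ (IsCrit (Rf v0) c →
      (∃ (z : ℂ) (n : ℕ), (Ty12 (Rf (Lin s v0)) (φ c) (z : OnePoint ℂ) n ∨
          Ty4 (Rf (Lin s v0)) (φ c) (z : OnePoint ℂ) n) ∧
        ∀ j, (Rf (Lin s v0))^[j] (z : OnePoint ℂ) ≠ OnePoint.infty) ∨
      ∃ m : ℕ, ∃ y ∈ K1, (Rf (Lin s v0))^[m] (φ c) = (y : OnePoint ℂ)) := by
    intro c
    by_cases hc : IsCrit (Rf v0) c
    · rcases hzK c hc with ⟨n, hT⟩ | ⟨hE, m, hm⟩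
      · have hz0 : zz c ≠ (s : OnePoint ℂ) := hs3 c hc 0
        obtain ⟨w, hw⟩ := OnePoint.ne_infty_iff_exists.1 (hne _ hz0)
        have hwf : ∀ j, (Rf (Lin s v0))^[j] (w : OnePoint ℂ) ≠ OnePoint.infty := by
          intro j
          rw [hw, hic]
          exact hne _ (hs3 c hc j)
        obtain ⟨t1, t2, t3, t4⟩ := ty_conj hφs hφ hφi hconj (c := c) hz0 (n := n)
        rw [← hw] at t1 t2 t3 t4
        rcases hT with hT | hT | hT | hT
        · exact ⟨∅, exp_empty _, fun _ => Or.inl ⟨w, n, Or.inl (Or.inl (t1 hT)), hwf⟩⟩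
        · exact ⟨∅, exp_empty _, fun _ => Or.inl ⟨w, n, Or.inl (Or.inr (t2 hT)), hwf⟩⟩
        · obtain ⟨hn, ⟨a, ha, hfix⟩, m, hm⟩ := t3 hT
          obtain ⟨K1, hK1, hwK⟩ := rep_cycle hn ha hfix hwf
          exact ⟨K1, hK1, fun _ => Or.inr ⟨m, w, hwK, hm⟩⟩
        · exact ⟨∅, exp_empty _, fun _ => Or.inl ⟨w, n, Or.inr (t4 hT), hwf⟩⟩
      · have hdis : Disjoint (KK c) U := exp_disj hcop hd1 hE hU hUC
        have hsK : (s : OnePoint ℂ) ∉ KK c := fun hh => Set.disjoint_left.1 hdis hh hsU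
        refine ⟨_, exp_conj hd hφs hφ hφi hconj hcop1 hdeg1 hE hsK, fun _ => Or.inr ⟨m, ?_⟩⟩
        have hx : (Rf v0)^[m] c ≠ (s : OnePoint ℂ) := fun hh => hsK (by rw [← hh]; exact hm)
        obtain ⟨w, hw⟩ := OnePoint.ne_infty_iff_exists.1 (hne _ hx)
        exact ⟨w, ⟨_, hm, hw.symm⟩, by rw [hic]; exact hw.symm⟩
    · exact ⟨∅, exp_empty _, fun hc' => absurd hc' hc⟩
  choose K1 hK1 hK1c using hKs
  refine ⟨s, ⋃ c ∈ {c | IsCrit (Rf v0) c}, K1 c, ⟨hcop1, hdeg1, ?_, ?_⟩, ?_,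
    exp_biUnion hfin fun c _ => hK1 c, ⟨φ c0, φ z0, n0,
      ty12_conj hφs hφ hφi hconj hs4 hT0, ?_⟩, ?_⟩
  · intro n hn hcon
    rw [← hφs, hic] at hcon
    exact hs0 n hn (φ.injective hcon)
  · intro c hc j
    obtain ⟨c', rfl⟩ := φ.surjective c
    rw [isCrit_conj φ hconj] at hc
    rw [hic]
    exact hne _ (hs2 c' hc j)
  · rw [← hφs, isCrit_conj φ hconj]
    exact hs1
  · have h1 : φ.symm OnePoint.infty = (s : OnePoint ℂ) := by
      rw [← hφs, φ.symm_apply_apply]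
    have h2 : ∀ᶠ x in 𝓝 (OnePoint.infty : OnePoint ℂ), φ.symm x ∈ U := by
      apply φ.symm.continuous.continuousAt
      rw [h1]
      exact hU.mem_nhds hsU
    have h3 : ∀ x, Rf v0 (φ.symm x) = φ.symm (Rf (Lin s v0) x) := by
      intro x
      have h4 := hconj (φ.symm x)
      rw [φ.apply_symm_apply] at h4
      rw [h4, φ.symm_apply_apply]
    filter_upwards [h2] with x hx
    have h5 := hUC _ hx
    apply CL.conj φ.symm h3
    rw [φ.symm_apply_apply]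
    exact h5
  · intro c hc
    obtain ⟨c', hc'⟩ := φ.surjective (c : OnePoint ℂ)
    have hcr : IsCrit (Rf v0) c' := by
      rw [← isCrit_conj φ hconj, hc']
      exact hc
    rw [← hc']
    rcases hK1c c' hcr with h1 | ⟨m, y, hy, hm⟩
    · exact Or.inl h1
    · refine Or.inr ⟨m, y, ?_, hm⟩
      rw [Set.mem_iUnion₂]
      exact ⟨c', hcr, hy⟩

end Pool.Agent.H35.EX
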