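import Pool.Agent.H80.AJ.ConvCL
import Pool.Agent.H80.AJ.SetAA

/-!
# Module ClusK: limit sets of good orbits, post-critical set with a compact invariant part

`AK`: orbits and limit cycles of the seeds `S1`, orbits of the seeds `S2` (which end in `K`), and `K`.
PROOFS. `cluster_perK`: adapt the proof of `cluster_per` (H80/AJ/ClusterPer). Suppose `y ∉ K` and `y` is not of the form
`f^[i] (p s)`, `s ∈ S1`. For every `m` there is a cluster point `y'` with `f^[m] y' = y` (`cluster_preimage`), `y' ∈ AK` by `hx`,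
not in `K` (else `y ∈ K`, `hKi`), not `f^[j] (p s)`; so `y' = f^[j] s`, `y = f^[j + m] s` with `s ∈ S1 ∪ S2`. One `s` occurs for infinitely
many exponents `e`. If `s ∈ S2`: `f^[e0] s ∈ K` for some `e0`, so `y = f^[e] s ∈ K` for some `e ≥ e0`, contradiction. If `s ∈ S1`: exactly as in
`cluster_per`.
`split`: disjoint open `U ⊇ C`, `U' ⊇ K` (`SeparatedNhds.of_isCompact_isCompact`). `W = U ∩ f ⁻¹' U ⊇ C`, `W' = U' ∩ f ⁻¹' U' ⊇ K`
open. Eventually `f^[k] x ∈ W ∪ W'` (otherwise a cluster point in the compact set `(W ∪ W')ᶜ`,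
`IsCompact.exists_mapClusterPt_of_frequently`, as in `conv_one`). If `f^[k] x ∈ W` then `f^[k+1] x ∈ U` is not in `W'`, so it is in `W`; similarly
for `W'`. So either eventually always in `W` (then no cluster point is in `K ⊆ U'` open disjoint from `U`), or eventually always in
`W'`.
`near_K`: if all cluster points are in `K` then for open `U ⊇ K` eventually `f^[k] x ∈ U` (same compactness argument).
`conv_clK`: `C = {f^[i] (p s) | s ∈ S1, i} \ K` is finite (as in `conv_cl`), invariant: if `c ∈ C`, `f c = f^[i+1] (p s)`, and `f c ∈ K` would give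
`c = f^[N-1] (f c) ∈ K`, where `N > 0` is a common period (product of the `n s`). Cluster points of the orbit of `x` are in `C ∪ K`
(`cluster_perK`). `split`: if all are in `C`, `conv_one` with `N`: `CL f x c N`. If all are in `K`: `near_K`.
-/

set_option autoImplicit false

open Filter Topology Set

namespace Pool.Agent.H35.EX

open Pool.Agent.H80.AJ

/-- the post-critical set: seeds `S1` converging to cycles, seeds `S2` ending in `K`, and `K` -/
def AK {X : Type*} (f : X → X) (S1 S2 : Set X) (p : X → X) (K : Set X) : Set X :=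
  AA f S1 p ∪ ({x | ∃ s ∈ S2, ∃ k : ℕ, x = f^[k] s} ∪ K)

variable {X : Type*} [TopologicalSpace X] [CompactSpace X] [T2Space X] {f : X → X}

theorem cluster_perK (hf : Continuous f) {S1 S2 : Set X} (h1 : S1.Finite) (h2 : S2.Finite)
    {K : Set X} (hKi : ∀ x ∈ K, f x ∈ K) {p : X → X} {n : X → ℕ}
    (hn : ∀ s ∈ S1, CL f s (p s) (n s)) (hS2 : ∀ s ∈ S2, ∃ m : ℕ, f^[m] s ∈ K) {x : X}
    (hx : ∀ y, MapClusterPt y atTop (fun k : ℕ => f^[k] x) → y ∈ AK f S1 S2 p K) {y : X}
    (hy : MapClusterPt y atTop (fun k : ℕ => f^[k] x)) :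
    y ∈ K ∨ ∃ s ∈ S1, ∃ i : ℕ, y = f^[i] (p s) := by
  by_contra hcon
  push Not at hcon
  obtain ⟨hyK, hcon⟩ := hcon
  have h1' : ∀ m : ℕ, ∃ e, m ≤ e ∧ ∃ s ∈ S1 ∪ S2, y = f^[e] s := by
    intro m
    obtain ⟨y', hy', hm⟩ := cluster_preimage hf hy m
    rcases hx y' hy' with ⟨s, hs, j, hj | hj⟩ | ⟨s, hs, j, hj⟩ | hK
    · refine ⟨m + j, Nat.le_add_right _ _, s, Or.inl hs, ?_⟩
      rw [Function.iterate_add_apply, ← hj, hm]
    · exfalso
      apply hcon s hs (m + j)
      rw [Function.iterate_add_apply, ← hj, hm]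
    · refine ⟨m + j, Nat.le_add_right _ _, s, Or.inr hs, ?_⟩
      rw [Function.iterate_add_apply, ← hj, hm]
    · exfalso
      apply hyK
      rw [← hm]
      exact iter_mem hKi hK m
  have h2' : ∃ s ∈ S1 ∪ S2, {e : ℕ | y = f^[e] s}.Infinite := by
    by_contra h
    push Not at h
    have hfin : (⋃ s ∈ S1 ∪ S2, {e : ℕ | y = f^[e] s}).Finite :=
      (h1.union h2).biUnion fun s hs => h s hs
    obtain ⟨N, hN⟩ := hfin.bddAbove
    obtain ⟨e, he, s, hs, hes⟩ := h1' (N + 1)
    have : e ≤ N := hN (Set.mem_biUnion hs hes)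
    omega
  obtain ⟨s, hs | hs, hinf⟩ := h2'
  · obtain ⟨e, he⟩ := hinf.nonempty
    obtain ⟨e', he', hee'⟩ := hinf.exists_gt e
    have he0 : y = f^[e] s := he
    have he1 : y = f^[e'] s := he'
    obtain ⟨hn0, hnp, hlim⟩ := hn s hs
    obtain ⟨d, hd⟩ : ∃ d : ℕ, d = e' - e := ⟨_, rfl⟩
    have hd0 : 0 < d := by omega
    have hper : f^[d] y = y := by
      conv_lhs => rw [he0]
      rw [← Function.iterate_add_apply, he1]
      congr 2
      omega
    have hper' : ∀ k : ℕ, f^[d * k] y = y := by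
      intro k
      rw [Function.iterate_mul]
      exact Function.iterate_fixed hper k
    have hne : e ≤ n s * e := Nat.le_mul_of_pos_left e hn0
    have hconst : ∀ i : ℕ, f^[n s * (e + d * i)] s = f^[n s * e - e] y := by
      intro i
      have e1 : n s * (e + d * i) = (n s * e - e) + (d * (n s * i) + e) := by
        have : n s * (e + d * i) = n s * e + d * (n s * i) := by ring
        omega
      rw [e1, Function.iterate_add_apply, Function.iterate_add_apply, ← he0, hper']
    have htend : Tendsto (fun i : ℕ => e + d * i) atTop atTop := by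
      apply tendsto_atTop_mono (f := fun i : ℕ => i) _ tendsto_id
      intro i
      have : i ≤ d * i := Nat.le_mul_of_pos_left i hd0
      show i ≤ e + d * i
      omega
    have hlim2 : Tendsto (fun i : ℕ => f^[n s * (e + d * i)] s) atTop (𝓝 (p s)) :=
      hlim.comp htend
    have hps : p s = f^[n s * e - e] y := by
      have h3 : Tendsto (fun _ : ℕ => f^[n s * e - e] y) atTop (𝓝 (p s)) := by
        refine hlim2.congr fun i => hconst i
      exact tendsto_nhds_unique h3 tendsto_const_nhds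
    apply hcon s hs ((n s * e - e) * (d - 1))
    rw [hps, ← Function.iterate_add_apply]
    have e2 : (n s * e - e) * (d - 1) + (n s * e - e) = d * (n s * e - e) := by
      obtain ⟨d', hd'⟩ : ∃ d', d = d' + 1 := ⟨d - 1, by omega⟩
      rw [hd']
      simp only [Nat.add_sub_cancel]
      ring
    rw [e2, hper']
  · obtain ⟨m, hm⟩ := hS2 s hs
    obtain ⟨e, he, hme⟩ := hinf.exists_gt m
    have he0 : y = f^[e] s := he
    apply hyK
    have e1 : e = (e - m) + m := by omega
    rw [he0, e1, Function.iterate_add_apply]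
    exact iter_mem hKi hm _

theorem split (hf : Continuous f) {C K : Set X} (hC : IsClosed C) (hK : IsClosed K)
    (hCK : Disjoint C K) (hCi : ∀ x ∈ C, f x ∈ C) (hKi : ∀ x ∈ K, f x ∈ K) {x : X}
    (hx : ∀ y, MapClusterPt y atTop (fun k : ℕ => f^[k] x) → y ∈ C ∪ K) :
    (∀ y, MapClusterPt y atTop (fun k : ℕ => f^[k] x) → y ∈ C) ∨
      ∀ y, MapClusterPt y atTop (fun k : ℕ => f^[k] x) → y ∈ K := by
  obtain ⟨U, U', hU, hU', hCU, hKU', hdisj⟩ :=
    SeparatedNhds.of_isCompact_isCompact hC.isCompact hK.isCompact hCK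
  obtain ⟨W, hW⟩ : ∃ W : Set X, W = U ∩ f ⁻¹' U := ⟨_, rfl⟩
  obtain ⟨W', hW'⟩ : ∃ W' : Set X, W' = U' ∩ f ⁻¹' U' := ⟨_, rfl⟩
  have hWo : IsOpen W := by
    rw [hW]
    exact hU.inter (hU.preimage hf)
  have hWo' : IsOpen W' := by
    rw [hW']
    exact hU'.inter (hU'.preimage hf)
  have hCW : C ⊆ W := by
    intro c hc
    rw [hW]
    exact ⟨hCU hc, hCU (hCi c hc)⟩
  have hKW : K ⊆ W' := by
    intro c hc
    rw [hW']
    exact ⟨hKU' hc, hKU' (hKi c hc)⟩
  have hev : ∀ᶠ k : ℕ in atTop, f^[k] x ∈ W ∪ W' := by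
    by_contra hcon
    rw [Filter.not_eventually] at hcon
    have hKc : IsCompact (W ∪ W')ᶜ := (hWo.union hWo').isClosed_compl.isCompact
    obtain ⟨a, ha, hac⟩ := hKc.exists_mapClusterPt_of_frequently
      (f := fun k : ℕ => f^[k] x) (l := atTop) hcon
    apply ha
    rcases hx a hac with h | h
    · exact Or.inl (hCW h)
    · exact Or.inr (hKW h)
  obtain ⟨k0, hk0⟩ := eventually_atTop.1 hev
  have hWU : W ⊆ U := by
    rw [hW]
    exact Set.inter_subset_left
  have hWU' : W' ⊆ U' := by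
    rw [hW']
    exact Set.inter_subset_left
  rcases hk0 k0 le_rfl with h0 | h0
  · left
    have hall : ∀ k, k0 ≤ k → f^[k] x ∈ W := by
      intro k hk
      induction k, hk using Nat.le_induction with
      | base => exact h0
      | succ k hk ih =>
        have h1 : f^[k + 1] x ∈ U := by
          rw [Function.iterate_succ_apply']
          rw [hW] at ih
          exact ih.2
        rcases hk0 (k + 1) (by omega) with h2 | h2
        · exact h2
        · exact absurd (hWU' h2) (Set.disjoint_left.1 hdisj h1)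
    intro y hy
    rcases hx y hy with h | h
    · exact h
    · exfalso
      obtain ⟨k, hk, hkU⟩ := (frequently_atTop.1 (hy.frequently (hU'.mem_nhds (hKU' h)))) k0
      exact Set.disjoint_left.1 hdisj (hWU (hall k hk)) hkU
  · right
    have hall : ∀ k, k0 ≤ k → f^[k] x ∈ W' := by
      intro k hk
      induction k, hk using Nat.le_induction with
      | base => exact h0
      | succ k hk ih =>
        have h1 : f^[k + 1] x ∈ U' := by
          rw [Function.iterate_succ_apply']
          rw [hW'] at ih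
          exact ih.2
        rcases hk0 (k + 1) (by omega) with h2 | h2
        · exact absurd h1 (Set.disjoint_left.1 hdisj (hWU h2))
        · exact h2
    intro y hy
    rcases hx y hy with h | h
    · exfalso
      obtain ⟨k, hk, hkU⟩ := (frequently_atTop.1 (hy.frequently (hU.mem_nhds (hCU h)))) k0
      exact Set.disjoint_left.1 hdisj hkU (hWU' (hall k hk))
    · exact h

theorem near_K {K : Set X} {x : X}
    (hx : ∀ y, MapClusterPt y atTop (fun k : ℕ => f^[k] x) → y ∈ K) {U : Set X} (hU : IsOpen U)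
    (hKU : K ⊆ U) : ∀ᶠ k : ℕ in atTop, f^[k] x ∈ U := by
  by_contra hcon
  rw [Filter.not_eventually] at hcon
  have hKc : IsCompact Uᶜ := hU.isClosed_compl.isCompact
  obtain ⟨a, ha, hac⟩ := hKc.exists_mapClusterPt_of_frequently
    (f := fun k : ℕ => f^[k] x) (l := atTop) hcon
  exact ha (hKU (hx a hac))

theorem conv_clK (hf : Continuous f) {S1 S2 : Set X} (h1 : S1.Finite) (h2 : S2.Finite)
    {K : Set X} (hKc : IsClosed K) (hKi : ∀ x ∈ K, f x ∈ K) {p : X → X} {n : X → ℕ}
    (hn : ∀ s ∈ S1, CL f s (p s) (n s)) (hS2 : ∀ s ∈ S2, ∃ m : ℕ, f^[m] s ∈ K) {x : X}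
    (hx : ¬ Bad f (AK f S1 S2 p K) x) :
    (∃ s ∈ S1, ∃ i N : ℕ, CL f x (f^[i] (p s)) N) ∨
      ∀ U : Set X, IsOpen U → K ⊆ U → ∀ᶠ k : ℕ in atTop, f^[k] x ∈ U := by
  have hx' : ∀ y, MapClusterPt y atTop (fun k : ℕ => f^[k] x) → y ∈ AK f S1 S2 p K := by
    intro y hy
    by_contra h
    exact hx ⟨y, h, hy⟩
  obtain ⟨N, hN⟩ : ∃ N : ℕ, N = ∏ s ∈ h1.toFinset, n s := ⟨_, rfl⟩
  have hN0 : 0 < N := by
    rw [hN]
    exact Finset.prod_pos (fun s hs => (hn s (h1.mem_toFinset.1 hs)).1)
  have hdvd : ∀ s ∈ S1, n s ∣ N := by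
    intro s hs
    rw [hN]
    exact Finset.dvd_prod_of_mem n (h1.mem_toFinset.2 hs)
  have hper : ∀ s ∈ S1, Function.IsPeriodicPt f (n s) (p s) := fun s hs => (hn s hs).2.1
  have hCf : {y : X | ∃ s ∈ S1, ∃ i : ℕ, y = f^[i] (p s)}.Finite := by
    refine (h1.biUnion (t := fun s => (fun i => f^[i] (p s)) '' Set.Iio (n s))
      (fun s _ => (Set.finite_Iio (n s)).image _)).subset ?_
    rintro y ⟨s, hs, i, rfl⟩
    refine Set.mem_biUnion hs ⟨i % n s, Nat.mod_lt _ (hn s hs).1, ?_⟩
    exact (hper s hs).iterate_mod_apply i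
  have hfix : ∀ c ∈ {y : X | ∃ s ∈ S1, ∃ i : ℕ, y = f^[i] (p s)}, f^[N] c = c := by
    rintro y ⟨s, hs, i, rfl⟩
    have h3 : f^[N] (p s) = p s := (hper s hs).trans_dvd (hdvd s hs)
    rw [← Function.iterate_add_apply, add_comm, Function.iterate_add_apply, h3]
  have hC : ({y : X | ∃ s ∈ S1, ∃ i : ℕ, y = f^[i] (p s)} \ K).Finite :=
    hCf.subset Set.sdiff_subset
  have hCi : ∀ c ∈ {y : X | ∃ s ∈ S1, ∃ i : ℕ, y = f^[i] (p s)} \ K,
      f c ∈ {y : X | ∃ s ∈ S1, ∃ i : ℕ, y = f^[i] (p s)} \ K := by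
    rintro c ⟨hc, hcK⟩
    have hNc := hfix c hc
    obtain ⟨s, hs, i, hi⟩ := hc
    refine ⟨⟨s, hs, i + 1, ?_⟩, ?_⟩
    · rw [hi, Function.iterate_succ_apply']
    · intro hfc
      apply hcK
      have e1 : N = (N - 1) + 1 := by omega
      rw [← hNc, e1, Function.iterate_add_apply]
      exact iter_mem hKi hfc _
  have hsplit := split (x := x) hf hC.isClosed hKc Set.disjoint_sdiff_left hCi hKi (by
    intro y hy
    rcases cluster_perK hf h1 h2 hKi hn hS2 hx' hy with h | h
    · exact Or.inr h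
    · by_cases hyK : y ∈ K
      · exact Or.inr hyK
      · exact Or.inl ⟨h, hyK⟩)
  rcases hsplit with h | h
  · left
    obtain ⟨c, hc, hlim⟩ := conv_one hf hC hN0 (fun c hc => hfix c hc.1) h
    have h3 := hfix c hc.1
    obtain ⟨⟨s, hs, i, rfl⟩, -⟩ := hc
    exact ⟨s, hs, i, N, hN0, h3, hlim⟩
  · right
    intro U hU hKU
    exact near_K h hU hKU

end Pool.Agent.H35.EX
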