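import Pool.Agent.H35.EX.ExpLoc
import Pool.Agent.H35.EX.BlowE
import Pool.Agent.H35.EX.BlowLip
import Pool.Agent.H35.RL.NullForm
import Pool.Agent.H79.Par.PerDec
import Pool.Agent.H32.BT.Crit

/-!
# Module ExpGood: critical points ending in expanding sets are good

PROOF of `exp_ae`. `C` from `kapE_bound`, `ρ0` from `exp_local`, `R0` from `blow_exists`; take
`ρ = min ρ0 (R0 / (2 C))`. `‖μ‖ ≤ ρ` (limit of `hρ` and `hμ`, `R` is not trivial), so `μ * kapE v0 v x m ∈ ball 0 R0` for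
`v ∈ ball 0 1`. The map `v ↦ μ * kapE v0 v x m` is a nonzero linear form (`kapE_add`, `kapE_smul`, `hkap`,
`μ ≠ 0`); `null_form` (H35/RL/NullForm) and `null_expand` with `S = Wᶜ` (`blow_lip`): the set of `v` with
`μ kapE ∈ ball 0 R0` and `Ψ (μ kapE) ∈ Wᶜ` is null. For the other `v ∈ ball 0 1` outside `{v | ¬ W ⊆ RA v0 v}`:
`exp_local`.
PROOF of `exp_good` (compare RepGood in H35/RL). `x j = it v0 j c` (`crit_of_wr`, `orb_all`, `h0 : Chart0`). Given a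
sequence `r`, `blow_exists` gives `σ, N, μ, Ψ` for `x m ∈ K` and the `ρ` of `exp_ae`. `exp_ae` with
`W = {z | Basin v0 z}` (`{v | ¬ W ⊆ RA v0 v}` is `{v | ¬ RobDir v0 v}`, `rfl`). `SeqGood1` from `CAtt` as in RepGood (the
map `((j, v'), z) ↦ ((v', r (σ j)), z)`). `hm : 1 ≤ m`: if `m = 0` replace `m` by `1` (`it v0 1 c ∈ K` by `hK.maps`).
-/

set_option autoImplicit false

open Filter Topology Polynomial Metric Set

namespace Pool.Agent.H35.EX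

open Pool.Agent.H44.Fatou Pool.Agent.H32.BT Pool.Agent.H79.Eul Pool.Agent.H79.Par
open Pool.Agent.H35.RL

open MeasureTheory in
theorem exp_ae {d : ℕ} {v0 : E d} (hcop : IsCoprime (pol v0.1) (pol v0.2))
    (hdeg : max (pol v0.1).natDegree (pol v0.2).natDegree = d) (hd : 2 ≤ d) {K : Set ℂ}
    (hK : ExpK v0 K) {x : ℕ → ℂ} (ho : ∀ j, Orb v0 x j) {m : ℕ} (hm : 1 ≤ m) (hxm : x m ∈ K)
    (hkap : ∃ v : E d, kapE v0 v x m ≠ 0) {R0 : ℝ} (hR0 : 0 < R0) :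
    ∃ ρ : ℝ, 0 < ρ ∧ ∀ (R : Filter ℝ) (N : ℝ → ℕ) (μ : ℂ) (Ψ : ℂ → ℂ), R.NeBot →
      Blow v0 (x m) R N μ Ψ R0 ρ → ∀ W : Set ℂ, volume Wᶜ = 0 →
      volume {v : E d | ¬ W ⊆ RA v0 v} = 0 →
        ∀ᵐ v : E d, v ∈ ball (0 : E d) 1 → CAtt v0 v R (x 0) := by
  obtain ⟨C, hC0, hCb⟩ := kapE_bound hK ho hxm
  obtain ⟨ρ0, hρ0, hloc⟩ := exp_local hcop hdeg hd hK ho hm hxm
  have hρpos : 0 < min ρ0 (R0 / (2 * C)) := lt_min hρ0 (by positivity)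
  refine ⟨min ρ0 (R0 / (2 * C)), hρpos, ?_⟩
  intro R N μ Ψ hne b W hW hWV
  have hμ : ‖μ‖ ≤ R0 / (2 * C) := by
    have h1 := b.hμ.norm
    refine le_of_tendsto h1 ?_
    have h2 : ∀ᶠ t : ℝ in R, 0 < t := b.hR self_mem_nhdsWithin
    filter_upwards [b.hρ, h2] with t k1 k2
    rw [norm_mul, Complex.norm_real, Real.norm_of_nonneg k2.le]
    exact k1.trans (min_le_right _ _)
  have hS : volume {X : ℂ | X ∈ ball (0 : ℂ) R0 ∧ Ψ X ∈ Wᶜ} = 0 :=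
    null_expand (fun X hX Y hY => (blow_lip b hne X hX Y hY).1) hW
  have hL : volume ((fun v : E d => μ * kapE v0 v x m) ⁻¹'
      {X : ℂ | X ∈ ball (0 : ℂ) R0 ∧ Ψ X ∈ Wᶜ}) = 0 := by
    refine null_form (fun v : E d => μ * kapE v0 v x m) ?_ ?_ ?_ hS
    · intro v w
      show μ * kapE v0 (v + w) x m = μ * kapE v0 v x m + μ * kapE v0 w x m
      rw [kapE_add hK ho hxm, mul_add]
    · intro c v
      show μ * kapE v0 (c • v) x m = c * (μ * kapE v0 v x m)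
      rw [kapE_smul]; ring
    · obtain ⟨v, hv⟩ := hkap
      exact ⟨v, mul_ne_zero b.hμ0 hv⟩
  have h1 : ∀ᵐ v : E d, v ∉ (fun v : E d => μ * kapE v0 v x m) ⁻¹'
      {X : ℂ | X ∈ ball (0 : ℂ) R0 ∧ Ψ X ∈ Wᶜ} := measure_eq_zero_iff_ae_notMem.1 hL
  have h2 : ∀ᵐ v : E d, W ⊆ RA v0 v := by
    rw [ae_iff]
    exact hWV
  filter_upwards [h1, h2] with v k1 k2 hv
  have hball : μ * kapE v0 v x m ∈ ball (0 : ℂ) R0 := by
    rw [mem_ball_zero_iff, norm_mul]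
    have h3 := (hCb v hv).1
    calc ‖μ‖ * ‖kapE v0 v x m‖ ≤ R0 / (2 * C) * C :=
          mul_le_mul hμ h3.le (norm_nonneg _) (by positivity)
      _ = R0 / 2 := by field_simp
      _ < R0 := by linarith
  refine hloc _ R0 R N μ Ψ (min_le_left _ _) b v hv hball ?_
  apply k2
  by_contra hcon
  exact k1 ⟨hball, hcon⟩

open MeasureTheory in
theorem exp_good {d : ℕ} (hd : 2 ≤ d) {v0 : E d} (h0 : Chart0 v0) {K : Set ℂ} (hK : ExpK v0 K)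
    {c : ℂ} (hc : wv v0 c = 0) {m : ℕ} (hm : it v0 m c ∈ K)
    (hkap : ∀ k : ℕ, 1 ≤ k → it v0 k c ∈ K → ∃ v : E d, kapE v0 v (fun j => it v0 j c) k ≠ 0)
    (hW : volume {z : ℂ | ¬ Basin v0 z} = 0) (hV : volume {v : E d | ¬ RobDir v0 v} = 0) :
    ∀ r : ℕ → ℝ, (∀ j, 0 < r j) → Tendsto r atTop (𝓝 0) →
      ∃ σ : ℕ → ℕ, StrictMono σ ∧ SeqGood1 v0 c (r ∘ σ) := by
  obtain ⟨hcop, hdeg, _, hinf⟩ := h0
  have hd1 : 1 ≤ max (pol v0.1).natDegree (pol v0.2).natDegree := by omega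
  have hcr : IsCrit (Rf v0) (c : OnePoint ℂ) := by
    apply crit_of_wr hcop hd1
    rw [← wv_cf (pol_deg _) (pol_deg _), cf_pol, cf_pol]
    exact hc
  obtain ⟨ho, hx⟩ := orb_all (hinf _ hcr)
  obtain ⟨k, hk1, hkK⟩ : ∃ k : ℕ, 1 ≤ k ∧ it v0 k c ∈ K := by
    rcases Nat.eq_zero_or_pos m with h | h
    · subst h
      exact ⟨1, le_rfl, hK.maps _ hm⟩
    · exact ⟨m, h, hm⟩
  obtain ⟨R0, hR0, hblow⟩ := blow_exists hK
  obtain ⟨ρ, hρ, hae⟩ := exp_ae (x := fun j => it v0 j c) hcop hdeg hd hK ho hk1 hkK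
    (hkap k hk1 hkK) hR0
  intro r hr0 hr
  obtain ⟨σ, N, μ, Ψ, hσ, b⟩ := hblow (it v0 k c) hkK ρ hρ r hr0 hr
  have hW' : volume ({z : ℂ | Basin v0 z})ᶜ = 0 := hW
  have hgood : volume {v : E d | ¬ {z : ℂ | Basin v0 z} ⊆ RA v0 v} = 0 := by
    have e1 : {v : E d | ¬ {z : ℂ | Basin v0 z} ⊆ RA v0 v} = {v : E d | ¬ RobDir v0 v} := rfl
    rw [e1]
    exact hV
  have hfin := hae (map (r ∘ σ) atTop) N μ Ψ inferInstance b _ hW' hgood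
  refine ⟨σ, hσ, ?_⟩
  unfold SeqGood1
  rw [ae_iff] at hfin
  refine measure_mono_null ?_ hfin
  rintro v ⟨hv1, hv2⟩ hcon
  apply hv2
  have hv' : ∀ᶠ y : (E d × ℝ) × ℂ in (𝓝 v ×ˢ map (r ∘ σ) atTop) ×ˢ 𝓝 c,
      wv (pv v0 y.1) y.2 = 0 → Att (Rf (pv v0 y.1)) (y.2 : OnePoint ℂ) := hcon hv1
  have ht : Tendsto (fun w : (ℕ × E d) × ℂ => (((w.1.2, (r ∘ σ) w.1.1) : E d × ℝ), w.2))
      ((atTop ×ˢ 𝓝 v) ×ˢ 𝓝 c) ((𝓝 v ×ˢ map (r ∘ σ) atTop) ×ˢ 𝓝 c) := by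
    refine Tendsto.prodMk (Tendsto.prodMk ?_ ?_) tendsto_snd
    · exact tendsto_snd.comp tendsto_fst
    · exact tendsto_map.comp (tendsto_fst.comp tendsto_fst)
  exact ht.eventually hv'

end Pool.Agent.H35.EX
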