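import Pool.Agent.H61.TT.Area

/-!
# Module SerZ: an invariant finite measure does not charge the basins

PROOF. `μ = volume.withDensity (fun x => ‖q x‖ₑ)` is a finite measure (`isFiniteMeasure_withDensity`). `gg a b` is
measurable (`measurable_gg`) and `gg a b ⁻¹' T` differs from `pre a b T` by a subset of the finite set `b.eval = 0`
(`b_ne`, H61/TT/Fib), so by `hinv` (`withDensity_apply`) `MeasurePreserving (gg a b) μ μ`. For every `n` the iterate
`(gg a b)^[n]` preserves `μ` (`MeasurePreserving.iterate`), so it is conservative (`MeasurePreserving.conservative`), and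
`Conservative.ae_frequently_mem_of_mem_nhds`: for `μ`-almost every `x`, for all `s ∈ 𝓝 x`, frequently
`((gg a b)^[n])^[k] x ∈ s` (`Function.iterate_mul`). Take all `n` (countable). `μ P = 0` (`P` countable, so Lebesgue null;
`withDensity_absolutelyContinuous`); `hbas` holds `μ`-almost everywhere. For such an `x ∉ P`: `w ∈ P` and `n` from `hbas`, `x ≠ w`;
disjoint neighbourhoods of `x`, `w` (`t2_separation` / `disjoint_nhds_nhds`) contradict `Tendsto` and `∃ᶠ`. So `μ`-almost no
point exists: `μ univ = 0`, `∫⁻ ‖q‖ₑ = 0`, `q = 0` almost everywhere (`lintegral_eq_zero_iff`, `hq.enorm`).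
-/

set_option autoImplicit false

open MeasureTheory Metric Set Polynomial Filter Topology

namespace Pool.Agent.H35.EX

open Pool.Agent.H61.TT

variable {d : ℕ} {a b : Polynomial ℂ}

theorem inv_zero (h : RatD d a b) {q : ℂ → ℂ} (hq : Measurable q) (hfin : ∫⁻ x, ‖q x‖ₑ ≠ ⊤)
    (hinv : ∀ T : Set ℂ, MeasurableSet T → ∫⁻ x in pre a b T, ‖q x‖ₑ = ∫⁻ x in T, ‖q x‖ₑ)
    {P : Set ℂ} (hP : P.Countable) (hbas : ∀ᵐ z : ℂ, ∃ w ∈ P, ∃ n : ℕ, 0 < n ∧
      Tendsto (fun k : ℕ => (gg a b)^[n * k] z) atTop (𝓝 w)) : ∀ᵐ x : ℂ, q x = 0 := by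
  obtain ⟨μ, hμ⟩ : ∃ μ : Measure ℂ, μ = volume.withDensity (fun x => ‖q x‖ₑ) := ⟨_, rfl⟩
  have hfinμ : IsFiniteMeasure μ := by
    rw [hμ]
    exact isFiniteMeasure_withDensity hfin
  have hac : μ ≪ volume := by
    rw [hμ]
    exact withDensity_absolutelyContinuous _ _
  have hmp : MeasurePreserving (gg a b) μ μ := by
    refine ⟨measurable_gg, ?_⟩
    ext T hT
    rw [Measure.map_apply measurable_gg hT, hμ, withDensity_apply _ (measurable_gg hT),
      withDensity_apply _ hT, ← hinv T hT]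
    apply setLIntegral_congr
    have hb : ∀ᵐ y : ℂ, b.eval y ≠ 0 := by
      rw [ae_iff]
      have hfs : {y : ℂ | ¬ b.eval y ≠ 0}.Finite := by
        refine (b.roots.toFinset.finite_toSet).subset ?_
        intro y hy
        rw [Finset.mem_coe, Multiset.mem_toFinset, mem_roots (b_ne h)]
        simpa using hy
      exact hfs.measure_zero volume
    filter_upwards [hb] with y hy
    apply propext
    constructor
    · intro h1
      exact ⟨hy, h1⟩
    · intro h1
      exact h1.2
  have hfreq : ∀ᵐ x ∂μ, ∀ n : ℕ, ∀ s ∈ 𝓝 x, ∃ᶠ k in atTop, ((gg a b)^[n])^[k] x ∈ s := by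
    rw [ae_all_iff]
    intro n
    exact (hmp.iterate n).conservative.ae_frequently_mem_of_mem_nhds
  have hbasμ := hac.ae_le hbas
  have hPμ : ∀ᵐ x ∂μ, x ∉ P := by
    have : ∀ᵐ x : ℂ, x ∉ P := hP.ae_notMem volume
    exact hac.ae_le this
  have hfalse : ∀ᵐ x ∂μ, False := by
    filter_upwards [hfreq, hbasμ, hPμ] with x h1 h2 h3
    obtain ⟨w, hwP, n, _, hlim⟩ := h2
    have hne : x ≠ w := fun he => h3 (he ▸ hwP)
    obtain ⟨U, V, hU, hV, hxU, hwV, hUV⟩ := t2_separation hne
    have f1 := h1 n U (hU.mem_nhds hxU)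
    have f2 : ∀ᶠ k in atTop, (gg a b)^[n * k] x ∈ V := hlim.eventually_mem (hV.mem_nhds hwV)
    obtain ⟨k, hk1, hk2⟩ := (f1.and_eventually f2).exists
    rw [← Function.iterate_mul] at hk1
    exact Set.disjoint_left.1 hUV hk1 hk2
  have hμ0 : μ = 0 := by
    rw [ae_iff] at hfalse
    simpa using hfalse
  have hint : ∫⁻ x, ‖q x‖ₑ = 0 := by
    have : μ univ = 0 := by rw [hμ0]; simp
    rw [hμ, withDensity_apply _ MeasurableSet.univ, Measure.restrict_univ] at this
    exact this
  rw [lintegral_eq_zero_iff hq.enorm] at hint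
  filter_upwards [hint] with x hx
  simpa using hx

end Pool.Agent.H35.EX
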