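import Pool.Agent.H35.EX.Tent
import Pool.Agent.H35.EX.SerA

/-!
# Module TentZ: a series of simple poles which vanishes almost everywhere has no residues

PROOFS. `tent_tsum`: `0 = ∫ x in ball s r, (x - s) * qs β p x` (`hq`; `integral_congr_ae`). Interchange:
`(x - s) * qs β p x = ∑' β k * ((x - s) / (x - p k))` almost everywhere (`ae_sum`, `tsum_mul_left`), and
`∑' k, ∫⁻ x in ball s r, ‖β k * ((x - s) / (x - p k))‖ₑ < ∞` (`‖x - s‖ ≤ r`, `ker_bound`), so `integral_tsum`
(or `hasSum_integral_of_summable_integral_norm`) gives `0 = ∑' β k * ∫ x in ball s r, (x - s) / (x - p k)`. Translate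
(`u = x - s`, for example `integral_sub_right_eq_self` applied to indicators, or
`MeasurePreserving.setIntegral_preimage_emb`): the integral is `tent (p k - s)`, i.e. `π * max 0 (r ^ 2 - ‖p k - s‖ ^ 2)`; divide by
`π`.
`res_zero`: divide `tent_tsum` by `r ^ 2`: `∑' β k * max 0 (1 - ‖p k - s‖ ^ 2 / r ^ 2) = 0` for all `r > 0`; for `r = 1 / (n + 1)`, `n → ∞` the
terms tend to `if p k = s then β k else 0` and are bounded by `‖β k‖`: `tendsto_tsum_of_dominated_convergence`, uniqueness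
of limits.
-/

set_option autoImplicit false

open MeasureTheory Metric Set

namespace Pool.Agent.H35.EX

variable {β p : ℕ → ℂ}

theorem tent_shift (s q : ℂ) {r : ℝ} (hr : 0 < r) :
    ∫ x in ball s r, (x - s) / (x - q) =
      ((Real.pi * max 0 (r ^ 2 - ‖q - s‖ ^ 2) : ℝ) : ℂ) := by
  rw [← tent (q - s) hr, ← integral_indicator measurableSet_ball,
    ← integral_indicator measurableSet_ball,
    ← integral_sub_right_eq_self ((ball (0 : ℂ) r).indicator (fun u => u / (u - (q - s)))) s]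
  congr 1
  funext x
  by_cases hx : x ∈ ball s r
  · have hx' : x - s ∈ ball (0 : ℂ) r := by
      rw [mem_ball, dist_zero_right]
      rw [mem_ball, dist_eq_norm] at hx
      exact hx
    rw [indicator_of_mem hx, indicator_of_mem hx']
    congr 1
    ring
  · have hx' : x - s ∉ ball (0 : ℂ) r := by
      intro h
      apply hx
      rw [mem_ball, dist_zero_right] at h
      rw [mem_ball, dist_eq_norm]
      exact h
    rw [indicator_of_notMem hx, indicator_of_notMem hx']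

theorem tent_tsum (hβ : Summable fun k => ‖β k‖) (hq : ∀ᵐ x : ℂ, qs β p x = 0) (s : ℂ) {r : ℝ}
    (hr : 0 < r) : ∑' k, β k * ((max 0 (r ^ 2 - ‖p k - s‖ ^ 2) : ℝ) : ℂ) = 0 := by
  obtain ⟨C, hC, hb⟩ := ker_bound s r
  have hmeas : ∀ k, Measurable (fun x : ℂ => β k * ((x - s) / (x - p k))) := fun k =>
    ((measurable_id.sub_const s).div (measurable_id.sub_const (p k))).const_mul (β k)
  have hterm : ∀ k, ∫⁻ x in ball s r, ‖β k * ((x - s) / (x - p k))‖ₑ ≤
      ‖β k‖ₑ * (ENNReal.ofReal r * C) := by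
    intro k
    have h1 : ∫⁻ x in ball s r, ‖β k * ((x - s) / (x - p k))‖ₑ ≤
        ∫⁻ x in ball s r, (‖β k‖ₑ * ENNReal.ofReal r) * ENNReal.ofReal (‖x - p k‖⁻¹) := by
      refine setLIntegral_mono' measurableSet_ball fun x hx => ?_
      rw [mem_ball, dist_eq_norm] at hx
      rw [enorm_mul, mul_assoc]
      refine mul_le_mul_right ?_ _
      rw [← ENNReal.ofReal_mul hr.le, ← ofReal_norm]
      refine ENNReal.ofReal_le_ofReal ?_
      rw [norm_div, div_eq_mul_inv]
      exact mul_le_mul_of_nonneg_right hx.le (by positivity)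
    refine h1.trans ?_
    rw [lintegral_const_mul' _ _ (ENNReal.mul_ne_top enorm_ne_top ENNReal.ofReal_ne_top),
      mul_assoc]
    exact mul_le_mul_right (mul_le_mul_right (hb (p k)) _) _
  have hfin : ∑' k, ∫⁻ x in ball s r, ‖β k * ((x - s) / (x - p k))‖ₑ ≠ ⊤ := by
    have h2 : ∑' k, ‖β k‖ₑ ≠ ⊤ := by
      have h3 := hβ.tsum_ofReal_ne_top
      simpa only [ofReal_norm] using h3
    refine ne_top_of_le_ne_top ?_ (ENNReal.tsum_le_tsum hterm)
    rw [ENNReal.tsum_mul_right]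
    exact ENNReal.mul_ne_top h2 (ENNReal.mul_ne_top ENNReal.ofReal_ne_top hC)
  have h4 := integral_tsum (μ := volume.restrict (ball s r))
    (f := fun k (x : ℂ) => β k * ((x - s) / (x - p k)))
    (fun k => (hmeas k).aestronglyMeasurable) hfin
  have h5 : ∫ x in ball s r, ∑' k, β k * ((x - s) / (x - p k)) = 0 := by
    have h6 : ∀ᵐ x ∂(volume.restrict (ball s r)), ∑' k, β k * ((x - s) / (x - p k)) = 0 := by
      refine ae_restrict_of_ae ?_
      filter_upwards [hq] with x hx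
      have h7 : ∀ k, β k * ((x - s) / (x - p k)) = (x - s) * (β k / (x - p k)) := by
        intro k
        ring
      simp only [h7]
      rw [tsum_mul_left]
      have h8 : ∑' k, β k / (x - p k) = 0 := hx
      rw [h8, mul_zero]
    rw [integral_congr_ae h6]
    simp
  rw [h5] at h4
  have h9 : ∀ k, ∫ x in ball s r, β k * ((x - s) / (x - p k)) =
      (Real.pi : ℂ) * (β k * ((max 0 (r ^ 2 - ‖p k - s‖ ^ 2) : ℝ) : ℂ)) := by
    intro k
    rw [integral_const_mul, tent_shift s (p k) hr]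
    push_cast
    ring
  simp only [h9] at h4
  rw [tsum_mul_left] at h4
  have hπ : (Real.pi : ℂ) ≠ 0 := by exact_mod_cast Real.pi_ne_zero
  exact (mul_eq_zero.1 h4.symm).resolve_left hπ

open Classical in
theorem res_zero (hβ : Summable fun k => ‖β k‖) (hq : ∀ᵐ x : ℂ, qs β p x = 0) (s : ℂ) :
    ∑' k, (if p k = s then β k else 0) = 0 := by
  have h1 : ∀ n : ℕ, ∑' k, β k * ((max 0 (1 - ((n : ℝ) + 1) ^ 2 * ‖p k - s‖ ^ 2) : ℝ) : ℂ) = 0 := by
    intro n
    have hn : (0 : ℝ) < (n : ℝ) + 1 := by positivity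
    have h2 := tent_tsum hβ hq s (show (0 : ℝ) < 1 / ((n : ℝ) + 1) by positivity)
    have h3 : ∀ k, β k * ((max 0 (1 - ((n : ℝ) + 1) ^ 2 * ‖p k - s‖ ^ 2) : ℝ) : ℂ) =
        ((((n : ℝ) + 1) ^ 2 : ℝ) : ℂ) *
          (β k * ((max 0 ((1 / ((n : ℝ) + 1)) ^ 2 - ‖p k - s‖ ^ 2) : ℝ) : ℂ)) := by
      intro k
      have h4 : max 0 (1 - ((n : ℝ) + 1) ^ 2 * ‖p k - s‖ ^ 2) =
          ((n : ℝ) + 1) ^ 2 * max 0 ((1 / ((n : ℝ) + 1)) ^ 2 - ‖p k - s‖ ^ 2) := by
        rw [mul_max_of_nonneg _ _ (by positivity), mul_zero]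
        congr 1
        field_simp
      rw [h4]
      push_cast
      ring
    simp only [h3]
    rw [tsum_mul_left, h2, mul_zero]
  have h5 := tendsto_tsum_of_dominated_convergence (𝓕 := Filter.atTop)
    (f := fun (n : ℕ) k => β k * ((max 0 (1 - ((n : ℝ) + 1) ^ 2 * ‖p k - s‖ ^ 2) : ℝ) : ℂ))
    (g := fun k => if p k = s then β k else 0) (bound := fun k => ‖β k‖) hβ ?_ ?_
  · simp only [h1] at h5
    exact tendsto_nhds_unique h5 tendsto_const_nhds |>.symm ▸ rfl
  · intro k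
    by_cases hk : p k = s
    · rw [if_pos hk]
      have : ∀ n : ℕ, β k * ((max 0 (1 - ((n : ℝ) + 1) ^ 2 * ‖p k - s‖ ^ 2) : ℝ) : ℂ) = β k := by
        intro n
        rw [hk, sub_self, norm_zero]
        norm_num
      simp only [this]
      exact tendsto_const_nhds
    · rw [if_neg hk]
      have hpos : 0 < ‖p k - s‖ := norm_pos_iff.2 (sub_ne_zero.2 hk)
      obtain ⟨N, hN⟩ := exists_nat_ge (1 / ‖p k - s‖)
      refine Filter.Tendsto.congr' ?_ tendsto_const_nhds
      filter_upwards [Filter.eventually_ge_atTop N] with n hn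
      have h6 : 1 ≤ ((n : ℝ) + 1) * ‖p k - s‖ := by
        rw [div_le_iff₀ hpos] at hN
        have h7 : (N : ℝ) ≤ (n : ℝ) + 1 := by
          have : (N : ℝ) ≤ n := by exact_mod_cast hn
          linarith
        exact hN.trans (mul_le_mul_of_nonneg_right h7 hpos.le)
      have h8 : 1 - ((n : ℝ) + 1) ^ 2 * ‖p k - s‖ ^ 2 ≤ 0 := by
        rw [← mul_pow]
        nlinarith
      rw [max_eq_left h8]
      simp
  · refine Filter.Eventually.of_forall fun n k => ?_
    rw [norm_mul]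
    have h9 : ‖((max 0 (1 - ((n : ℝ) + 1) ^ 2 * ‖p k - s‖ ^ 2) : ℝ) : ℂ)‖ ≤ 1 := by
      rw [Complex.norm_real, Real.norm_of_nonneg (le_max_left _ _)]
      refine max_le zero_le_one ?_
      have : 0 ≤ ((n : ℝ) + 1) ^ 2 * ‖p k - s‖ ^ 2 := by positivity
      linarith
    calc ‖β k‖ * ‖((max 0 (1 - ((n : ℝ) + 1) ^ 2 * ‖p k - s‖ ^ 2) : ℝ) : ℂ)‖ ≤ ‖β k‖ * 1 :=
          mul_le_mul_of_nonneg_left h9 (norm_nonneg _)
      _ = ‖β k‖ := mul_one _

end Pool.Agent.H35.EX
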