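import Pool.Agent.H35.EX.SerB
import Pool.Agent.H35.EX.SerC
import Pool.Agent.H35.EX.SerP
import Pool.Agent.H35.EX.SerI
import Pool.Agent.H35.EX.SerZ
import Pool.Agent.H35.EX.TentZ

/-!
# Module SerM: there is no vanishing combination

PROOF. `q = qs (sbe a b p B) p` is measurable (`qs_meas`), integrable (`qs_fin` with `ser_sum`, `ser_sum0`, `ser_sum1`),
`qs_push`, `inv_mass`, `inv_zero`: `q = 0` almost everywhere. `res_zero`: for every `s`,
`∑' k, (if p k = s then sbe k else 0) = 0`. For `s = p (j+1)`: `sbe k = B k * dg a b s` for `p k = s`, and `dg a b s ≠ 0`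
(`ser_dg`), so `∑' k, (if p k = s then B k else 0) = 0` (`tsum_mul_right`). Let `S = range (fun j => p (j+1))`; `p 0 ∉ S` by
`crit` and `ser_dg`. Regroup: `∑' k, B (k+1) = ∑' s : S, ∑' k, (if p (k+1) = s then B (k+1) else 0)`
(the fibres of `k ↦ p (k+1)`: `HasSum.tsum_fiberwise`, or `Equiv.sigmaFiberEquiv` with `Summable.tsum_sigma`, or
`Summable.tsum_comm` for the summable family `(s, k) ↦ if p (k+1) = s then B (k+1) else 0` on `S × ℕ`), and each inner sum is
`∑' k, (if p k = s then B k else 0) - (if p 0 = s then ..) = 0`. So `∑' k, B (k+1) = 0`, and with `B_sum0`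
(`Summable.tsum_eq_zero_add`) `B 0 = 0`, against `B0 : B 0 = 1`.
-/

set_option autoImplicit false

open MeasureTheory Metric Set Polynomial Filter Topology

namespace Pool.Agent.H35.EX

open Pool.Agent.H61.TT

variable {d : ℕ} {a b : Polynomial ℂ} {p B : ℕ → ℂ}

theorem serM_group {q c : ℕ → ℂ} (hc : Summable c)
    (hz : ∀ s : ℂ, ∑' k, (Set.indicator {k : ℕ | q k = s} c) k = 0) : ∑' k, c k = 0 := by
  have h1 := hc.hasSum.tsum_fiberwise q
  have h2 : (fun s : ℂ => ∑' k : (q ⁻¹' {s} : Set ℕ), c k) = fun _ => 0 := by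
    funext s
    rw [tsum_subtype (q ⁻¹' {s}) c]
    exact hz s
  rw [h2] at h1
  exact h1.unique hasSum_zero

theorem ser_false (h : RatD d a b) (hs : Ser d a b p B) {P : Set ℂ} (hP : P.Countable)
    (hbas : ∀ᵐ z : ℂ, ∃ w ∈ P, ∃ n : ℕ, 0 < n ∧
      Tendsto (fun k : ℕ => (gg a b)^[n * k] z) atTop (𝓝 w)) : False := by
  classical
  obtain ⟨R, hR⟩ := hs.pb
  have hR0 : 0 ≤ R := (norm_nonneg _).trans (hR 0)
  have hfin := qs_fin hR0 hR (ser_sum hs) (ser_sum0 h hs) (ser_sum1 h hs)
  have hq0 : ∀ᵐ x : ℂ, qs (sbe a b p B) p x = 0 :=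
    inv_zero h (qs_meas _ _) hfin
      (fun T hT => inv_mass h (qs_meas _ _) hfin (qs_push h hs) hT) hP hbas
  have hBsum : Summable B := hs.sm.of_norm
  have hBsum1 : Summable fun k => B (k + 1) := (summable_nat_add_iff 1).2 hBsum
  have hind : ∀ s : ℂ, Summable (Set.indicator {k : ℕ | p k = s} B) := fun s =>
    hBsum.indicator _
  have hres : ∀ s : ℂ, dg a b s ≠ 0 → ∑' k, (Set.indicator {k : ℕ | p k = s} B) k = 0 := by
    intro s hds
    have h1 := res_zero (ser_sum hs) hq0 s
    have h2 : ∀ k, (if p k = s then sbe a b p B k else 0) =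
        (Set.indicator {k : ℕ | p k = s} B) k * dg a b s := by
      intro k
      by_cases hk : p k = s
      · rw [if_pos hk, Set.indicator_of_mem (show k ∈ {k : ℕ | p k = s} from hk), sbe, hk]
      · rw [if_neg hk, Set.indicator_of_notMem (show k ∉ {k : ℕ | p k = s} from hk), zero_mul]
    have h3 : ∑' k, (Set.indicator {k : ℕ | p k = s} B) k * dg a b s = 0 := by
      rw [← h1]
      refine tsum_congr fun k => ?_
      rw [← h2 k]
    rw [tsum_mul_right] at h3
    exact (mul_eq_zero.1 h3).resolve_right hds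
  have hz : ∀ s : ℂ, ∑' k, (Set.indicator {k : ℕ | p (k + 1) = s} fun k => B (k + 1)) k = 0 := by
    intro s
    by_cases hex : ∃ j, p (j + 1) = s
    · obtain ⟨j, hj⟩ := hex
      have hds : dg a b s ≠ 0 := by
        rw [← hj]
        exact ser_dg hs j
      have h1 := hres s hds
      rw [(hind s).tsum_eq_zero_add] at h1
      have h2 : (Set.indicator {k : ℕ | p k = s} B) 0 = 0 := by
        refine Set.indicator_of_notMem ?_ _
        intro h0
        have h0' : p 0 = s := h0
        apply hds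
        rw [← h0']
        exact hs.crit
      rw [h2, zero_add] at h1
      rw [← h1]
      refine tsum_congr fun k => ?_
      rfl
    · have h1 : ∀ k, (Set.indicator {k : ℕ | p (k + 1) = s} fun k => B (k + 1)) k = 0 := by
        intro k
        refine Set.indicator_of_notMem ?_ _
        intro hk
        exact hex ⟨k, hk⟩
      rw [tsum_congr h1, tsum_zero]
  have hsum1 := serM_group (q := fun k => p (k + 1)) hBsum1 hz
  have hsum0 := B_sum0 h hs
  rw [hBsum.tsum_eq_zero_add, hsum1, add_zero, hs.B0] at hsum0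
  exact one_ne_zero hsum0

end Pool.Agent.H35.EX
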