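import Pool.Agent.H35.EX.KapS
import Pool.Agent.H35.EX.SerM
import Pool.Agent.H61.TT.Surj
import Pool.Agent.H61.TT.Main2
import Pool.Agent.H79.Par.PerFin
import Pool.Agent.H79.Par.PerDec

/-!
# Module KapNe: transversality for critical orbits ending in an expanding set

PROOFS. `bas_gg`: let `P = {z : ℂ | ∃ n, 0 < n ∧ (Rf v0)^[n] z = z}`, countable (`per_all_countable`, as in
H79/Par/RobNull). For `z` with `Basin v0 z` (almost every `z`): `z', n`, `Ty12`: in both cases `0 < n`,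
`(Rf v0)^[n] z' = z'` (`IsSink`; `FixMult` implies fixed: `fix_trD` or unfold), and `(Rf v0)^[n * k] z → z'`. All iterates are
finite: `(Rf v0)^[j] z = it v0 j z` (`orb_all`, H79/Par/PerDec) and `it v0 j z = (gg (pol v0.1) (pol v0.2))^[j] z`
(`ev_pol`, `Function.iterate_succ_apply'`). The limit in `ℂ`: `OnePoint.isOpenEmbedding_coe.tendsto_nhds_iff`.
`kapE_ne1`: the last critical point. By contradiction all `kapE v0 v x m = 0`; `hne` holds by `hcr` (a product of nonzero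
factors, `ev v0.2 (x i) ≠ 0` by `ho`), so by `kapE_sum` `∑' k, xi v0 v (x k) / trD v0 k (x 1) = 0` for all `v`. With
`a = pol v0.1`, `b = pol v0.2`, `p = x`, `B k = 1 / trD v0 k (x 1)`, the structure `Ser d a b p B`: `pb`, `bb`: finitely many points and
the compact set `K` (`x k ∈ K` for `k ≥ m`, `itK`; `ev v0.2` continuous and nonzero on `K`, `ev_pol`); `orb`: `ho`; `hB`:
`trD v0 (k+1) (x 1) = dg (x (k+1)) * trD v0 k (x 1)` (`trD_succ`, `orb_it`, `dg_eq`), `dg (x (k+1)) ≠ 0`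
(`hcr` for `k + 1 < m`, `ncrit_K` for `k + 1 ≥ m`); `crit`: `wv_pol`, `hc`; `sm`: `‖trD v0 k (x 1)‖ ≥ c' q ^ k` for `k ≥ m - 1`
(`hK.exp` for `x m`), geometric series; `van`: `xi_surj` (H61/TT/Surj). `ser_false` with `bas_gg`.
`kapE_ne`: let `k < m` be the last index with `wv v0 (x k) = 0` (`k = 0` is one; `Nat.findGreatest`); `kapE_shift`
and `kapE_ne1` for the orbit `fun j => x (k + j)` and `m - k ≥ 1`.
-/

set_option autoImplicit false

open Filter Topology Polynomial Metric Set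

namespace Pool.Agent.H35.EX

open Pool.Agent.H44.Fatou Pool.Agent.H32.BT Pool.Agent.H79.Eul Pool.Agent.H79.Par
open Pool.Agent.H35.RL Pool.Agent.H61.TT

theorem kn_it_gg {d : ℕ} (v0 : E d) (z : ℂ) (j : ℕ) :
    it v0 j z = (gg (pol v0.1) (pol v0.2))^[j] z := by
  induction j with
  | zero => rfl
  | succ j ih =>
    rw [Function.iterate_succ_apply', ← ih]
    show ev v0.1 (it v0 j z) / ev v0.2 (it v0 j z) = _
    unfold gg
    rw [ev_pol, ev_pol]

theorem kn_lim {d : ℕ} {v0 : E d} {z z' : ℂ} {n : ℕ}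
    (hz : ∀ j, (Rf v0)^[j] (z : OnePoint ℂ) ≠ OnePoint.infty)
    (h : Tendsto (fun k : ℕ => (Rf v0)^[n * k] (z : OnePoint ℂ)) atTop (𝓝 (z' : OnePoint ℂ))) :
    Tendsto (fun k : ℕ => (gg (pol v0.1) (pol v0.2))^[n * k] z) atTop (𝓝 z') := by
  rw [OnePoint.isOpenEmbedding_coe.tendsto_nhds_iff]
  refine h.congr fun k => ?_
  rw [(orb_all hz).2 (n * k), kn_it_gg]
  rfl

open MeasureTheory in
theorem bas_gg {d : ℕ} {v0 : E d} (hd : 2 ≤ d) (hcop : IsCoprime (pol v0.1) (pol v0.2))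
    (hdeg : max (pol v0.1).natDegree (pol v0.2).natDegree = d)
    (hae : volume {z : ℂ | ¬ Basin v0 z} = 0) :
    ∃ P : Set ℂ, P.Countable ∧ ∀ᵐ z : ℂ, ∃ w ∈ P, ∃ n : ℕ, 0 < n ∧
      Tendsto (fun k : ℕ => (gg (pol v0.1) (pol v0.2))^[n * k] z) atTop (𝓝 w) := by
  have hcnt := per_all_countable hcop (by rw [hdeg]; exact hd)
  refine ⟨(fun z : ℂ => (z : OnePoint ℂ)) ⁻¹' {x : OnePoint ℂ | ∃ n : ℕ, 0 < n ∧
    (rat (pol v0.1) (pol v0.2))^[n] x = x}, hcnt.preimage OnePoint.coe_injective, ?_⟩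
  have hae' : ∀ᵐ z : ℂ, Basin v0 z := ae_iff.2 hae
  filter_upwards [hae'] with z hz
  obtain ⟨z', n, hT, h1, h2⟩ := hz
  refine ⟨z', ?_, n, ?_, ?_⟩
  · show ∃ n : ℕ, 0 < n ∧ (rat (pol v0.1) (pol v0.2))^[n] (z' : OnePoint ℂ) = (z' : OnePoint ℂ)
    rcases hT with hT | hT
    · exact ⟨n, hT.1.1, hT.1.2.1⟩
    · refine ⟨n, hT.1, ?_⟩
      have h3 := (orb_all h2).1 n
      have h4 := (fix_trD h3 (a := 1) hT.2.1).1
      have h5 := (orb_all h2).2 n
      have h6 : it v0 n z' = z' := h4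
      rw [h6] at h5
      exact h5
  · rcases hT with hT | hT
    · exact hT.1.1
    · exact hT.1
  · rcases hT with hT | hT
    · exact kn_lim h1 hT.2
    · exact kn_lim h1 hT.2.2.1

theorem kn_shift {d : ℕ} {v0 : E d} {x : ℕ → ℂ} (ho : ∀ j, Orb v0 x j) (k : ℕ) :
    ∀ j, Orb v0 (fun i => x (k + i)) j := by
  intro j i _
  exact ho (k + i + 1) (k + i) (Nat.lt_succ_self _)

theorem kn_T {d : ℕ} {v0 : E d} {x : ℕ → ℂ} (ho : ∀ j, Orb v0 x j) (k : ℕ) :
    trD v0 (k + 1) (x 1) = dg (pol v0.1) (pol v0.2) (x (k + 1)) * trD v0 k (x 1) := by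
  rw [trD_succ, ke_shift ho 1 k, add_comm 1 k]

theorem kn_T2 {d : ℕ} {v0 : E d} {x : ℕ → ℂ} (ho : ∀ j, Orb v0 x j) (n i : ℕ) :
    trD v0 (n + i) (x 1) = trD v0 i (x (n + 1)) * trD v0 n (x 1) := by
  induction i with
  | zero =>
    have h : trD v0 0 (x (n + 1)) = 1 := by simp [trD]
    rw [h, add_zero, one_mul]
  | succ i ih =>
    rw [← add_assoc, kn_T ho (n + i), ih, trD_succ, ke_shift ho (n + 1) i,
      show n + 1 + i = n + i + 1 by omega]
    ring

open MeasureTheory in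
theorem kapE_ne1 {d : ℕ} {v0 : E d} (hd : 2 ≤ d) (hcop : IsCoprime (pol v0.1) (pol v0.2))
    (hdeg : max (pol v0.1).natDegree (pol v0.2).natDegree = d) {K : Set ℂ} (hK : ExpK v0 K)
    {x : ℕ → ℂ} (ho : ∀ j, Orb v0 x j) (hc : wv v0 (x 0) = 0) {m : ℕ} (hm : 1 ≤ m)
    (hxm : x m ∈ K) (hcr : ∀ i, 0 < i → i < m → wv v0 (x i) ≠ 0)
    (hae : volume {z : ℂ | ¬ Basin v0 z} = 0) : ∃ v : E d, kapE v0 v x m ≠ 0 := by
  by_contra hcon
  push Not at hcon
  have hR : RatD d (pol v0.1) (pol v0.2) := ⟨hd, hcop, hdeg⟩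
  have hden : ∀ k, ev v0.2 (x k) ≠ 0 := fun k => (ho (k + 1) k (Nat.lt_succ_self _)).1
  have hval : ∀ k, ev v0.1 (x k) / ev v0.2 (x k) = x (k + 1) :=
    fun k => (ho (k + 1) k (Nat.lt_succ_self _)).2
  have hinK : ∀ i, x (m + i) ∈ K := by
    intro i
    rw [← ke_shift ho m i]
    exact itK hK hxm i
  have hcr' : ∀ k, wv v0 (x (k + 1)) ≠ 0 := by
    intro k
    by_cases h : k + 1 < m
    · exact hcr (k + 1) (Nat.succ_pos _) h
    · obtain ⟨i, hi⟩ := Nat.exists_eq_add_of_le (not_lt.1 h)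
      rw [hi]
      exact ncrit_K hK (hinK i)
  have hdg : ∀ k, dg (pol v0.1) (pol v0.2) (x (k + 1)) ≠ 0 := by
    intro k
    rw [← dg_eq]
    exact div_ne_zero (hcr' k) (pow_ne_zero 2 (hden _))
  have hT0 : trD v0 0 (x 1) = 1 := by simp [trD]
  have hT : ∀ k, trD v0 k (x 1) ≠ 0 := by
    intro k
    induction k with
    | zero => rw [hT0]; exact one_ne_zero
    | succ k ih =>
      rw [kn_T ho k]
      exact mul_ne_zero (hdg k) ih
  have hsum : ∀ v : E d, ∑' k : ℕ, xi v0 v (x k) / trD v0 k (x 1) = 0 := by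
    intro v
    have h1 := kapE_sum hK ho hm hxm (hT (m - 1)) v
    rw [hcon v] at h1
    rcases mul_eq_zero.1 h1.symm with h2 | h2
    · exact absurd h2 (hT _)
    · exact h2
  -- a compact set containing the orbit
  have hK' : IsCompact (K ∪ x '' Set.Iio m) :=
    hK.compact.union ((Set.finite_Iio m).image x).isCompact
  have hxK' : ∀ k, x k ∈ K ∪ x '' Set.Iio m := by
    intro k
    by_cases h : k < m
    · exact Or.inr ⟨k, h, rfl⟩
    · obtain ⟨i, hi⟩ := Nat.exists_eq_add_of_le (not_lt.1 h)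
      rw [hi]
      exact Or.inl (hinK i)
  have hbK' : ∀ z ∈ K ∪ x '' Set.Iio m, (pol v0.2).eval z ≠ 0 := by
    rintro z (hz | ⟨k, _, rfl⟩)
    · rw [← ev_pol]
      exact hK.den z hz
    · rw [← ev_pol]
      exact hden k
  have hser : Ser d (pol v0.1) (pol v0.2) x (fun k => 1 / trD v0 k (x 1)) := by
    refine ⟨?_, ?_, ?_, ?_, ?_, ?_, ?_, ?_⟩
    · obtain ⟨R, hR1⟩ := hK'.isBounded.exists_norm_le
      exact ⟨R, fun k => hR1 _ (hxK' k)⟩
    · obtain ⟨z0, hz0, hmin⟩ := hK'.exists_isMinOn ⟨x m, hxK' m⟩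
        (f := fun z => ‖(pol v0.2).eval z‖) ((pol v0.2).continuous.norm.continuousOn)
      exact ⟨‖(pol v0.2).eval z0‖, norm_pos_iff.2 (hbK' z0 hz0), fun k => hmin (hxK' k)⟩
    · intro k
      unfold gg
      rw [← ev_pol, ← ev_pol]
      exact hval k
    · intro k
      show 1 / trD v0 (k + 1) (x 1) * dg (pol v0.1) (pol v0.2) (x (k + 1)) = 1 / trD v0 k (x 1)
      rw [kn_T ho k]
      have h1 := hT k
      have h2 := hdg k
      field_simp
    · rw [← dg_eq, hc, zero_div]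
    · show 1 / trD v0 0 (x 1) = 1
      rw [hT0, div_one]
    · obtain ⟨c, q, hc0, hq, hexp⟩ := hK.exp
      have hq0 : 0 < q := by linarith
      rw [← summable_nat_add_iff (m - 1)]
      have hTm : 0 < ‖trD v0 (m - 1) (x 1)‖ := norm_pos_iff.2 (hT _)
      have hg : Summable (fun i : ℕ => (1 / (c * ‖trD v0 (m - 1) (x 1)‖)) * (q⁻¹) ^ i) :=
        (summable_geometric_of_lt_one (inv_nonneg.2 hq0.le) (inv_lt_one_of_one_lt₀ hq)).mul_left _
      refine Summable.of_nonneg_of_le (fun i => norm_nonneg _) (fun i => ?_) hg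
      rw [norm_div, norm_one, add_comm i (m - 1), kn_T2 ho, Nat.sub_add_cancel hm, norm_mul]
      have h2 := hexp (x m) hxm i
      have h3 : 0 < c * q ^ i := by positivity
      calc 1 / (‖trD v0 i (x m)‖ * ‖trD v0 (m - 1) (x 1)‖)
          ≤ 1 / (c * q ^ i * ‖trD v0 (m - 1) (x 1)‖) := by
            apply one_div_le_one_div_of_le (by positivity)
            exact mul_le_mul_of_nonneg_right h2 hTm.le
        _ = (1 / (c * ‖trD v0 (m - 1) (x 1)‖)) * (q⁻¹) ^ i := by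
            rw [inv_pow]
            field_simp
    · intro η hη
      obtain ⟨v, hv⟩ := xi_surj hR hη
      rw [← hsum v]
      refine tsum_congr fun k => ?_
      rw [hv]
      ring
  obtain ⟨P, hP, hbas⟩ := bas_gg hd hcop hdeg hae
  exact ser_false hR hser hP hbas

open MeasureTheory in
theorem kapE_ne {d : ℕ} {v0 : E d} (hd : 2 ≤ d) (hcop : IsCoprime (pol v0.1) (pol v0.2))
    (hdeg : max (pol v0.1).natDegree (pol v0.2).natDegree = d) {K : Set ℂ} (hK : ExpK v0 K)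
    {x : ℕ → ℂ} (ho : ∀ j, Orb v0 x j) (hc : wv v0 (x 0) = 0) {m : ℕ} (hm : 1 ≤ m)
    (hxm : x m ∈ K) (hae : volume {z : ℂ | ¬ Basin v0 z} = 0) : ∃ v : E d, kapE v0 v x m ≠ 0 := by
  classical
  obtain ⟨k, hkm, hck, hlast⟩ : ∃ k, k < m ∧ wv v0 (x k) = 0 ∧
      ∀ i, k < i → i < m → wv v0 (x i) ≠ 0 := by
    refine ⟨Nat.findGreatest (fun i => wv v0 (x i) = 0) (m - 1), ?_, ?_, ?_⟩
    · have h := Nat.findGreatest_le (P := fun i => wv v0 (x i) = 0) (m - 1)
      omega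
    · exact Nat.findGreatest_spec (P := fun i => wv v0 (x i) = 0) (Nat.zero_le (m - 1)) hc
    · intro i hi him
      exact Nat.findGreatest_is_greatest hi (by omega)
  have hy : (fun j => x (k + j)) (m - k) ∈ K := by
    show x (k + (m - k)) ∈ K
    rw [Nat.add_sub_cancel' hkm.le]
    exact hxm
  obtain ⟨v, hv⟩ := kapE_ne1 hd hcop hdeg hK (kn_shift ho k) (x := fun j => x (k + j))
    (m := m - k) hck (by omega) hy
    (fun i hi him => hlast (k + i) (by omega) (by omega)) hae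
  exact ⟨v, by rw [kapE_shift ho hkm hck v]; exact hv⟩

end Pool.Agent.H35.EX
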