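import Pool.Agent.H35.EX.Defs
import Pool.Agent.H79.Par.SubToC

/-!
# Module SubC1: from sequences to `CGood`, directions in the unit ball only

PROOF. Copy the proof of `sub_c` (H79/Par/SubToC): there the goodness of almost every direction is used only for
directions in `ball 0 1` (the sets `D n = ball 0 1 \ O n`, `hD0`): replace `SeqGood` by `SeqGood1`.
-/

set_option autoImplicit false

open Filter Topology Polynomial Metric Set

namespace Pool.Agent.H35.EX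

open Pool.Agent.H44.Fatou Pool.Agent.H32.BT Pool.Agent.H79.Eul Pool.Agent.H79.Par
open Pool.Agent.H35.RL

open MeasureTheory in
theorem sub_c1 {d : ℕ} {v0 : E d} {c : ℂ}
    (h : ∀ r : ℕ → ℝ, (∀ j, 0 < r j) → Tendsto r atTop (𝓝 0) →
      ∃ σ : ℕ → ℕ, StrictMono σ ∧ SeqGood1 v0 c (r ∘ σ)) : CGood v0 c := by
  classical
  intro ε hε
  by_contra hcon
  rw [not_exists] at hcon
  have h1 : ∀ j : ℕ, ∃ r : ℝ, 0 < r ∧ r < 1 / ((j : ℝ) + 1) ∧
      ε < volume (ball (0 : E d) 1 ∩ {v | ¬ ∀ z ∈ ball c (1 / ((j : ℝ) + 1)),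
        wv (pv v0 (v, r)) z = 0 → Att (Rf (pv v0 (v, r))) (z : OnePoint ℂ)}) := by
    intro j
    have hj : (0 : ℝ) < 1 / ((j : ℝ) + 1) := by positivity
    have h2 : ∃ᶠ r in 𝓝[>] (0 : ℝ), ¬ volume (ball (0 : E d) 1 ∩
        {v | ¬ ∀ z ∈ ball c (1 / ((j : ℝ) + 1)), wv (pv v0 (v, r)) z = 0 →
          Att (Rf (pv v0 (v, r))) (z : OnePoint ℂ)}) ≤ ε := by
      rw [← Filter.not_eventually]
      exact fun h => hcon (1 / ((j : ℝ) + 1)) ⟨hj, h⟩
    have h3 : ∀ᶠ r : ℝ in 𝓝[>] (0 : ℝ), r ∈ Ioo (0 : ℝ) (1 / ((j : ℝ) + 1)) := Ioo_mem_nhdsGT hj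
    obtain ⟨r, hr1, hr2⟩ := (h2.and_eventually h3).exists
    exact ⟨r, hr2.1, hr2.2, lt_of_not_ge hr1⟩
  choose r hr0 hr1 hr2 using h1
  have hrt : Tendsto r atTop (𝓝 0) :=
    squeeze_zero (fun j => (hr0 j).le) (fun j => (hr1 j).le) tendsto_one_div_add_atTop_nhds_zero_nat
  obtain ⟨σ, hσ, hgood⟩ := h r hr0 hrt
  have hrad : ∀ m n : ℕ, m ≤ n → (1 : ℝ) / ((n : ℝ) + 1) ≤ 1 / ((m : ℝ) + 1) := by
    intro m n hmn
    apply one_div_le_one_div_of_le
    · positivity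
    · have : (m : ℝ) ≤ n := by exact_mod_cast hmn
      linarith
  let O : ℕ → Set (E d) := fun n =>
    interior {v | ∀ j : ℕ, n ≤ j → ∀ z ∈ ball c (1 / ((n : ℝ) + 1)),
      wv (pv v0 (v, r (σ j))) z = 0 → Att (Rf (pv v0 (v, r (σ j)))) (z : OnePoint ℂ)}
  have hOopen : ∀ n, IsOpen (O n) := fun n => isOpen_interior
  have hOmono : ∀ m n : ℕ, m ≤ n → O m ⊆ O n := by
    intro m n hmn
    apply interior_mono
    intro v hv j hj z hz
    exact hv j (hmn.trans hj) z (ball_subset_ball (hrad m n hmn) hz)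
  let D : ℕ → Set (E d) := fun n => ball (0 : E d) 1 \ O n
  have hDmeas : ∀ n, NullMeasurableSet (D n) volume := fun n =>
    (measurableSet_ball.diff (hOopen n).measurableSet).nullMeasurableSet
  have hDanti : Antitone D := fun m n hmn => sdiff_subset_sdiff_right (hOmono m n hmn)
  have hDfin : ∃ n, volume (D n) ≠ ⊤ :=
    ⟨0, ((measure_mono sdiff_subset).trans_lt measure_ball_lt_top).ne⟩
  have hDlim := tendsto_measure_iInter_atTop hDmeas hDanti hDfin
  have hD0 : volume (⋂ n, D n) = 0 := by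
    refine measure_mono_null ?_ hgood
    intro v hv
    refine ⟨(mem_iInter.1 hv 0).1, fun hev => ?_⟩
    rw [Filter.eventually_prod_iff] at hev
    obtain ⟨pa, hpa, pb, hpb, hab⟩ := hev
    rw [Filter.eventually_prod_iff] at hpa
    obtain ⟨qa, hqa, qb, hqb, hqab⟩ := hpa
    obtain ⟨N, hN, hNopen, hvN⟩ := _root_.eventually_nhds_iff.1 hqb
    rw [Filter.eventually_atTop] at hqa
    obtain ⟨n0, hn0⟩ := hqa
    rw [Metric.eventually_nhds_iff] at hpb
    obtain ⟨ρ, hρ, hρ2⟩ := hpb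
    obtain ⟨n1, hn1⟩ := exists_nat_one_div_lt hρ
    have hmem : v ∈ O (max n0 n1) := by
      rw [mem_interior]
      refine ⟨N, ?_, hNopen, hvN⟩
      intro w hw j hj z hz hcz
      have hz2 : dist z c < ρ :=
        lt_of_lt_of_le (mem_ball.1 hz) ((hrad n1 _ (le_max_right n0 n1)).trans hn1.le)
      exact hab (hqab (hn0 j ((le_max_left n0 n1).trans hj)) (hN w hw)) (hρ2 hz2) hcz
    exact (mem_iInter.1 hv _).2 hmem
  rw [hD0, ENNReal.tendsto_nhds_zero] at hDlim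
  obtain ⟨n, hn⟩ := (hDlim ε hε).exists
  have hle : volume (ball (0 : E d) 1 ∩ {v | ¬ ∀ z ∈ ball c (1 / ((σ n : ℝ) + 1)),
        wv (pv v0 (v, r (σ n))) z = 0 → Att (Rf (pv v0 (v, r (σ n)))) (z : OnePoint ℂ)}) ≤ ε := by
    refine le_trans (measure_mono ?_) hn
    rintro v ⟨hv1, hv2⟩
    refine ⟨hv1, fun hv3 => hv2 ?_⟩
    intro z hz
    exact (interior_subset hv3) n le_rfl z (ball_subset_ball (hrad n (σ n) (hσ.le_apply)) hz)
  exact absurd (hr2 (σ n)) (not_lt.mpr hle)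

end Pool.Agent.H35.EX
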