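import Pool.Agent.H35.EX.ChartK
import Pool.Agent.H35.EX.Area0K
import Pool.Agent.H35.EX.KapNe
import Pool.Agent.H35.EX.ExpGood
import Pool.Agent.H35.EX.SubC1

/-!
# Module DensK: density of hyperbolic maps at maps with expanding critical orbits

PROOF: compare `geo_dens2` (H79/Par/GMain2). `s, K` from `chart_K`, `w0 = Lin s v0`. `area0K` (the critical point `∞` does not occur, `h1`), `basin_ae`: `hW`; `rob_null`: `hV`.
`chart_vol`, `c_final`; a critical point `c : ℂ` has `wv w0 c = 0` (`crit_coe` as in `geo_dens2`), all its iterates are finite (`Chart0`). Type 1, 2: `sub_c (sub_basin ..)`. Type 4: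
`land_good`. If `(Rf w0)^[m] c = y ∈ K`: `it w0 m c = y` (`orb_all`), `exp_good` with `hkap` from `kapE_ne` (orbit `fun j => it w0 j c`, `orb_all`), and `sub_c1`.
-/

set_option autoImplicit false

open Filter Topology Polynomial Metric Set

namespace Pool.Agent.H35.EX

open Pool.Agent.H44.Fatou Pool.Agent.H32.BT Pool.Agent.H79.Eul Pool.Agent.H79.Par
open Pool.Agent.H80.AJ

open MeasureTheory in
theorem geo_densK {d : ℕ} (hd : 2 ≤ d) {v0 : E d} (hcop : IsCoprime (pol v0.1) (pol v0.2))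
    (hdeg : max (pol v0.1).natDegree (pol v0.2).natDegree = d)
    (h : ∀ c, IsCrit (Rf v0) c → (∃ z n, TyA (Rf v0) c z n) ∨
      ∃ K : Set (OnePoint ℂ), Expd (Rf v0) K ∧ ∃ m : ℕ, (Rf v0)^[m] c ∈ K)
    (hex : ∃ z n, NRCycle (Rf v0) z n) :
    Tendsto (fun r : ℝ => volume (ball (0 : E d) 1 ∩ {v | ¬ HypDeg (pv v0 (v, r))}))
      (𝓝[>] 0) (𝓝 0) := by
  obtain ⟨s, K, h0, h1, hK, ⟨c0, z0, n0, hT0, hinf⟩, hc⟩ := chart_K hd hcop hdeg h hex
  have hW : volume {z : ℂ | ¬ Basin (Lin s v0) z} = 0 := by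
    refine basin_ae hd h0 (area0K hd h0 hK (fun c hcr => ?_) hT0 hinf)
    induction c using OnePoint.rec with
    | infty => exact absurd hcr h1
    | coe c =>
      rcases hc c hcr with ⟨z, n, hT, -⟩ | h2
      · exact Or.inl ⟨z, n, hT⟩
      · exact Or.inr h2
  have hV := rob_null hd h0.1 h0.2.1
  refine chart_vol s (by omega) (c_final hd h0.1 h0.2.1 h1 fun c hcr => ?_)
  have hw : wv (Lin s v0) c = 0 := by
    have h5 := crit_coe hcr
    rw [← wv_cf (d := d) (pol_deg _) (pol_deg _), cf_pol, cf_pol] at h5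
    exact h5
  have hcf := h0.2.2.2 _ hcr
  rcases hc c hcr with ⟨z, n, hT, hzf⟩ | ⟨m, y, hy, hm⟩
  · rcases hT with hT | hT
    · exact sub_c (sub_basin ⟨z, n, hT, hcf, hzf⟩ hV)
    · exact Pool.Agent.H35.PL.land_good hd h0 hw hT
  · obtain ⟨ho, hit⟩ := orb_all hcf
    have hmK : it (Lin s v0) m c ∈ K := by
      rw [hit m] at hm
      rw [OnePoint.coe_injective hm]
      exact hy
    refine sub_c1 (exp_good hd h0 hK hw hmK (fun k hk hkK => ?_) hW hV)
    exact kapE_ne hd h0.1 h0.2.1 hK (x := fun j => it (Lin s v0) j c) ho hw hk hkK hW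

end Pool.Agent.H35.EX
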