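import Pool.Agent.H35.EX.Ratio
import Pool.Agent.H35.RL.Cocyc

/-!
# Module KapE: the functional `kapE` is a bounded linear form

PROOFS. `x (m + i) = it v0 i (x m) ∈ K` (`orb_it` for the shifted orbit, `itK`). Terms: `‖xi v0 v (x (m+i))‖ ≤ M_v`
(continuity of `xi v0 v` on the compact set `K`, where `ev v0.2 ≠ 0`), and `‖trD v0 (i+1) (x m)‖ ≥ c q ^ (i+1)`, so the
series is dominated by a geometric series. `xi_add`, `xi_smul` hold by unfolding (`ev` is linear in the
coefficients, see XXLin), `XX_add`, `XX_smul` (H79/Par/XXLin); `tsum_add`, `tsum_mul_left`. `kapE_bound`: a linear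
map on the finite dimensional space `E d` is continuous (`LinearMap.continuous_of_finiteDimensional`), hence
bounded on the unit ball (`closedBall` compact); the same for `XX v0 v m (x 0)`.
-/

set_option autoImplicit false

open Filter Topology Polynomial Metric Set

namespace Pool.Agent.H35.EX

open Pool.Agent.H44.Fatou Pool.Agent.H32.BT Pool.Agent.H79.Eul Pool.Agent.H79.Par
open Pool.Agent.H35.RL

theorem ke_ev_add {d : ℕ} (p q : Fin (d + 1) → ℂ) (z : ℂ) :
    ev (p + q) z = ev p z + ev q z := by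
  unfold ev
  rw [← Finset.sum_add_distrib]
  refine Finset.sum_congr rfl fun i _ => ?_
  rw [Pi.add_apply]
  ring

theorem ke_ev_smul {d : ℕ} (c : ℂ) (p : Fin (d + 1) → ℂ) (z : ℂ) :
    ev (c • p) z = c * ev p z := by
  unfold ev
  rw [Finset.mul_sum]
  refine Finset.sum_congr rfl fun i _ => ?_
  rw [Pi.smul_apply, smul_eq_mul]
  ring

theorem ke_xi_add {d : ℕ} (v0 v w : E d) (z : ℂ) :
    xi v0 (v + w) z = xi v0 v z + xi v0 w z := by
  unfold xi
  rw [Prod.fst_add, Prod.snd_add, ke_ev_add, ke_ev_add]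
  ring

theorem ke_xi_smul {d : ℕ} (v0 v : E d) (c : ℂ) (z : ℂ) :
    xi v0 (c • v) z = c * xi v0 v z := by
  unfold xi
  rw [Prod.smul_fst, Prod.smul_snd, ke_ev_smul, ke_ev_smul]
  ring

theorem ke_ev_cont {d : ℕ} (p : Fin (d + 1) → ℂ) : Continuous (fun z => ev p z) := by
  unfold ev
  fun_prop

theorem ke_shift {d : ℕ} {v0 : E d} {x : ℕ → ℂ} (ho : ∀ j, Orb v0 x j) (m i : ℕ) :
    it v0 i (x m) = x (m + i) := by
  have h : Orb v0 (fun j => x (m + j)) i := by
    intro j hj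
    exact ho (m + j + 1) (m + j) (Nat.lt_succ_self _)
  exact orb_it h i le_rfl

theorem kapE_summable {d : ℕ} {v0 : E d} {K : Set ℂ} (hK : ExpK v0 K) {x : ℕ → ℂ}
    (ho : ∀ j, Orb v0 x j) {m : ℕ} (hm : x m ∈ K) (v : E d) :
    Summable (fun i : ℕ => xi v0 v (x (m + i)) / trD v0 (i + 1) (x m)) := by
  obtain ⟨c, q, hc, hq, hexp⟩ := hK.exp
  have hq0 : 0 < q := by linarith
  have hcont : ContinuousOn (fun z => xi v0 v z) K := by
    unfold xi
    refine ContinuousOn.div ?_ ?_ ?_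
    · exact (((ke_ev_cont v.1).mul (ke_ev_cont v0.2)).sub
        ((ke_ev_cont v0.1).mul (ke_ev_cont v.2))).continuousOn
    · exact ((ke_ev_cont v0.2).pow 2).continuousOn
    · intro z hz
      exact pow_ne_zero 2 (hK.den z hz)
  obtain ⟨M, hM⟩ := hK.compact.exists_bound_of_continuousOn hcont
  have hM0 : 0 ≤ M := (norm_nonneg _).trans (hM (x m) hm)
  have hg : Summable (fun i : ℕ => (M / (c * q)) * (q⁻¹) ^ i) :=
    (summable_geometric_of_lt_one (inv_nonneg.2 hq0.le) (inv_lt_one_of_one_lt₀ hq)).mul_left _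
  refine Summable.of_norm_bounded hg fun i => ?_
  have h1 : x (m + i) ∈ K := by
    rw [← ke_shift ho m i]
    exact itK hK hm i
  have h2 := hexp (x m) hm (i + 1)
  have h3 : 0 < c * q ^ (i + 1) := by positivity
  rw [norm_div]
  calc ‖xi v0 v (x (m + i))‖ / ‖trD v0 (i + 1) (x m)‖ ≤ M / (c * q ^ (i + 1)) :=
        div_le_div₀ hM0 (hM _ h1) h3 h2
    _ = (M / (c * q)) * (q⁻¹) ^ i := by
        rw [inv_pow, pow_succ]
        field_simp

theorem kapE_add {d : ℕ} {v0 : E d} {K : Set ℂ} (hK : ExpK v0 K) {x : ℕ → ℂ}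
    (ho : ∀ j, Orb v0 x j) {m : ℕ} (hm : x m ∈ K) (v w : E d) :
    kapE v0 (v + w) x m = kapE v0 v x m + kapE v0 w x m := by
  unfold kapE
  have h : ∑' i : ℕ, xi v0 (v + w) (x (m + i)) / trD v0 (i + 1) (x m) =
      ∑' i : ℕ, xi v0 v (x (m + i)) / trD v0 (i + 1) (x m) +
      ∑' i : ℕ, xi v0 w (x (m + i)) / trD v0 (i + 1) (x m) := by
    rw [← (kapE_summable hK ho hm v).tsum_add (kapE_summable hK ho hm w)]
    exact tsum_congr fun i => by rw [ke_xi_add, add_div]
  rw [XX_add, h]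
  ring

theorem kapE_smul {d : ℕ} {v0 : E d} {x : ℕ → ℂ} {m : ℕ} (c : ℂ) (v : E d) :
    kapE v0 (c • v) x m = c * kapE v0 v x m := by
  unfold kapE
  have h : ∑' i : ℕ, xi v0 (c • v) (x (m + i)) / trD v0 (i + 1) (x m) =
      c * ∑' i : ℕ, xi v0 v (x (m + i)) / trD v0 (i + 1) (x m) := by
    rw [← tsum_mul_left]
    exact tsum_congr fun i => by rw [ke_xi_smul, mul_div_assoc]
  rw [XX_smul, h]
  ring

theorem kapE_bound {d : ℕ} {v0 : E d} {K : Set ℂ} (hK : ExpK v0 K) {x : ℕ → ℂ}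
    (ho : ∀ j, Orb v0 x j) {m : ℕ} (hm : x m ∈ K) :
    ∃ C : ℝ, 0 < C ∧ ∀ v ∈ ball (0 : E d) 1, ‖kapE v0 v x m‖ < C ∧ ‖XX v0 v m (x 0)‖ < C := by
  let L1 : E d →ₗ[ℂ] ℂ :=
    { toFun := fun v => kapE v0 v x m
      map_add' := fun v w => kapE_add hK ho hm v w
      map_smul' := fun c v => kapE_smul c v }
  let L2 : E d →ₗ[ℂ] ℂ :=
    { toFun := fun v => XX v0 v m (x 0)
      map_add' := fun v w => XX_add v0 v w m (x 0)
      map_smul' := fun c v => XX_smul v0 v c m (x 0) }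
  have key : ∀ L : E d →ₗ[ℂ] ℂ, ∀ v ∈ ball (0 : E d) 1,
      ‖L v‖ ≤ ‖LinearMap.toContinuousLinearMap L‖ := by
    intro L v hv
    have h1 : ‖v‖ < 1 := by simpa using hv
    have h2 := (LinearMap.toContinuousLinearMap L).le_opNorm v
    have h3 : ‖LinearMap.toContinuousLinearMap L‖ * ‖v‖ ≤ ‖LinearMap.toContinuousLinearMap L‖ :=
      mul_le_of_le_one_right (norm_nonneg _) h1.le
    exact h2.trans h3
  refine ⟨‖LinearMap.toContinuousLinearMap L1‖ + ‖LinearMap.toContinuousLinearMap L2‖ + 1, ?_, ?_⟩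
  · have h1 := norm_nonneg (LinearMap.toContinuousLinearMap L1)
    have h2 := norm_nonneg (LinearMap.toContinuousLinearMap L2)
    linarith
  · intro v hv
    have h1 := norm_nonneg (LinearMap.toContinuousLinearMap L1)
    have h2 := norm_nonneg (LinearMap.toContinuousLinearMap L2)
    have h3 : ‖kapE v0 v x m‖ ≤ ‖LinearMap.toContinuousLinearMap L1‖ := key L1 v hv
    have h4 : ‖XX v0 v m (x 0)‖ ≤ ‖LinearMap.toContinuousLinearMap L2‖ := key L2 v hv
    exact ⟨by linarith, by linarith⟩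

end Pool.Agent.H35.EX
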