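import Pool.Agent.H35.EX.Defs
import Pool.Agent.H79.Par.It

/-!
# Module Pert: uniform first order perturbation near an expanding set

PROOF. As in Unif: `ε > 0` with `‖ev v0.2 z‖ ≥ e0 > 0` on the compact set `K' = cthickening ε K`
(`IsCompact.exists_cthickening_subset_open`), `K' ⊆ closedBall 0 R1`. All constants below are uniform for
`v ∈ closedBall 0 1` (compact; `(v, z) ↦ ev v.1 z`, `ev v.2 z`, `xi v0 v z` are continuous on
`closedBall 0 1 ×ˢ K'`, so bounded, which gives `M`). `z ↦ xi v0 v z` is differentiable on `K'` with derivative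
continuous in `(v, z)`, so bounded by some `L`: `‖xi v0 v a - xi v0 v x‖ ≤ L ‖a - x‖` for `a ∈ ball x ε`
(`xi` is a quotient of polynomials in `z` which are linear in `v`; or use linearity in `v`: `xi v0 v` is a
finite sum of coordinates of `v` times fixed Lipschitz functions).
For `τ = (v', h)`, `h > 0`, by `pv_ev1`, `pv_ev2`:
`it (pv v0 τ) 1 a - it v0 1 a = h (ev v'.1 a * ev v0.2 a - ev v0.1 a * ev v'.2 a) / (ev (pv v0 τ).2 a * ev v0.2 a)`,
and `h * xi v0 v a = h (ev v.1 a * ev v0.2 a - ev v0.1 a * ev v.2 a) / ev v0.2 a ^ 2`. The difference of the two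
brackets tends to `0` uniformly for `a ∈ K'` as `τ → (v, 0)`: either directly, or by compactness of `K'` from
the continuity at `((v, 0), a)` of `(τ, a) ↦ (ev τ.1.1 a * ev v0.2 a - ev v0.1 a * ev τ.1.2 a) /
(ev (pv v0 τ).2 a * ev v0.2 a)` (generalized tube lemma, `IsCompact.eventually_forall_of_forall_eventually`),
which also gives `ev (pv v0 τ).2 a ≠ 0`. `flt v ≤ 𝓝 (v, 0)`.
-/

set_option autoImplicit false

open Filter Topology Polynomial Metric Set

namespace Pool.Agent.H35.EX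

open Pool.Agent.H44.Fatou Pool.Agent.H32.BT Pool.Agent.H79.Eul Pool.Agent.H79.Par
open Pool.Agent.H35.RL

theorem pert_hev {d : ℕ} (p : Fin (d + 1) → ℂ) (z : ℂ) :
    HasDerivAt (fun z => ev p z) (dev p z) z := by
  unfold ev dev
  apply HasDerivAt.fun_sum
  intro i _
  exact (hasDerivAt_pow (i : ℕ) z).const_mul (p i)

/-- the derivative of `xi` -/
noncomputable def pertDx {d : ℕ} (v0 : E d) (y : E d × ℂ) : ℂ :=
  ((dev y.1.1 y.2 * ev v0.2 y.2 + ev y.1.1 y.2 * dev v0.2 y.2 -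
    (dev v0.1 y.2 * ev y.1.2 y.2 + ev v0.1 y.2 * dev y.1.2 y.2)) * ev v0.2 y.2 ^ 2 -
    (ev y.1.1 y.2 * ev v0.2 y.2 - ev v0.1 y.2 * ev y.1.2 y.2) *
      (((2 : ℕ) : ℂ) * ev v0.2 y.2 ^ (2 - 1) * dev v0.2 y.2)) / (ev v0.2 y.2 ^ 2) ^ 2

theorem pert_dx {d : ℕ} (v0 v : E d) (z : ℂ) (hz : ev v0.2 z ≠ 0) :
    HasDerivAt (fun z => xi v0 v z) (pertDx v0 (v, z)) z := by
  have h1 := ((pert_hev v.1 z).mul (pert_hev v0.2 z)).sub ((pert_hev v0.1 z).mul (pert_hev v.2 z))
  have h2 := (pert_hev v0.2 z).pow 2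
  exact h1.div h2 (pow_ne_zero 2 hz)

theorem pert {d : ℕ} {v0 : E d} {K : Set ℂ} (hK : ExpK v0 K) :
    ∃ ε L M : ℝ, 0 < ε ∧ 0 ≤ L ∧ 0 ≤ M ∧ ∀ v ∈ ball (0 : E d) 1,
      (∀ x ∈ K, ‖xi v0 v x‖ ≤ M) ∧
      ∀ δ : ℝ, 0 < δ → ∀ᶠ τ in flt v, ∀ x ∈ K, ∀ a ∈ ball x ε, ev (pv v0 τ).2 a ≠ 0 ∧
        ‖it (pv v0 τ) 1 a - it v0 1 a - (τ.2 : ℂ) * xi v0 v x‖ ≤ τ.2 * (δ + L * ‖a - x‖) := by
  have hc2 : Continuous (fun z : ℂ => ev v0.2 z) :=
    ev_cont.comp (continuous_const.prodMk continuous_id)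
  have hc1 : Continuous (fun z : ℂ => ev v0.1 z) :=
    ev_cont.comp (continuous_const.prodMk continuous_id)
  have hU : IsOpen {z : ℂ | ev v0.2 z ≠ 0} := isOpen_ne.preimage hc2
  obtain ⟨ε, hε, hsub⟩ := hK.compact.exists_cthickening_subset_open hU (fun z hz => hK.den z hz)
  have hK' : IsCompact (cthickening ε K) := hK.compact.cthickening
  have hball : ∀ x ∈ K, ball x ε ⊆ cthickening ε K := fun x hx =>
    (ball_subset_thickening hx ε).trans (thickening_subset_cthickening ε K)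
  have hprod : IsCompact (closedBall (0 : E d) 1 ×ˢ cthickening ε K) :=
    (isCompact_closedBall (0 : E d) 1).prod hK'
  have hev2 : Continuous (fun y : E d × ℂ => ev v0.2 y.2) := hc2.comp continuous_snd
  have hev1 : Continuous (fun y : E d × ℂ => ev v0.1 y.2) := hc1.comp continuous_snd
  have hdev2 : Continuous (fun y : E d × ℂ => dev v0.2 y.2) :=
    dev_cont.comp (continuous_const.prodMk continuous_snd)
  have hdev1 : Continuous (fun y : E d × ℂ => dev v0.1 y.2) :=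
    dev_cont.comp (continuous_const.prodMk continuous_snd)
  have hxi : ContinuousOn (fun y : E d × ℂ => xi v0 y.1 y.2)
      (closedBall (0 : E d) 1 ×ˢ cthickening ε K) := by
    unfold xi
    refine ContinuousOn.div ?_ ?_ ?_
    · exact ((ev1_cont.mul hev2).sub (hev1.mul ev2_cont)).continuousOn
    · exact (hev2.pow 2).continuousOn
    · intro y hy
      exact pow_ne_zero 2 (hsub hy.2)
  have hdx : ContinuousOn (fun y : E d × ℂ => pertDx v0 y)
      (closedBall (0 : E d) 1 ×ˢ cthickening ε K) := by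
    unfold pertDx
    refine ContinuousOn.div ?_ ?_ ?_
    · refine Continuous.continuousOn ?_
      have a1 : Continuous (fun y : E d × ℂ => dev y.1.1 y.2) := dev1_cont
      have a2 : Continuous (fun y : E d × ℂ => dev y.1.2 y.2) := dev2_cont
      have a3 : Continuous (fun y : E d × ℂ => ev y.1.1 y.2) := ev1_cont
      have a4 : Continuous (fun y : E d × ℂ => ev y.1.2 y.2) := ev2_cont
      exact ((((a1.mul hev2).add (a3.mul hdev2)).sub ((hdev1.mul a4).add (hev1.mul a2))).mul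
        (hev2.pow 2)).sub (((a3.mul hev2).sub (hev1.mul a4)).mul
        ((continuous_const.mul (hev2.pow (2 - 1))).mul hdev2))
    · exact ((hev2.pow 2).pow 2).continuousOn
    · intro y hy
      exact pow_ne_zero 2 (pow_ne_zero 2 (hsub hy.2))
  obtain ⟨M, hM⟩ := hprod.exists_bound_of_continuousOn hxi
  obtain ⟨L, hL⟩ := hprod.exists_bound_of_continuousOn hdx
  refine ⟨ε, max L 0, max M 0, hε, le_max_right _ _, le_max_right _ _, fun v hv => ?_⟩
  have hv' : v ∈ closedBall (0 : E d) 1 := ball_subset_closedBall hv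
  have hKK : K ⊆ cthickening ε K := self_subset_cthickening K
  have hlip : ∀ x ∈ K, ∀ a ∈ ball x ε, ‖xi v0 v a - xi v0 v x‖ ≤ max L 0 * ‖a - x‖ := by
    intro x hx a ha
    refine Convex.norm_image_sub_le_of_norm_hasDerivWithin_le (s := ball x ε)
      (f := fun z => xi v0 v z) (f' := fun z => pertDx v0 (v, z)) ?_ ?_ (convex_ball x ε)
      (mem_ball_self hε) ha
    · intro z hz
      exact (pert_dx v0 v z (hsub (hball x hx hz))).hasDerivWithinAt
    · intro z hz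
      exact (hL (v, z) ⟨hv', hball x hx hz⟩).trans (le_max_left _ _)
  refine ⟨fun x hx => (hM (v, x) ⟨hv', hKK hx⟩).trans (le_max_left _ _), fun δ hδ => ?_⟩
  have hpv : Continuous (fun y : (E d × ℝ) × ℂ => ((pv v0 y.1, y.2) : E d × ℂ)) := by
    unfold pv
    exact (continuous_const.add ((continuous_snd.comp continuous_fst).smul
      (continuous_fst.comp continuous_fst))).prodMk continuous_snd
  have hpv0 : pv v0 (v, (0 : ℝ)) = v0 := by
    unfold pv
    rw [zero_smul, add_zero]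
  have hcomp := hK'.eventually_forall_of_forall_eventually (x₀ := ((v, (0 : ℝ)) : E d × ℝ))
    (P := fun τ a => ev (pv v0 τ).2 a ≠ 0 ∧
      ‖(ev τ.1.1 a * ev v0.2 a - ev v0.1 a * ev τ.1.2 a) / (ev (pv v0 τ).2 a * ev v0.2 a) -
        xi v0 v a‖ < δ) (by
    intro a ha
    have ha0 : ev v0.2 a ≠ 0 := hsub ha
    have e1 : ContinuousAt (fun y : (E d × ℝ) × ℂ => ev (pv v0 y.1).2 y.2) ((v, (0 : ℝ)), a) :=
      (ev2_cont.comp hpv).continuousAt
    have e2 : ContinuousAt (fun y : (E d × ℝ) × ℂ => ev v0.2 y.2) ((v, (0 : ℝ)), a) :=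
      (hc2.comp continuous_snd).continuousAt
    have e3 : ContinuousAt (fun y : (E d × ℝ) × ℂ => ev v0.1 y.2) ((v, (0 : ℝ)), a) :=
      (hc1.comp continuous_snd).continuousAt
    have e4 : ContinuousAt (fun y : (E d × ℝ) × ℂ => ev y.1.1.1 y.2) ((v, (0 : ℝ)), a) :=
      (ev1_cont.comp ((continuous_fst.comp continuous_fst).prodMk continuous_snd)).continuousAt
    have e5 : ContinuousAt (fun y : (E d × ℝ) × ℂ => ev y.1.1.2 y.2) ((v, (0 : ℝ)), a) :=
      (ev2_cont.comp ((continuous_fst.comp continuous_fst).prodMk continuous_snd)).continuousAt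
    have e6 : ContinuousAt (fun y : (E d × ℝ) × ℂ => xi v0 v y.2) ((v, (0 : ℝ)), a) := by
      have h1 : ContinuousAt (fun z => xi v0 v z) a := (pert_dx v0 v a ha0).continuousAt
      exact ContinuousAt.comp (f := fun y : (E d × ℝ) × ℂ => y.2)
        (g := fun z => xi v0 v z) (x := (((v, (0 : ℝ)), a) : (E d × ℝ) × ℂ)) h1
        continuous_snd.continuousAt
    have hne : ev (pv v0 (((v, (0 : ℝ)), a) : (E d × ℝ) × ℂ).1).2 a ≠ 0 := by
      show ev (pv v0 (v, (0 : ℝ))).2 a ≠ 0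
      rw [hpv0]
      exact ha0
    have e7 := (((e4.mul e2).sub (e3.mul e5)).div (e1.mul e2) (mul_ne_zero hne ha0)).sub e6
    have h8 := e7.norm
    have h9 : ‖(ev (((v, (0 : ℝ)), a) : (E d × ℝ) × ℂ).1.1.1 a * ev v0.2 a -
        ev v0.1 a * ev (((v, (0 : ℝ)), a) : (E d × ℝ) × ℂ).1.1.2 a) /
        (ev (pv v0 (((v, (0 : ℝ)), a) : (E d × ℝ) × ℂ).1).2 a * ev v0.2 a) - xi v0 v a‖ < δ := by
      show ‖(ev v.1 a * ev v0.2 a - ev v0.1 a * ev v.2 a) /
        (ev (pv v0 (v, (0 : ℝ))).2 a * ev v0.2 a) - xi v0 v a‖ < δ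
      rw [hpv0]
      unfold xi
      rw [← sq, sub_self, norm_zero]
      exact hδ
    exact (e1.eventually_ne hne).and (h8.eventually_lt continuousAt_const h9))
  have hle : flt v ≤ 𝓝 ((v, (0 : ℝ)) : E d × ℝ) := by
    rw [nhds_prod_eq]
    exact Filter.prod_mono le_rfl nhdsWithin_le_nhds
  filter_upwards [hle hcomp, Pool.Agent.H79.Par.flt_pos v] with τ hτ hpos x hx a ha
  obtain ⟨h1, h2⟩ := hτ a (hball x hx ha)
  have h0 : ev v0.2 a ≠ 0 := hsub (hball x hx ha)
  refine ⟨h1, ?_⟩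
  have h3 : it (pv v0 τ) 1 a - it v0 1 a = (τ.2 : ℂ) *
      ((ev τ.1.1 a * ev v0.2 a - ev v0.1 a * ev τ.1.2 a) / (ev (pv v0 τ).2 a * ev v0.2 a)) := by
    show ev (pv v0 τ).1 a / ev (pv v0 τ).2 a - ev v0.1 a / ev v0.2 a = _
    rw [div_sub_div _ _ h1 h0, ← mul_div_assoc]
    congr 1
    rw [pv_ev1, pv_ev2]
    ring
  have h4 : it (pv v0 τ) 1 a - it v0 1 a - (τ.2 : ℂ) * xi v0 v x = (τ.2 : ℂ) *
      (((ev τ.1.1 a * ev v0.2 a - ev v0.1 a * ev τ.1.2 a) / (ev (pv v0 τ).2 a * ev v0.2 a) -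
        xi v0 v a) + (xi v0 v a - xi v0 v x)) := by
    rw [h3]
    ring
  rw [h4, norm_mul, Complex.norm_real, Real.norm_eq_abs, abs_of_pos hpos]
  apply mul_le_mul_of_nonneg_left _ hpos.le
  exact (norm_add_le _ _).trans (add_le_add h2.le (hlip x hx a ha))

end Pool.Agent.H35.EX
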