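import Pool.Agent.H35.EX.Shad
import Pool.Agent.H35.EX.Pert
import Pool.Agent.H35.EX.KapE
import Pool.Agent.H35.EX.BlowLip
import Pool.Agent.H35.RL.CritIt
import Pool.Agent.H35.RL.PullAtt

/-!
# Module ExpLoc: a critical orbit ending in an expanding set, one direction

PROOF (compare RLocal in H35/RL). Constants: `pert hK` gives `ε1, L, M`; `orb1 hK` (with `ε1`) gives
`ε ≤ ε1, A, c0, B, θ` and the abstract orbit data at `z = x m` (`f = it v0 1`, `it v0 i (x m) = x (m + i)`);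
`kapE_bound` gives `C`, put `Kb = C`; `ρ0` is the one of `shad` for these constants.
Let `v ∈ ball 0 1`, `Blow ..` with `ρ ≤ ρ0` be given. `T = (E d × ℝ) × ℂ`,
`l = ((𝓝 v ×ˢ R) ×ˢ 𝓝 (x 0)) ⊓ 𝓟 (crs v0)`, `h y = y.1.2`, `F y = it (pv v0 y.1) 1`, `N' y = N y.1.2`,
`u y = it (pv v0 y.1) m y.2`, `ξ i = xi v0 v (x (m + i))`, `κ0 = XX v0 v m (x 0)`. `l ≤ flt v ×ˢ 𝓝 (x 0)` (`hR`).
`hF`: from `pert` (eventually in `flt v`, all points `x (m + i) ∈ K`, balls of radius `ε ≤ ε1`); `hu`: `crit_it`;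
`hN`, `hρ`: compose the fields of `Blow` with `y ↦ y.1.2`. `shad`: all the iterates `(F y)^[i] (u y)`, `i ≤ N' y`, are
in `ball (x (m + i)) ε`, and `(F y)^[N' y] (u y) - it v0 (N' y) (x m + h κ) → 0`, `κ = kapE v0 v x m`
(`iter_it`, `rfl`). With `X y = h * trD v0 (N' y) (x m) * κ → μ κ` (`hμ`), `x m + h κ = x m + X / trD ..`
(`trD_ne`), `blow_lim` gives `it v0 (N' y) (x m + h κ) → Ψ (μ κ)`. So `Z y = it (pv v0 y.1) (N' y) (u y) → Ψ (μ κ)`.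
`RA`: `Att (Rf (pv v0 y.1)) (Z y)` eventually (compose the definition of `RA` with `y ↦ (y.1, Z y)`). `pull_one`
with `n = N' y + m`, `it_add`: the denominators: for `j < m` by `orb_near (ho m)` and `pv_lim2`; for
`m ≤ j < N' y + m`, `j = i + m`: `it (pv) j y.2 = (F y)^[i] (u y) ∈ ball (x (m+i)) ε` where `ev (pv ..).2 ≠ 0` by `pert`.
`cop_near` for coprimality. `Filter.eventually_inf_principal` at the end.
-/

set_option autoImplicit false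

open Filter Topology Polynomial Metric Set

namespace Pool.Agent.H35.EX

open Pool.Agent.H44.Fatou Pool.Agent.H32.BT Pool.Agent.H79.Eul Pool.Agent.H79.Par
open Pool.Agent.H35.RL

theorem exp_local {d : ℕ} {v0 : E d} (hcop : IsCoprime (pol v0.1) (pol v0.2))
    (hdeg : max (pol v0.1).natDegree (pol v0.2).natDegree = d) (hd : 2 ≤ d) {K : Set ℂ}
    (hK : ExpK v0 K) {x : ℕ → ℂ} (ho : ∀ j, Orb v0 x j) {m : ℕ} (hm : 1 ≤ m) (hxm : x m ∈ K) :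
    ∃ ρ0 : ℝ, 0 < ρ0 ∧ ∀ (ρ R0 : ℝ) (R : Filter ℝ) (N : ℝ → ℕ) (μ : ℂ) (Ψ : ℂ → ℂ), ρ ≤ ρ0 →
      Blow v0 (x m) R N μ Ψ R0 ρ → ∀ v ∈ ball (0 : E d) 1,
      μ * kapE v0 v x m ∈ ball (0 : ℂ) R0 → Ψ (μ * kapE v0 v x m) ∈ RA v0 v →
        CAtt v0 v R (x 0) := by
  have hdeg1 : 1 ≤ max (pol v0.1).natDegree (pol v0.2).natDegree := by rw [hdeg]; omega
  obtain ⟨ε1, L, M, hε1, hL, hM, hpert⟩ := pert hK
  obtain ⟨ε, A, c0, B, θ, hεle, hC, hden, horb⟩ := orb1 hK hε1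
  obtain ⟨C, hC0, hCb⟩ := kapE_bound hK ho hxm
  obtain ⟨ρ0, hρ0, hsh⟩ := shad hC hL hM hC0.le
  refine ⟨ρ0, hρ0, ?_⟩
  intro ρ R0 R N μ Ψ hρle b v hv hball hRA
  obtain ⟨hpM, hpd⟩ := hpert v hv
  have hxit : ∀ i, it v0 i (x m) = x (m + i) := by
    intro i
    have ho' : Orb v0 (fun i => x (m + i)) i := by
      intro j hj
      exact ho (m + i) (m + j) (by omega)
    have h1 := orb_it ho' i le_rfl
    simpa using h1
  obtain ⟨l, hl⟩ : ∃ l : Filter ((E d × ℝ) × ℂ),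
      l = ((𝓝 v ×ˢ R) ×ˢ 𝓝 (x 0)) ⊓ 𝓟 (crs v0) := ⟨_, rfl⟩
  have hvR : 𝓝 v ×ˢ R ≤ flt v := Filter.prod_mono le_rfl b.hR
  have hle2 : l ≤ (flt v ×ˢ 𝓝 (x 0)) ⊓ 𝓟 (crs v0) := by
    rw [hl]
    exact inf_le_inf_right _ (Filter.prod_mono hvR le_rfl)
  have hle : l ≤ flt v ×ˢ 𝓝 (x 0) := hle2.trans inf_le_left
  have hfst : Tendsto (fun y : (E d × ℝ) × ℂ => y.1) l (flt v) := tendsto_fst.mono_left hle
  have hsnd : Tendsto (fun y : (E d × ℝ) × ℂ => y.1.2) l R := by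
    have h1 : Tendsto (fun y : (E d × ℝ) × ℂ => y.1.2) ((𝓝 v ×ˢ R) ×ˢ 𝓝 (x 0)) R :=
      tendsto_snd.comp tendsto_fst
    rw [hl]
    exact h1.mono_left inf_le_left
  have hpos : ∀ᶠ τ in l, 0 < τ.1.2 := hfst.eventually (Pool.Agent.H79.Par.flt_pos v)
  have hN' : Tendsto (fun y : (E d × ℝ) × ℂ => N y.1.2) l atTop := b.hN.comp hsnd
  have hρ' : ∀ᶠ τ : (E d × ℝ) × ℂ in l, τ.1.2 * ‖trD v0 (N τ.1.2) (x m)‖ ≤ ρ0 := by
    filter_upwards [hsnd.eventually b.hρ] with τ h1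
    exact h1.trans hρle
  have hF : ∀ δ : ℝ, 0 < δ → ∀ᶠ τ : (E d × ℝ) × ℂ in l, ∀ i, ∀ a ∈ ball (it v0 i (x m)) ε,
      ‖it (pv v0 τ.1) 1 a - it v0 1 a - (τ.1.2 : ℂ) * xi v0 v (it v0 i (x m))‖ ≤
        τ.1.2 * (δ + L * ‖a - it v0 i (x m)‖) := by
    intro δ hδ
    filter_upwards [hfst.eventually (hpd δ hδ)] with τ h1 i a ha
    exact (h1 _ (itK hK hxm i) a (ball_subset_ball hεle ha)).2
  have hu : Tendsto (fun τ : (E d × ℝ) × ℂ => (it (pv v0 τ.1) m τ.2 - it v0 0 (x m)) /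
      (τ.1.2 : ℂ)) l (𝓝 (XX v0 v m (x 0))) :=
    (crit_it (v := v) hcop hdeg1 hm (ho m)).mono_left hle2
  obtain ⟨hin, hlimZ⟩ := hsh ((E d × ℝ) × ℂ) l (it v0 1) (fun i => it v0 i (x m))
    (fun i => wv v0 (it v0 i (x m)) / ev v0.2 (it v0 i (x m)) ^ 2) (fun i => trD v0 i (x m))
    (fun i => xi v0 v (it v0 i (x m))) (fun y => it (pv v0 y.1) 1) (fun y => y.1.2)
    (fun y => N y.1.2) (fun y => it (pv v0 y.1) m y.2) (XX v0 v m (x 0)) (horb (x m) hxm)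
    (fun i => hpM _ (itK hK hxm i)) (hCb v hv).2 hpos hN' hρ' hF hu
  obtain ⟨κ, hκ⟩ : ∃ κ : ℂ, κ = kapE v0 v x m := ⟨_, rfl⟩
  have hκ' : XX v0 v m (x 0) +
      ∑' k, xi v0 v (it v0 k (x m)) / trD v0 (k + 1) (x m) = κ := by
    rw [hκ]
    unfold kapE
    congr 1
    refine tsum_congr fun k => ?_
    rw [hxit k]
  rw [← hκ] at hball hRA
  -- the limit of the unperturbed orbit
  have hX : Tendsto (fun y : (E d × ℝ) × ℂ => ((y.1.2 : ℂ) * trD v0 (N y.1.2) (x m)) * κ) l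
      (𝓝 (μ * κ)) := (b.hμ.comp hsnd).mul_const κ
  have hlim0 := blow_lim b hsnd hX hball
  have hlim1 : Tendsto (fun y : (E d × ℝ) × ℂ => it v0 (N y.1.2) (x m + (y.1.2 : ℂ) * κ)) l
      (𝓝 (Ψ (μ * κ))) := by
    refine hlim0.congr fun y => ?_
    congr 2
    have h1 := trD_ne hK hxm (N y.1.2)
    field_simp
  have hZ : Tendsto (fun y : (E d × ℝ) × ℂ => (it (pv v0 y.1) 1)^[N y.1.2]
      (it (pv v0 y.1) m y.2)) l (𝓝 (Ψ (μ * κ))) := by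
    have h1 := hlimZ.add hlim1
    rw [zero_add] at h1
    refine h1.congr fun y => ?_
    have h2 : (it v0 1)^[N y.1.2] (it v0 0 (x m) + (y.1.2 : ℂ) * (XX v0 v m (x 0) +
        ∑' k, xi v0 v (it v0 k (x m)) / trD v0 (k + 1) (x m))) =
        it v0 (N y.1.2) (x m + (y.1.2 : ℂ) * κ) := by
      rw [iter_it, hκ']
      rfl
    show (it (pv v0 y.1) 1)^[N y.1.2] (it (pv v0 y.1) m y.2) -
      (it v0 1)^[N y.1.2] (it v0 0 (x m) + (y.1.2 : ℂ) * (XX v0 v m (x 0) +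
        ∑' k, xi v0 v (it v0 k (x m)) / trD v0 (k + 1) (x m))) +
        it v0 (N y.1.2) (x m + (y.1.2 : ℂ) * κ) = _
    rw [h2]
    ring
  have key : ∀ᶠ y in l, Att (Rf (pv v0 y.1)) (y.2 : OnePoint ℂ) := by
    have hRA' : ∀ᶠ y : (E d × ℝ) × ℂ in flt v ×ˢ 𝓝 (Ψ (μ * κ)),
        Att (Rf (pv v0 y.1)) (y.2 : OnePoint ℂ) := hRA
    have e1 := (hfst.prodMk hZ).eventually hRA'
    have e2 := hfst.eventually (hpd 1 one_pos)
    have e3 := ((pv_lim2 v0 v (x 0)).mono_left hle).eventually (orb_near (ho m))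
    have e4 := ((pv_lim v0 v).comp hfst).eventually (cop_near hcop hdeg (by omega))
    filter_upwards [e1, e2, e3, e4, hin] with y a1 a2 a3 a4 a5
    refine pull_one a4.1 a3 ?_
    refine pull_one (n := N y.1.2) a4.1 ?_ ?_
    · intro j hj
      rw [← iter_it]
      exact (a2 _ (itK hK hxm j) _ (ball_subset_ball hεle (a5 j hj.le))).1
    · rw [← iter_it]
      exact a1
  rw [hl, Filter.eventually_inf_principal] at key
  exact key

end Pool.Agent.H35.EX
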