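import Mathlib

/-!
# Module Gron: discrete Gronwall inequalities

PROOFS. `gron`: show by induction on `j ≤ n`
`‖G j‖ ≤ exp (∑ i < j, t i) * (‖G 0‖ + ∑ i < j, s i)`:
`‖G (j+1)‖ ≤ (1 + t j) ‖G j‖ + s j ≤ exp (t j) ‖G j‖ + exp (∑ i < j+1, t i) * s j` (`Real.add_one_le_exp`,
and `1 ≤ exp (nonneg)`). Then monotonicity in `j` of both sums (all terms nonnegative).
`gron_diff`: by `gron` with `s = 0`: `‖G i‖ ≤ exp (1/4) ‖G 0‖ ≤ 2 ‖G 0‖` for `i ≤ n`
(`exp (1/4) ≤ exp 1 ^ (1/4)`, e.g. from `Real.exp_one_lt_d9` or `Real.exp_bound'`, or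
`exp x ≤ 1 / (1 - x)`, `Real.exp_bound_div_one_sub_of_interval` / `Real.add_one_le_exp (-x)`), and
`‖G j - G 0‖ ≤ ∑ i < j, ‖G (i+1) - G i‖ ≤ ∑ i < j, t i * 2 ‖G 0‖ ≤ (1/2) ‖G 0‖`.
-/

set_option autoImplicit false

open Finset

namespace Pool.Agent.H35.EX

theorem gron_aux {G : ℕ → ℂ} {t s : ℕ → ℝ} {n : ℕ} (ht : ∀ i < n, 0 ≤ t i)
    (hs : ∀ i < n, 0 ≤ s i)
    (h : ∀ i < n, ‖G (i + 1) - G i‖ ≤ t i * ‖G i‖ + s i) :
    ∀ j ≤ n, ‖G j‖ ≤ Real.exp (∑ i ∈ range j, t i) * (‖G 0‖ + ∑ i ∈ range j, s i) := by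
  intro j
  induction j with
  | zero => intro _; simp
  | succ j ih =>
    intro hj
    have ih' := ih (by omega)
    have hj' : j < n := by omega
    have h1 := h j hj'
    have htj := ht j hj'
    have hsj := hs j hj'
    have h2 : ‖G (j + 1)‖ ≤ ‖G (j + 1) - G j‖ + ‖G j‖ := by
      have := norm_add_le (G (j + 1) - G j) (G j)
      simpa using this
    have h4 : 1 + t j ≤ Real.exp (t j) := by
      have := Real.add_one_le_exp (t j); linarith
    have hsum0 : 0 ≤ ∑ i ∈ range j, t i + t j := by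
      have : 0 ≤ ∑ i ∈ range j, t i := Finset.sum_nonneg fun i hi => ht i (by
        have := Finset.mem_range.1 hi; omega)
      linarith
    have h5 : 1 ≤ Real.exp (∑ i ∈ range j, t i + t j) := Real.one_le_exp hsum0
    rw [Finset.sum_range_succ, Finset.sum_range_succ]
    calc ‖G (j + 1)‖ ≤ (1 + t j) * ‖G j‖ + s j := by linarith
      _ ≤ Real.exp (t j) * ‖G j‖ + s j := by
          have := mul_le_mul_of_nonneg_right h4 (norm_nonneg (G j)); linarith
      _ ≤ Real.exp (t j) * (Real.exp (∑ i ∈ range j, t i) * (‖G 0‖ + ∑ i ∈ range j, s i)) +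
            Real.exp (∑ i ∈ range j, t i + t j) * s j := by
          have e1 := mul_le_mul_of_nonneg_left ih' (Real.exp_pos (t j)).le
          have e2 := mul_le_mul_of_nonneg_right h5 hsj
          linarith
      _ = Real.exp (∑ i ∈ range j, t i + t j) * (‖G 0‖ + (∑ i ∈ range j, s i + s j)) := by
          rw [Real.exp_add]; ring

theorem gron {G : ℕ → ℂ} {t s : ℕ → ℝ} {n : ℕ} (ht : ∀ i < n, 0 ≤ t i) (hs : ∀ i < n, 0 ≤ s i)
    (h : ∀ i < n, ‖G (i + 1) - G i‖ ≤ t i * ‖G i‖ + s i) :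
    ∀ j ≤ n, ‖G j‖ ≤ Real.exp (∑ i ∈ range n, t i) * (‖G 0‖ + ∑ i ∈ range n, s i) := by
  intro j hj
  refine (gron_aux ht hs h j hj).trans ?_
  have e1 : ∑ i ∈ range j, t i ≤ ∑ i ∈ range n, t i :=
    Finset.sum_le_sum_of_subset_of_nonneg (Finset.range_mono hj) fun i hi _ =>
      ht i (Finset.mem_range.1 hi)
  have e2 : ∑ i ∈ range j, s i ≤ ∑ i ∈ range n, s i :=
    Finset.sum_le_sum_of_subset_of_nonneg (Finset.range_mono hj) fun i hi _ =>
      hs i (Finset.mem_range.1 hi)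
  have e3 : 0 ≤ ∑ i ∈ range j, s i := Finset.sum_nonneg fun i hi => hs i (by
    have := Finset.mem_range.1 hi; omega)
  have e4 := norm_nonneg (G 0)
  exact mul_le_mul (Real.exp_le_exp.2 e1) (by linarith) (by linarith) (Real.exp_pos _).le

theorem gron_diff {G : ℕ → ℂ} {t : ℕ → ℝ} {n : ℕ} (ht : ∀ i < n, 0 ≤ t i)
    (hsum : ∑ i ∈ range n, t i ≤ 1 / 4) (h : ∀ i < n, ‖G (i + 1) - G i‖ ≤ t i * ‖G i‖) :
    ∀ j ≤ n, ‖G j - G 0‖ ≤ (1 / 2) * ‖G 0‖ ∧ ‖G j‖ ≤ 2 * ‖G 0‖ := by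
  have h0 := norm_nonneg (G 0)
  have hexp : Real.exp (∑ i ∈ range n, t i) ≤ 2 := by
    have h1 : Real.exp (∑ i ∈ range n, t i) ≤ Real.exp (1 / 4) := Real.exp_le_exp.2 hsum
    have h2 : 1 - 1 / 4 ≤ Real.exp (-(1 / 4)) := by
      have := Real.add_one_le_exp (-(1 / 4 : ℝ)); linarith
    have h3 : Real.exp (1 / 4) * Real.exp (-(1 / 4)) = 1 := by
      rw [← Real.exp_add]; simp
    have h4 := Real.exp_pos (1 / 4 : ℝ)
    nlinarith
  have hb : ∀ j ≤ n, ‖G j‖ ≤ 2 * ‖G 0‖ := by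
    intro j hj
    have := gron (s := fun _ => 0) ht (fun _ _ => le_rfl) (by simpa using h) j hj
    simp only [Finset.sum_const_zero, add_zero] at this
    exact this.trans (mul_le_mul_of_nonneg_right hexp h0)
  intro j hj
  refine ⟨?_, hb j hj⟩
  have hd : ∀ j ≤ n, ‖G j - G 0‖ ≤ (∑ i ∈ range j, t i) * (2 * ‖G 0‖) := by
    intro j
    induction j with
    | zero => intro _; simp
    | succ j ih =>
      intro hj
      have ih' := ih (by omega)
      have h1 := h j (by omega)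
      have h2 := hb j (by omega)
      have h3 : ‖G (j + 1) - G 0‖ ≤ ‖G (j + 1) - G j‖ + ‖G j - G 0‖ := by
        have := norm_add_le (G (j + 1) - G j) (G j - G 0)
        simpa using this
      have h4 := mul_le_mul_of_nonneg_left h2 (ht j (by omega))
      rw [Finset.sum_range_succ, add_mul]
      linarith
  have e1 : ∑ i ∈ range j, t i ≤ ∑ i ∈ range n, t i :=
    Finset.sum_le_sum_of_subset_of_nonneg (Finset.range_mono hj) fun i hi _ =>
      ht i (Finset.mem_range.1 hi)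
  have e2 := mul_le_mul_of_nonneg_right (e1.trans hsum) (mul_nonneg zero_le_two h0)
  have := hd j hj
  linarith

end Pool.Agent.H35.EX
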