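import Pool.Agent.H35.EX.Ratio
import Pool.Agent.H35.EX.KapE
import Pool.Agent.H35.RL.Cocyc
import Pool.Agent.H61.TT.Orbit

/-!
# Module KapS: the functional `kapE` as a sum along the orbit; shift

PROOFS. `kapE_sum`: write `T n = trD v0 n (x 1)`, `T (i + j) = trD v0 i (x (j+1)) * T j` (`trD` of a sum: `Finset.prod_range_add` with
`it_add`, `orb_it` for the orbit `j ↦ x (j+1)`), all `T n ≠ 0`: `T (m-1) ≠ 0` is given (so `T j ≠ 0` for `j ≤ m - 1`), and `x m ∈ K` gives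
`trD v0 i (x m) ≠ 0` (`trD_ne`). `XX v0 v m (x 0) = ∑ j < m, trD v0 (m-1-j) (x (j+1)) * xi v0 v (x j)` (induction on `m`; unfold
`XX`, `orb_it`; compare `XV_val` in H61/TT/Orbit) `= T (m-1) * ∑ j < m, xi v0 v (x j) / T j`. The terms `j = m + i`:
`T (m + i) = trD v0 (i+1) (x m) * T (m-1)`. Summable by `kapE_summable`; `Summable.sum_add_tsum_nat_add`.
`kapE_shift`: as `kap_shift` (H35/RL/Cocyc): `XX v0 v m (x 0) = XX v0 v (m-k) (x k) + trD v0 (m-k) (x k) * XX v0 v k (x 0)`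
(`XX_cocycle`), and `trD v0 (m-k) (x k) = 0` (its factor `i = 0` vanishes); `k + (m - k) = m`, also in the arguments
`x (m + i)`. `ncrit_K`: `hK.exp` with `n = 1`: `trD v0 1 z = wv v0 z / ev v0.2 z ^ 2 ≠ 0`.
-/

set_option autoImplicit false

open Filter Topology Polynomial Metric Set

namespace Pool.Agent.H35.EX

open Pool.Agent.H44.Fatou Pool.Agent.H32.BT Pool.Agent.H79.Eul Pool.Agent.H79.Par
open Pool.Agent.H35.RL

theorem kapS_trD {d : ℕ} {v0 : E d} {x : ℕ → ℂ} (ho : ∀ j, Orb v0 x j) (k n : ℕ) :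
    trD v0 n (x k) = ∏ i ∈ Finset.Ico k (k + n), Pool.Agent.H61.TT.dg (pol v0.1) (pol v0.2) (x i) := by
  induction n with
  | zero => simp [trD]
  | succ n ih =>
    rw [Pool.Agent.H61.TT.trD_succ, ih, ke_shift ho k n, ← add_assoc,
      Finset.prod_Ico_succ_top (by omega : k ≤ k + n), mul_comm]

theorem kapE_sum {d : ℕ} {v0 : E d} {K : Set ℂ} (hK : ExpK v0 K) {x : ℕ → ℂ}
    (ho : ∀ j, Orb v0 x j) {m : ℕ} (hm : 1 ≤ m) (hxm : x m ∈ K) (hne : trD v0 (m - 1) (x 1) ≠ 0)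
    (v : E d) : kapE v0 v x m = trD v0 (m - 1) (x 1) * ∑' k : ℕ, xi v0 v (x k) / trD v0 k (x 1) := by
  obtain ⟨D, hD⟩ : ∃ D : ℕ → ℂ, D = fun i => Pool.Agent.H61.TT.dg (pol v0.1) (pol v0.2) (x i) :=
    ⟨_, rfl⟩
  have htr : ∀ k n : ℕ, trD v0 n (x k) = ∏ i ∈ Finset.Ico k (k + n), D i := by
    intro k n
    rw [kapS_trD ho k n, hD]
  obtain ⟨T, hT⟩ : ∃ T : ℂ, T = trD v0 (m - 1) (x 1) := ⟨_, rfl⟩
  rw [← hT] at hne ⊢
  have hT1 : T = ∏ i ∈ Finset.Ico 1 m, D i := by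
    rw [hT, htr]
    congr 2
    omega
  -- the first m terms
  have hsplit : ∀ j < m, T = trD v0 j (x 1) * Pool.Agent.H61.TT.cc v0 x m j := by
    intro j hj
    have h1 : Pool.Agent.H61.TT.cc v0 x m j = ∏ i ∈ Finset.Ico (j + 1) m, D i := by
      unfold Pool.Agent.H61.TT.cc
      rw [hD]
    rw [h1, hT1, htr, add_comm 1 j]
    exact (Finset.prod_Ico_consecutive D (by omega) (by omega)).symm
  have hfirst : XX v0 v m (x 0) = T * ∑ k ∈ Finset.range m, xi v0 v (x k) / trD v0 k (x 1) := by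
    rw [Pool.Agent.H61.TT.XX_eq, Pool.Agent.H61.TT.XV_val (ho m), Finset.mul_sum]
    refine Finset.sum_congr rfl fun j hj => ?_
    have h1 := hsplit j (Finset.mem_range.1 hj)
    have h2 : trD v0 j (x 1) ≠ 0 := by
      intro h0
      apply hne
      rw [h1, h0, zero_mul]
    rw [h1]
    field_simp
  have htail : ∀ i : ℕ, trD v0 (i + m) (x 1) = T * trD v0 (i + 1) (x m) := by
    intro i
    rw [hT1, htr, htr, Finset.prod_Ico_consecutive D (by omega) (by omega)]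
    congr 2
    omega
  have hterm : ∀ i : ℕ, xi v0 v (x (i + m)) / trD v0 (i + m) (x 1) =
      T⁻¹ * (xi v0 v (x (m + i)) / trD v0 (i + 1) (x m)) := by
    intro i
    rw [htail, add_comm i m]
    have h1 := trD_ne hK hxm (i + 1)
    field_simp
  have hs0 := kapE_summable hK ho hxm v
  have hs1 : Summable fun i : ℕ => xi v0 v (x (i + m)) / trD v0 (i + m) (x 1) := by
    refine (hs0.mul_left T⁻¹).congr fun i => ?_
    rw [hterm]
  have hs2 : Summable fun k : ℕ => xi v0 v (x k) / trD v0 k (x 1) :=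
    (summable_nat_add_iff (f := fun k : ℕ => xi v0 v (x k) / trD v0 k (x 1)) m).1 hs1
  rw [← hs2.sum_add_tsum_nat_add m, mul_add, ← hfirst]
  unfold kapE
  congr 1
  rw [tsum_congr hterm, tsum_mul_left, ← mul_assoc, mul_inv_cancel₀ hne, one_mul]

theorem kapE_shift {d : ℕ} {v0 : E d} {x : ℕ → ℂ} (ho : ∀ j, Orb v0 x j) {m k : ℕ} (hkm : k < m)
    (hc : wv v0 (x k) = 0) (v : E d) : kapE v0 v x m = kapE v0 v (fun j => x (k + j)) (m - k) := by
  have h1 : trD v0 (m - k) (x k) = 0 := by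
    unfold trD
    refine Finset.prod_eq_zero (i := 0) (Finset.mem_range.2 (by omega)) ?_
    show wv v0 (x k) / ev v0.2 (x k) ^ 2 = 0
    rw [hc, zero_div]
  have h2 : XX v0 v m (x 0) = XX v0 v (m - k) (x k) := by
    have h3 := XX_cocycle v0 v (m - k) k (x 0)
    rw [Pool.Agent.H61.TT.orb_it (ho k) le_rfl, h1, zero_mul, add_zero] at h3
    rw [← h3]
    congr 1
    omega
  have h4 : k + (m - k) = m := by omega
  unfold kapE
  show XX v0 v m (x 0) + ∑' i : ℕ, xi v0 v (x (m + i)) / trD v0 (i + 1) (x m) =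
    XX v0 v (m - k) (x (k + 0)) +
      ∑' i : ℕ, xi v0 v (x (k + (m - k + i))) / trD v0 (i + 1) (x (k + (m - k)))
  rw [h4, h2, Nat.add_zero]
  congr 1
  refine tsum_congr fun i => ?_
  have h5 : k + (m - k + i) = m + i := by omega
  rw [h5]

theorem ncrit_K {d : ℕ} {v0 : E d} {K : Set ℂ} (hK : ExpK v0 K) {z : ℂ} (hz : z ∈ K) :
    wv v0 z ≠ 0 := by
  intro h0
  apply trD_ne hK hz 1
  simp [trD, it, h0]

end Pool.Agent.H35.EX
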