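import Pool.Agent.H35.EX.Ratio

/-!
# Module Lam: the maximal invariant set near an expanding set is expanding

`Lam v0 K δ`: points whose whole orbit stays `δ`-close to `K`.
PROOF of `lam_exp`. `ev v0.2 ≠ 0` on `K`, open condition: for small `δ1` it holds on the compact set
`cthickening δ1 K` (`IsCompact.exists_cthickening_subset_open`, `IsCompact.cthickening`). With `c, q` from `hK.exp` choose `N ≥ 1`
with `c q ^ N ≥ 4`. The set of `z` with `ev v0.2 (it v0 i z) ≠ 0` for all `i < N`, `‖trD v0 N z‖ > 2` and `trD v0 1 z ≠ 0`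
is a neighbourhood of every point of `K` (continuity of `it v0 i`, `trD v0 N` at points with nonvanishing
denominators: `tr_cont` or `tr_hasDerivAt`, H32/BT/Trap; induction on `i`). So for small `δ` it contains `F = cthickening δ K`,
compact. `Λ = Lam v0 K δ ⊆ F` (`n = 0`). `maps`: `it v0 n (it v0 1 z) = it v0 (n+1) z` (`it_add`). `compact`: `Λ` is closed:
a limit `z` of points `z_j ∈ Λ` is in `F`, `it v0 1` is continuous at `z`, and by induction `it v0 n z = lim it v0 n z_j ∈ F`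
(`ev v0.2 ≠ 0` on `F`). `exp`: `m0 > 0` lower bound for `‖trD v0 1 z‖` on the compact set `Λ` (or `F`), w.l.o.g.
`m0 ≤ 1`. `‖trD v0 (N * k) z‖ ≥ 2 ^ k` for `z ∈ Λ` (`disj_trD_add`, H61/TT/Disj: `trD v0 (i + j) z = trD v0 i (it v0 j z) *
trD v0 j z`), `‖trD v0 r z‖ ≥ m0 ^ r ≥ m0 ^ N` for `r < N`. For `n = N k + r`: `‖trD v0 n z‖ ≥ m0 ^ N * 2 ^ k ≥ (m0 ^ N / 2) * q' ^ n`
with `q' = 2 ^ (1 / N) > 1` (real power; `q' ^ n ≤ 2 ^ (k + 1)`). If `K = ∅` then `Λ = ∅` and everything is trivial (no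
separate treatment should be necessary, except perhaps for `m0`: use `IsCompact.exists_forall_le'`).
-/

set_option autoImplicit false

open Filter Topology Polynomial Metric Set

namespace Pool.Agent.H35.EX

open Pool.Agent.H44.Fatou Pool.Agent.H32.BT Pool.Agent.H79.Eul Pool.Agent.H79.Par
open Pool.Agent.H35.RL

/-- the points whose orbits stay `δ`-close to `K` -/
def Lam {d : ℕ} (v0 : E d) (K : Set ℂ) (δ : ℝ) : Set ℂ :=
  {x : ℂ | ∀ n : ℕ, it v0 n x ∈ cthickening δ K}

theorem lam_trD_continuousAt {d : ℕ} (v0 : E d) (z : ℂ) (n : ℕ)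
    (h : ∀ i < n, ev v0.2 (it v0 i z) ≠ 0) : ContinuousAt (fun y => trD v0 n y) z := by
  unfold trD
  apply tendsto_finsetProd
  intro i hi
  have hi' : i < n := Finset.mem_range.1 hi
  have h1 : ContinuousAt (fun y => it v0 i y) z :=
    (tr_hasDerivAt v0 z i (fun j hj => h j (by omega))).continuousAt
  have h2 : ContinuousAt (fun y => wv v0 (it v0 i y)) z :=
    ((wv_differentiable v0).continuous.continuousAt).comp (f := fun y => it v0 i y) h1
  have h3 : ContinuousAt (fun y => ev v0.2 (it v0 i y)) z :=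
    ((ev_differentiable v0.2).continuous.continuousAt).comp (f := fun y => it v0 i y) h1
  exact ContinuousAt.div h2 (h3.pow 2) (pow_ne_zero 2 (h i hi'))

theorem lam_den_eventually {d : ℕ} (v0 : E d) (z : ℂ) (n : ℕ)
    (h : ∀ i < n, ev v0.2 (it v0 i z) ≠ 0) :
    ∀ᶠ y in 𝓝 z, ∀ i < n, ev v0.2 (it v0 i y) ≠ 0 := by
  have h0 : ∀ᶠ y in 𝓝 z, ∀ i ∈ Finset.range n, ev v0.2 (it v0 i y) ≠ 0 := by
    rw [Filter.eventually_all_finset]
    intro i hi
    have hi' : i < n := Finset.mem_range.1 hi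
    have h1 : ContinuousAt (fun y => it v0 i y) z :=
      (tr_hasDerivAt v0 z i (fun j hj => h j (by omega))).continuousAt
    have h3 : ContinuousAt (fun y => ev v0.2 (it v0 i y)) z :=
      ((ev_differentiable v0.2).continuous.continuousAt).comp (f := fun y => it v0 i y) h1
    exact h3.eventually_ne (h i hi')
  exact h0.mono (fun y hy i hi => hy i (Finset.mem_range.2 hi))

theorem lam_exp {d : ℕ} {v0 : E d} {K : Set ℂ} (hK : ExpK v0 K) :
    ∃ δ : ℝ, 0 < δ ∧ ExpK v0 (Lam v0 K δ) := by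
  obtain ⟨c, q, hc, hq, hexp⟩ := hK.exp
  have hq0 : 0 < q := by linarith
  obtain ⟨N0, hN0⟩ := pow_unbounded_of_one_lt (4 / c) hq
  obtain ⟨N, hNdef⟩ : ∃ N, N = N0 + 1 := ⟨_, rfl⟩
  have hNpos : 0 < N := by omega
  have hN : 4 ≤ c * q ^ N := by
    have h1 : q ^ N0 ≤ q ^ N := pow_le_pow_right₀ hq.le (by omega)
    have h2 : 4 / c ≤ q ^ N := hN0.le.trans h1
    rw [div_le_iff₀ hc] at h2
    linarith
  have hUK : ∀ x ∈ K, {z : ℂ | (∀ i < N, ev v0.2 (it v0 i z) ≠ 0) ∧ 2 < ‖trD v0 N z‖ ∧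
      trD v0 1 z ≠ 0} ∈ 𝓝 x := by
    intro x hx
    have hden : ∀ i : ℕ, ev v0.2 (it v0 i x) ≠ 0 := fun i => hK.den _ (itK hK hx i)
    have h1 := lam_den_eventually v0 x N (fun i _ => hden i)
    have h2 : ∀ᶠ y in 𝓝 x, 2 < ‖trD v0 N y‖ := by
      have h3 := (lam_trD_continuousAt v0 x N (fun i _ => hden i)).norm
      have h4 : 2 < ‖trD v0 N x‖ := by
        have := hexp x hx N
        linarith
      exact h3.eventually_const_lt h4
    have h3 : ∀ᶠ y in 𝓝 x, trD v0 1 y ≠ 0 :=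
      (lam_trD_continuousAt v0 x 1 (fun i _ => hden i)).eventually_ne (trD_ne hK hx 1)
    filter_upwards [h1, h2, h3] with y a b c using ⟨a, b, c⟩
  obtain ⟨U, hU⟩ : ∃ U : Set ℂ, U = {z : ℂ | (∀ i < N, ev v0.2 (it v0 i z) ≠ 0) ∧
      2 < ‖trD v0 N z‖ ∧ trD v0 1 z ≠ 0} := ⟨_, rfl⟩
  rw [← hU] at hUK
  have hKU : K ⊆ interior U := fun x hx => mem_interior_iff_mem_nhds.2 (hUK x hx)
  obtain ⟨δ, hδ, hsub⟩ := hK.compact.exists_cthickening_subset_open isOpen_interior hKU
  have hFc : IsCompact (cthickening δ K) := hK.compact.cthickening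
  have hFU : ∀ z ∈ cthickening δ K, (∀ i < N, ev v0.2 (it v0 i z) ≠ 0) ∧
      2 < ‖trD v0 N z‖ ∧ trD v0 1 z ≠ 0 := by
    intro z hz
    have h1 : z ∈ U := interior_subset (hsub hz)
    rw [hU] at h1
    exact h1
  have hFden : ∀ z ∈ cthickening δ K, ev v0.2 z ≠ 0 := fun z hz => (hFU z hz).1 0 hNpos
  have hLF : Lam v0 K δ ⊆ cthickening δ K := fun z hz => hz 0
  have hit : ∀ z ∈ Lam v0 K δ, ∀ n : ℕ, it v0 n z ∈ Lam v0 K δ := by
    intro z hz n m
    rw [← Pool.Agent.H61.TT.disj_it_add]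
    exact hz (n + m)
  refine ⟨δ, hδ, ⟨?_, fun z hz => hFden z (hLF hz), fun z hz => hit z hz 1, ?_⟩⟩
  · refine hFc.of_isClosed_subset ?_ hLF
    rw [← closure_subset_iff_isClosed]
    intro x hx n
    induction n using Nat.strong_induction_on with
    | _ n ih =>
      have h1 : ContinuousAt (fun y => it v0 n y) x :=
        (tr_hasDerivAt v0 x n (fun i hi => hFden _ (ih i hi))).continuousAt
      have h2 := mem_closure_image h1 hx
      have h3 : closure ((fun y => it v0 n y) '' Lam v0 K δ) ⊆ cthickening δ K := by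
        apply closure_minimal _ isClosed_cthickening
        rintro _ ⟨y, hy, rfl⟩
        exact hy n
      exact h3 h2
  · have hcont : ContinuousOn (fun z => ‖trD v0 1 z‖) (cthickening δ K) := by
      intro z hz
      have h1 : ContinuousAt (fun y => trD v0 1 y) z := by
        apply lam_trD_continuousAt
        intro i hi
        have : i = 0 := by omega
        subst this
        exact hFden z hz
      exact h1.norm.continuousWithinAt
    obtain ⟨m1, hm1, hm1'⟩ := hFc.exists_forall_le' hcont (a := 0)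
      (fun z hz => norm_pos_iff.2 (hFU z hz).2.2)
    obtain ⟨m0, hm0def⟩ : ∃ m0, m0 = min m1 1 := ⟨_, rfl⟩
    have hm0 : 0 < m0 := by rw [hm0def]; exact lt_min hm1 one_pos
    have hm01 : m0 ≤ 1 := by rw [hm0def]; exact min_le_right _ _
    have hm0' : m0 ≤ m1 := by rw [hm0def]; exact min_le_left _ _
    have hr : ∀ r : ℕ, ∀ z ∈ Lam v0 K δ, m0 ^ r ≤ ‖trD v0 r z‖ := by
      intro r
      induction r with
      | zero =>
        intro z _
        simp [trD]
      | succ r ih =>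
        intro z hz
        rw [Pool.Agent.H61.TT.disj_trD_add, norm_mul, pow_succ, mul_comm (m0 ^ r)]
        apply mul_le_mul _ (ih z hz) (by positivity) (norm_nonneg _)
        exact hm0'.trans (hm1' _ (hLF (hit z hz r)))
    have hk : ∀ k : ℕ, ∀ z ∈ Lam v0 K δ, (2 : ℝ) ^ k ≤ ‖trD v0 (N * k) z‖ := by
      intro k
      induction k with
      | zero =>
        intro z _
        simp [trD]
      | succ k ih =>
        intro z hz
        rw [Nat.mul_succ, Pool.Agent.H61.TT.disj_trD_add, norm_mul, pow_succ,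
          mul_comm ((2 : ℝ) ^ k)]
        apply mul_le_mul _ (ih z hz) (by positivity) (norm_nonneg _)
        exact (hFU _ (hLF (hit z hz (N * k)))).2.1.le
    have hqN : ((2 : ℝ) ^ ((N : ℝ)⁻¹)) ^ N = 2 :=
      Real.rpow_inv_natCast_pow (by norm_num) (by omega)
    have hq1 : 1 < (2 : ℝ) ^ ((N : ℝ)⁻¹) := by
      apply Real.one_lt_rpow (by norm_num)
      exact inv_pos.2 (by exact_mod_cast hNpos)
    obtain ⟨p, hp⟩ : ∃ p : ℝ, p = (2 : ℝ) ^ ((N : ℝ)⁻¹) := ⟨_, rfl⟩
    rw [← hp] at hqN hq1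
    refine ⟨m0 ^ N / 2, p, by positivity, hq1, ?_⟩
    intro z hz n
    obtain ⟨k, hkdef⟩ : ∃ k, k = n / N := ⟨_, rfl⟩
    obtain ⟨r, hrdef⟩ : ∃ r, r = n % N := ⟨_, rfl⟩
    have hn : n = N * k + r := by
      rw [hkdef, hrdef]
      exact (Nat.div_add_mod n N).symm
    have hrN : r < N := by
      rw [hrdef]
      exact Nat.mod_lt _ hNpos
    have h1 : p ^ n ≤ (2 : ℝ) ^ (k + 1) := by
      have h2 : p ^ n ≤ p ^ (N * (k + 1)) := by
        apply pow_le_pow_right₀ hq1.le
        rw [hn, Nat.mul_succ]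
        omega
      rwa [pow_mul, hqN] at h2
    have h2 : m0 ^ N * (2 : ℝ) ^ k ≤ ‖trD v0 n z‖ := by
      rw [hn, Pool.Agent.H61.TT.disj_trD_add, norm_mul]
      apply mul_le_mul _ (hk k z hz) (by positivity) (norm_nonneg _)
      refine le_trans ?_ (hr r _ (hit z hz (N * k)))
      exact pow_le_pow_of_le_one hm0.le hm01 hrN.le
    calc m0 ^ N / 2 * p ^ n ≤ m0 ^ N / 2 * (2 : ℝ) ^ (k + 1) := by
          apply mul_le_mul_of_nonneg_left h1 (by positivity)
      _ = m0 ^ N * (2 : ℝ) ^ k := by rw [pow_succ]; ring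
      _ ≤ ‖trD v0 n z‖ := h2

end Pool.Agent.H35.EX
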