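import Pool.Agent.H35.EX.Ratio

/-!
# Module NRun: the number of iterates which brings size `t` to size about `ρ`

PROOF. Let `D n = ‖trD v0 n x‖ > 0`, `D n → ∞` (`growth`), `D (n+1) ≤ M1 D n` with `M1 > 0` a bound of
`‖wv v0 z / ev v0.2 z ^ 2‖` on the compact set `K` (`trD v0 (n+1) x = (wv / ev ^ 2) (it v0 n x) * trD v0 n x`).
For `0 < t` let `N t` be the least `n` with `ρ < t D (n+1)` (`Nat.find`, exists since `D → ∞`). For `t ≤ ρ`:
`t D (N t) ≤ ρ` (minimality, or `N t = 0` and `D 0 = 1`), and `t D (N t) ≥ t D (N t + 1) / M1 > ρ / M1`.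
`N t → ∞` as `t → 0+`: for every `k`, `t D (j+1) ≤ ρ` for all `j ≤ k` if `t` is small. Put `N t = 0` for `t ≤ 0`.
-/

set_option autoImplicit false

open Filter Topology Polynomial Metric Set

namespace Pool.Agent.H35.EX

open Pool.Agent.H44.Fatou Pool.Agent.H32.BT Pool.Agent.H79.Eul Pool.Agent.H79.Par
open Pool.Agent.H35.RL

theorem nrun_abs {D : ℕ → ℝ} (hD0 : D 0 = 1) (hpos : ∀ n, 0 < D n)
    (hinf : Tendsto D atTop atTop) {M1 : ℝ} (hM : ∀ n, D (n + 1) ≤ M1 * D n) {ρ : ℝ}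
    (hρ : 0 < ρ) :
    ∃ (N : ℝ → ℕ) (b : ℝ), 0 < b ∧ Tendsto N (𝓝[>] 0) atTop ∧
      ∀ᶠ t in 𝓝[>] (0 : ℝ), b ≤ t * D (N t) ∧ t * D (N t) ≤ ρ := by
  classical
  have hM1 : 0 < M1 := by
    have h1 := hM 0
    have h2 := hpos 1
    rw [hD0, mul_one] at h1
    exact h2.trans_le h1
  have hex : ∀ t : ℝ, 0 < t → ∃ n, ρ < t * D (n + 1) := by
    intro t ht
    obtain ⟨n, hn⟩ := ((hinf.eventually (eventually_gt_atTop (ρ / t))).and
      (eventually_ge_atTop 1)).exists
    refine ⟨n - 1, ?_⟩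
    rw [Nat.sub_add_cancel hn.2]
    have := (div_lt_iff₀ ht).1 hn.1
    linarith
  refine ⟨fun t => if h : 0 < t then Nat.find (hex t h) else 0, ρ / M1, by positivity, ?_, ?_⟩
  · rw [Filter.tendsto_atTop]
    intro k
    obtain ⟨S, hS⟩ : ∃ S : ℝ, S = ∑ j ∈ Finset.range k, D (j + 1) + 1 := ⟨_, rfl⟩
    have hS1 : 0 < S := by
      have : 0 ≤ ∑ j ∈ Finset.range k, D (j + 1) := Finset.sum_nonneg fun j _ => (hpos _).le
      linarith
    have hev : ∀ᶠ t in 𝓝[>] (0 : ℝ), t < ρ / S :=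
      (eventually_lt_nhds (by positivity)).filter_mono nhdsWithin_le_nhds
    filter_upwards [hev, self_mem_nhdsWithin] with t h1 h2
    have h2' : 0 < t := h2
    rw [dif_pos h2', Nat.le_find_iff]
    intro j hj
    have h3 : D (j + 1) ≤ S := by
      have := Finset.single_le_sum (f := fun j => D (j + 1)) (fun j _ => (hpos (j + 1)).le)
        (Finset.mem_range.2 hj)
      linarith
    have h4 : t * S < ρ := (lt_div_iff₀ hS1).1 h1
    have h5 := mul_le_mul_of_nonneg_left h3 h2'.le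
    linarith
  · have hev : ∀ᶠ t in 𝓝[>] (0 : ℝ), t < ρ :=
      (eventually_lt_nhds hρ).filter_mono nhdsWithin_le_nhds
    filter_upwards [hev, self_mem_nhdsWithin] with t h1 h2
    have h2' : 0 < t := h2
    simp only [dif_pos h2']
    have hs := Nat.find_spec (hex t h2')
    have hmin : ∀ m, m < Nat.find (hex t h2') → ¬ ρ < t * D (m + 1) := fun m hm =>
      Nat.find_min (hex t h2') hm
    generalize Nat.find (hex t h2') = n at hs hmin ⊢
    constructor
    · rw [div_le_iff₀ hM1]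
      have h3 := mul_le_mul_of_nonneg_left (hM n) h2'.le
      nlinarith
    · cases n with
      | zero => rw [hD0]; linarith
      | succ m => exact not_lt.1 (hmin m (Nat.lt_succ_self m))

theorem nrun {d : ℕ} {v0 : E d} {K : Set ℂ} (hK : ExpK v0 K) {x : ℂ} (hx : x ∈ K) {ρ : ℝ}
    (hρ : 0 < ρ) :
    ∃ (N : ℝ → ℕ) (b : ℝ), 0 < b ∧ Tendsto N (𝓝[>] 0) atTop ∧
      ∀ᶠ t in 𝓝[>] (0 : ℝ), b ≤ t * ‖trD v0 (N t) x‖ ∧ t * ‖trD v0 (N t) x‖ ≤ ρ := by
  have hid : Continuous (fun z : ℂ => (v0, z)) := continuous_const.prodMk continuous_id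
  have hid2 : Continuous (fun z : ℂ => (v0.2, z)) := continuous_const.prodMk continuous_id
  have hw : Continuous (fun z : ℂ => wv v0 z) := by
    have h := Continuous.comp (wv_cont (d := d)) hid
    exact h
  have he : Continuous (fun z : ℂ => ev v0.2 z) := by
    have h := Continuous.comp (ev_cont (d := d)) hid2
    exact h
  have hc : ContinuousOn (fun z : ℂ => wv v0 z / ev v0.2 z ^ 2) K :=
    hw.continuousOn.div (he.pow 2).continuousOn fun z hz => pow_ne_zero 2 (hK.den z hz)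
  obtain ⟨M1, hM1⟩ := hK.compact.exists_bound_of_continuousOn hc
  refine nrun_abs (D := fun n => ‖trD v0 n x‖) (M1 := M1) ?_ ?_ (growth hK hx) ?_ hρ
  · simp [trD]
  · intro n
    exact norm_pos_iff.2 (trD_ne hK hx n)
  · intro n
    simp only [trD, Finset.prod_range_succ, norm_mul]
    rw [mul_comm]
    exact mul_le_mul_of_nonneg_right (by
      have := hM1 _ (itK hK hx n)
      simpa using this) (norm_nonneg _)

end Pool.Agent.H35.EX
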