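import Pool.Agent.H35.EX.Ratio

/-!
# Module NoInt: an expanding compact invariant set has no interior; holes

PROOFS. `no_int`: suppose `ball z r ⊆ K` with `r > 0`. `it v0 n` is holomorphic on `ball z r` (`tr_hasDerivAt`, H32/BT/Trap:
`ev v0.2 (it v0 i w) ≠ 0` since `it v0 i w ∈ K`, `itK`), with derivative `trD v0 n z` at `z` and values in `K ⊆ closedBall 0 R`. Cauchy
estimate on the circle of radius `r / 2` (`Complex.norm_deriv_le_of_forall_mem_sphere_norm_le`): `‖trD v0 n z‖ ≤ 2 R / r`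
for all `n`, against `hK.exp` (`tendsto_pow_atTop_atTop_of_one_lt`).
`holes`: for `x ∈ K` the ball `ball x (ε / 2)` is not contained in `K`, so (closedness) it contains a point with a ball
`ball w (2 s_x) ⊆ ball x (ε / 2)` disjoint from `K`. Cover `K` by finitely many balls `ball x_i (ε / 2)`, `s` = the minimum of the
`s_(x_i)`; for `y ∈ K` in `ball x_i (ε / 2)`: `ball w_i s ⊆ ball x_i (ε / 2) ⊆ ball y ε`. (`IsCompact.elim_nhds_subcover`; if
`K` is empty take `s = 1`.)
-/

set_option autoImplicit false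

open Filter Topology Polynomial Metric Set

namespace Pool.Agent.H35.EX

open Pool.Agent.H44.Fatou Pool.Agent.H32.BT Pool.Agent.H79.Eul Pool.Agent.H79.Par
open Pool.Agent.H35.RL

theorem no_int {d : ℕ} {v0 : E d} {K : Set ℂ} (hK : ExpK v0 K) : interior K = ∅ := by
  by_contra hne
  obtain ⟨z, hz⟩ := Set.nonempty_iff_ne_empty.2 hne
  obtain ⟨r, hr, hball⟩ := Metric.isOpen_iff.1 isOpen_interior z hz
  have hsub : ball z r ⊆ K := hball.trans interior_subset
  have hzK : z ∈ K := hsub (mem_ball_self hr)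
  obtain ⟨c, q, hc, hq, hexp⟩ := hK.exp
  obtain ⟨R, hR⟩ := hK.compact.isBounded.subset_closedBall (0 : ℂ)
  have hderiv : ∀ (n : ℕ), ∀ w ∈ ball z r, HasDerivAt (fun z => it v0 n z) (trD v0 n w) w := by
    intro n w hw
    exact tr_hasDerivAt v0 w n fun i _ => hK.den _ (itK hK (hsub hw) i)
  have hbound : ∀ n : ℕ, c * q ^ n ≤ R / (r / 2) := by
    intro n
    have hdiff : DifferentiableOn ℂ (fun z => it v0 n z) (ball z r) := fun w hw =>
      (hderiv n w hw).differentiableAt.differentiableWithinAt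
    have hcl : closedBall z (r / 2) ⊆ ball z r := closedBall_subset_ball (by linarith)
    have h1 := Complex.norm_deriv_le_of_forall_mem_sphere_norm_le (f := fun z => it v0 n z)
      (C := R) (half_pos hr) (hdiff.diffContOnCl_ball hcl) (fun w hw => by
        have h2 : w ∈ ball z r := hcl (sphere_subset_closedBall hw)
        have h3 := hR (itK hK (hsub h2) n)
        rwa [mem_closedBall_zero_iff] at h3)
    rw [(hderiv n z (mem_ball_self hr)).deriv] at h1
    exact (hexp z hzK n).trans h1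
  have htend : Tendsto (fun n : ℕ => c * q ^ n) atTop atTop :=
    (tendsto_pow_atTop_atTop_of_one_lt hq).const_mul_atTop hc
  obtain ⟨n, hn⟩ := (htend.eventually_gt_atTop (R / (r / 2))).exists
  exact absurd (hbound n) (not_le.2 hn)

theorem exists_min_pos (t : Finset ℂ) (σ : ℂ → ℝ) (h : ∀ x ∈ t, 0 < σ x) :
    ∃ s : ℝ, 0 < s ∧ ∀ x ∈ t, s ≤ σ x := by
  classical
  induction t using Finset.induction_on with
  | empty => exact ⟨1, one_pos, fun x hx => absurd hx (Finset.notMem_empty x)⟩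
  | insert a t ha ih =>
    obtain ⟨s, hs, hs'⟩ := ih fun x hx => h x (Finset.mem_insert_of_mem hx)
    refine ⟨min s (σ a), lt_min hs (h a (Finset.mem_insert_self a t)), fun x hx => ?_⟩
    rcases Finset.mem_insert.1 hx with rfl | hx
    · exact min_le_right _ _
    · exact (min_le_left _ _).trans (hs' x hx)

theorem holes {K : Set ℂ} (hK : IsCompact K) (hint : interior K = ∅) {ε : ℝ} (hε : 0 < ε) :
    ∃ s : ℝ, 0 < s ∧ ∀ x ∈ K, ∃ w : ℂ, ball w s ⊆ ball x ε ∧ Disjoint (ball w s) K := by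
  have h1 : ∀ x : ℂ, ∃ (w : ℂ) (σ : ℝ), 0 < σ ∧ ball w σ ⊆ ball x (ε / 2) ∧
      Disjoint (ball w σ) K := by
    intro x
    have h2 : ¬ ball x (ε / 2) ⊆ K := by
      intro h3
      have h4 : x ∈ interior K := interior_mono h3 (by
        rw [isOpen_ball.interior_eq]
        exact mem_ball_self (half_pos hε))
      rw [hint] at h4
      exact h4
    obtain ⟨w, hw, hwK⟩ := Set.not_subset.1 h2
    have hopen : IsOpen (ball x (ε / 2) ∩ Kᶜ) := isOpen_ball.inter hK.isClosed.isOpen_compl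
    obtain ⟨σ, hσ, hsub⟩ := Metric.isOpen_iff.1 hopen w ⟨hw, hwK⟩
    exact ⟨w, σ, hσ, fun y hy => (hsub hy).1, Set.disjoint_left.2 fun y hy => (hsub hy).2⟩
  choose w σ hσ hsub hdis using h1
  obtain ⟨t, -, ht⟩ := hK.elim_nhds_subcover (fun x => ball x (ε / 2))
    fun x _ => ball_mem_nhds x (half_pos hε)
  obtain ⟨s, hs, hs'⟩ := exists_min_pos t σ fun x _ => hσ x
  refine ⟨s, hs, fun y hy => ?_⟩
  obtain ⟨x, hxt, hyx⟩ := Set.mem_iUnion₂.1 (ht hy)
  refine ⟨w x, ?_, (hdis x).mono_left (ball_subset_ball (hs' x hxt))⟩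
  intro u hu
  have h5 : u ∈ ball x (ε / 2) := hsub x (ball_subset_ball (hs' x hxt) hu)
  rw [mem_ball] at h5 hyx ⊢
  have h6 := dist_triangle_right u y x
  linarith

end Pool.Agent.H35.EX
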