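import Pool.Agent.H35.EX.NrD
import Pool.Agent.H35.EX.NullK

/-!
# Module NrA: the orbits of the points of `V` are bounded

PROOFS. `nr_open`: as `hVo` in the proof of `noret` (H80/AJ/NoRet; `noret_mono`). `nr_sub`: `x' ∈ ball x r` gives
`NearId` on a smaller ball around `x'` (`hmem` there). `nr_bad`: `noret_conv` and `MapClusterPt.of_comp` (last lines of `noret`).
`nr_null`: `{x | x ∈ A} ⊆ K ∪ {x | x ∈ A ∧ x ∉ K}`, `null_K` and countable. `nr_bd`: suppose
`(Rf v0)^[k] x ∈ W = (coe '' closedBall 0 R0)ᶜ` (the negation of the claim). `W` is open and consists of points that are not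
bad (`hinf`, `not_bad_of_mem` for `∞ ∈ A`: compare the proof of `dense_nb`, H80/AJ/DenseNB). The set
`O = {x' | (Rf v0)^[k] x' ∈ W} ∩ V` is open (`rat_continuous`) and nonempty (`x ∈ closure V`), so it is not null, so it contains
`x'` with `(x' : OnePoint ℂ) ∉ A` (`nr_null`). `x'` is bad (`nr_bad`), so `(Rf v0)^[k] x'` is bad (`bad_iter`), contradiction.
`nr_it`: `nr_bd` for all `k` and `orb_all` (H79/Par/PerDec).
-/

set_option autoImplicit false

open Filter Topology Polynomial OnePoint Metric Set MeasureTheory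

namespace Pool.Agent.H35.EX

open Pool.Agent.H44.Fatou Pool.Agent.H32.BT Pool.Agent.H79.Eul Pool.Agent.H79.Par
open Pool.Agent.H35.RL Pool.Agent.H80.AJ

variable {d : ℕ} {v0 : E d} {K : Set ℂ} {A : Set (OnePoint ℂ)} {R0 : ℝ} {m : ℕ → ℕ} {V : Set ℂ}

theorem nr_mem (D : NR v0 K A R0 m V) {x x' : ℂ} {r : ℝ} (hx : NearId (Rf v0) m x r)
    (hx' : x' ∈ ball x r) : x' ∈ V := by
  rw [D.hV]
  rw [mem_ball] at hx'
  refine ⟨r - dist x' x, by linarith, noret_mono hx ?_⟩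
  intro z hz
  rw [mem_ball] at hz ⊢
  have := dist_triangle z x' x
  linarith

theorem nr_sub (D : NR v0 K A R0 m V) {x : ℂ} {r : ℝ} (h : NearId (Rf v0) m x r) :
    ball x r ⊆ V :=
  fun _ hx' => nr_mem D h hx'

theorem nr_open (D : NR v0 K A R0 m V) : IsOpen V := by
  rw [Metric.isOpen_iff]
  intro x hx
  have h1 := hx
  rw [D.hV] at h1
  obtain ⟨r, hr, hx2⟩ := h1
  exact ⟨r, hr, nr_sub D hx2⟩

theorem nr_bad (D : NR v0 K A R0 m V) {x : ℂ} (hx : x ∈ V) (hA : (x : OnePoint ℂ) ∉ A) :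
    Bad (Rf v0) A (x : OnePoint ℂ) := by
  rw [D.hV] at hx
  obtain ⟨r, hr, hx⟩ := hx
  refine ⟨(x : OnePoint ℂ), hA, ?_⟩
  have h2 := (noret_conv hr hx).mapClusterPt
  exact MapClusterPt.of_comp (u := fun k : ℕ => (Rf v0)^[k] (x : OnePoint ℂ)) D.hm h2

theorem nr_null (D : NR v0 K A R0 m V) : volume {x : ℂ | (x : OnePoint ℂ) ∈ A} = 0 := by
  have h1 : {x : ℂ | (x : OnePoint ℂ) ∈ A} ⊆ K ∪ {x : ℂ | (x : OnePoint ℂ) ∈ A ∧ x ∉ K} := by
    intro x hx
    by_cases hK : x ∈ K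
    · exact Or.inl hK
    · exact Or.inr ⟨hx, hK⟩
  refine measure_mono_null h1 (measure_union_null (null_K D.hK) ?_)
  exact D.cnt.measure_zero volume

theorem nr_bd (D : NR v0 K A R0 m V) {x : ℂ} (hx : x ∈ closure V) (k : ℕ) :
    ∃ y : ℂ, (Rf v0)^[k] (x : OnePoint ℂ) = (y : OnePoint ℂ) ∧ ‖y‖ ≤ R0 := by
  classical
  by_contra hc
  have hcont : Continuous (Rf v0) := rat_continuous D.sys.cop
  set W : Set (OnePoint ℂ) := ((fun z : ℂ => (z : OnePoint ℂ)) '' closedBall (0 : ℂ) R0)ᶜ with hW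
  have hWo : IsOpen W := by
    rw [hW, isOpen_compl_iff]
    exact ((isCompact_closedBall (0 : ℂ) R0).image OnePoint.continuous_coe).isClosed
  have hWnb : ∀ z ∈ W, ¬ Bad (Rf v0) A z := by
    intro z hz
    induction z using OnePoint.rec with
    | infty => exact not_bad_of_mem D.sys.closed D.sys.inv D.sys.inf
    | coe z =>
      refine D.hinf z ?_
      by_contra hlt
      exact hz ⟨z, by rw [mem_closedBall, dist_zero_right]; exact not_lt.mp hlt, rfl⟩
  have hxW : (Rf v0)^[k] (x : OnePoint ℂ) ∈ W := by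
    rintro ⟨z, hz, hze⟩
    rw [mem_closedBall, dist_zero_right] at hz
    exact hc ⟨z, hze.symm, hz⟩
  set O : Set ℂ := (fun z : ℂ => (Rf v0)^[k] (z : OnePoint ℂ)) ⁻¹' W with hO
  have hOo : IsOpen O := hWo.preimage ((hcont.iterate k).comp OnePoint.continuous_coe)
  have hne : (O ∩ V).Nonempty := mem_closure_iff.1 hx O hOo hxW
  have hpos : 0 < volume (O ∩ V) := (hOo.inter (nr_open D)).measure_pos volume hne
  have hex : ∃ x' ∈ O ∩ V, (x' : OnePoint ℂ) ∉ A := by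
    by_contra hno
    push Not at hno
    have h0 : volume (O ∩ V) = 0 := measure_mono_null (fun x' hx' => hno x' hx') (nr_null D)
    exact hpos.ne' h0
  obtain ⟨x', ⟨hx'O, hx'V⟩, hx'A⟩ := hex
  exact hWnb _ hx'O ((bad_iter (Rf v0) A (x' : OnePoint ℂ) k).mpr (nr_bad D hx'V hx'A))

theorem nr_it (D : NR v0 K A R0 m V) {x : ℂ} (hx : x ∈ closure V) (k : ℕ) :
    ev v0.2 (it v0 k x) ≠ 0 ∧ ‖it v0 k x‖ ≤ R0 ∧
      (Rf v0)^[k] (x : OnePoint ℂ) = ((it v0 k x : ℂ) : OnePoint ℂ) := by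
  have h1 : ∀ j : ℕ, (Rf v0)^[j] (x : OnePoint ℂ) ≠ OnePoint.infty := by
    intro j
    obtain ⟨y, hy, -⟩ := nr_bd D hx j
    rw [hy]
    exact OnePoint.coe_ne_infty y
  obtain ⟨h2, h3⟩ := orb_all h1
  refine ⟨(h2 (k + 1) k (Nat.lt_succ_self k)).1, ?_, h3 k⟩
  obtain ⟨y, hy, hyR⟩ := nr_bd D hx k
  have h4 : it v0 k x = y := OnePoint.coe_injective ((h3 k).symm.trans hy)
  rw [h4]
  exact hyR

end Pool.Agent.H35.EX
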