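import Pool.Agent.H35.EX.NrA

/-!
# Module NrB: the derivatives of the iterates `m j` tend to one

PROOFS. `nr_near`: `NearId` in terms of `it v0` (`nr_it`: the point `w'` of `NearId` is `it v0 (m j) w`,
`OnePoint.coe_injective`; `ball x r ⊆ V ⊆ closure V` by `nr_sub`). `nr_der`: `x ∈ V`, `r` with `NearId (Rf v0) m x r`;
`F = fun w => it v0 (m j) w - w` is holomorphic on `ball x r` (`tr_hasDerivAt` with `nr_it`), with derivative
`trD v0 (m j) x - 1` at `x`, and of norm less than `η` on `ball x r` for large `j`; Cauchy estimate on the circle of radius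
`r / 2`: `‖trD v0 (m j) x - 1‖ ≤ 2 η / r`. `nr_ne`: `trD v0 (m j) x = trD v0 (m j - i) (it v0 i x) * trD v0 i x` (`disj_trD_add`, H61/TT/Disj)
is nonzero for some `j` with `m j ≥ i` (`nr_der`, `D.hm`), so `trD v0 i x ≠ 0`.
-/

set_option autoImplicit false

open Filter Topology Polynomial OnePoint Metric Set

namespace Pool.Agent.H35.EX

open Pool.Agent.H44.Fatou Pool.Agent.H32.BT Pool.Agent.H79.Eul Pool.Agent.H79.Par
open Pool.Agent.H35.RL Pool.Agent.H80.AJ

variable {d : ℕ} {v0 : E d} {K : Set ℂ} {A : Set (OnePoint ℂ)} {R0 : ℝ} {m : ℕ → ℕ} {V : Set ℂ}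

theorem nr_near (D : NR v0 K A R0 m V) {x : ℂ} {r : ℝ} (h : NearId (Rf v0) m x r) {η : ℝ}
    (hη : 0 < η) : ∀ᶠ j in atTop, ∀ w ∈ ball x r, ‖it v0 (m j) w - w‖ < η := by
  filter_upwards [h η hη] with j hj w hw
  obtain ⟨w', hw', hd⟩ := hj w hw
  obtain ⟨-, -, h3⟩ := nr_it D (subset_closure (nr_sub D h hw)) (m j)
  have h4 : it v0 (m j) w = w' := OnePoint.coe_injective (h3.symm.trans hw')
  rw [h4]
  exact hd

theorem nr_der (D : NR v0 K A R0 m V) {x : ℂ} (hx : x ∈ V) :
    Tendsto (fun j => trD v0 (m j) x) atTop (𝓝 1) := by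
  have h1 := hx
  rw [D.hV] at h1
  obtain ⟨r, hr, hxr⟩ := h1
  rw [Metric.tendsto_atTop']
  intro ε hε
  have h2 := nr_near D hxr (η := ε * (r / 2) / 2) (by positivity)
  obtain ⟨N, hN⟩ := eventually_atTop.1 h2
  refine ⟨N, fun j hj => ?_⟩
  have hj1 := hN j hj.le
  have hder : ∀ w ∈ ball x r, HasDerivAt (fun w => it v0 (m j) w - w) (trD v0 (m j) w - 1) w := by
    intro w hw
    have h3 := tr_hasDerivAt v0 w (m j)
      (fun i _ => (nr_it D (subset_closure (nr_sub D hxr hw)) i).1)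
    exact h3.sub (hasDerivAt_id w)
  have hdc : DiffContOnCl ℂ (fun w => it v0 (m j) w - w) (ball x (r / 2)) := by
    apply DifferentiableOn.diffContOnCl
    rw [closure_ball x (by positivity)]
    intro w hw
    have hw' : w ∈ ball x r := by
      rw [mem_closedBall] at hw
      rw [mem_ball]
      linarith
    exact (hder w hw').differentiableAt.differentiableWithinAt
  have h4 := Complex.norm_deriv_le_of_forall_mem_sphere_norm_le (C := ε * (r / 2) / 2)
    (by positivity : 0 < r / 2) hdc (by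
      intro w hw
      refine (hj1 w ?_).le
      rw [mem_sphere] at hw
      rw [mem_ball]
      linarith)
  rw [(hder x (mem_ball_self hr)).deriv] at h4
  rw [dist_eq_norm]
  have h5 : ε * (r / 2) / 2 / (r / 2) = ε / 2 := by
    field_simp
  rw [h5] at h4
  linarith

theorem nr_ne (D : NR v0 K A R0 m V) {x : ℂ} (hx : x ∈ V) (i : ℕ) : trD v0 i x ≠ 0 := by
  have h1 := nr_der D hx
  have h2 : ∀ᶠ j in atTop, trD v0 (m j) x ≠ 0 := h1.eventually_ne one_ne_zero
  have h3 : ∀ᶠ j in atTop, i ≤ m j := D.hm.eventually_ge_atTop i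
  obtain ⟨j, hj1, hj2⟩ := (h2.and h3).exists
  intro h0
  apply hj1
  obtain ⟨k, hk⟩ := Nat.exists_eq_add_of_le hj2
  rw [hk, trD_add, h0, mul_zero]

end Pool.Agent.H35.EX
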