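import Pool.Agent.H35.EX.AJ.Spread
import Pool.Agent.H35.EX.Defs
import Pool.Agent.H80.AJ.NoRet
import Pool.Agent.H79.Par.PerDec

/-!
# No recurrence off the post-critical set: the data

`V`: the set of points near which the iterates `f^[m j]` converge to the identity.
-/

set_option autoImplicit false

open Filter Topology Polynomial OnePoint Metric Set

namespace Pool.Agent.H35.EX

open Pool.Agent.H44.Fatou Pool.Agent.H32.BT Pool.Agent.H79.Eul Pool.Agent.H79.Par
open Pool.Agent.H35.RL Pool.Agent.H80.AJ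

/-- the data of the proof that there is no recurrence off `A` -/
structure NR {d : ℕ} (v0 : E d) (K : Set ℂ) (A : Set (OnePoint ℂ)) (R0 : ℝ) (m : ℕ → ℕ)
    (V : Set ℂ) : Prop where
  sys : Sys0 (pol v0.1) (pol v0.2) A
  hK : ExpK v0 K
  cnt : {x : ℂ | (x : OnePoint ℂ) ∈ A ∧ x ∉ K}.Countable
  hinf : ∀ z : ℂ, R0 < ‖z‖ → ¬ Bad (Rf v0) A (z : OnePoint ℂ)
  hm : Tendsto m atTop atTop
  hV : V = {x : ℂ | ∃ r : ℝ, 0 < r ∧ NearId (Rf v0) m x r}

end Pool.Agent.H35.EX
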