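import Mathlib

/-!
# Module Punct: discs without countably many points; circles avoiding countable sets

PROOFS. `punct_conn`: `OpenPartialHomeomorph.univBall x r` is a homeomorphism of `ℂ` onto `ball x r` (for `0 < r`; source
`univ`, target `ball x r`). The preimage `C'` of `C` is countable (injective), `C'ᶜ` is preconnected
(`Set.Countable.isConnected_compl_of_one_lt_rank`, `Complex.rank_real_complex`), and `ball x r \ C` is its
image. (Another proof: polygonal paths.) `circ_avoid`: the set of distances `(fun z => dist z x) '' C` is countable and the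
interval `Ioo 0 ε` is not (`Cardinal.Real.Ioo_countable_iff` or `not_countable` of the measure of the interval), so some
`r ∈ Ioo 0 ε` is not a distance.
-/

set_option autoImplicit false

open Filter Topology Metric Set

namespace Pool.Agent.H35.EX

theorem punct_conn {C : Set ℂ} (hC : C.Countable) (x : ℂ) {r : ℝ} (hr : 0 < r) :
    IsPreconnected (ball x r \ C) := by
  have hsrc : (OpenPartialHomeomorph.univBall x r).source = univ :=
    OpenPartialHomeomorph.univBall_source x r
  have htgt : (OpenPartialHomeomorph.univBall x r).target = ball x r :=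
    OpenPartialHomeomorph.univBall_target x hr
  have hinj : InjOn (OpenPartialHomeomorph.univBall x r) univ := by
    rw [← hsrc]
    exact (OpenPartialHomeomorph.univBall x r).injOn
  have hC' : ((OpenPartialHomeomorph.univBall x r) ⁻¹' C).Countable :=
    hC.preimage_of_injOn (hinj.mono (subset_univ _))
  have hconn : IsConnected ((OpenPartialHomeomorph.univBall x r) ⁻¹' C)ᶜ :=
    hC'.isConnected_compl_of_one_lt_rank (by
      rw [Complex.rank_real_complex]
      norm_num)
  have himg : (OpenPartialHomeomorph.univBall x r) ''
      ((OpenPartialHomeomorph.univBall x r) ⁻¹' C)ᶜ = ball x r \ C := by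
    ext z
    constructor
    · rintro ⟨w, hw, rfl⟩
      refine ⟨?_, hw⟩
      rw [← htgt]
      exact (OpenPartialHomeomorph.univBall x r).map_source (by rw [hsrc]; exact mem_univ w)
    · rintro ⟨hz, hzC⟩
      rw [← htgt] at hz
      refine ⟨(OpenPartialHomeomorph.univBall x r).symm z, ?_,
        (OpenPartialHomeomorph.univBall x r).right_inv hz⟩
      show (OpenPartialHomeomorph.univBall x r)
        ((OpenPartialHomeomorph.univBall x r).symm z) ∉ C
      rw [(OpenPartialHomeomorph.univBall x r).right_inv hz]
      exact hzC
  rw [← himg]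
  exact hconn.isPreconnected.image _
    (OpenPartialHomeomorph.continuous_univBall x r).continuousOn

theorem circ_avoid {C : Set ℂ} (hC : C.Countable) (x : ℂ) {ε : ℝ} (hε : 0 < ε) :
    ∃ r : ℝ, 0 < r ∧ r < ε ∧ ∀ z ∈ sphere x r, z ∉ C := by
  by_contra hcon
  push Not at hcon
  have hsub : Ioo (0 : ℝ) ε ⊆ (fun z => dist z x) '' C := by
    intro r hr
    obtain ⟨z, hz, hzC⟩ := hcon r hr.1 hr.2
    exact ⟨z, hzC, hz⟩
  have h1 : (Ioo (0 : ℝ) ε).Countable := (hC.image _).mono hsub
  have h2 := Cardinal.Real.Ioo_countable_iff.1 h1
  linarith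

end Pool.Agent.H35.EX
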