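import Pool.Agent.H35.EX.NrB
import Pool.Agent.H35.EX.Punct

/-!
# Module NrF: filling punctures; the boundary of `V` is in `K`

PROOFS. `nr_fill`: for `0 < η`: every `z` of the compact set `sphere x r` is in `V`, so it has a ball with `NearId`; finitely many
balls cover the sphere, so by `nr_near` for large `j` `‖it v0 (m j) w - w‖ < η` for all `w ∈ sphere x r`. The function
`w ↦ it v0 (m j) w - w` is holomorphic on `ball x s` (`tr_hasDerivAt`, `nr_it`, `hcl`), so by the maximum modulus principle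
(`Complex.norm_le_of_forall_mem_frontier_norm_le` on `ball x r`, with a slightly smaller `η`) `‖it v0 (m j) w - w‖ < η` on `ball x r`;
with `nr_it` this is `NearId (Rf v0) m x r`, so `x ∈ V` (`D.hV`).
`nr_off`: `exists_off` gives `r` with `Off A x (4 r)`; `x' ∈ V` with `dist x x' < r / 2`; `Off A x' (4 (r / 2))`; `spread`
(H35/EX/AJ/Spread): `NearId (Rf v0) m x' (r / 2)` and `nr_sub` (as in the proof of `noret`, H80/AJ/NoRet).
`nr_front`: let `x ∈ frontier V`, i.e. `x ∈ closure V`, `x ∉ V` (`V` open), and suppose `x ∉ K`. By `nr_off` `x ∈ A`. `K` is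
closed: `ball x s ∩ K = ∅` for some `s > 0`; so `C = {z | z ∈ A ∧ z ∉ K}` (countable, `D.cnt`) contains all points of `ball x s` in
`A`. `ball x s \ C ⊆ V`: it is preconnected (`punct_conn`), it meets `V` (`V ∩ ball x s` is nonempty and open, `C` is
countable, `Countable.dense_compl`), and points of it in `closure V` are in `V` (`nr_off`):
`IsPreconnected.subset_of_closure_inter_subset`. `circ_avoid` gives `r < s` with `sphere x r` disjoint from `C`, so
`sphere x r ⊆ V`. `ball x s ⊆ closure V` (density of the complement of `C`). `nr_fill`: `x ∈ V`, contradiction.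
-/

set_option autoImplicit false

open Filter Topology Polynomial OnePoint Metric Set

namespace Pool.Agent.H35.EX

open Pool.Agent.H44.Fatou Pool.Agent.H32.BT Pool.Agent.H79.Eul Pool.Agent.H79.Par
open Pool.Agent.H35.RL Pool.Agent.H80.AJ

variable {d : ℕ} {v0 : E d} {K : Set ℂ} {A : Set (OnePoint ℂ)} {R0 : ℝ} {m : ℕ → ℕ} {V : Set ℂ}

theorem nrf_mem (D : NR v0 K A R0 m V) {x : ℂ} :
    x ∈ V ↔ ∃ r : ℝ, 0 < r ∧ NearId (Rf v0) m x r := by
  rw [D.hV]
  rfl

theorem nr_fill (D : NR v0 K A R0 m V) {x : ℂ} {r s : ℝ} (hr : 0 < r) (hrs : r < s)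
    (hcl : ball x s ⊆ closure V) (hsp : sphere x r ⊆ V) : x ∈ V := by
  rw [nrf_mem D]
  refine ⟨r, hr, ?_⟩
  intro η hη
  have hη2 : 0 < η / 2 := by positivity
  have h1 : ∀ᶠ j in atTop, ∀ w ∈ sphere x r, ‖it v0 (m j) w - w‖ < η / 2 := by
    refine (isCompact_sphere x r).induction_on
      (p := fun S : Set ℂ => ∀ᶠ j in atTop, ∀ w ∈ S, ‖it v0 (m j) w - w‖ < η / 2) ?_ ?_ ?_ ?_
    · exact Filter.Eventually.of_forall fun j w hw => absurd hw (notMem_empty w)
    · intro S T hST hT
      filter_upwards [hT] with j hj w hw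
      exact hj w (hST hw)
    · intro S T hS hT
      filter_upwards [hS, hT] with j hj1 hj2 w hw
      rcases hw with hw | hw
      · exact hj1 w hw
      · exact hj2 w hw
    · intro z hz
      obtain ⟨ρ, hρ, hz2⟩ := (nrf_mem D).mp (hsp hz)
      exact ⟨ball z ρ, mem_nhdsWithin_of_mem_nhds (ball_mem_nhds z hρ), nr_near D hz2 hη2⟩
  filter_upwards [h1] with j hj
  have hdiff : DifferentiableOn ℂ (fun w => it v0 (m j) w - w) (ball x s) := by
    intro w hw
    have h2 := tr_hasDerivAt v0 w (m j) (fun i _ => (nr_it D (hcl hw) i).1)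
    exact (h2.differentiableAt.sub differentiableAt_id).differentiableWithinAt
  have hdc : DiffContOnCl ℂ (fun w => it v0 (m j) w - w) (ball x r) :=
    hdiff.diffContOnCl_ball (closedBall_subset_ball hrs)
  intro w hw
  refine ⟨it v0 (m j) w, (nr_it D (hcl (ball_subset_ball hrs.le hw)) (m j)).2.2, ?_⟩
  have h3 : ‖it v0 (m j) w - w‖ ≤ η / 2 := by
    refine Complex.norm_le_of_forall_mem_frontier_norm_le (f := fun w => it v0 (m j) w - w)
      isBounded_ball hdc ?_ (subset_closure hw)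
    intro z hz
    rw [frontier_ball x hr.ne'] at hz
    exact (hj z hz).le
  linarith

theorem nr_off (D : NR v0 K A R0 m V) {x : ℂ} (hx : x ∈ closure V) (hA : (x : OnePoint ℂ) ∉ A) :
    x ∈ V := by
  obtain ⟨r, hr, hoff⟩ := exists_off D.sys.closed hA
  obtain ⟨x', hx', hd⟩ := Metric.mem_closure_iff.1 hx (r / 2) (by linarith)
  obtain ⟨r', hr', hx'2⟩ := (nrf_mem D).mp hx'
  have hoff' : Off A x' (4 * (r / 2)) := by
    refine hoff.mono ?_
    intro z hz
    rw [mem_ball] at hz ⊢
    have := dist_triangle z x' x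
    rw [dist_comm x' x] at this
    linarith
  have h1 := spread D.sys hr' (by linarith : 0 < r / 2) hx'2 hoff'
  exact nr_sub D h1 (by rwa [mem_ball])

theorem nr_front (D : NR v0 K A R0 m V) : frontier V ⊆ K := by
  intro x hx
  rw [(nr_open D).frontier_eq] at hx
  obtain ⟨hx1, hx2⟩ := hx
  by_contra hxK
  have hKo : IsOpen Kᶜ := D.hK.compact.isClosed.isOpen_compl
  obtain ⟨s, hs, hsK⟩ := Metric.isOpen_iff.mp hKo x hxK
  obtain ⟨C, hC⟩ : ∃ C : Set ℂ, C = {x : ℂ | (x : OnePoint ℂ) ∈ A ∧ x ∉ K} := ⟨_, rfl⟩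
  have hCc : C.Countable := by
    rw [hC]
    exact D.cnt
  have hdense : Dense Cᶜ := hCc.dense_compl ℝ
  have hsub : ball x s \ C ⊆ V := by
    refine (punct_conn hCc x hs).subset_of_closure_inter_subset (nr_open D) ?_ ?_
    · obtain ⟨z, hz, hd⟩ := Metric.mem_closure_iff.1 hx1 s hs
      obtain ⟨y, hy, hyC⟩ := hdense.inter_open_nonempty (ball x s ∩ V)
        (isOpen_ball.inter (nr_open D)) ⟨z, by rwa [mem_ball, dist_comm], hz⟩
      exact ⟨y, ⟨hy.1, hyC⟩, hy.2⟩
    · rintro z ⟨hz1, hz2, hz3⟩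
      refine nr_off D hz1 ?_
      intro hzA
      apply hz3
      rw [hC]
      exact ⟨hzA, hsK hz2⟩
  obtain ⟨r, hr, hrs, hav⟩ := circ_avoid hCc x hs
  apply hx2
  refine nr_fill D hr hrs ?_ ?_
  · refine (hdense.open_subset_closure_inter isOpen_ball).trans (closure_mono ?_)
    exact hsub
  · intro z hz
    apply hsub
    refine ⟨?_, hav z hz⟩
    rw [mem_sphere] at hz
    rw [mem_ball, hz]
    exact hrs

end Pool.Agent.H35.EX
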