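import Pool.Agent.H35.EX.SerD

/-!
# Module SerB: elementary consequences of `Ser`

PROOFS. `ser_zero`: `crit`. `ser_succ`: `hB`. `B_ne`: induction: `B 0 = 1`; `B (k+1) * dg = B k ≠ 0`. `ser_dg`: the same
equation. `ser_sum`: `ser_succ` and `sm` (`summable_nat_add_iff 1`). `eta_sum`: `‖η.eval (p k)‖ ≤ M` (`η.continuous`,
`p k ∈ closedBall 0 R` compact), `‖b.eval (p k)‖ ^ 2 ≥ δ ^ 2`, so the terms are at most `‖B k‖ * (M / δ ^ 2)`.
`B_sum0`: `van` for `η = b ^ 2` (`natDegree_pow_le`, `b.natDegree ≤ d` from `h.deg`), `b.eval (p k) ≠ 0`.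
`ser_sum0`: `Summable.tsum_eq_zero_add`: `∑' sbe k = sbe 0 + ∑' sbe (k+1) = 0 + ∑' B k`. `ser_sum1`: `∑' sbe k * p k =
0 + ∑' B k * p (k+1)`, `p (k+1) = gg a b (p k) = (a * b).eval (p k) / b.eval (p k) ^ 2`, `van` for `η = a * b`.
-/

set_option autoImplicit false

open Polynomial

namespace Pool.Agent.H35.EX

open Pool.Agent.H61.TT

variable {d : ℕ} {a b : Polynomial ℂ} {p B : ℕ → ℂ}

theorem ser_zero (hs : Ser d a b p B) : sbe a b p B 0 = 0 := by
  unfold sbe
  rw [hs.crit, mul_zero]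

theorem ser_succ (hs : Ser d a b p B) (k : ℕ) : sbe a b p B (k + 1) = B k := hs.hB k

theorem B_ne (hs : Ser d a b p B) (k : ℕ) : B k ≠ 0 := by
  induction k with
  | zero => rw [hs.B0]; exact one_ne_zero
  | succ k ih =>
    rw [← hs.hB k] at ih
    exact left_ne_zero_of_mul ih

theorem ser_dg (hs : Ser d a b p B) (k : ℕ) : dg a b (p (k + 1)) ≠ 0 := by
  have h := B_ne hs k
  rw [← hs.hB k] at h
  exact right_ne_zero_of_mul h

theorem ser_sum (hs : Ser d a b p B) : Summable (fun k => ‖sbe a b p B k‖) := by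
  rw [← summable_nat_add_iff 1]
  refine hs.sm.congr fun k => ?_
  rw [ser_succ hs]

theorem eta_sum (hs : Ser d a b p B) (η : Polynomial ℂ) :
    Summable (fun k => B k * (η.eval (p k) / b.eval (p k) ^ 2)) := by
  obtain ⟨R, hR⟩ := hs.pb
  obtain ⟨δ, hδ, hb⟩ := hs.bb
  obtain ⟨M, hM⟩ := (isCompact_closedBall (0 : ℂ) R).exists_bound_of_continuousOn
    (f := fun z => η.eval z) η.continuous.continuousOn
  refine Summable.of_norm_bounded (g := fun k => ‖B k‖ * (M / δ ^ 2)) (hs.sm.mul_right _) ?_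
  intro k
  rw [norm_mul, norm_div, norm_pow]
  refine mul_le_mul_of_nonneg_left ?_ (norm_nonneg _)
  have h1 : ‖η.eval (p k)‖ ≤ M := hM (p k) (by rw [mem_closedBall_zero_iff]; exact hR k)
  have h2 : δ ^ 2 ≤ ‖b.eval (p k)‖ ^ 2 := pow_le_pow_left₀ hδ.le (hb k) 2
  exact div_le_div₀ ((norm_nonneg _).trans h1) h1 (by positivity) h2

theorem b_ne (hs : Ser d a b p B) (k : ℕ) : b.eval (p k) ≠ 0 := by
  obtain ⟨δ, hδ, hb⟩ := hs.bb
  intro h
  have h1 := hb k
  rw [h, norm_zero] at h1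
  linarith

theorem B_sum0 (h : RatD d a b) (hs : Ser d a b p B) : ∑' k, B k = 0 := by
  have hbd : b.natDegree ≤ d := by
    rw [← h.deg]
    exact le_max_right _ _
  have h1 := hs.van (b ^ 2) (natDegree_pow_le.trans (Nat.mul_le_mul_left 2 hbd))
  rw [← h1]
  refine tsum_congr fun k => ?_
  rw [eval_pow, div_self (pow_ne_zero 2 (b_ne hs k)), mul_one]

theorem ser_sum0 (h : RatD d a b) (hs : Ser d a b p B) : ∑' k, sbe a b p B k = 0 := by
  rw [(ser_sum hs).of_norm.tsum_eq_zero_add, ser_zero hs, zero_add]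
  rw [tsum_congr fun k => ser_succ hs k]
  exact B_sum0 h hs

theorem sbe_p_sum (hs : Ser d a b p B) : Summable (fun k => sbe a b p B k * p k) := by
  obtain ⟨R, hR⟩ := hs.pb
  refine Summable.of_norm_bounded (g := fun k => ‖sbe a b p B k‖ * R) ((ser_sum hs).mul_right _) ?_
  intro k
  rw [norm_mul]
  exact mul_le_mul_of_nonneg_left (hR k) (norm_nonneg _)

theorem ser_sum1 (h : RatD d a b) (hs : Ser d a b p B) : ∑' k, sbe a b p B k * p k = 0 := by
  have had : a.natDegree ≤ d := by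
    rw [← h.deg]
    exact le_max_left _ _
  have hbd : b.natDegree ≤ d := by
    rw [← h.deg]
    exact le_max_right _ _
  rw [(sbe_p_sum hs).tsum_eq_zero_add, ser_zero hs, zero_mul, zero_add]
  have h1 := hs.van (a * b) (natDegree_mul_le.trans (by omega))
  rw [← h1]
  refine tsum_congr fun k => ?_
  rw [ser_succ hs, ← hs.orb k]
  unfold gg
  have hb := b_ne hs k
  rw [eval_mul]
  field_simp

end Pool.Agent.H35.EX
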