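import Pool.Agent.H61.TT.Fib

/-!
# Transversality for expanding sets: definitions

`Ser`: a summable vanishing combination `∑ B k (η / b ^ 2)(p k) = 0` (all `η` of degree at most `2 d`) along an
orbit `p` of `a / b` starting at a critical point, with `B (k+1) * (a / b)'(p (k+1)) = B k`.
`sbe` are the residues, `qs` the quadratic differential `∑ β k / (x - p k)`.
-/

set_option autoImplicit false

open Polynomial

namespace Pool.Agent.H35.EX

open Pool.Agent.H61.TT

/-- a vanishing combination along the orbit of a critical point -/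
structure Ser (d : ℕ) (a b : Polynomial ℂ) (p B : ℕ → ℂ) : Prop where
  pb : ∃ R : ℝ, ∀ k, ‖p k‖ ≤ R
  bb : ∃ δ : ℝ, 0 < δ ∧ ∀ k, δ ≤ ‖b.eval (p k)‖
  orb : ∀ k, gg a b (p k) = p (k + 1)
  hB : ∀ k, B (k + 1) * dg a b (p (k + 1)) = B k
  crit : dg a b (p 0) = 0
  B0 : B 0 = 1
  sm : Summable (fun k => ‖B k‖)
  van : ∀ η : Polynomial ℂ, η.natDegree ≤ 2 * d →
    ∑' k, B k * (η.eval (p k) / b.eval (p k) ^ 2) = 0

/-- the residues -/
noncomputable def sbe (a b : Polynomial ℂ) (p B : ℕ → ℂ) (k : ℕ) : ℂ := B k * dg a b (p k)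

/-- a sum of simple poles; `0` where the series does not converge absolutely -/
noncomputable def qs (β p : ℕ → ℂ) (x : ℂ) : ℂ := ∑' k, β k / (x - p k)

end Pool.Agent.H35.EX
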