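import Pool.Agent.H35.EX.Gron
import Pool.Agent.H35.EX.Conv
import Pool.Agent.H35.EX.ADefs

/-!
# Module ShadB: a priori bound for perturbed orbits

PROOF. `1 / ‖P (i+1)‖ ≤ B θ ^ (i+1)` (`hB` with `0 ≤ i+1`, `P 0 = 1`), so
`∑ i < n, (1 + L ε + M) / ‖P (i+1)‖ ≤ S1 := B (1 + L ε + M) / (1 - θ)`. Put `C1 = 2 (Kb + S1) + 1` and choose
`ρ0 > 0` with `C1 ρ0 B < ε` and `(A / c0) C1 ρ0 B / (1 - θ) ≤ 1 / 4`.
Let `a i = F^[i] u`, `e i = a i - x i`, `E i = e i / (h P i)` (`P i ≠ 0`). Induction on `i ≤ n` of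
`‖e i‖ ≤ C1 h ‖P i‖` (which is `≤ C1 ρ0 B θ ^ (n - i) < ε` by `hB` and `h ‖P n‖ ≤ ρ0`, so `a i ∈ ball (x i) ε`): for
`k < i`, `e (k+1) = m k e k + (f (a k) - f (x k) - m k e k) + h ξ k + (F (a k) - f (a k) - h ξ k)`, so
`‖E (k+1) - E k‖ ≤ (A / c0) ‖e k‖ ‖E k‖ + (M + 1 + L ‖e k‖) / ‖P (k+1)‖
≤ ((A / c0) C1 ρ0 B θ ^ (n-k)) ‖E k‖ + (M + 1 + L ε) / ‖P (k+1)‖`. `gron` (for `n := i`; `geo_sum_le`):
`‖E i‖ ≤ exp (1/4) (‖E 0‖ + S1) ≤ 2 (Kb + S1) ≤ C1`.
-/

set_option autoImplicit false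

open Finset Filter Topology Metric

namespace Pool.Agent.H35.EX

theorem shadB_P_ne {f : ℂ → ℂ} {x m P : ℕ → ℂ} {ε A c0 B θ : ℝ} (hC : Cst ε A c0 B θ)
    (ho : Orb1 f x m P ε A c0 B θ) (i : ℕ) : P i ≠ 0 := by
  induction i with
  | zero => rw [ho.hP0]; exact one_ne_zero
  | succ k ih =>
    rw [ho.hP k]
    refine mul_ne_zero ?_ ih
    intro h0
    have := ho.hm k
    rw [h0, norm_zero] at this
    exact absurd hC.hc0 (not_lt.mpr this)

theorem shadB_inv_P {f : ℂ → ℂ} {x m P : ℕ → ℂ} {ε A c0 B θ : ℝ} (hC : Cst ε A c0 B θ)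
    (ho : Orb1 f x m P ε A c0 B θ) (i : ℕ) : 1 / ‖P i‖ ≤ B * θ ^ i := by
  have hp : 0 < ‖P i‖ := norm_pos_iff.mpr (shadB_P_ne hC ho i)
  rw [div_le_iff₀ hp]
  have := ho.hB i 0 (Nat.zero_le i)
  rwa [ho.hP0, norm_one, Nat.sub_zero] at this

theorem shadB_choose {a b ε : ℝ} (ha : 0 ≤ a) (hb : 0 ≤ b) (hε : 0 < ε) :
    ∃ r : ℝ, 0 < r ∧ a * r < ε ∧ b * r ≤ 1 / 4 := by
  refine ⟨min (ε / (a + 1)) (1 / (4 * (b + 1))), by positivity, ?_, ?_⟩
  · calc a * min (ε / (a + 1)) (1 / (4 * (b + 1))) ≤ a * (ε / (a + 1)) :=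
          mul_le_mul_of_nonneg_left (min_le_left _ _) ha
      _ = ε * (a / (a + 1)) := by ring
      _ < ε * 1 := by
          apply mul_lt_mul_of_pos_left _ hε
          rw [div_lt_one (by positivity)]; linarith
      _ = ε := mul_one ε
  · calc b * min (ε / (a + 1)) (1 / (4 * (b + 1))) ≤ b * (1 / (4 * (b + 1))) :=
          mul_le_mul_of_nonneg_left (min_le_right _ _) hb
      _ = (1 / 4) * (b / (b + 1)) := by field_simp
      _ ≤ (1 / 4) * 1 := by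
          apply mul_le_mul_of_nonneg_left _ (by norm_num)
          rw [div_le_one (by positivity)]; linarith
      _ = 1 / 4 := by norm_num

theorem shadB_exp : Real.exp (1 / 4) ≤ 2 := by
  have h := Real.exp_bound_div_one_sub_of_interval (x := 1 / 4) (by norm_num) (by norm_num)
  calc Real.exp (1 / 4) ≤ 1 / (1 - 1 / 4) := h
    _ ≤ 2 := by norm_num

theorem shadB_geo {θ : ℝ} (h0 : 0 ≤ θ) (h1 : θ < 1) (n : ℕ) :
    ∑ k ∈ range n, θ ^ (k + 1) ≤ 1 / (1 - θ) := by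
  have h2 : ∀ n : ℕ, ∑ k ∈ range n, θ ^ k ≤ 1 / (1 - θ) := by
    intro n
    rw [one_div]
    exact (summable_geometric_of_lt_one h0 h1).sum_le_tsum (range n)
      (fun i _ => pow_nonneg h0 i) |>.trans_eq (tsum_geometric_of_lt_one h0 h1)
  calc ∑ k ∈ range n, θ ^ (k + 1) ≤ ∑ k ∈ range n, θ ^ k := by
        apply Finset.sum_le_sum
        intro k _
        rw [pow_succ]
        exact mul_le_of_le_one_right (pow_nonneg h0 k) h1.le
    _ ≤ 1 / (1 - θ) := h2 n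

theorem shadB_sub (n i : ℕ) (hi : i ≤ n) {θ : ℝ} (h0 : 0 ≤ θ) (h1 : θ < 1) :
    ∑ k ∈ range i, θ ^ (n - k) ≤ 1 / (1 - θ) := by
  calc ∑ k ∈ range i, θ ^ (n - k) ≤ ∑ k ∈ range n, θ ^ (n - k) := by
        apply Finset.sum_le_sum_of_subset_of_nonneg
        · intro k hk
          simp only [Finset.mem_range] at hk ⊢
          omega
        · intro k _ _
          exact pow_nonneg h0 _
    _ ≤ 1 / (1 - θ) := geo_sum_le h0 h1 n

/-- one step of the recursion for the rescaled difference -/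
theorem shadB_step {f F : ℂ → ℂ} {x m P : ℕ → ℂ} {ε A c0 B θ : ℝ} (hC : Cst ε A c0 B θ)
    (ho : Orb1 f x m P ε A c0 B θ) {L M h : ℝ} (hL : 0 ≤ L) {ξ : ℕ → ℂ}
    (hξ : ∀ i, ‖ξ i‖ ≤ M) (hh : 0 < h) (k : ℕ) (a : ℂ) (ha : a ∈ ball (x k) ε)
    (hF : ‖F a - f a - h * ξ k‖ ≤ h * (1 + L * ‖a - x k‖)) :
    ‖(F a - x (k + 1)) / (h * P (k + 1)) - (a - x k) / (h * P k)‖ ≤
      (A / c0) * ‖a - x k‖ * ‖(a - x k) / (h * P k)‖ + (1 + L * ε + M) * (B * θ ^ (k + 1)) := by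
  have hPk : P k ≠ 0 := shadB_P_ne hC ho k
  have hPk1 : P (k + 1) ≠ 0 := shadB_P_ne hC ho (k + 1)
  have hmk : m k ≠ 0 := by
    intro h0
    rw [ho.hP k, h0, zero_mul] at hPk1
    exact hPk1 rfl
  have hhC : (h : ℂ) ≠ 0 := by exact_mod_cast hh.ne'
  have hxk : x k ∈ ball (x k) ε := mem_ball_self hC.hε
  have h1 := ho.hf k a ha (x k) hxk
  rw [ho.hx k, sub_self, norm_zero, add_zero] at h1
  have hak : ‖a - x k‖ < ε := by
    have := ha
    rwa [mem_ball, dist_eq_norm] at this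
  have e1 : (F a - x (k + 1)) / (h * P (k + 1)) - (a - x k) / (h * P k) =
      ((F a - f a - h * ξ k) + h * ξ k + (f a - x (k + 1) - m k * (a - x k))) /
        (h * P (k + 1)) := by
    rw [ho.hP k]
    field_simp
    ring
  have hp1 : 0 < ‖P (k + 1)‖ := norm_pos_iff.mpr hPk1
  have hp0 : 0 < ‖P k‖ := norm_pos_iff.mpr hPk
  have hinv := shadB_inv_P hC ho (k + 1)
  have hnum : ‖(F a - f a - h * ξ k) + h * ξ k + (f a - x (k + 1) - m k * (a - x k))‖ ≤
      h * (1 + L * ε + M) + A * ‖a - x k‖ * ‖a - x k‖ := by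
    calc ‖(F a - f a - h * ξ k) + h * ξ k + (f a - x (k + 1) - m k * (a - x k))‖
        ≤ ‖F a - f a - h * ξ k‖ + ‖(h : ℂ) * ξ k‖ + ‖f a - x (k + 1) - m k * (a - x k)‖ :=
          norm_add₃_le
      _ ≤ h * (1 + L * ‖a - x k‖) + h * M + A * ‖a - x k‖ * ‖a - x k‖ := by
          have h2 : ‖(h : ℂ) * ξ k‖ ≤ h * M := by
            rw [norm_mul, Complex.norm_real, Real.norm_eq_abs, abs_of_pos hh]
            exact mul_le_mul_of_nonneg_left (hξ k) hh.le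
          linarith
      _ ≤ h * (1 + L * ε + M) + A * ‖a - x k‖ * ‖a - x k‖ := by
          have h3 : L * ‖a - x k‖ ≤ L * ε := mul_le_mul_of_nonneg_left hak.le hL
          have h4 : h * (L * ‖a - x k‖) ≤ h * (L * ε) := mul_le_mul_of_nonneg_left h3 hh.le
          linarith
  rw [e1, norm_div]
  have hden : ‖(h : ℂ) * P (k + 1)‖ = h * ‖P (k + 1)‖ := by
    rw [norm_mul, Complex.norm_real, Real.norm_eq_abs, abs_of_pos hh]
  have hden0 : ‖(h : ℂ) * P k‖ = h * ‖P k‖ := by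
    rw [norm_mul, Complex.norm_real, Real.norm_eq_abs, abs_of_pos hh]
  rw [hden]
  have hdp : 0 < h * ‖P (k + 1)‖ := mul_pos hh hp1
  have hM : 0 ≤ M := (norm_nonneg _).trans (hξ 0)
  calc ‖(F a - f a - h * ξ k) + h * ξ k + (f a - x (k + 1) - m k * (a - x k))‖ /
        (h * ‖P (k + 1)‖)
      ≤ (h * (1 + L * ε + M) + A * ‖a - x k‖ * ‖a - x k‖) / (h * ‖P (k + 1)‖) := by
        gcongr
    _ = (1 + L * ε + M) * (1 / ‖P (k + 1)‖) +
        A * ‖a - x k‖ * (‖a - x k‖ / (h * ‖P (k + 1)‖)) := by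
        field_simp
    _ ≤ (1 + L * ε + M) * (B * θ ^ (k + 1)) +
        A * ‖a - x k‖ * (1 / c0 * (‖a - x k‖ / (h * ‖P k‖))) := by
        have h5 : 0 ≤ 1 + L * ε + M := by
          have := mul_nonneg hL hC.hε.le
          linarith
        have h6 : ‖a - x k‖ / (h * ‖P (k + 1)‖) ≤ 1 / c0 * (‖a - x k‖ / (h * ‖P k‖)) := by
          rw [ho.hP k, norm_mul, one_div_mul_eq_div, div_div]
          apply div_le_div_of_nonneg_left (norm_nonneg _)
          · exact mul_pos (mul_pos hh hp0) hC.hc0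
          · have := ho.hm k
            nlinarith [mul_pos hh hp0]
        have h7 : 0 ≤ A * ‖a - x k‖ := mul_nonneg hC.hA (norm_nonneg _)
        exact add_le_add (mul_le_mul_of_nonneg_left hinv h5) (mul_le_mul_of_nonneg_left h6 h7)
    _ = (A / c0) * ‖a - x k‖ * ‖(a - x k) / (h * P k)‖ + (1 + L * ε + M) * (B * θ ^ (k + 1)) := by
        rw [norm_div, hden0]
        ring

theorem shad_bound {ε A c0 B θ : ℝ} (hC : Cst ε A c0 B θ) {L M Kb : ℝ} (hL : 0 ≤ L) (hM : 0 ≤ M)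
    (hK : 0 ≤ Kb) :
    ∃ ρ0 C1 : ℝ, 0 < ρ0 ∧ 0 < C1 ∧ ∀ (f : ℂ → ℂ) (x m P ξ : ℕ → ℂ), Orb1 f x m P ε A c0 B θ →
      (∀ i, ‖ξ i‖ ≤ M) → ∀ (F : ℂ → ℂ) (h : ℝ) (n : ℕ) (u : ℂ), 0 < h → h * ‖P n‖ ≤ ρ0 →
      ‖u - x 0‖ ≤ Kb * h →
      (∀ i < n, ∀ a ∈ ball (x i) ε, ‖F a - f a - h * ξ i‖ ≤ h * (1 + L * ‖a - x i‖)) →
      ∀ i ≤ n, F^[i] u ∈ ball (x i) ε ∧ ‖F^[i] u - x i‖ ≤ C1 * h * ‖P i‖ := by
  have h1θ : 0 < 1 - θ := by linarith [hC.hθ]
  have hLε : 0 ≤ L * ε := mul_nonneg hL hC.hε.le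
  set S1 : ℝ := B * (1 + L * ε + M) / (1 - θ) with hS1
  have hS1nn : 0 ≤ S1 := by
    rw [hS1]
    have := hC.hB
    positivity
  set C1 : ℝ := 2 * (Kb + S1) + 1 with hC1
  have hC1pos : 0 < C1 := by rw [hC1]; linarith
  have hBpos := hC.hB
  have hc0 := hC.hc0
  have hA := hC.hA
  obtain ⟨ρ0, hρ0, hρ1, hρ2⟩ := shadB_choose (a := C1 * B) (b := A / c0 * (C1 * B) * (1 / (1 - θ)))
    (ε := ε) (by positivity) (by positivity) hC.hε
  refine ⟨ρ0, C1, hρ0, hC1pos, ?_⟩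
  intro f x m P ξ ho hξ F h n u hh hρ hu hF
  -- the bound implies the position
  have hpos : ∀ i ≤ n, ‖F^[i] u - x i‖ ≤ C1 * h * ‖P i‖ →
      ‖F^[i] u - x i‖ ≤ C1 * B * ρ0 * θ ^ (n - i) ∧ F^[i] u ∈ ball (x i) ε := by
    intro i hi hb
    have h1 := ho.hB n i hi
    have hθp : 0 ≤ θ ^ (n - i) := pow_nonneg hC.hθ0.le _
    have h2 : ‖F^[i] u - x i‖ ≤ C1 * B * ρ0 * θ ^ (n - i) := by
      calc ‖F^[i] u - x i‖ ≤ C1 * h * ‖P i‖ := hb
        _ ≤ C1 * h * (B * θ ^ (n - i) * ‖P n‖) := mul_le_mul_of_nonneg_left h1 (by positivity)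
        _ = C1 * B * θ ^ (n - i) * (h * ‖P n‖) := by ring
        _ ≤ C1 * B * θ ^ (n - i) * ρ0 := mul_le_mul_of_nonneg_left hρ (by positivity)
        _ = C1 * B * ρ0 * θ ^ (n - i) := by ring
    refine ⟨h2, ?_⟩
    rw [mem_ball, dist_eq_norm]
    calc ‖F^[i] u - x i‖ ≤ C1 * B * ρ0 * θ ^ (n - i) := h2
      _ ≤ C1 * B * ρ0 * 1 := by
          apply mul_le_mul_of_nonneg_left (pow_le_one₀ hC.hθ0.le hC.hθ.le) (by positivity)
      _ = C1 * B * ρ0 := mul_one _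
      _ < ε := hρ1
  -- the bound, by strong induction
  have key : ∀ i, i ≤ n → ‖F^[i] u - x i‖ ≤ C1 * h * ‖P i‖ := by
    intro i
    induction i using Nat.strong_induction_on with
    | _ i ih =>
      intro hi
      set G : ℕ → ℂ := fun k => (F^[k] u - x k) / (h * P k) with hG
      set t : ℕ → ℝ := fun k => A / c0 * (C1 * B * ρ0 * θ ^ (n - k)) with ht
      set s : ℕ → ℝ := fun k => (1 + L * ε + M) * (B * θ ^ (k + 1)) with hs
      have ht0 : ∀ k < i, 0 ≤ t k := by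
        intro k _
        have : 0 ≤ θ ^ (n - k) := pow_nonneg hC.hθ0.le _
        simp only [ht]; positivity
      have hs0 : ∀ k < i, 0 ≤ s k := by
        intro k _
        have : 0 ≤ θ ^ (k + 1) := pow_nonneg hC.hθ0.le _
        simp only [hs]; positivity
      have hstep : ∀ k < i, ‖G (k + 1) - G k‖ ≤ t k * ‖G k‖ + s k := by
        intro k hk
        have hkn : k ≤ n := by omega
        obtain ⟨hb1, hb2⟩ := hpos k hkn (ih k hk hkn)
        have hst := shadB_step hC ho hL hξ hh k (F^[k] u) hb2 (hF k (by omega) _ hb2)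
        simp only [hG, ht, hs]
        rw [Function.iterate_succ_apply' F k u]
        refine hst.trans ?_
        gcongr
      have hg := gron ht0 hs0 hstep i le_rfl
      have hsumt : ∑ k ∈ range i, t k ≤ 1 / 4 := by
        have : ∑ k ∈ range i, t k = A / c0 * (C1 * B) * ρ0 * ∑ k ∈ range i, θ ^ (n - k) := by
          rw [Finset.mul_sum]
          refine Finset.sum_congr rfl fun k _ => ?_
          simp only [ht]; ring
        rw [this]
        calc A / c0 * (C1 * B) * ρ0 * ∑ k ∈ range i, θ ^ (n - k)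
            ≤ A / c0 * (C1 * B) * ρ0 * (1 / (1 - θ)) :=
              mul_le_mul_of_nonneg_left (shadB_sub n i hi hC.hθ0.le hC.hθ) (by positivity)
          _ = A / c0 * (C1 * B) * (1 / (1 - θ)) * ρ0 := by ring
          _ ≤ 1 / 4 := hρ2
      have hsums : ∑ k ∈ range i, s k ≤ S1 := by
        have : ∑ k ∈ range i, s k = (1 + L * ε + M) * B * ∑ k ∈ range i, θ ^ (k + 1) := by
          rw [Finset.mul_sum]
          refine Finset.sum_congr rfl fun k _ => ?_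
          simp only [hs]; ring
        rw [this]
        calc (1 + L * ε + M) * B * ∑ k ∈ range i, θ ^ (k + 1)
            ≤ (1 + L * ε + M) * B * (1 / (1 - θ)) :=
              mul_le_mul_of_nonneg_left (shadB_geo hC.hθ0.le hC.hθ i) (by positivity)
          _ = S1 := by rw [hS1]; ring
      have hG0 : ‖G 0‖ ≤ Kb := by
        simp only [hG]
        rw [Function.iterate_zero_apply, ho.hP0, mul_one, norm_div, Complex.norm_real,
          Real.norm_eq_abs, abs_of_pos hh, div_le_iff₀ hh]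
        exact hu
      have hGi : ‖G i‖ ≤ 2 * (Kb + S1) := by
        have hsn : 0 ≤ ∑ k ∈ range i, s k :=
          Finset.sum_nonneg fun k hk => hs0 k (Finset.mem_range.mp hk)
        calc ‖G i‖ ≤ Real.exp (∑ k ∈ range i, t k) * (‖G 0‖ + ∑ k ∈ range i, s k) := hg
          _ ≤ 2 * (Kb + S1) := by
              apply mul_le_mul _ (add_le_add hG0 hsums) (by positivity) (by norm_num)
              exact (Real.exp_le_exp.mpr hsumt).trans shadB_exp
      have hPi : P i ≠ 0 := shadB_P_ne hC ho i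
      have hhC : (h : ℂ) ≠ 0 := by exact_mod_cast hh.ne'
      have hrec : F^[i] u - x i = G i * (h * P i) := by
        simp only [hG]
        field_simp
      rw [hrec, norm_mul, norm_mul, Complex.norm_real, Real.norm_eq_abs, abs_of_pos hh]
      have hhP : 0 ≤ h * ‖P i‖ := by positivity
      calc ‖G i‖ * (h * ‖P i‖) ≤ C1 * (h * ‖P i‖) := by
            apply mul_le_mul_of_nonneg_right _ hhP
            rw [hC1]; linarith
        _ = C1 * h * ‖P i‖ := by ring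
  intro i hi
  exact ⟨(hpos i hi (key i hi)).2, key i hi⟩

end Pool.Agent.H35.EX
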