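import Pool.Agent.H35.EX.Gron
import Pool.Agent.H35.EX.Conv
import Pool.Agent.H35.EX.ADefs
import Pool.Agent.H35.EX.ShadB

/-!
# Module ShadW: comparison of a perturbed orbit with an unperturbed one (finite form)

`u i` is a perturbed orbit, `y i` an orbit of `f`, both close to `x i` (bounds `D h ‖P i‖`), and the errors
of the perturbation are at most `h (δ + L ‖u i - x i‖)`.

PROOF. `1 / ‖P (i+1)‖ ≤ B θ ^ (i+1)`. Let `r i = ∑' k, ξ (i + k) / P (i + k + 1)`; the series converges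
absolutely, `‖r i‖ ≤ M B θ ^ (i+1) / (1 - θ)`, `r 0 = s`, `r i - r (i+1) = ξ i / P (i+1)`. Let
`V i = (u i - y i) / (h P i) + r i`. From
`u (i+1) - y (i+1) = (F (u i) - f (u i) - h ξ i) + h ξ i + (f (u i) - f (y i))` and `hf`:
`‖V (i+1) - V i‖ ≤ (A / c0) (‖u i - x i‖ + ‖y i - x i‖) ‖V i - r i‖ + (δ + L ‖u i - x i‖) / ‖P (i+1)‖
≤ (2 A D / c0) h ‖P i‖ (‖V i‖ + ‖r i‖) + (δ + L D h ‖P i‖) B θ ^ (i+1)`, and `h ‖P i‖ ≤ ρ B θ ^ (n - i)` by `hB`
and `h ‖P n‖ ≤ ρ`. `gron` with `t i = (2 A D ρ B / c0) θ ^ (n-i)` (sum `≤ (2 A D ρ B / c0) / (1 - θ)`) and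
`s i = t i * (M B θ ^ (i+1) / (1-θ)) + (δ + L D ρ B θ ^ (n-i)) B θ ^ (i+1)`; use
`θ ^ (n-i) θ ^ (i+1) = θ ^ (n+1)` for `i < n`. Finally `(u n - y n) / (h P n) = V n - r n`. Collect the constants
in one constant `Q`, which depends only on the listed constants: the right hand side is
`Q (‖V 0‖ + δ + (n + 1) θ ^ n)`, `‖V 0‖ = ‖(u 0 - y 0) / h + s‖`.
-/

set_option autoImplicit false

open Finset Filter Topology Metric

namespace Pool.Agent.H35.EX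

theorem shadW_term_le {f : ℂ → ℂ} {x m P : ℕ → ℂ} {ε A c0 B θ : ℝ} (hC : Cst ε A c0 B θ)
    (ho : Orb1 f x m P ε A c0 B θ) {M : ℝ} {ξ : ℕ → ℂ} (hξ : ∀ i, ‖ξ i‖ ≤ M) (i k : ℕ) :
    ‖ξ (i + k) / P (i + k + 1)‖ ≤ M * B * θ ^ (i + 1) * θ ^ k := by
  rw [norm_div, div_eq_mul_one_div]
  have h1 := shadB_inv_P hC ho (i + k + 1)
  have hM : 0 ≤ M := (norm_nonneg _).trans (hξ 0)
  calc ‖ξ (i + k)‖ * (1 / ‖P (i + k + 1)‖) ≤ M * (B * θ ^ (i + k + 1)) :=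
        mul_le_mul (hξ _) h1 (by positivity) hM
    _ = M * B * θ ^ (i + 1) * θ ^ k := by
        rw [show i + k + 1 = (i + 1) + k by omega, pow_add]; ring

theorem shadW_summable {f : ℂ → ℂ} {x m P : ℕ → ℂ} {ε A c0 B θ : ℝ} (hC : Cst ε A c0 B θ)
    (ho : Orb1 f x m P ε A c0 B θ) {M : ℝ} {ξ : ℕ → ℂ} (hξ : ∀ i, ‖ξ i‖ ≤ M) (i : ℕ) :
    Summable (fun k => ξ (i + k) / P (i + k + 1)) := by
  refine Summable.of_norm_bounded (g := fun k => M * B * θ ^ (i + 1) * θ ^ k) ?_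
    (fun k => shadW_term_le hC ho hξ i k)
  exact (summable_geometric_of_lt_one hC.hθ0.le hC.hθ).mul_left _

theorem shadW_tail_le {f : ℂ → ℂ} {x m P : ℕ → ℂ} {ε A c0 B θ : ℝ} (hC : Cst ε A c0 B θ)
    (ho : Orb1 f x m P ε A c0 B θ) {M : ℝ} {ξ : ℕ → ℂ} (hξ : ∀ i, ‖ξ i‖ ≤ M) (i : ℕ) :
    ‖∑' k, ξ (i + k) / P (i + k + 1)‖ ≤ M * B / (1 - θ) * θ ^ (i + 1) := by
  have hg : HasSum (fun k => M * B * θ ^ (i + 1) * θ ^ k) (M * B * θ ^ (i + 1) * (1 - θ)⁻¹) :=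
    (hasSum_geometric_of_lt_one hC.hθ0.le hC.hθ).mul_left _
  have := tsum_of_norm_bounded hg (fun k => shadW_term_le hC ho hξ i k)
  refine this.trans_eq ?_
  ring

theorem shadW_tail_succ {f : ℂ → ℂ} {x m P : ℕ → ℂ} {ε A c0 B θ : ℝ} (hC : Cst ε A c0 B θ)
    (ho : Orb1 f x m P ε A c0 B θ) {M : ℝ} {ξ : ℕ → ℂ} (hξ : ∀ i, ‖ξ i‖ ≤ M) (i : ℕ) :
    ∑' k, ξ (i + k) / P (i + k + 1) =
      ξ i / P (i + 1) + ∑' k, ξ (i + 1 + k) / P (i + 1 + k + 1) := by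
  rw [(shadW_summable hC ho hξ i).tsum_eq_zero_add]
  congr 1
  refine tsum_congr fun k => ?_
  rw [show i + (k + 1) = i + 1 + k by omega]

/-- one step of the recursion -/
theorem shadW_step {f F : ℂ → ℂ} {x m P : ℕ → ℂ} {ε A c0 B θ : ℝ} (hC : Cst ε A c0 B θ)
    (ho : Orb1 f x m P ε A c0 B θ) {L M D h δ e : ℝ} (hL : 0 ≤ L) {ξ : ℕ → ℂ}
    (hξ : ∀ i, ‖ξ i‖ ≤ M) (hh : 0 < h) (hδ : 0 ≤ δ) (k : ℕ) (a b : ℂ)
    (ha : a ∈ ball (x k) ε) (hb : b ∈ ball (x k) ε)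
    (hae : ‖a - x k‖ ≤ D * e) (hbe : ‖b - x k‖ ≤ D * e)
    (hF : ‖F a - f a - h * ξ k‖ ≤ h * (δ + L * ‖a - x k‖)) :
    ‖((F a - f b) / (h * P (k + 1)) + ∑' j, ξ (k + 1 + j) / P (k + 1 + j + 1)) -
        ((a - b) / (h * P k) + ∑' j, ξ (k + j) / P (k + j + 1))‖ ≤
      (2 * A * D / c0 * e) * ‖(a - b) / (h * P k) + ∑' j, ξ (k + j) / P (k + j + 1)‖ +
        ((2 * A * D / c0 * e) * (M * B / (1 - θ) * θ ^ (k + 1)) +
          (δ + L * D * e) * (B * θ ^ (k + 1))) := by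
  have hPk : P k ≠ 0 := shadB_P_ne hC ho k
  have hPk1 : P (k + 1) ≠ 0 := shadB_P_ne hC ho (k + 1)
  have hmk : m k ≠ 0 := by
    intro h0
    rw [ho.hP k, h0, zero_mul] at hPk1
    exact hPk1 rfl
  have hhC : (h : ℂ) ≠ 0 := by exact_mod_cast hh.ne'
  have h1 := ho.hf k a ha b hb
  have hr := shadW_tail_le hC ho hξ k
  rw [shadW_tail_succ hC ho hξ k] at hr ⊢
  set r' : ℂ := ∑' j, ξ (k + 1 + j) / P (k + 1 + j + 1) with hr'
  set r : ℂ := ξ k / P (k + 1) + r' with hrr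
  set V : ℂ := (a - b) / (h * P k) + r with hV
  have e1 : ((F a - f b) / (h * P (k + 1)) + r') - V =
      ((F a - f a - h * ξ k) + (f a - f b - m k * (a - b))) / (h * P (k + 1)) := by
    rw [hV, hrr, ho.hP k]
    field_simp
    ring
  have hp1 : 0 < ‖P (k + 1)‖ := norm_pos_iff.mpr hPk1
  have hp0 : 0 < ‖P k‖ := norm_pos_iff.mpr hPk
  have hinv := shadB_inv_P hC ho (k + 1)
  have hden : ‖(h : ℂ) * P (k + 1)‖ = h * ‖P (k + 1)‖ := by
    rw [norm_mul, Complex.norm_real, Real.norm_eq_abs, abs_of_pos hh]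
  have hden0 : ‖(h : ℂ) * P k‖ = h * ‖P k‖ := by
    rw [norm_mul, Complex.norm_real, Real.norm_eq_abs, abs_of_pos hh]
  have hDe : 0 ≤ D * e := (norm_nonneg _).trans hae
  have hA := hC.hA
  have hc0 := hC.hc0
  have hnum : ‖(F a - f a - h * ξ k) + (f a - f b - m k * (a - b))‖ ≤
      h * (δ + L * D * e) + 2 * A * D * e * ‖a - b‖ := by
    calc ‖(F a - f a - h * ξ k) + (f a - f b - m k * (a - b))‖
        ≤ ‖F a - f a - h * ξ k‖ + ‖f a - f b - m k * (a - b)‖ := norm_add_le _ _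
      _ ≤ h * (δ + L * ‖a - x k‖) + A * (‖a - x k‖ + ‖b - x k‖) * ‖a - b‖ := add_le_add hF h1
      _ ≤ h * (δ + L * (D * e)) + A * (D * e + D * e) * ‖a - b‖ := by gcongr
      _ = h * (δ + L * D * e) + 2 * A * D * e * ‖a - b‖ := by ring
  have hdp : 0 < h * ‖P (k + 1)‖ := mul_pos hh hp1
  have hab : ‖a - b‖ / (h * ‖P k‖) ≤ ‖V‖ + M * B / (1 - θ) * θ ^ (k + 1) := by
    have : (a - b) / (h * P k) = V - r := by rw [hV]; ring
    calc ‖a - b‖ / (h * ‖P k‖) = ‖(a - b) / (h * P k)‖ := by rw [norm_div, hden0]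
      _ = ‖V - r‖ := by rw [this]
      _ ≤ ‖V‖ + ‖r‖ := norm_sub_le _ _
      _ ≤ ‖V‖ + M * B / (1 - θ) * θ ^ (k + 1) := by linarith
  have h6 : ‖a - b‖ / (h * ‖P (k + 1)‖) ≤ 1 / c0 * (‖a - b‖ / (h * ‖P k‖)) := by
    rw [ho.hP k, norm_mul, one_div_mul_eq_div, div_div]
    apply div_le_div_of_nonneg_left (norm_nonneg _)
    · exact mul_pos (mul_pos hh hp0) hC.hc0
    · have := ho.hm k
      nlinarith [mul_pos hh hp0]
  have hLDe : 0 ≤ L * D * e := by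
    have := mul_nonneg hL hDe
    linarith
  have hADe : 0 ≤ 2 * A * D * e := by
    have := mul_nonneg hA hDe
    linarith
  rw [e1, norm_div, hden]
  calc ‖(F a - f a - h * ξ k) + (f a - f b - m k * (a - b))‖ / (h * ‖P (k + 1)‖)
      ≤ (h * (δ + L * D * e) + 2 * A * D * e * ‖a - b‖) / (h * ‖P (k + 1)‖) := by gcongr
    _ = (δ + L * D * e) * (1 / ‖P (k + 1)‖) +
        2 * A * D * e * (‖a - b‖ / (h * ‖P (k + 1)‖)) := by
        field_simp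
    _ ≤ (δ + L * D * e) * (B * θ ^ (k + 1)) +
        2 * A * D * e * (1 / c0 * (‖V‖ + M * B / (1 - θ) * θ ^ (k + 1))) := by
        refine add_le_add (mul_le_mul_of_nonneg_left hinv (by linarith))
          (mul_le_mul_of_nonneg_left (h6.trans ?_) hADe)
        exact mul_le_mul_of_nonneg_left hab (by positivity)
    _ = _ := by ring

theorem shad_cmp {ε A c0 B θ : ℝ} (hC : Cst ε A c0 B θ) {L M D ρ : ℝ} (hL : 0 ≤ L) (hM : 0 ≤ M)
    (hD : 0 ≤ D) (hρ : 0 ≤ ρ) :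
    ∃ Q : ℝ, 0 ≤ Q ∧ ∀ (f : ℂ → ℂ) (x m P ξ : ℕ → ℂ), Orb1 f x m P ε A c0 B θ →
      (∀ i, ‖ξ i‖ ≤ M) → ∀ (F : ℂ → ℂ) (h δ : ℝ) (n : ℕ) (u y : ℕ → ℂ), 0 < h → 0 ≤ δ →
      h * ‖P n‖ ≤ ρ →
      (∀ i < n, F (u i) = u (i + 1)) → (∀ i < n, f (y i) = y (i + 1)) →
      (∀ i ≤ n, u i ∈ ball (x i) ε ∧ ‖u i - x i‖ ≤ D * h * ‖P i‖) →
      (∀ i ≤ n, y i ∈ ball (x i) ε ∧ ‖y i - x i‖ ≤ D * h * ‖P i‖) →
      (∀ i < n, ‖F (u i) - f (u i) - h * ξ i‖ ≤ h * (δ + L * ‖u i - x i‖)) →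
      ‖u n - y n‖ ≤ Q * (‖(u 0 - y 0) / h + ∑' k, ξ k / P (k + 1)‖ + δ + (n + 1) * θ ^ n) := by
  have h1θ : 0 < 1 - θ := by linarith [hC.hθ]
  have hBpos := hC.hB
  have hc0 := hC.hc0
  have hA := hC.hA
  have hθ0 := hC.hθ0.le
  have hθ1 := hC.hθ
  set T0 : ℝ := 2 * A * D / c0 * (ρ * B) with hT0
  have hT0nn : 0 ≤ T0 := by rw [hT0]; positivity
  set K1 : ℝ := T0 * (M * B / (1 - θ)) + L * D * (ρ * B) * B with hK1
  have hK1nn : 0 ≤ K1 := by rw [hK1]; positivity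
  set T : ℝ := T0 * (1 / (1 - θ)) with hT
  refine ⟨ρ * Real.exp T * (1 + K1 + B / (1 - θ)) + ρ * (M * B / (1 - θ)), by positivity, ?_⟩
  intro f x m P ξ ho hξ F h δ n u y hh hδ hρn hu hy hux hyx hF
  have hPi : ∀ i ≤ n, h * ‖P i‖ ≤ ρ * B * θ ^ (n - i) := by
    intro i hi
    have h1 := ho.hB n i hi
    have hθp : 0 ≤ θ ^ (n - i) := pow_nonneg hθ0 _
    calc h * ‖P i‖ ≤ h * (B * θ ^ (n - i) * ‖P n‖) := mul_le_mul_of_nonneg_left h1 hh.le
      _ = B * θ ^ (n - i) * (h * ‖P n‖) := by ring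
      _ ≤ B * θ ^ (n - i) * ρ := mul_le_mul_of_nonneg_left hρn (by positivity)
      _ = ρ * B * θ ^ (n - i) := by ring
  set V : ℕ → ℂ := fun i => (u i - y i) / (h * P i) + ∑' k, ξ (i + k) / P (i + k + 1) with hV
  set t : ℕ → ℝ := fun i => 2 * A * D / c0 * (ρ * B * θ ^ (n - i)) with ht
  set s : ℕ → ℝ := fun i => 2 * A * D / c0 * (ρ * B * θ ^ (n - i)) *
    (M * B / (1 - θ) * θ ^ (i + 1)) + (δ + L * D * (ρ * B * θ ^ (n - i))) * (B * θ ^ (i + 1))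
    with hs
  have ht0 : ∀ k < n, 0 ≤ t k := by
    intro k _
    have : 0 ≤ θ ^ (n - k) := pow_nonneg hθ0 _
    simp only [ht]; positivity
  have hs0 : ∀ k < n, 0 ≤ s k := by
    intro k _
    have h1 : 0 ≤ θ ^ (n - k) := pow_nonneg hθ0 _
    have h2 : 0 ≤ θ ^ (k + 1) := pow_nonneg hθ0 _
    simp only [hs]; positivity
  have hstep : ∀ k < n, ‖V (k + 1) - V k‖ ≤ t k * ‖V k‖ + s k := by
    intro k hk
    have hkn : k ≤ n := hk.le
    obtain ⟨hu1, hu2⟩ := hux k hkn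
    obtain ⟨hy1, hy2⟩ := hyx k hkn
    have hpk := hPi k hkn
    have hae : ‖u k - x k‖ ≤ D * (ρ * B * θ ^ (n - k)) := by
      calc ‖u k - x k‖ ≤ D * h * ‖P k‖ := hu2
        _ = D * (h * ‖P k‖) := by ring
        _ ≤ D * (ρ * B * θ ^ (n - k)) := mul_le_mul_of_nonneg_left hpk hD
    have hbe : ‖y k - x k‖ ≤ D * (ρ * B * θ ^ (n - k)) := by
      calc ‖y k - x k‖ ≤ D * h * ‖P k‖ := hy2
        _ = D * (h * ‖P k‖) := by ring
        _ ≤ D * (ρ * B * θ ^ (n - k)) := mul_le_mul_of_nonneg_left hpk hD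
    have hst := shadW_step hC ho hL hξ hh hδ k (u k) (y k) hu1 hy1 hae hbe (hF k hk)
    rw [hu k hk, hy k hk] at hst
    simpa only [hV, ht, hs] using hst
  have hg := gron ht0 hs0 hstep n le_rfl
  have hsumt : ∑ k ∈ range n, t k ≤ T := by
    have : ∑ k ∈ range n, t k = T0 * ∑ k ∈ range n, θ ^ (n - k) := by
      rw [Finset.mul_sum]
      refine Finset.sum_congr rfl fun k _ => ?_
      simp only [ht, hT0]; ring
    rw [this, hT]
    exact mul_le_mul_of_nonneg_left (geo_sum_le hθ0 hθ1 n) hT0nn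
  have hsums : ∑ k ∈ range n, s k ≤ K1 * ((n + 1) * θ ^ n) + B / (1 - θ) * δ := by
    have h1 : ∑ k ∈ range n, s k = ∑ k ∈ range n, (K1 * θ ^ (n + 1) + δ * B * θ ^ (k + 1)) := by
      refine Finset.sum_congr rfl fun k hk => ?_
      have hk' : k < n := Finset.mem_range.mp hk
      have h2 : θ ^ (n + 1) = θ ^ (n - k) * θ ^ (k + 1) := by
        rw [← pow_add]; congr 1; omega
      simp only [hs, hK1, hT0]
      rw [h2]; ring
    rw [h1, Finset.sum_add_distrib, Finset.sum_const, Finset.card_range, nsmul_eq_mul,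
      ← Finset.mul_sum]
    refine add_le_add ?_ ?_
    · have h3 : θ ^ (n + 1) ≤ θ ^ n := pow_le_pow_of_le_one hθ0 hθ1.le (Nat.le_succ n)
      have hθn : 0 ≤ θ ^ n := pow_nonneg hθ0 n
      calc (n : ℝ) * (K1 * θ ^ (n + 1)) ≤ (n : ℝ) * (K1 * θ ^ n) := by gcongr
        _ = K1 * (n * θ ^ n) := by ring
        _ ≤ K1 * ((n + 1) * θ ^ n) := by
            apply mul_le_mul_of_nonneg_left _ hK1nn
            apply mul_le_mul_of_nonneg_right _ hθn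
            linarith
    · calc δ * B * ∑ k ∈ range n, θ ^ (k + 1) ≤ δ * B * (1 / (1 - θ)) :=
            mul_le_mul_of_nonneg_left (shadB_geo hθ0 hθ1 n) (by positivity)
        _ = B / (1 - θ) * δ := by ring
  have hV0 : V 0 = (u 0 - y 0) / h + ∑' k, ξ k / P (k + 1) := by
    simp only [hV, ho.hP0, mul_one, zero_add]
  have hPn : P n ≠ 0 := shadB_P_ne hC ho n
  have hhC : (h : ℂ) ≠ 0 := by exact_mod_cast hh.ne'
  have hrn := shadW_tail_le hC ho hξ n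
  have hrec : u n - y n = (V n - ∑' k, ξ (n + k) / P (n + k + 1)) * (h * P n) := by
    simp only [hV]
    field_simp
    ring
  have hθn1 : θ ^ (n + 1) ≤ (n + 1) * θ ^ n := by
    have h3 : θ ^ (n + 1) ≤ θ ^ n := pow_le_pow_of_le_one hθ0 hθ1.le (Nat.le_succ n)
    have hθn : 0 ≤ θ ^ n := pow_nonneg hθ0 n
    have : (0 : ℝ) ≤ n := Nat.cast_nonneg n
    nlinarith
  have hn0 : 0 ≤ (n + 1) * θ ^ n := by
    have hθn : 0 ≤ θ ^ n := pow_nonneg hθ0 n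
    positivity
  rw [hrec, norm_mul, norm_mul, Complex.norm_real, Real.norm_eq_abs, abs_of_pos hh, ← hV0]
  set W : ℝ := ‖V 0‖ with hW
  have hW0 : 0 ≤ W := norm_nonneg _
  set N1 : ℝ := (n + 1) * θ ^ n with hN1
  have hsn : 0 ≤ ∑ k ∈ range n, s k :=
    Finset.sum_nonneg fun k hk => hs0 k (Finset.mem_range.mp hk)
  have hVn : ‖V n‖ ≤ Real.exp T * (W + (K1 * N1 + B / (1 - θ) * δ)) := by
    refine hg.trans ?_
    apply mul_le_mul (Real.exp_le_exp.mpr hsumt) _ (by positivity) (Real.exp_pos T).le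
    linarith
  have hsub : ‖V n - ∑' k, ξ (n + k) / P (n + k + 1)‖ ≤
      Real.exp T * (W + (K1 * N1 + B / (1 - θ) * δ)) + M * B / (1 - θ) * N1 := by
    refine (norm_sub_le _ _).trans (add_le_add hVn (hrn.trans ?_))
    exact mul_le_mul_of_nonneg_left hθn1 (by positivity)
  calc ‖V n - ∑' k, ξ (n + k) / P (n + k + 1)‖ * (h * ‖P n‖)
      ≤ (Real.exp T * (W + (K1 * N1 + B / (1 - θ) * δ)) + M * B / (1 - θ) * N1) * ρ := by
        apply mul_le_mul hsub hρn (by positivity) (by positivity)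
    _ ≤ (ρ * Real.exp T * (1 + K1 + B / (1 - θ)) + ρ * (M * B / (1 - θ))) * (W + δ + N1) := by
        have hE : 0 ≤ ρ * Real.exp T := by positivity
        have h1 : W + (K1 * N1 + B / (1 - θ) * δ) ≤
            (1 + K1 + B / (1 - θ)) * (W + δ + N1) := by
          have hb : 0 ≤ B / (1 - θ) := by positivity
          have q1 : 0 ≤ K1 * W := by positivity
          have q2 : 0 ≤ K1 * δ := by positivity
          have q3 : 0 ≤ B / (1 - θ) * W := by positivity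
          have q4 : 0 ≤ B / (1 - θ) * N1 := by positivity
          nlinarith
        have h2 : M * B / (1 - θ) * N1 ≤ M * B / (1 - θ) * (W + δ + N1) := by
          apply mul_le_mul_of_nonneg_left _ (by positivity)
          linarith
        calc (Real.exp T * (W + (K1 * N1 + B / (1 - θ) * δ)) + M * B / (1 - θ) * N1) * ρ
            = ρ * Real.exp T * (W + (K1 * N1 + B / (1 - θ) * δ)) +
                ρ * (M * B / (1 - θ) * N1) := by ring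
          _ ≤ ρ * Real.exp T * ((1 + K1 + B / (1 - θ)) * (W + δ + N1)) +
                ρ * (M * B / (1 - θ) * (W + δ + N1)) :=
              add_le_add (mul_le_mul_of_nonneg_left h1 hE) (mul_le_mul_of_nonneg_left h2 hρ)
          _ = _ := by ring

end Pool.Agent.H35.EX
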