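import Pool.Agent.H35.EX.Dist
import Pool.Agent.H35.EX.ShadB
import Pool.Agent.H35.EX.ShadW

/-!
# Module Shad: the position of perturbed orbits

PROOF. `R` from `dist_abs`, `ρ1`, `C1` from `shad_bound` with the constant `Kb`. `‖∑' ξ k / P (k+1)‖ ≤ S :=
M B / (1 - θ)` (`1 / ‖P (k+1)‖ ≤ B θ ^ (k+1)`), so `‖κ‖ ≤ Kb + S` for
`κ = κ0 + ∑' k, ξ k / P (k+1)`. Let `ρ0 = min ρ1 (R / (2 (Kb + S + 1)))`, `D = max C1 (2 (Kb + S))`, `Q` from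
`shad_cmp` with `ρ = ρ0`. Eventually in `τ`: `0 < h`, `h ‖P N‖ ≤ ρ0`, `‖u - x 0‖ ≤ Kb h` (`hu`, `‖κ0‖ < Kb`), the
estimate `hF` with `δ ≤ 1` given. `shad_bound` gives the first claim and the bounds for `F^[i] u`; `dist_abs`
for `X = h κ P N` (`‖X‖ ≤ ρ0 ‖κ‖ < R`, `x 0 + X / P N = x 0 + h κ`) gives
`‖f^[i] (x 0 + h κ) - x i‖ ≤ 2 ‖κ‖ h ‖P i‖ ≤ D h ‖P i‖`. `shad_cmp`:
`‖F^[N] u - f^[N] (x 0 + h κ)‖ ≤ Q (‖(u - x 0) / h - κ0‖ + δ + (N + 1) θ ^ N)`, because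
`(u 0 - y 0) / h + ∑' = (u - x 0) / h - κ + ∑' = (u - x 0) / h - κ0`. The right hand side tends to `Q δ`
(`hu`, `hN`, `n θ ^ n → 0`: `tendsto_self_mul_const_pow_of_lt_one`), `δ > 0` arbitrary.
-/

set_option autoImplicit false

open Finset Filter Topology Metric

namespace Pool.Agent.H35.EX

/-- inverse bound for the derivatives of the iterates -/
private theorem shad_P {f : ℂ → ℂ} {x m P : ℕ → ℂ} {ε A c0 B θ : ℝ}
    (hO : Orb1 f x m P ε A c0 B θ) (n : ℕ) :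
    0 < ‖P n‖ ∧ 1 / ‖P n‖ ≤ B * θ ^ n := by
  have h1 := hO.hB n 0 (Nat.zero_le n)
  rw [hO.hP0, norm_one, Nat.sub_zero] at h1
  have h2 : 0 < ‖P n‖ := by
    rcases (norm_nonneg (P n)).eq_or_lt with h | h
    · rw [← h, mul_zero] at h1
      linarith
    · exact h
  refine ⟨h2, ?_⟩
  rw [div_le_iff₀ h2]
  exact h1

/-- bound for the series of the perturbations -/
private theorem shad_S {f : ℂ → ℂ} {x m P ξ : ℕ → ℂ} {ε A c0 B θ M : ℝ}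
    (hC : Cst ε A c0 B θ) (hM : 0 ≤ M)
    (hO : Orb1 f x m P ε A c0 B θ) (hξ : ∀ i, ‖ξ i‖ ≤ M) :
    ‖∑' k, ξ k / P (k + 1)‖ ≤ M * B / (1 - θ) := by
  have hθ0 := hC.hθ0
  have hθ := hC.hθ
  have hB := hC.hB
  have h1 : ∀ k, ‖ξ k / P (k + 1)‖ ≤ M * B * θ * θ ^ k := by
    intro k
    obtain ⟨h2, h3⟩ := shad_P hO (k + 1)
    rw [norm_div, div_eq_mul_one_div]
    calc ‖ξ k‖ * (1 / ‖P (k + 1)‖) ≤ M * (B * θ ^ (k + 1)) :=
          mul_le_mul (hξ k) h3 (by positivity) hM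
      _ = M * B * θ * θ ^ k := by ring
  have h2 := (hasSum_geometric_of_lt_one hθ0.le hθ).mul_left (M * B * θ)
  have h3 := tsum_of_norm_bounded h2 h1
  refine h3.trans ?_
  rw [div_eq_mul_inv]
  apply mul_le_mul_of_nonneg_right _ (inv_nonneg.2 (by linarith))
  calc M * B * θ ≤ M * B * 1 := mul_le_mul_of_nonneg_left hθ.le (by positivity)
    _ = M * B := mul_one _

theorem shad {ε A c0 B θ : ℝ} (hC : Cst ε A c0 B θ) {L M Kb : ℝ} (hL : 0 ≤ L) (hM : 0 ≤ M)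
    (hK : 0 ≤ Kb) :
    ∃ ρ0 : ℝ, 0 < ρ0 ∧ ∀ (T : Type) (l : Filter T) (f : ℂ → ℂ) (x m P ξ : ℕ → ℂ)
      (F : T → ℂ → ℂ) (h : T → ℝ) (N : T → ℕ) (u : T → ℂ) (κ0 : ℂ),
      Orb1 f x m P ε A c0 B θ → (∀ i, ‖ξ i‖ ≤ M) → ‖κ0‖ < Kb → (∀ᶠ τ in l, 0 < h τ) →
      Tendsto N l atTop → (∀ᶠ τ in l, h τ * ‖P (N τ)‖ ≤ ρ0) →
      (∀ δ : ℝ, 0 < δ → ∀ᶠ τ in l, ∀ i, ∀ a ∈ ball (x i) ε,
        ‖F τ a - f a - h τ * ξ i‖ ≤ h τ * (δ + L * ‖a - x i‖)) →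
      Tendsto (fun τ => (u τ - x 0) / (h τ : ℂ)) l (𝓝 κ0) →
      (∀ᶠ τ in l, ∀ i ≤ N τ, (F τ)^[i] (u τ) ∈ ball (x i) ε) ∧
      Tendsto (fun τ => (F τ)^[N τ] (u τ) -
        f^[N τ] (x 0 + h τ * (κ0 + ∑' k, ξ k / P (k + 1)))) l (𝓝 0) := by
  obtain ⟨R, hR, hdist⟩ := dist_abs hC
  obtain ⟨ρ1, C1, hρ1, hC1, hbound⟩ := shad_bound hC hL hM hK
  have hθ0 := hC.hθ0
  have hθ := hC.hθ
  have hBp := hC.hB
  obtain ⟨S, hS⟩ : ∃ S : ℝ, S = M * B / (1 - θ) := ⟨_, rfl⟩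
  have hS0 : 0 ≤ S := by
    rw [hS]
    exact div_nonneg (by positivity) (by linarith)
  obtain ⟨ρ0, hρ0⟩ : ∃ ρ0 : ℝ, ρ0 = min ρ1 (R / (2 * (Kb + S + 1))) := ⟨_, rfl⟩
  have hρ0p : 0 < ρ0 := by
    rw [hρ0]
    exact lt_min hρ1 (by positivity)
  have hρ0R : ρ0 * (Kb + S) < R := by
    have h1 : ρ0 ≤ R / (2 * (Kb + S + 1)) := by rw [hρ0]; exact min_le_right _ _
    rw [le_div_iff₀ (by positivity)] at h1
    nlinarith
  obtain ⟨D, hD⟩ : ∃ D : ℝ, D = max C1 (2 * (Kb + S)) := ⟨_, rfl⟩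
  have hDC : C1 ≤ D := by rw [hD]; exact le_max_left _ _
  have hDK : 2 * (Kb + S) ≤ D := by rw [hD]; exact le_max_right _ _
  have hD0 : 0 ≤ D := hC1.le.trans hDC
  obtain ⟨Q, hQ, hcmp⟩ := shad_cmp hC hL hM hD0 hρ0p.le
  refine ⟨ρ0, hρ0p, fun T l f x m P ξ F h N u κ0 hO hξ hκ0 hh hN hρ hF hu => ?_⟩
  have hser := shad_S hC hM hO hξ
  rw [← hS] at hser
  obtain ⟨s, hs⟩ : ∃ s : ℂ, s = ∑' k, ξ k / P (k + 1) := ⟨_, rfl⟩
  rw [← hs] at hser ⊢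
  have hκ : ‖κ0 + s‖ ≤ Kb + S := (norm_add_le _ _).trans (add_le_add hκ0.le hser)
  -- the start is close
  have hstart : ∀ᶠ τ in l, ‖u τ - x 0‖ ≤ Kb * h τ := by
    have h1 : ∀ᶠ τ in l, ‖(u τ - x 0) / (h τ : ℂ)‖ < Kb :=
      hu.norm.eventually (gt_mem_nhds hκ0)
    filter_upwards [h1, hh] with τ h2 h3
    rw [norm_div, Complex.norm_real, Real.norm_eq_abs, abs_of_pos h3, div_lt_iff₀ h3] at h2
    exact h2.le
  -- the a priori bound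
  have hap : ∀ᶠ τ in l, ∀ i ≤ N τ, (F τ)^[i] (u τ) ∈ ball (x i) ε ∧
      ‖(F τ)^[i] (u τ) - x i‖ ≤ C1 * h τ * ‖P i‖ := by
    filter_upwards [hstart, hh, hρ, hF 1 one_pos] with τ h1 h2 h3 h4
    refine hbound f x m P ξ hO hξ (F τ) (h τ) (N τ) (u τ) h2 (h3.trans ?_) h1
      fun i _ a ha => h4 i a ha
    rw [hρ0]; exact min_le_left _ _
  refine ⟨hap.mono fun τ h1 i hi => (h1 i hi).1, ?_⟩
  -- the comparison
  have hcomp : ∀ δ : ℝ, 0 < δ → ∀ᶠ τ in l,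
      ‖(F τ)^[N τ] (u τ) - f^[N τ] (x 0 + h τ * (κ0 + s))‖ ≤
        Q * (‖(u τ - x 0) / (h τ : ℂ) - κ0‖ + δ + ((N τ : ℝ) + 1) * θ ^ (N τ)) := by
    intro δ hδ
    filter_upwards [hap, hh, hρ, hF δ hδ] with τ h1 h2 h3 h4
    have hPN := (shad_P hO (N τ)).1
    have hPN0 : P (N τ) ≠ 0 := norm_pos_iff.1 hPN
    have hhc : (h τ : ℂ) ≠ 0 := by exact_mod_cast h2.ne'
    obtain ⟨X, hX⟩ : ∃ X : ℂ, X = h τ * (κ0 + s) * P (N τ) := ⟨_, rfl⟩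
    have hXn : ‖X‖ = h τ * ‖P (N τ)‖ * ‖κ0 + s‖ := by
      rw [hX, norm_mul, norm_mul, Complex.norm_real, Real.norm_eq_abs, abs_of_pos h2]
      ring
    have hXb : X ∈ ball (0 : ℂ) R := by
      rw [mem_ball_zero_iff, hXn]
      calc h τ * ‖P (N τ)‖ * ‖κ0 + s‖ ≤ ρ0 * (Kb + S) :=
            mul_le_mul h3 hκ (norm_nonneg _) hρ0p.le
        _ < R := hρ0R
    have hXP : x 0 + X / P (N τ) = x 0 + h τ * (κ0 + s) := by
      rw [hX, mul_div_cancel_right₀ _ hPN0]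
    have h5 := (hdist f x m P hO (N τ)).1 X hXb
    rw [hXP] at h5
    have h6 := hcmp f x m P ξ hO hξ (F τ) (h τ) δ (N τ) (fun i => (F τ)^[i] (u τ))
      (fun i => f^[i] (x 0 + h τ * (κ0 + s))) h2 hδ.le h3
      (fun i _ => (Function.iterate_succ_apply' (F τ) i (u τ)).symm)
      (fun i _ => (Function.iterate_succ_apply' f i _).symm)
      (fun i hi => ⟨(h1 i hi).1, (h1 i hi).2.trans ?_⟩)
      (fun i hi => ⟨(h5 i hi).2, (h5 i hi).1.trans ?_⟩)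
      (fun i hi => h4 i _ (h1 i hi.le).1)
    · refine h6.trans (le_of_eq ?_)
      have h7 : ((F τ)^[0] (u τ) - f^[0] (x 0 + h τ * (κ0 + s))) / (h τ : ℂ)
          + ∑' k, ξ k / P (k + 1) = (u τ - x 0) / (h τ : ℂ) - κ0 := by
        rw [← hs, Function.iterate_zero, Function.iterate_zero, id, id]
        field_simp
        ring
      have h8 : ‖((F τ)^[0] (u τ) - f^[0] (x 0 + h τ * (κ0 + s))) / (h τ : ℂ)
          + ∑' k, ξ k / P (k + 1)‖ = ‖(u τ - x 0) / (h τ : ℂ) - κ0‖ := by rw [h7]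
      rw [← h8]
    · have h7 : 0 ≤ h τ * ‖P i‖ := by positivity
      nlinarith
    · rw [hXn]
      have h7 : 2 * (h τ * ‖P (N τ)‖ * ‖κ0 + s‖) * ‖P i‖ / ‖P (N τ)‖
          = 2 * ‖κ0 + s‖ * (h τ * ‖P i‖) := by
        field_simp
      rw [h7, mul_assoc D]
      apply mul_le_mul_of_nonneg_right _ (by positivity)
      linarith
  rw [tendsto_zero_iff_norm_tendsto_zero, Metric.tendsto_nhds]
  intro η hη
  obtain ⟨δ, hδ⟩ : ∃ δ : ℝ, δ = η / (4 * (Q + 1)) := ⟨_, rfl⟩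
  have hδ0 : 0 < δ := by rw [hδ]; positivity
  have hδη : δ * (4 * (Q + 1)) = η := by rw [hδ]; field_simp
  have hnth : Tendsto (fun n : ℕ => ((n : ℝ) + 1) * θ ^ n) atTop (𝓝 0) := by
    have h1 := tendsto_self_mul_const_pow_of_lt_one hθ0.le hθ
    have h2 := tendsto_pow_atTop_nhds_zero_of_lt_one hθ0.le hθ
    have h3 := h1.add h2
    rw [add_zero] at h3
    refine h3.congr fun n => ?_
    ring
  have h1 : ∀ᶠ τ in l, ((N τ : ℝ) + 1) * θ ^ (N τ) < δ :=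
    (hnth.comp hN).eventually (gt_mem_nhds hδ0)
  have h2 : ∀ᶠ τ in l, ‖(u τ - x 0) / (h τ : ℂ) - κ0‖ < δ := by
    have h3 : Tendsto (fun τ => ‖(u τ - x 0) / (h τ : ℂ) - κ0‖) l (𝓝 0) := by
      have h4 := (hu.sub_const κ0).norm
      rwa [sub_self, norm_zero] at h4
    exact h3.eventually (gt_mem_nhds hδ0)
  filter_upwards [h1, h2, hcomp δ hδ0] with τ h3 h4 h5
  rw [Real.dist_eq, sub_zero, abs_of_nonneg (norm_nonneg _)]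
  have h6 : Q * (‖(u τ - x 0) / (h τ : ℂ) - κ0‖ + δ + ((N τ : ℝ) + 1) * θ ^ (N τ))
      ≤ Q * (3 * δ) := mul_le_mul_of_nonneg_left (by linarith) hQ
  nlinarith

end Pool.Agent.H35.EX
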