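import Pool.Agent.H80.AJ.Area0

/-!
# Module Tail12: a point which converges to the limit cycle of a seed of type 1, 2 or 4 without landing is of type 1 or 2

PROOF: the last part of the proof of `area0` (H80/AJ/Area0.lean), from `obtain ⟨i', hi'⟩ := tyA_cl (hzc s hsc)` on, with
`hper` given, only the types 1, 2 and 4, and `hland` for all points `f^[q] z` of the cycle.
-/

set_option autoImplicit false

open Filter Topology Polynomial OnePoint Metric Set MeasureTheory

namespace Pool.Agent.H35.EX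

open Pool.Agent.H44.Fatou Pool.Agent.H32.BT Pool.Agent.H79.Par Pool.Agent.H80.AJ

theorem tail12 {P Q : Polynomial ℂ} (h : IsCoprime P Q)
    (hper : ∀ n : ℕ, 0 < n → (rat P Q)^[n] ∞ ≠ ∞) {s z : OnePoint ℂ} {m : ℕ}
    (hT : Ty12 (rat P Q) s z m ∨ Ty4 (rat P Q) s z m) {p : OnePoint ℂ} {n i N : ℕ}
    (hsp : CL (rat P Q) s p n) {x : OnePoint ℂ} (hxp : CL (rat P Q) x ((rat P Q)^[i] p) N)
    (hland : ∀ j q : ℕ, (rat P Q)^[j] x ≠ (rat P Q)^[q] z) :
    ∃ (z : OnePoint ℂ) (n : ℕ), Ty12 (rat P Q) x z n := by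
  have hfc : Continuous (rat P Q) := rat_continuous h
  have hTA : TyA (rat P Q) s z m := by
    rcases hT with (hT | hT) | hT
    · exact Or.inl hT
    · exact Or.inr (Or.inl hT)
    · exact Or.inr (Or.inr (Or.inr hT))
  obtain ⟨i', hi'⟩ := tyA_cl hTA
  have hp : p = (rat P Q)^[i'] z := cl_unique hsp hi'
  have hm0 : 0 < m := hi'.1
  have hzm : (rat P Q)^[m] z = z := by
    rcases hT with (hT | hT) | hT
    · exact hT.1.2.1
    · exact fixMult_fix hT.2.1
    · exact fixMult_fix hT.2.1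
  have hfin : ∀ i, (rat P Q)^[i] z ≠ ∞ := by
    intro i hi
    apply hper m hm0
    rw [← hi, ← Function.iterate_add_apply, Nat.add_comm, Function.iterate_add_apply, hzm]
  rw [hp, ← Function.iterate_add_apply] at hxp
  set q := i + i' with hq
  have hN : 0 < N := hxp.1
  have hxM : CL (rat P Q) x ((rat P Q)^[q] z) (m * N) := by
    have h1 := cl_mul hxp hm0
    rwa [Nat.mul_comm] at h1
  have hnl : ∀ k : ℕ, (rat P Q)^[m * N * k] x ≠ (rat P Q)^[q] z := fun k => hland _ q
  have hfm : ∀ a : ℂ, FixMult (rat P Q)^[m] z a →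
      FixMult (rat P Q)^[m * N] ((rat P Q)^[q] z) (a ^ N) := by
    intro a ha
    rw [Function.iterate_mul]
    exact fixMult_iter (fix_iter h hm0 hfin ha q) N
  refine ⟨(rat P Q)^[q] z, m * N, ?_⟩
  rcases hT with (hT | hT) | hT
  · left
    exact ⟨isSink_mul (sink_iter hfc hT.1 q) hN, hxM.2.2⟩
  · right
    refine ⟨hxM.1, ?_, hxM.2.2, hnl⟩
    have h1 := hfm 1 hT.2.1
    rwa [one_pow] at h1
  · right
    refine ⟨hxM.1, ?_, hxM.2.2, hnl⟩
    have h1 := hfm 1 hT.2.1
    rwa [one_pow] at h1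

end Pool.Agent.H35.EX
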