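import Mathlib
import Pool.Agent.H35.EX.KerB

/-!
# Module Tent: the integral of `u / (u - p)` over a disc

PROOFS. `circ_mean`: `u = ρ e^(iθ)`, `u / (u - p) dθ = (1 / i) du / (u - p)`: the left side is `(1 / I) * ∮ u in C(0, ρ),
(u - p)⁻¹` (unfold `circleIntegral`, `deriv_circleMap`), which is `2 π` for `‖p‖ < ρ`
(`circleIntegral.integral_sub_inv_of_mem_ball`) and `0` for `ρ < ‖p‖` (Cauchy:
`Complex.circleIntegral_eq_zero_of_differentiable_on_off_countable`, the integrand is holomorphic near the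
closed disc).
`tent_int`: `u / (u - p)` is integrable on balls: `‖u / (u - p)‖ ≤ r * ‖u - p‖⁻¹`, integrability of `‖u - p‖⁻¹` on balls
(compare module KerB; you may import it: Pool.Agent.H35.EX.KerB, `ker_bound`).
`tent`: polar coordinates: `Complex.integral_comp_polarCoord_symm` for `f = (ball 0 r).indicator (fun u => u / (u - p))`:
the left side is `∫ q in Ioi 0 ×ˢ Ioo (-π) π, q.1 • f (q.1 * (cos q.2 + sin q.2 * I))`, by Fubini
(`setIntegral_prod`; integrability of the polar form from `tent_int`, for example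
`integrableOn_image_iff_integrableOn_abs_det_fderiv_smul` as in the proof of
`integral_comp_polarCoord_symm`, or bound the `lintegral` with
`Complex.lintegral_comp_polarCoord_symm`) equal to `∫ ρ in Ioo 0 r, ρ * (2 π if ‖p‖ < ρ, 0 if ρ < ‖p‖) dρ` (`circ_mean`; the single value
`ρ = ‖p‖` is null) `= π (r ^ 2 - ‖p‖ ^ 2)` if `‖p‖ ≤ r`, else `0`.
Another possible proof of `tent` (no Fubini): for `‖p‖ ≥ r` mean value property for the holomorphic function; for
`‖p‖ < r` rotate. The choice is free.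
-/

set_option autoImplicit false

open MeasureTheory Metric Set

namespace Pool.Agent.H35.EX

theorem circ_mean {p : ℂ} {ρ : ℝ} (hρ : 0 < ρ) (hp : ‖p‖ ≠ ρ) :
    ∫ θ in Ioo (-Real.pi) Real.pi, (ρ * Complex.exp (θ * Complex.I)) /
      (ρ * Complex.exp (θ * Complex.I) - p) = if ‖p‖ < ρ then 2 * (Real.pi : ℂ) else 0 := by
  obtain ⟨F, hF⟩ : ∃ F : ℝ → ℂ, F = fun θ : ℝ => (ρ * Complex.exp (θ * Complex.I)) /
      (ρ * Complex.exp (θ * Complex.I) - p) := ⟨_, rfl⟩
  have hgoal : ∫ θ in Ioo (-Real.pi) Real.pi, (ρ * Complex.exp (θ * Complex.I)) /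
      (ρ * Complex.exp (θ * Complex.I) - p) = ∫ θ in Ioo (-Real.pi) Real.pi, F θ := by
    rw [hF]
  rw [hgoal]
  have hper : Function.Periodic F (2 * Real.pi) := by
    intro θ
    simp only [hF]
    have : Complex.exp (((θ + 2 * Real.pi : ℝ) : ℂ) * Complex.I) = Complex.exp (θ * Complex.I) := by
      push_cast
      rw [add_mul, Complex.exp_add, Complex.exp_two_pi_mul_I, mul_one]
    rw [this]
  have h1 : ∫ θ in Ioo (-Real.pi) Real.pi, F θ = ∫ θ in (0:ℝ)..(2 * Real.pi), F θ := by
    rw [← integral_Ioc_eq_integral_Ioo,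
      ← intervalIntegral.integral_of_le (by linarith [Real.pi_pos])]
    have h2 := hper.intervalIntegral_add_eq (-Real.pi) 0
    have e1 : -Real.pi + 2 * Real.pi = Real.pi := by ring
    rw [e1, zero_add] at h2
    exact h2
  rw [h1]
  have h3 : (∮ z in C(0, ρ), (z - p)⁻¹) = Complex.I * ∫ θ in (0:ℝ)..(2 * Real.pi), F θ := by
    rw [circleIntegral, ← intervalIntegral.integral_const_mul]
    refine intervalIntegral.integral_congr fun θ _ => ?_
    simp only [hF, deriv_circleMap, circleMap, zero_add, smul_eq_mul]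
    rw [div_eq_mul_inv]
    ring
  have hI : Complex.I ≠ 0 := Complex.I_ne_zero
  split_ifs with h
  · have h4 := circleIntegral.integral_sub_inv_of_mem_ball (c := 0) (w := p) (R := ρ)
      (by simpa using h)
    rw [h3] at h4
    apply mul_left_cancel₀ hI
    rw [h4]
    ring
  · have h5 : ρ < ‖p‖ := lt_of_le_of_ne (not_lt.1 h) (Ne.symm hp)
    have h6 : ∀ z ∈ closedBall (0 : ℂ) ρ, z - p ≠ 0 := by
      intro z hz hzp
      rw [mem_closedBall, dist_zero_right] at hz
      have : z = p := sub_eq_zero.1 hzp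
      rw [this] at hz
      linarith
    have h4 : (∮ z in C(0, ρ), (z - p)⁻¹) = 0 := by
      refine Complex.circleIntegral_eq_zero_of_differentiable_on_off_countable hρ.le
        Set.countable_empty ?_ ?_
      · exact ContinuousOn.inv₀ (by fun_prop) h6
      · intro z hz
        have hz' : z - p ≠ 0 := h6 z (ball_subset_closedBall hz.1)
        exact DifferentiableAt.inv (by fun_prop) hz'
    rw [h3] at h4
    exact (mul_eq_zero.1 h4).resolve_left hI

theorem tent_meas (p : ℂ) : Measurable (fun u : ℂ => u / (u - p)) :=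
  measurable_id.div (measurable_id.sub_const p)

theorem tent_int (p : ℂ) (r : ℝ) : IntegrableOn (fun u : ℂ => u / (u - p)) (ball 0 r) := by
  obtain ⟨C, hC, hb⟩ := ker_bound 0 r
  refine ⟨(tent_meas p).aestronglyMeasurable, ?_⟩
  rw [HasFiniteIntegral]
  have h1 : ∫⁻ u in ball (0 : ℂ) r, ‖u / (u - p)‖ₑ ≤
      ∫⁻ u in ball (0 : ℂ) r, ENNReal.ofReal r * ENNReal.ofReal (‖u - p‖⁻¹) := by
    refine setLIntegral_mono' measurableSet_ball fun u hu => ?_
    rw [mem_ball, dist_zero_right] at hu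
    have hr : 0 ≤ r := (norm_nonneg u).trans hu.le
    rw [← ENNReal.ofReal_mul hr, ← ofReal_norm]
    refine ENNReal.ofReal_le_ofReal ?_
    rw [norm_div, div_eq_mul_inv]
    exact mul_le_mul_of_nonneg_right hu.le (by positivity)
  refine lt_of_le_of_lt h1 ?_
  rw [lintegral_const_mul' _ _ ENNReal.ofReal_ne_top]
  refine lt_of_le_of_lt (mul_le_mul_right (hb p) _) ?_
  exact ENNReal.mul_lt_top ENNReal.ofReal_lt_top (lt_top_iff_ne_top.2 hC)

theorem tent (p : ℂ) {r : ℝ} (hr : 0 < r) :
    ∫ u in ball (0 : ℂ) r, u / (u - p) = ((Real.pi * max 0 (r ^ 2 - ‖p‖ ^ 2) : ℝ) : ℂ) := by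
  obtain ⟨F, hF⟩ : ∃ F : ℂ → ℂ, F = (ball (0 : ℂ) r).indicator (fun u : ℂ => u / (u - p)) :=
    ⟨_, rfl⟩
  have hFm : Measurable F := by
    rw [hF]
    exact (tent_meas p).indicator measurableSet_ball
  have hFi : Integrable F := by
    rw [hF]
    exact (integrable_indicator_iff measurableSet_ball).2 (tent_int p r)
  have h1 : ∫ u in ball (0 : ℂ) r, u / (u - p) = ∫ u, F u := by
    rw [hF, integral_indicator measurableSet_ball]
  rw [h1, ← Complex.integral_comp_polarCoord_symm]
  have hsm : Measurable (fun q : ℝ × ℝ => q.1 • F (Complex.polarCoord.symm q)) := by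
    have h2 : Measurable (fun q : ℝ × ℝ => Complex.polarCoord.symm q) := by
      have : Continuous (fun q : ℝ × ℝ => ((q.1 : ℂ) * (Real.cos q.2 + Real.sin q.2 * Complex.I))) := by
        fun_prop
      have heq : (fun q : ℝ × ℝ => Complex.polarCoord.symm q) =
          fun q : ℝ × ℝ => ((q.1 : ℂ) * (Real.cos q.2 + Real.sin q.2 * Complex.I)) := by
        funext q
        rw [Complex.polarCoord_symm_apply]
      rw [heq]
      exact this.measurable
    exact measurable_fst.smul (hFm.comp h2)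
  have htgt : polarCoord.target = Ioi (0 : ℝ) ×ˢ Ioo (-Real.pi) Real.pi := rfl
  have hint : IntegrableOn (fun q : ℝ × ℝ => q.1 • F (Complex.polarCoord.symm q))
      (Ioi (0 : ℝ) ×ˢ Ioo (-Real.pi) Real.pi) := by
    refine ⟨hsm.aestronglyMeasurable, ?_⟩
    rw [HasFiniteIntegral]
    have h3 : ∫⁻ q in Ioi (0 : ℝ) ×ˢ Ioo (-Real.pi) Real.pi,
        ‖q.1 • F (Complex.polarCoord.symm q)‖ₑ = ∫⁻ u, ‖F u‖ₑ := by
      rw [← Complex.lintegral_comp_polarCoord_symm, htgt]
      refine setLIntegral_congr_fun (measurableSet_Ioi.prod measurableSet_Ioo) ?_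
      intro q hq
      simp only
      rw [enorm_smul]
      congr 1
      exact Real.enorm_of_nonneg (le_of_lt hq.1)
    rw [h3]
    exact hFi.2
  rw [htgt, Measure.volume_eq_prod, setIntegral_prod _ hint]
  have h4 : ∀ ρ ∈ Ioi (0 : ℝ), ρ ≠ ‖p‖ →
      ∫ θ in Ioo (-Real.pi) Real.pi, (ρ, θ).1 • F (Complex.polarCoord.symm (ρ, θ)) =
        (((Ioo ‖p‖ r).indicator (fun ρ => 2 * Real.pi * ρ) ρ : ℝ) : ℂ) := by
    intro ρ hρ hρp
    have hρ0 : 0 < ρ := hρ
    have h5 : ∀ θ : ℝ, Complex.polarCoord.symm (ρ, θ) = ρ * Complex.exp (θ * Complex.I) := by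
      intro θ
      rw [Complex.polarCoord_symm_apply, Complex.exp_mul_I]
      simp
    simp only [h5]
    by_cases hρr : ρ < r
    · have h6 : ∀ θ : ℝ, ρ • F (ρ * Complex.exp (θ * Complex.I)) =
          (ρ : ℂ) * ((ρ * Complex.exp (θ * Complex.I)) / (ρ * Complex.exp (θ * Complex.I) - p)) := by
        intro θ
        rw [hF, indicator_of_mem, Complex.real_smul]
        rw [mem_ball, dist_zero_right, norm_mul, Complex.norm_exp_ofReal_mul_I, mul_one,
          Complex.norm_real, Real.norm_of_nonneg hρ0.le]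
        exact hρr
      simp only [h6]
      rw [integral_const_mul, circ_mean hρ0 (Ne.symm hρp)]
      by_cases hpρ : ‖p‖ < ρ
      · rw [if_pos hpρ, indicator_of_mem (show ρ ∈ Ioo ‖p‖ r from ⟨hpρ, hρr⟩)]
        push_cast
        ring
      · rw [if_neg hpρ, indicator_of_notMem (fun h => hpρ h.1)]
        simp
    · have h6 : ∀ θ : ℝ, ρ • F (ρ * Complex.exp (θ * Complex.I)) = 0 := by
        intro θ
        rw [hF, indicator_of_notMem, smul_zero]
        rw [mem_ball, dist_zero_right, norm_mul, Complex.norm_exp_ofReal_mul_I, mul_one,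
          Complex.norm_real, Real.norm_of_nonneg hρ0.le]
        exact hρr
      simp only [h6]
      rw [integral_zero, indicator_of_notMem (fun h => hρr h.2)]
      simp
  have h7 : ∫ ρ in Ioi (0 : ℝ), ∫ θ in Ioo (-Real.pi) Real.pi,
      (ρ, θ).1 • F (Complex.polarCoord.symm (ρ, θ)) =
      ∫ ρ in Ioi (0 : ℝ), (((Ioo ‖p‖ r).indicator (fun ρ => 2 * Real.pi * ρ) ρ : ℝ) : ℂ) := by
    refine setIntegral_congr_ae measurableSet_Ioi ?_
    have h8 : ∀ᵐ ρ : ℝ, ρ ≠ ‖p‖ := by
      rw [ae_iff]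
      simp
    filter_upwards [h8] with ρ hρ hρ0
    exact h4 ρ hρ0 hρ
  rw [h7, integral_complex_ofReal, setIntegral_indicator measurableSet_Ioo]
  congr 1
  have h9 : Ioi (0 : ℝ) ∩ Ioo ‖p‖ r = Ioo ‖p‖ r := by
    refine inter_eq_right.2 fun x hx => ?_
    exact lt_of_le_of_lt (norm_nonneg p) hx.1
  rw [h9]
  rcases le_or_gt ‖p‖ r with h | h
  · rw [← integral_Ioc_eq_integral_Ioo, ← intervalIntegral.integral_of_le h,
      intervalIntegral.integral_const_mul, integral_id, max_eq_right]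
    · ring
    · have := mul_self_le_mul_self (norm_nonneg p) h
      nlinarith
  · rw [Ioo_eq_empty (not_lt.2 h.le), max_eq_left]
    · simp
    · have := mul_self_le_mul_self hr.le h.le
      nlinarith

end Pool.Agent.H35.EX
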