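import Pool.Agent.H35.EX.Defs

/-!
# Module Unif: uniform differentiability near an expanding set

PROOF. `K` is compact and `z ↦ ev v0.2 z` is continuous without zeros on `K`, so there is `ε0 > 0` with
`ev v0.2 z ≠ 0` on `cthickening (2 ε0) K` (`IsCompact.exists_cthickening_subset_open` for the open set
`{z | ev v0.2 z ≠ 0}`), a compact set `K'`. On it `g' z = wv v0 z / ev v0.2 z ^ 2` is differentiable
(polynomials, `ev` and `dev` are finite sums) with continuous derivative, so the derivative is bounded by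
some `A ≥ 0` on `K'`; `ball x ε ⊆ K'` for `x ∈ K`, `ε = ε0`, is convex, so `‖g' w - g' x‖ ≤ A ‖w - x‖` for
`w ∈ ball x ε` (`Convex.norm_image_sub_le_of_norm_hasDerivWithin_le`). For `a, b ∈ ball x ε` apply the mean
value inequality to `w ↦ it v0 1 w - g' x * w` on the convex set `closedBall x (max ‖a - x‖ ‖b - x‖)`, whose
derivative `g' w - g' x` (`tr_hasDerivAt_ev`; `it v0 1 w = ev v0.1 w / ev v0.2 w` is `rfl`) has norm at most
`A max ≤ A (‖a - x‖ + ‖b - x‖)`.
(Alternative to the second derivative: a continuously differentiable function is Lipschitz on compact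
convex sets.) If `K = ∅` everything is trivial.
-/

set_option autoImplicit false

open Filter Topology Polynomial Metric Set

namespace Pool.Agent.H35.EX

open Pool.Agent.H44.Fatou Pool.Agent.H32.BT Pool.Agent.H79.Eul Pool.Agent.H79.Par
open Pool.Agent.H35.RL

theorem ev_differentiable {d : ℕ} (p : Fin (d + 1) → ℂ) : Differentiable ℂ (ev p) := by
  unfold ev
  fun_prop

theorem dev_differentiable {d : ℕ} (p : Fin (d + 1) → ℂ) : Differentiable ℂ (dev p) := by
  unfold dev
  fun_prop

theorem wv_differentiable {d : ℕ} (v : E d) : Differentiable ℂ (wv v) := by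
  have h1 := ev_differentiable v.1
  have h2 := ev_differentiable v.2
  have h3 := dev_differentiable v.1
  have h4 := dev_differentiable v.2
  unfold wv
  fun_prop

theorem unif {d : ℕ} {v0 : E d} {K : Set ℂ} (hK : ExpK v0 K) :
    ∃ ε A : ℝ, 0 < ε ∧ 0 ≤ A ∧ (∀ x ∈ K, ∀ z ∈ ball x ε, ev v0.2 z ≠ 0) ∧
      ∀ x ∈ K, ∀ a ∈ ball x ε, ∀ b ∈ ball x ε,
        ‖it v0 1 a - it v0 1 b - wv v0 x / ev v0.2 x ^ 2 * (a - b)‖ ≤
          A * (‖a - x‖ + ‖b - x‖) * ‖a - b‖ := by
  have hUo : IsOpen {z : ℂ | ev v0.2 z ≠ 0} :=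
    isOpen_ne_fun (ev_differentiable v0.2).continuous continuous_const
  obtain ⟨ε, hε, hsub⟩ := hK.compact.exists_cthickening_subset_open hUo
    (fun z hz => hK.den z hz)
  have hcomp : IsCompact (cthickening ε K) := hK.compact.cthickening
  set G : ℂ → ℂ := fun z => wv v0 z / ev v0.2 z ^ 2 with hG
  have hGd : DifferentiableOn ℂ G {z : ℂ | ev v0.2 z ≠ 0} := by
    intro z hz
    exact ((wv_differentiable v0 z).div ((ev_differentiable v0.2 z).pow 2)
      (pow_ne_zero 2 hz)).differentiableWithinAt
  have hGc : ContinuousOn (deriv G) (cthickening ε K) :=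
    ((hGd.deriv hUo).continuousOn).mono hsub
  obtain ⟨A, hA⟩ := hcomp.exists_bound_of_continuousOn hGc
  have hball : ∀ x ∈ K, ball x ε ⊆ cthickening ε K := fun x hx =>
    ball_subset_closedBall.trans (closedBall_subset_cthickening hx ε)
  refine ⟨ε, max A 0, hε, le_max_right _ _, fun x hx z hz => hsub (hball x hx hz), ?_⟩
  intro x hx a ha b hb
  have step1 : ∀ w ∈ ball x ε, ‖G w - G x‖ ≤ max A 0 * ‖w - x‖ := by
    intro w hw
    apply (convex_ball x ε).norm_image_sub_le_of_norm_deriv_le (𝕜 := ℂ) (f := G)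
    · intro z hz
      exact hGd.differentiableAt (hUo.mem_nhds (hsub (hball x hx hz)))
    · intro z hz
      exact (hA z (hball x hx hz)).trans (le_max_left _ _)
    · exact mem_ball_self hε
    · exact hw
  set r : ℝ := max ‖a - x‖ ‖b - x‖ with hr
  have hrε : r < ε := max_lt (by rw [← dist_eq_norm]; exact ha) (by rw [← dist_eq_norm]; exact hb)
  have hrsub : closedBall x r ⊆ ball x ε := closedBall_subset_ball hrε
  have step2 : ‖(it v0 1 a - G x * a) - (it v0 1 b - G x * b)‖ ≤ (max A 0 * r) * ‖a - b‖ := by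
    apply (convex_closedBall x r).norm_image_sub_le_of_norm_hasDerivWithin_le (𝕜 := ℂ)
      (f := fun w => it v0 1 w - G x * w) (f' := fun w => G w - G x)
    · intro w hw
      have h1 : HasDerivAt (fun z => ev v0.1 z / ev v0.2 z) (wv v0 w / ev v0.2 w ^ 2) w :=
        tr_hasDerivAt_ev v0 w (hsub (hball x hx (hrsub hw)))
      have h2 : HasDerivAt (fun w => G x * w) (G x * 1) w := (hasDerivAt_id w).const_mul (G x)
      rw [mul_one] at h2
      exact (h1.sub h2).hasDerivWithinAt
    · intro w hw
      refine (step1 w (hrsub hw)).trans ?_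
      apply mul_le_mul_of_nonneg_left _ (le_max_right _ _)
      rw [← dist_eq_norm]
      exact hw
    · rw [mem_closedBall, dist_eq_norm]
      exact le_max_right _ _
    · rw [mem_closedBall, dist_eq_norm]
      exact le_max_left _ _
  have h3 : it v0 1 a - it v0 1 b - wv v0 x / ev v0.2 x ^ 2 * (a - b) =
      (it v0 1 a - G x * a) - (it v0 1 b - G x * b) := by
    rw [hG]
    ring
  rw [h3]
  refine step2.trans ?_
  apply mul_le_mul_of_nonneg_right _ (norm_nonneg _)
  apply mul_le_mul_of_nonneg_left _ (le_max_right _ _)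
  exact max_le (le_add_of_nonneg_right (norm_nonneg _)) (le_add_of_nonneg_left (norm_nonneg _))

end Pool.Agent.H35.EX
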